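import Pool.Agent.Helper86.EP.Defs

/-! The closure relation (module CLOSURE). -/

namespace EP
open Polynomial

theorem w_sq : CC.w ^ 2 = CC.w - 1 := CC.w_sq

theorem nu_eval (L : ℕ) (z : ℂ) : aeval z (nu L) = (1 + z) ^ (2 * L) * (z ^ 2 + z + 1) := by
  simp [nu]

theorem nu_prod (L : ℕ) (z : ℂ) :
    aeval z (nu L) * aeval (CC.w ^ 2 * z) (nu L) * aeval (-(CC.w * z)) (nu L) =
      (1 + z ^ 3) ^ (2 * L) * (1 - z ^ 3) ^ 2 := by
  have hw := w_sq
  have h1 : (1 + z) * (1 + CC.w ^ 2 * z) * (1 + -(CC.w * z)) = 1 + z ^ 3 := by grind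
  have h2 : (z ^ 2 + z + 1) * ((CC.w ^ 2 * z) ^ 2 + CC.w ^ 2 * z + 1) *
      ((-(CC.w * z)) ^ 2 + -(CC.w * z) + 1) = (1 - z ^ 3) ^ 2 := by grind
  have h3 : (1 + z ^ 3) ^ (2 * L) = (1 + z) ^ (2 * L) * (1 + CC.w ^ 2 * z) ^ (2 * L) *
      (1 + -(CC.w * z)) ^ (2 * L) := by rw [← h1, mul_pow, mul_pow]
  rw [nu_eval, nu_eval, nu_eval, h3, ← h2]
  ring

theorem nu_rot (L : ℕ) (z : ℂ) :
    aeval (CC.w * z) (nu L) * aeval ((1 - CC.w) * z) (nu L) =
      (1 + z + z ^ 2) ^ (2 * L) * (z + 1) * (z ^ 3 + 1) := by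
  have hw := w_sq
  have h1 : (1 + CC.w * z) * (1 + (1 - CC.w) * z) = 1 + z + z ^ 2 := by grind
  have h2 : ((CC.w * z) ^ 2 + CC.w * z + 1) * (((1 - CC.w) * z) ^ 2 + (1 - CC.w) * z + 1) =
      (z + 1) * (z ^ 3 + 1) := by grind
  have h3 : (1 + z + z ^ 2) ^ (2 * L) = (1 + CC.w * z) ^ (2 * L) * (1 + (1 - CC.w) * z) ^ (2 * L) := by
    rw [← h1, mul_pow]
  rw [nu_eval, nu_eval, h3, mul_assoc ((1 + CC.w * z) ^ (2 * L) * (1 + (1 - CC.w) * z) ^ (2 * L)), ← h2]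
  ring

theorem rot_eval (c : ℂ) (p : ℝ[X]) (z : ℂ) : (rot c p).eval z = aeval (c * z) p := by
  unfold rot
  rw [eval_comp, eval_map_algebraMap]
  simp

theorem Yp_eval (L : ℕ) (p : ℝ[X]) (z : ℂ) : (Yp L p).eval z =
    aeval (CC.w * z) p * aeval ((1 - CC.w) * z) p -
      aeval (CC.w * z) (nu L) * aeval ((1 - CC.w) * z) (nu L) := by
  unfold Yp
  rw [eval_sub, eval_mul, eval_mul, rot_eval, rot_eval, rot_eval, rot_eval]

theorem rot_rot (c d : ℂ) (p : ℝ[X]) : (rot c p).comp (C d * X) = rot (c * d) p := by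
  unfold rot
  rw [comp_assoc]
  congr 1
  rw [mul_comp, C_comp, X_comp, C_mul]
  ring

theorem rot_deg (c : ℂ) (p : ℝ[X]) : (rot c p).natDegree ≤ p.natDegree := by
  unfold rot
  refine natDegree_comp_le.trans ?_
  have h1 : (C c * X : ℂ[X]).natDegree ≤ 1 := (natDegree_C_mul_le _ _).trans natDegree_X_le
  have h2 : (p.map (algebraMap ℝ ℂ)).natDegree ≤ p.natDegree := natDegree_map_le
  calc (p.map (algebraMap ℝ ℂ)).natDegree * (C c * X : ℂ[X]).natDegree ≤ p.natDegree * 1 :=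
        Nat.mul_le_mul h2 h1
    _ = _ := by rw [mul_one]

theorem nu_deg (L : ℕ) : (nu L).natDegree ≤ 2 * L + 2 := by
  unfold nu
  have h1 : (1 + X : ℝ[X]).natDegree ≤ 1 := by compute_degree
  have h2 : (X ^ 2 + X + 1 : ℝ[X]).natDegree ≤ 2 := by compute_degree
  refine natDegree_mul_le.trans ?_
  have h3 := natDegree_pow_le_of_le (2 * L) h1
  omega

theorem nu_coeff_zero (L : ℕ) : (nu L).coeff 0 = 1 := by
  rw [coeff_zero_eq_eval_zero]
  simp [nu]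

/-- the closure polynomial -/
noncomputable def Cl (L : ℕ) (p : ℝ[X]) : ℂ[X] :=
  rot 1 p * rot (CC.w ^ 2) p * rot (-CC.w) p - rot 1 p * rot (CC.w ^ 2) (nu L) * rot (-CC.w) (nu L) -
  rot 1 (nu L) * rot (CC.w ^ 2) p * rot (-CC.w) (nu L) -
  rot 1 (nu L) * rot (CC.w ^ 2) (nu L) * rot (-CC.w) p +
  2 * (rot 1 (nu L) * rot (CC.w ^ 2) (nu L) * rot (-CC.w) (nu L))

theorem Cl_rot (L : ℕ) (p : ℝ[X]) : (Cl L p).comp (C (CC.w ^ 2) * X) = Cl L p := by
  have e1 : CC.w ^ 2 * CC.w ^ 2 = -CC.w := by have := w_sq; grind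
  have e2 : -CC.w * CC.w ^ 2 = 1 := by have := w_sq; grind
  unfold Cl
  simp only [add_comp, sub_comp, mul_comp, rot_rot, e1, e2, one_mul, ofNat_comp]
  ring

theorem Cl_deg (L : ℕ) (p : ℝ[X]) (h : p.natDegree ≤ 2 * L + 2) :
    (Cl L p).natDegree ≤ 3 * (2 * L + 2) := by
  have hr : ∀ c, (rot c p).natDegree ≤ 2 * L + 2 := fun c => (rot_deg c p).trans h
  have hn : ∀ c, (rot c (nu L)).natDegree ≤ 2 * L + 2 := fun c => (rot_deg c _).trans (nu_deg L)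
  have hm : ∀ a b c : ℂ[X], a.natDegree ≤ 2 * L + 2 → b.natDegree ≤ 2 * L + 2 →
      c.natDegree ≤ 2 * L + 2 → (a * b * c).natDegree ≤ 3 * (2 * L + 2) := by
    intro a b c ha hb hc
    have h1 := natDegree_mul_le (p := a * b) (q := c)
    have h2 := natDegree_mul_le (p := a) (q := b)
    omega
  have hs : ∀ a b : ℂ[X], a.natDegree ≤ 3 * (2 * L + 2) → b.natDegree ≤ 3 * (2 * L + 2) →
      (a - b).natDegree ≤ 3 * (2 * L + 2) := fun a b ha hb =>
    (natDegree_sub_le a b).trans (max_le ha hb)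
  unfold Cl
  refine (natDegree_add_le _ _).trans (max_le ?_ ?_)
  · refine hs _ _ (hs _ _ (hs _ _ ?_ ?_) ?_) ?_
    · exact hm _ _ _ (hr _) (hr _) (hr _)
    · exact hm _ _ _ (hr _) (hn _) (hn _)
    · exact hm _ _ _ (hn _) (hr _) (hn _)
    · exact hm _ _ _ (hn _) (hn _) (hr _)
  · have e2 : (2 : ℂ[X]) = C 2 := (map_ofNat C 2).symm
    rw [e2]
    exact (natDegree_C_mul_le _ _).trans (hm _ _ _ (hn _) (hn _) (hn _))

theorem conj_w : (starRingEnd ℂ) CC.w = 1 - CC.w := by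
  apply Complex.ext
  · simp [CC.w]; norm_num
  · simp [CC.w]

/-- values at conjugate points -/
theorem aeval_conj' (p : ℝ[X]) (z : ℂ) :
    aeval ((starRingEnd ℂ) z) p = (starRingEnd ℂ) (aeval z p) := aeval_conj p z

theorem atw' {L : ℕ} {q : ℝ} {p : ℝ[X]} (h : Sol L q p) :
    aeval (1 - CC.w) p = aeval (1 - CC.w) (nu L) := by
  rw [← conj_w, aeval_conj', aeval_conj', h.atw]

theorem Cl_dvd {L : ℕ} {q : ℝ} {p : ℝ[X]} (h : Sol L q p) : (X + 1) ^ (2 * L + 2) ∣ Cl L p := by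
  set N0 := (rot 1 (nu L)).comp (C (-1) * X) with hN0
  set P0 := (rot 1 p).comp (C (-1) * X) with hP0
  have e1 : CC.w ^ 2 * (-1) = 1 - CC.w := by have := w_sq; grind
  have e2 : -CC.w * (-1) = CC.w := by ring
  have key : (Cl L p).comp (C (-1) * X) = P0 * Yp L p - N0 * (Yp L p -
      (rot (1 - CC.w) p - rot (1 - CC.w) (nu L)) * (rot CC.w p - rot CC.w (nu L))) := by
    unfold Cl Yp
    simp only [add_comp, sub_comp, mul_comp, ofNat_comp, ← hN0, ← hP0]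
    simp only [rot_rot, e1, e2]
    ring
  have hd1 : (X - C 1 : ℂ[X]) ^ (2 * L) ∣ N0 := by
    have : N0 = (X - C 1) ^ (2 * L) * (X ^ 2 - X + 1) := by
      refine Polynomial.funext fun z => ?_
      rw [hN0, rot_rot, rot_eval, nu_eval]
      simp only [eval_mul, eval_pow, eval_sub, eval_X, eval_C, eval_add, eval_one]
      rw [pow_mul, pow_mul]
      congr 1
      · congr 1; ring
      · ring
    rw [this]
    exact dvd_mul_right _ _
  have hd2 : (X - C 1 : ℂ[X]) ^ 2 ∣ Yp L p -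
      (rot (1 - CC.w) p - rot (1 - CC.w) (nu L)) * (rot CC.w p - rot CC.w (nu L)) := by
    refine dvd_sub ((pow_dvd_pow _ (by omega)).trans h.fus) ?_
    rw [pow_two]
    refine mul_dvd_mul ?_ ?_
    · rw [dvd_iff_isRoot, IsRoot.def, eval_sub, rot_eval, rot_eval, mul_one, atw' h, sub_self]
    · rw [dvd_iff_isRoot, IsRoot.def, eval_sub, rot_eval, rot_eval, mul_one, h.atw, sub_self]
  have hd3 : (X - C 1 : ℂ[X]) ^ (2 * L + 2) ∣ (Cl L p).comp (C (-1) * X) := by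
    rw [key]
    refine dvd_sub (h.fus.mul_left _) ?_
    rw [pow_add]
    exact mul_dvd_mul hd1 hd2
  obtain ⟨R, hR⟩ := hd3
  have e3 : ((Cl L p).comp (C (-1) * X)).comp (C (-1) * X) = Cl L p := by
    rw [comp_assoc, mul_comp, C_comp, X_comp, ← mul_assoc, ← C_mul]
    simp
  rw [← e3, hR, mul_comp, pow_comp, sub_comp, X_comp, C_comp]
  refine Dvd.dvd.mul_right ?_ _
  refine ⟨1, ?_⟩
  have : (C (-1) * X - C 1 : ℂ[X]) = -(X + 1) := by
    rw [C_neg, C_1]; ring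
  rw [this, mul_one, (show Even (2 * L + 2) from ⟨L + 1, by ring⟩).neg_pow]

theorem Cl_eq {L : ℕ} {q : ℝ} {p : ℝ[X]} (h : Sol L q p) :
    Cl L p = C ((kap q : ℝ) : ℂ) * (X ^ 3 + 1) ^ (2 * L + 2) := by
  have h1 := Cl_dvd h
  have hstep : ∀ a : ℂ, (C a * X + 1 : ℂ[X]) ^ (2 * L + 2) ∣ Cl L p →
      (C (a * CC.w ^ 2) * X + 1 : ℂ[X]) ^ (2 * L + 2) ∣ Cl L p := by
    rintro a ⟨R, hR⟩
    rw [← Cl_rot, hR, mul_comp, pow_comp, add_comp, mul_comp, C_comp, X_comp, one_comp, ← mul_assoc,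
      ← C_mul]
    exact dvd_mul_right _ _
  have h1' : (C 1 * X + 1 : ℂ[X]) ^ (2 * L + 2) ∣ Cl L p := by rw [C_1, one_mul]; exact h1
  have h2 := hstep 1 h1'
  have h3 := hstep _ h2
  have hcop : ∀ a b : ℂ, a ≠ b → IsCoprime ((C a * X + 1 : ℂ[X]) ^ (2 * L + 2))
      ((C b * X + 1 : ℂ[X]) ^ (2 * L + 2)) := by
    intro a b hab
    refine IsCoprime.pow ⟨C (-b / (a - b)), C (a / (a - b)), ?_⟩
    have hab' : a - b ≠ 0 := sub_ne_zero.2 hab
    have e1 : C (-b / (a - b)) * C a + C (a / (a - b)) * C b = (0 : ℂ[X]) := by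
      rw [← C_mul, ← C_mul, ← C_add]
      rw [show -b / (a - b) * a + a / (a - b) * b = 0 by ring, C_0]
    have e2 : C (-b / (a - b)) + C (a / (a - b)) = (1 : ℂ[X]) := by
      rw [← C_add, ← add_div, neg_add_eq_sub, div_self hab', C_1]
    linear_combination X * e1 + e2
  have hw := w_sq
  have n1 : (1 : ℂ) ≠ 1 * CC.w ^ 2 := by
    intro h0
    have : CC.w = 2 := by rw [w_sq] at h0; linear_combination -h0
    rw [this] at hw
    norm_num at hw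
  have n2 : (1 : ℂ) ≠ 1 * CC.w ^ 2 * CC.w ^ 2 := by
    intro h0
    have : CC.w = -1 := by grind
    rw [this] at hw
    norm_num at hw
  have n3 : 1 * CC.w ^ 2 ≠ 1 * CC.w ^ 2 * CC.w ^ 2 := by
    intro h0
    have : CC.w ^ 2 = -CC.w := by grind
    have : CC.w = 1 / 2 := by grind
    rw [this] at hw
    norm_num at hw
  have h4 := ((hcop _ _ n1).mul_dvd h1' h2)
  have h5 := ((hcop _ _ n2).mul_left (hcop _ _ n3)).mul_dvd h4 h3
  have e5 : (C 1 * X + 1 : ℂ[X]) ^ (2 * L + 2) * (C (1 * CC.w ^ 2) * X + 1) ^ (2 * L + 2) *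
      (C (1 * CC.w ^ 2 * CC.w ^ 2) * X + 1) ^ (2 * L + 2) = (X ^ 3 + 1) ^ (2 * L + 2) := by
    rw [← mul_pow, ← mul_pow]
    congr 1
    have e6 : (C CC.w : ℂ[X]) ^ 2 = C CC.w - 1 := by rw [← C_pow, w_sq, C_sub, C_1]
    simp only [one_mul, C_1, C_mul, C_pow]
    rw [e6]
    linear_combination ((C CC.w - 2) * X ^ 3 + (C CC.w - 1) * X ^ 2 + X) * e6
  rw [e5] at h5
  obtain ⟨R, hR⟩ := h5
  have hne : (X ^ 3 + 1 : ℂ[X]) ≠ 0 := by
    intro h0
    have := congrArg (eval 0) h0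
    simp at this
  have hdeg := Cl_deg L p h.deg
  have hRdeg : R.natDegree = 0 := by
    by_cases hR0 : R = 0
    · rw [hR0, natDegree_zero]
    rw [hR, natDegree_mul (pow_ne_zero _ hne) hR0, natDegree_pow] at hdeg
    have : (X ^ 3 + 1 : ℂ[X]).natDegree = 3 := by compute_degree!
    rw [this] at hdeg
    omega
  obtain ⟨c, hc⟩ := natDegree_eq_zero.1 hRdeg
  have hval : (Cl L p).eval 0 = ((kap q : ℝ) : ℂ) := by
    have hp : aeval (0:ℂ) p = ((3 * q - 2 : ℝ) : ℂ) := by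
      rw [← coeff_zero_eq_aeval_zero', h.zero]
      rfl
    have hn : aeval (0:ℂ) (nu L) = 1 := by rw [nu_eval]; simp
    unfold Cl kap
    simp only [eval_add, eval_sub, eval_mul, rot_eval, mul_zero, hp, hn, eval_ofNat]
    push_cast
    ring
  have hc2 : c = ((kap q : ℝ) : ℂ) := by
    rw [hR, ← hc] at hval
    simpa using hval
  rw [hR, ← hc, hc2, mul_comm]

/-- `Λ Λ₂ Λ₄ - Λ n₂ n₄ - n Λ₂ n₄ - n n₂ Λ₄ + 2 n n₂ n₄ = κ² (1 + z³) ^ N` -/
theorem closure {L : ℕ} {q : ℝ} {p : ℝ[X]} (h : Sol L q p) (z : ℂ) :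
    aeval z p * aeval (CC.w ^ 2 * z) p * aeval (-(CC.w * z)) p -
      aeval z p * aeval (CC.w ^ 2 * z) (nu L) * aeval (-(CC.w * z)) (nu L) -
      aeval z (nu L) * aeval (CC.w ^ 2 * z) p * aeval (-(CC.w * z)) (nu L) -
      aeval z (nu L) * aeval (CC.w ^ 2 * z) (nu L) * aeval (-(CC.w * z)) p +
      2 * (aeval z (nu L) * aeval (CC.w ^ 2 * z) (nu L) * aeval (-(CC.w * z)) (nu L)) =
      kap q * (1 + z ^ 3) ^ (2 * L + 2) := by
  have h1 := congrArg (eval z) (Cl_eq h)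
  unfold Cl at h1
  simp only [eval_add, eval_sub, eval_mul, rot_eval, eval_ofNat, one_mul, eval_C, eval_pow, eval_X,
    eval_one, neg_mul] at h1
  rw [h1, add_comm (1:ℂ)]

theorem y2 {L : ℕ} {q : ℝ} {p : ℝ[X]} (h : Sol L q p) (z : ℂ) :
    (Yp L p).eval (CC.w * z) * (Yp L p).eval ((1 - CC.w) * z) =
      (aeval z p - aeval z (nu L)) ^ 2 *
        (aeval (CC.w ^ 2 * z) (nu L) * aeval (-(CC.w * z)) (nu L)) +
      kap q * aeval z p * (1 + z ^ 3) ^ (2 * L + 2) := by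
  have hw := w_sq
  have e1 : CC.w * (CC.w * z) = CC.w ^ 2 * z := by ring
  have e2 : (1 - CC.w) * (CC.w * z) = z := by grind
  have e3 : CC.w * ((1 - CC.w) * z) = z := by grind
  have e4 : (1 - CC.w) * ((1 - CC.w) * z) = -(CC.w * z) := by grind
  rw [Yp_eval, Yp_eval, e1, e2, e3, e4]
  have hc := closure h z
  linear_combination (aeval z p) * hc

end EP
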