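import Pool.Agent.Helper86.EP.PL
import Pool.Agent.Helper86.EP.Closure

/-! Sparse polynomials have no zeros in the sector (module SPARSE). -/

namespace EP
open Polynomial Finset

/-- the exponents `0, a, 3, 3 + a, 6, ...` -/
def ex (a j : ℕ) : ℕ := 3 * (j / 2) + a * (j % 2)

structure Al (a m : ℕ) (f : ℝ[X]) : Prop where
  res : ∀ k, f.coeff k ≠ 0 → k % 3 = 0 ∨ k % 3 = a
  deg : f.natDegree ≤ ex a m

theorem Al.card {a m : ℕ} (ha : a = 1 ∨ a = 2) {f : ℝ[X]} (h : Al a m f) :
    f.support.card ≤ m + 1 := by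
  have hsub : f.support ⊆ (range (m + 1)).image (ex a) := by
    intro k hk
    rw [mem_support_iff] at hk
    have h1 := h.res k hk
    have h2 : k ≤ ex a m := (le_natDegree_of_ne_zero hk).trans h.deg
    rw [Finset.mem_image]
    unfold ex at h2 ⊢
    rcases h1 with h1 | h1
    · refine ⟨2 * (k / 3), ?_, ?_⟩
      · rw [Finset.mem_range]
        rcases ha with rfl | rfl <;> omega
      · rcases ha with rfl | rfl <;> omega
    · refine ⟨2 * (k / 3) + 1, ?_, ?_⟩
      · rw [Finset.mem_range]
        rcases ha with rfl | rfl <;> omega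
      · rcases ha with rfl | rfl <;> omega
  refine (Finset.card_le_card hsub).trans (Finset.card_image_le.trans ?_)
  rw [Finset.card_range]

theorem sparseR (k : ℕ) (f : ℝ[X]) (h : f.support.card ≤ k) (h' : (X - C 1) ^ k ∣ f) : f = 0 := by
  have hinj : Function.Injective (algebraMap ℝ ℂ) := Complex.ofReal_injective
  have h1 := CC.sparse k (f.map (algebraMap ℝ ℂ)) (by rwa [support_map_of_injective _ hinj]) (by
    have h2 := Polynomial.map_dvd (algebraMap ℝ ℂ) h'
    simpa using h2)
  exact (Polynomial.map_eq_zero_iff hinj).1 h1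

theorem sv_card (n : ℕ) (P : ℝ[X]) (hP : P ≠ 0) (hn : P.support.card ≤ n + 1) :
    signVariations P ≤ n := by
  induction n generalizing P with
  | zero =>
    have h1 : P.support.card ≤ 1 := by omega
    obtain ⟨d, c, rfl⟩ := card_support_le_one_iff_monomial.1 h1
    rw [signVariations_monomial]
  | succ n ih =>
    by_cases h0 : P.eraseLead = 0
    · have h1 : P.support.card ≤ 1 := by
        by_contra hc
        push Not at hc
        have h2 := card_support_eraseLead_add_one hP
        rw [h0, support_zero, Finset.card_empty] at h2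
        omega
      obtain ⟨d, c, rfl⟩ := card_support_le_one_iff_monomial.1 h1
      rw [signVariations_monomial]
      exact Nat.zero_le _
    · have h2 := card_support_eraseLead_add_one hP
      have h3 := ih _ h0 (by omega)
      have h4 := signVariations_le_eraseLead_succ (P := P)
      omega

theorem sparse2 (m : ℕ) (f : ℝ[X]) (h : f.support.card ≤ m + 1) (h' : (X - C 1) ^ m ∣ f)
    (x : ℝ) (hx0 : 0 < x) (hx1 : x ≠ 1) (hx : f.eval x = 0) : f = 0 := by
  by_contra hf
  have hcop : IsCoprime ((X - C 1 : ℝ[X]) ^ m) (X - C x) :=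
    IsCoprime.pow_left (isCoprime_X_sub_C_of_isUnit_sub (by
      rw [isUnit_iff_ne_zero]
      exact sub_ne_zero.2 hx1.symm))
  have hd := hcop.mul_dvd h' (dvd_iff_isRoot.2 hx)
  have h1 := roots.le_of_dvd hf hd
  have hne1 : (X - C 1 : ℝ[X]) ^ m ≠ 0 := pow_ne_zero _ (X_sub_C_ne_zero 1)
  have h2 := Multiset.countP_le_of_le (fun t : ℝ => 0 < t) h1
  have h3 := roots_countP_pos_le_signVariations f
  have h4 := sv_card m f hf h
  have h5 : Multiset.countP (fun t : ℝ => 0 < t) (((X - C 1) ^ m * (X - C x) : ℝ[X]).roots) = m + 1 := by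
    rw [roots_mul (mul_ne_zero hne1 (X_sub_C_ne_zero x)), roots_pow, roots_X_sub_C, roots_X_sub_C,
      Multiset.countP_add, Multiset.countP_nsmul, ← Multiset.cons_zero, ← Multiset.cons_zero,
      Multiset.countP_cons_of_pos _ one_pos, Multiset.countP_cons_of_pos _ hx0,
      Multiset.countP_zero, zero_add, mul_one]
  omega

theorem w_im : CC.w.im = Real.sqrt 3 / 2 := rfl
theorem w_re : CC.w.re = 1 / 2 := rfl

theorem pow_im_ne {a : ℕ} (ha : a = 1 ∨ a = 2) {τ : ℝ} (hτ : 0 < τ) :
    (((τ:ℂ) * CC.w) ^ a).im ≠ 0 := by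
  have h3 := sqrt3_pos
  rcases ha with rfl | rfl
  · rw [pow_one, Complex.im_ofReal_mul, w_im]
    positivity
  · rw [mul_pow, w_sq, ← Complex.ofReal_pow, Complex.im_ofReal_mul, Complex.sub_im, w_im, Complex.one_im,
      sub_zero]
    positivity

/-- splitting of the residue classes -/
theorem Al.split {a m : ℕ} (ha : a = 1 ∨ a = 2) {f : ℝ[X]} (h : Al a m f) :
    ∃ U V : ℝ[X], f = expand ℝ 3 U + X ^ a * expand ℝ 3 V := by
  have hit : ∀ (n : ℕ) (g : ℝ[X]) (k : ℕ), ((divX^[n]) g).coeff k = g.coeff (k + n) := by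
    intro n
    induction n with
    | zero => intro g k; rfl
    | succ n ih =>
      intro g k
      rw [Function.iterate_succ_apply, ih, coeff_divX]
      congr 1
  refine ⟨contract 3 f, contract 3 ((divX^[a]) f), ?_⟩
  ext k
  rw [coeff_add, coeff_expand (by norm_num), coeff_X_pow_mul', coeff_expand (by norm_num),
    coeff_contract (by norm_num), coeff_contract (by norm_num), hit]
  by_cases h0 : f.coeff k = 0
  · rw [h0]
    split_ifs with h1 h2 h3 h4 h5
    · exfalso; rcases ha with rfl | rfl <;> omega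
    · rw [Nat.div_mul_cancel h1, h0]; ring
    · rw [Nat.div_mul_cancel h1, h0]; ring
    · rw [Nat.div_mul_cancel h5, Nat.sub_add_cancel h4, h0]; ring
    · ring
    · ring
  · rcases h.res k h0 with h1 | h1
    · have h2 : 3 ∣ k := Nat.dvd_of_mod_eq_zero h1
      rw [if_pos h2, Nat.div_mul_cancel h2]
      split_ifs with h3 h4
      · exfalso; rcases ha with rfl | rfl <;> omega
      · ring
      · ring
    · have h2 : ¬ 3 ∣ k := by rcases ha with rfl | rfl <;> omega
      have h3 : a ≤ k := by rcases ha with rfl | rfl <;> omega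
      have h4 : 3 ∣ k - a := by rcases ha with rfl | rfl <;> omega
      rw [if_neg h2, if_pos h3, if_pos h4, Nat.div_mul_cancel h4, Nat.sub_add_cancel h3, zero_add]

theorem res_of_split {a : ℕ} (ha : a = 1 ∨ a = 2) (U V : ℝ[X]) (k : ℕ)
    (hk : (expand ℝ 3 U + X ^ a * expand ℝ 3 V).coeff k ≠ 0) : k % 3 = 0 ∨ k % 3 = a := by
  rw [coeff_add, coeff_expand (by norm_num), coeff_X_pow_mul', coeff_expand (by norm_num)] at hk
  by_contra hc
  push Not at hc
  apply hk
  rw [if_neg (by omega)]
  split_ifs with h1 h2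
  · exfalso; rcases ha with rfl | rfl <;> omega
  · ring
  · ring

theorem ray_zero {a n : ℕ} (ha : a = 1 ∨ a = 2) {h : ℝ[X]} (hal : Al a (n + 1) h)
    (hd : (X - C 1) ^ n ∣ h) {τ : ℝ} (hτ : 0 < τ) (hz : aeval ((τ:ℂ) * CC.w) h = 0) : h = 0 := by
  by_contra hne
  obtain ⟨U, V, hUV⟩ := hal.split ha
  set t : ℝ := -τ ^ 3 with ht
  have ht0 : t < 0 := by rw [ht]; have : 0 < τ ^ 3 := by positivity
                         linarith
  have hz3 : ((τ:ℂ) * CC.w) ^ 3 = (t : ℂ) := by
    have : CC.w ^ 3 = -1 := CC.w_cube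
    rw [mul_pow, this, ht]
    push_cast
    ring
  rw [hUV, map_add, map_mul, expand_aeval, expand_aeval, hz3, map_pow, aeval_X,
    ← Complex.coe_algebraMap, aeval_algebraMap_apply, aeval_algebraMap_apply, Complex.coe_algebraMap] at hz
  set u := aeval t U
  set v := aeval t V
  have him := congrArg Complex.im hz
  rw [Complex.add_im, Complex.ofReal_im, zero_add, Complex.im_mul_ofReal, Complex.zero_im] at him
  have hv : v = 0 := (mul_eq_zero.1 him).resolve_left (pow_im_ne ha hτ)
  have hu : u = 0 := by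
    rw [hv, Complex.ofReal_zero, mul_zero, add_zero] at hz
    exact Complex.ofReal_eq_zero.1 hz
  have hU : (X - C t) ∣ U := dvd_iff_isRoot.2 (by rw [IsRoot.def, ← coe_aeval_eq_eval]; exact hu)
  have hV : (X - C t) ∣ V := dvd_iff_isRoot.2 (by rw [IsRoot.def, ← coe_aeval_eq_eval]; exact hv)
  obtain ⟨U1, hU1⟩ := hU
  obtain ⟨V1, hV1⟩ := hV
  set h1 : ℝ[X] := expand ℝ 3 U1 + X ^ a * expand ℝ 3 V1 with hh1
  have hfac : h = (X ^ 3 - C t) * h1 := by
    rw [hUV, hU1, hV1, hh1, map_mul, map_mul, map_sub, expand_X, expand_C]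
    ring
  have h10 : h1 ≠ 0 := by
    intro h0
    rw [h0, mul_zero] at hfac
    exact hne hfac
  have h3ne : (X ^ 3 - C t : ℝ[X]) ≠ 0 := by
    intro h0
    rw [h0, zero_mul] at hfac
    exact hne hfac
  have hnat : (X ^ 3 - C t : ℝ[X]).natDegree = 3 := natDegree_X_pow_sub_C
  have hdeg := hal.deg
  rw [hfac, natDegree_mul h3ne h10, hnat] at hdeg
  have hcop : IsCoprime ((X - C 1 : ℝ[X]) ^ n) (X ^ 3 - C t) := by
    apply IsCoprime.pow_left
    rw [(irreducible_X_sub_C (1:ℝ)).coprime_iff_not_dvd, dvd_iff_isRoot, IsRoot.def]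
    simp only [eval_sub, eval_pow, eval_X, eval_C, one_pow]
    linarith
  have hd1 : (X - C 1) ^ n ∣ h1 := by
    rw [hfac] at hd
    exact hcop.dvd_of_dvd_mul_left hd
  rcases n with _ | n
  · unfold ex at hdeg
    rcases ha with rfl | rfl <;> omega
  · have hal1 : Al a n h1 := by
      refine ⟨res_of_split ha U1 V1, ?_⟩
      unfold ex at hdeg ⊢
      rcases ha with rfl | rfl <;> omega
    exact h10 (sparseR (n + 1) h1 (hal1.card ha) hd1)

theorem aeval_map_C (f : ℝ[X]) (z : ℂ) : (f.map (algebraMap ℝ ℂ)).eval z = aeval z f :=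
  eval_map_algebraMap _ _

theorem aeval_real (f : ℝ[X]) (x : ℝ) : aeval (x : ℂ) f = ((f.eval x : ℝ) : ℂ) := by
  rw [← Complex.coe_algebraMap, aeval_algebraMap_apply, Complex.coe_algebraMap, coe_aeval_eq_eval]

theorem sec_step {a m : ℕ} (ha : a = 1 ∨ a = 2) {f g : ℝ[X]} (hf : Al a (m + 1) f)
    (hfd : (X - C 1) ^ (m + 1) ∣ f) (hg : Al a m g) (hgd : (X - C 1) ^ m ∣ g) (hg0 : g ≠ 0)
    (hgf : ∀ z ∈ Sec, z ≠ 1 → aeval z g ≠ 0) (hlead : f.coeff (ex a (m + 1)) ≠ 0)
    (z : ℂ) (hz : z ∈ Sec) (hz1 : z ≠ 1) : aeval z f ≠ 0 := by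
  have hf0 : f ≠ 0 := by
    rintro rfl
    exact hlead (coeff_zero _)
  obtain ⟨F, hF⟩ := hfd
  obtain ⟨G, hG⟩ := hgd
  have hG0 : G ≠ 0 := by
    rintro rfl
    exact hg0 (by rw [hG, mul_zero])
  have hF0 : F ≠ 0 := by
    rintro rfl
    exact hf0 (by rw [hF, mul_zero])
  have hexlt : ex a m < ex a (m + 1) := by
    unfold ex
    rcases ha with rfl | rfl <;> omega
  have hexle : ex a (m + 1) ≤ ex a m + 2 := by
    unfold ex
    rcases ha with rfl | rfl <;> omega
  -- the coefficients of g
  have hgtop : g.coeff (ex a m) ≠ 0 := by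
    intro h0
    apply hg0
    refine sparseR m g ?_ ⟨G, hG⟩
    have hmem : ex a m ∉ g.support := by rw [mem_support_iff]; push Not; exact h0
    by_cases hm : m = 0
    · subst hm
      have : g.natDegree ≤ 0 := hg.deg
      have hC := eq_C_of_natDegree_le_zero this
      have e0 : ex a 0 = 0 := by unfold ex; omega
      rw [e0] at h0
      rw [hC, h0]
      simp
    · obtain ⟨l, rfl⟩ : ∃ l, m = l + 1 := ⟨m - 1, by omega⟩
      refine Al.card ha ⟨hg.res, ?_⟩
      by_contra hlt
      push Not at hlt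
      -- the degree of g is an exponent between ex l and ex (l+1)
      have hlc : g.coeff g.natDegree ≠ 0 := by
        rw [coeff_natDegree]
        exact leadingCoeff_ne_zero.2 hg0
      have h1 := hg.res _ hlc
      have h2 := hg.deg
      have h3 : g.natDegree ≠ ex a (l + 1) := by
        intro h4
        rw [h4] at hlc
        exact hlc h0
      unfold ex at hlt h2 h3
      obtain ⟨p, hp⟩ : ∃ p, l = 2 * p ∨ l = 2 * p + 1 := ⟨l / 2, by omega⟩
      clear hexlt hexle
      rcases hp with rfl | rfl <;> rcases ha with rfl | rfl <;> omega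
  -- polynomials over ℂ
  set P : ℂ[X] := (((X - C 1) * F : ℝ[X])).map (algebraMap ℝ ℂ) with hP
  set R : ℂ[X] := G.map (algebraMap ℝ ℂ) with hR
  have hinj : Function.Injective (algebraMap ℝ ℂ) := Complex.ofReal_injective
  have hdegF : ex a (m + 1) = (m + 1) + F.natDegree := by
    have h1 : f.natDegree = ex a (m + 1) :=
      le_antisymm hf.deg (le_natDegree_of_ne_zero hlead)
    rw [← h1, hF, natDegree_mul (pow_ne_zero _ (X_sub_C_ne_zero 1)) hF0, natDegree_pow,
      natDegree_X_sub_C, mul_one]
  have hdegG : ex a m = m + G.natDegree := by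
    have h1 : g.natDegree = ex a m := le_antisymm hg.deg (le_natDegree_of_ne_zero hgtop)
    rw [← h1, hG, natDegree_mul (pow_ne_zero _ (X_sub_C_ne_zero 1)) hG0, natDegree_pow,
      natDegree_X_sub_C, mul_one]
  have hdeg : P.natDegree ≤ R.natDegree + 2 := by
    rw [hP, hR, natDegree_map_eq_of_injective hinj, natDegree_map_eq_of_injective hinj,
      natDegree_mul (X_sub_C_ne_zero 1) hF0, natDegree_X_sub_C]
    omega
  have hRz : ∀ z ∈ Sec, R.eval z ≠ 0 := by
    intro z hz
    rw [hR, aeval_map_C]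
    by_cases h1 : z = 1
    · subst h1
      intro h0
      have h2 : G.eval 1 = 0 := by
        have := aeval_real G 1
        rw [Complex.ofReal_one, h0] at this
        exact_mod_cast this.symm
      apply hg0
      refine sparseR (m + 1) g (hg.card ha) ?_
      rw [hG, pow_succ]
      exact mul_dvd_mul_left _ (dvd_iff_isRoot.2 h2)
    · intro h0
      apply hgf z hz h1
      rw [hG, map_mul, h0, mul_zero]
  have hchi : ∀ z : ℂ, z ≠ 1 → P.eval z / R.eval z = aeval z f / aeval z g := by
    intro z hz1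
    have hzz : (z - 1) ≠ 0 := sub_ne_zero.2 hz1
    have e1 : aeval z f = (z - 1) ^ m * P.eval z := by
      rw [hP, aeval_map_C, hF, map_mul, map_mul, map_pow, map_sub, aeval_X, aeval_C, map_one]
      ring
    have e2 : aeval z g = (z - 1) ^ m * R.eval z := by
      rw [hR, aeval_map_C, hG, map_mul, map_pow, map_sub, aeval_X, aeval_C, map_one]
    rw [e1, e2, mul_div_mul_left _ _ (pow_ne_zero _ hzz)]
  have hreal : ∀ x : ℝ, 0 < x → (P.eval (x : ℂ) / R.eval (x : ℂ)).im = 0 := by
    intro x _
    rw [hP, hR, aeval_map_C, aeval_map_C, aeval_real, aeval_real, ← Complex.ofReal_div,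
      Complex.ofReal_im]
  have hrayne : ∀ τ : ℝ, 0 < τ → (τ:ℂ) * CC.w ≠ 1 := by
    intro τ hτ h0
    have := congrArg Complex.im h0
    rw [Complex.im_ofReal_mul, w_im, Complex.one_im] at this
    have h3 := sqrt3_pos
    have : 0 < τ * (Real.sqrt 3 / 2) := by positivity
    linarith
  have hraymem : ∀ τ : ℝ, 0 < τ → (τ:ℂ) * CC.w ∈ Sec := by
    intro τ hτ
    have := exp_ray (Real.log τ)
    rw [Real.exp_log hτ] at this
    rw [← this]
    exact exp_mem_Sec (by rw [abs_of_nonneg (by positivity)])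
  have hray : ∀ τ : ℝ, 0 < τ → (P.eval (τ * CC.w) / R.eval (τ * CC.w)).im ≠ 0 := by
    intro τ hτ h0
    rw [hchi _ (hrayne τ hτ)] at h0
    set z0 : ℂ := (τ:ℂ) * CC.w with hz0
    have hgz := hgf z0 (hraymem τ hτ) (hrayne τ hτ)
    set c : ℝ := (aeval z0 f / aeval z0 g).re with hc
    have h1 : aeval z0 f / aeval z0 g = (c : ℂ) := by
      apply Complex.ext
      · rfl
      · rw [h0, Complex.ofReal_im]
    have h2 : aeval z0 (f - C c * g) = 0 := by
      rw [map_sub, map_mul, aeval_C, Complex.coe_algebraMap, ← h1]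
      field_simp
      ring
    have h3 : Al a (m + 1) (f - C c * g) := by
      refine ⟨fun k hk => ?_, ?_⟩
      · rw [coeff_sub, coeff_C_mul] at hk
        by_cases h4 : f.coeff k = 0
        · have h5 : g.coeff k ≠ 0 := by
            intro h6
            rw [h4, h6] at hk
            simp at hk
          exact hg.res k h5
        · exact hf.res k h4
      · refine (natDegree_sub_le _ _).trans (max_le hf.deg ?_)
        exact (natDegree_C_mul_le _ _).trans (hg.deg.trans hexlt.le)
    have h4 : (X - C 1) ^ m ∣ f - C c * g := by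
      refine dvd_sub ?_ ?_
      · rw [hF]
        exact (pow_dvd_pow _ (Nat.le_succ m)).mul_right _
      · exact Dvd.dvd.mul_left ⟨G, hG⟩ _
    have h5 := ray_zero ha h3 h4 hτ h2
    have h6 := congrArg (fun r : ℝ[X] => r.coeff (ex a (m + 1))) h5
    simp only [coeff_sub, coeff_C_mul, coeff_zero] at h6
    rw [coeff_eq_zero_of_natDegree_lt (hg.deg.trans_lt hexlt), mul_zero, sub_zero] at h6
    exact hlead h6
  -- conclusion
  have hpos : ∀ z ∈ Sec, 0 < z.im → aeval z f ≠ 0 := by
    intro z hz him h0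
    have hzne : z ≠ 0 := by
      rintro rfl
      simp at him
    obtain ⟨x, y, hy, hxy⟩ := Sec_polar hz hzne
    have hpi := Real.pi_pos
    have hyp : 0 < y := by
      by_contra hc
      push Not at hc
      rw [hxy, Complex.exp_im] at him
      have e1 : ((x:ℂ) + y * Complex.I).im = y := by simp
      rw [e1] at him
      rw [abs_le] at hy
      have : Real.sin y ≤ 0 := Real.sin_nonpos_of_nonpos_of_neg_pi_le hc (by linarith)
      have := mul_nonpos_of_nonneg_of_nonpos
        (Real.exp_pos ((x:ℂ) + y * Complex.I).re).le this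
      linarith
    have h1 := pl_sector P R hdeg hRz hreal hray x y hyp ((le_abs_self y).trans hy)
    rw [← hxy, hchi z (by rintro rfl; simp at him), h0, zero_div, Complex.zero_im] at h1
    exact h1 rfl
  rcases lt_trichotomy z.im 0 with h1 | h1 | h1
  · have h2 := hpos ((starRingEnd ℂ) z) (conj_mem_Sec hz) (by rw [Complex.conj_im]; linarith)
    rw [aeval_conj'] at h2
    intro h0
    rw [h0, map_zero] at h2
    exact h2 rfl
  · have hzr : z = ((z.re : ℝ) : ℂ) := by
      apply Complex.ext
      · rfl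
      · rw [h1, Complex.ofReal_im]
    rw [hzr, aeval_real]
    intro h0
    have h0' : f.eval z.re = 0 := by exact_mod_cast h0
    rcases eq_or_lt_of_le (Sec_re hz) with h2 | h2
    · -- the coefficient of X^0
      rw [← h2, ← coeff_zero_eq_eval_zero] at h0'
      apply hf0
      refine sparseR (m + 1) f ?_ ⟨F, hF⟩
      have hcard := hf.card ha
      have hmem : (0:ℕ) ∉ f.support := by rw [mem_support_iff]; push Not; exact h0'
      have hsub : f.support ⊆ ((range (m + 1 + 1)).image (ex a)).erase 0 := by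
        intro k hk
        rw [mem_erase]
        refine ⟨fun hk0 => hmem (hk0 ▸ hk), ?_⟩
        rw [mem_support_iff] at hk
        have h1 := hf.res k hk
        have h2 : k ≤ ex a (m + 1) := (le_natDegree_of_ne_zero hk).trans hf.deg
        rw [Finset.mem_image]
        unfold ex at h2 ⊢
        rcases h1 with h1 | h1
        · refine ⟨2 * (k / 3), ?_, ?_⟩
          · rw [Finset.mem_range]
            rcases ha with rfl | rfl <;> omega
          · rcases ha with rfl | rfl <;> omega
        · refine ⟨2 * (k / 3) + 1, ?_, ?_⟩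
          · rw [Finset.mem_range]
            rcases ha with rfl | rfl <;> omega
          · rcases ha with rfl | rfl <;> omega
      refine (Finset.card_le_card hsub).trans ?_
      rw [Finset.card_erase_of_mem]
      · have := Finset.card_image_le (s := range (m + 1 + 1)) (f := ex a)
        rw [Finset.card_range] at this
        omega
      · rw [Finset.mem_image]
        exact ⟨0, Finset.mem_range.2 (by omega), by unfold ex; omega⟩
    · refine hf0 (sparse2 (m + 1) f (hf.card ha) ⟨F, hF⟩ z.re h2 ?_ h0')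
      intro h3
      apply hz1
      rw [hzr, h3, Complex.ofReal_one]
  · exact hpos z hz h1

theorem sec_free {a : ℕ} (ha : a = 1 ∨ a = 2) (m : ℕ) (f : ℝ[X]) (hf0 : f ≠ 0) (hf : Al a m f)
    (hfd : (X - C 1) ^ m ∣ f) (z : ℂ) (hz : z ∈ Sec) (hz1 : z ≠ 1) : aeval z f ≠ 0 := by
  induction m generalizing f z with
  | zero =>
    have e0 : ex a 0 = 0 := by unfold ex; omega
    have h1 := hf.deg
    rw [e0] at h1
    have hC := eq_C_of_natDegree_le_zero h1
    have hne : f.coeff 0 ≠ 0 := by
      intro h0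
      rw [h0, C_0] at hC
      exact hf0 hC
    rw [hC, aeval_C]
    simpa using hne
  | succ m ih =>
    -- all coefficients are nonzero
    have hall : ∀ j ≤ m + 1, f.coeff (ex a j) ≠ 0 := by
      intro j hj h0
      apply hf0
      refine sparseR (m + 1) f ?_ hfd
      have hmem : ex a j ∉ f.support := by rw [mem_support_iff]; push Not; exact h0
      have hsub : f.support ⊆ ((range (m + 1 + 1)).image (ex a)).erase (ex a j) := by
        intro k hk
        rw [mem_erase]
        refine ⟨fun hk0 => hmem (hk0 ▸ hk), ?_⟩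
        rw [mem_support_iff] at hk
        have h1 := hf.res k hk
        have h2 : k ≤ ex a (m + 1) := (le_natDegree_of_ne_zero hk).trans hf.deg
        rw [Finset.mem_image]
        unfold ex at h2 ⊢
        rcases h1 with h1 | h1
        · refine ⟨2 * (k / 3), ?_, ?_⟩
          · rw [Finset.mem_range]
            rcases ha with rfl | rfl <;> omega
          · rcases ha with rfl | rfl <;> omega
        · refine ⟨2 * (k / 3) + 1, ?_, ?_⟩
          · rw [Finset.mem_range]
            rcases ha with rfl | rfl <;> omega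
          · rcases ha with rfl | rfl <;> omega
      refine (Finset.card_le_card hsub).trans ?_
      rw [Finset.card_erase_of_mem]
      · have := Finset.card_image_le (s := range (m + 1 + 1)) (f := ex a)
        rw [Finset.card_range] at this
        omega
      · rw [Finset.mem_image]
        exact ⟨j, Finset.mem_range.2 (by omega), rfl⟩
    set e : ℕ := ex a (m + 1) with he
    have hexlt : ex a m < e := by
      rw [he]
      unfold ex
      rcases ha with rfl | rfl <;> omega
    set g : ℝ[X] := C (e:ℝ) * f - X * derivative f with hg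
    have hgc : ∀ k, g.coeff k = ((e:ℝ) - k) * f.coeff k := by
      intro k
      rw [hg, coeff_sub, coeff_C_mul]
      rcases k with _ | k
      · simp
      · rw [coeff_X_mul, coeff_derivative]
        push_cast
        ring
    have hgal : Al a m g := by
      refine ⟨fun k hk => ?_, ?_⟩
      · rw [hgc] at hk
        exact hf.res k (right_ne_zero_of_mul hk)
      · rw [natDegree_le_iff_coeff_eq_zero]
        intro k hk
        rw [hgc]
        by_cases h0 : f.coeff k = 0
        · rw [h0, mul_zero]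
        · have h1 := hf.res k h0
          have h2 : k ≤ e := (le_natDegree_of_ne_zero h0).trans hf.deg
          have h3 : k = e := by
            rw [he] at h2 ⊢
            unfold ex at h2 hk ⊢
            obtain ⟨p, hp⟩ : ∃ p, m = 2 * p ∨ m = 2 * p + 1 := ⟨m / 2, by omega⟩
            clear hexlt
            rcases hp with rfl | rfl <;> rcases ha with rfl | rfl <;> omega
          rw [h3, sub_self, zero_mul]
    have hg0 : g ≠ 0 := by
      intro h0
      have h1 := hgc 0
      rw [h0, coeff_zero] at h1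
      have h2 := hall 0 (by omega)
      have e0 : ex a 0 = 0 := by unfold ex; omega
      rw [e0] at h2
      have h3 : (e:ℝ) - (0:ℕ) ≠ 0 := by
        have : 0 < e := by omega
        rw [Nat.cast_zero, sub_zero]
        exact_mod_cast this.ne'
      rcases mul_eq_zero.1 h1.symm with h4 | h4
      · exact h3 h4
      · exact h2 h4
    have hgd : (X - C 1) ^ m ∣ g := by
      rw [hg]
      refine dvd_sub (((pow_dvd_pow _ (Nat.le_succ m)).trans hfd).mul_left _) ?_
      refine Dvd.dvd.mul_left ?_ _
      have := pow_sub_one_dvd_derivative_of_pow_dvd hfd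
      simpa using this
    exact sec_step ha hf hfd hgal hgd hg0 (fun z hz hz1 => ih g hg0 hgal hgd z hz hz1)
      (hall (m + 1) le_rfl) z hz hz1

/-- real version of `fP` -/
theorem fP_real (a L : ℕ) : ∃ f : ℝ[X], CC.fP a L = f.map (algebraMap ℝ ℂ) := by
  induction L with
  | zero => exact ⟨X ^ a - 1, by simp [CC.fP]⟩
  | succ L ih =>
    obtain ⟨f, hf⟩ := ih
    refine ⟨(C (9 * L + 3 + a : ℝ) * X ^ 3 + C (3 * L + 3 - a : ℝ)) * f
      - 2 * (X ^ 3 - 1) * X * derivative f, ?_⟩
    rw [CC.fP_succ, hf, derivative_map]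
    simp

theorem fP_data (a L : ℕ) (ha : a = 1 ∨ a = 2) : ∃ f : ℝ[X], CC.fP a L = f.map (algebraMap ℝ ℂ) ∧
    f ≠ 0 ∧ Al a (2 * L + 1) f ∧ (X - C 1) ^ (2 * L + 1) ∣ f := by
  obtain ⟨f, hf⟩ := fP_real a L
  have hinj : Function.Injective (algebraMap ℝ ℂ) := Complex.ofReal_injective
  obtain ⟨h1, h2⟩ := CC.evB_coeff a L ha
  refine ⟨f, hf, ?_, ⟨?_, ?_⟩, ?_⟩
  · rintro rfl
    have := (CC.fP_w a L ha).1
    rw [hf] at this
    simp at this
  · intro k hk
    have h3 : (CC.fP a L).coeff k ≠ 0 := by
      rw [hf, coeff_map]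
      simpa using hk
    have h4 : ¬ 3 ∣ k + a := fun h5 => h3 (h2 k h5)
    rcases ha with rfl | rfl <;> omega
  · rw [hf, natDegree_map_eq_of_injective hinj] at h1
    refine h1.trans (le_of_eq ?_)
    unfold ex
    have e1 : (2 * L + 1) / 2 = L := by omega
    have e2 : (2 * L + 1) % 2 = 1 := by omega
    rw [e1, e2, mul_one]
  · have h3 := CC.fP_dvd a L ha
    rw [hf] at h3
    have e : (X - 1 : ℂ[X]) ^ (2 * L + 1) = ((X - C 1 : ℝ[X]) ^ (2 * L + 1)).map (algebraMap ℝ ℂ) := by
      simp
    rw [e] at h3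
    exact (Polynomial.map_dvd_map' _).1 h3

theorem fP_sec (a L : ℕ) (ha : a = 1 ∨ a = 2) {z : ℂ} (hz : z ∈ Sec) (h1 : z ≠ 1) :
    (CC.fP a L).eval z ≠ 0 := by
  obtain ⟨f, hf, hf0, hal, hd⟩ := fP_data a L ha
  rw [hf, aeval_map_C]
  exact sec_free ha (2 * L + 1) f hf0 hal hd z hz h1

theorem fP_order (a L : ℕ) (ha : a = 1 ∨ a = 2) : ¬ (X - 1) ^ (2 * L + 2) ∣ CC.fP a L := by
  obtain ⟨f, hf, hf0, hal, hd⟩ := fP_data a L ha
  intro h
  rw [hf] at h
  have e : (X - 1 : ℂ[X]) ^ (2 * L + 2) = ((X - C 1 : ℝ[X]) ^ (2 * L + 2)).map (algebraMap ℝ ℂ) := by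
    simp
  rw [e] at h
  exact hf0 (sparseR (2 * L + 2) f (hal.card ha) ((Polynomial.map_dvd_map' _).1 h))

end EP
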