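import Pool.Agent.Helper86.EP.CoefLim
import Pool.Agent.Helper86.EP.Sparse

/-! No zeros in the strip for `q` near `1` (module BASE). -/

namespace EP
open Polynomial Filter Topology

/-- the linearized fusion polynomial -/
noncomputable def Vp (L : ℕ) (γ : ℝ[X]) : ℂ[X] :=
  rot CC.w γ * rot (1 - CC.w) (nu L) + rot CC.w (nu L) * rot (1 - CC.w) γ

/-- the auxiliary polynomial of `CC.evB_key` -/
noncomputable def Wp (L : ℕ) (g : ℂ[X]) : ℂ[X] :=
  ((X + 1) * g.comp (-X)).comp (C (CC.w - 1) * X) * (C (-CC.w) * X - 1) ^ (2 * L + 1) +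
    ((X + 1) * g.comp (-X)).comp (C (-CC.w) * X) * (C (CC.w - 1) * X - 1) ^ (2 * L + 1)

theorem Vp_eq (L : ℕ) (γ : ℝ[X]) (g : ℂ[X]) (hg : γ.map (algebraMap ℝ ℂ) = (X ^ 2 - X + 1) * g) :
    Vp L γ = (X - C 1) * ((X + 1) * Wp L g) := by
  refine Polynomial.funext fun y => ?_
  have hG : ∀ z, aeval z γ = (z ^ 2 - z + 1) * g.eval z := by
    intro z
    rw [← aeval_map_C, hg]
    simp
  have hw := w_sq
  have i1 : ((CC.w * y) ^ 2 - CC.w * y + 1) * (((1 - CC.w) * y) ^ 2 + (1 - CC.w) * y + 1) =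
      (y - 1) * (y + 1) * (-CC.w * y + 1) * ((CC.w - 1) * y - 1) := by grind
  have i2 : ((CC.w * y) ^ 2 + CC.w * y + 1) * (((1 - CC.w) * y) ^ 2 - (1 - CC.w) * y + 1) =
      (y - 1) * (y + 1) * ((CC.w - 1) * y + 1) * (-CC.w * y - 1) := by grind
  have p1 : (1 + (1 - CC.w) * y) ^ (2 * L) = ((CC.w - 1) * y - 1) ^ (2 * L) := by
    rw [pow_mul, pow_mul]
    congr 1
    ring
  have p2 : (1 + CC.w * y) ^ (2 * L) = (-CC.w * y - 1) ^ (2 * L) := by
    rw [pow_mul, pow_mul]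
    congr 1
    ring
  have e1 : -((CC.w - 1) * y) = (1 - CC.w) * y := by ring
  have e2 : -(-CC.w * y) = CC.w * y := by ring
  unfold Vp Wp
  simp only [eval_comp, eval_add, eval_mul, eval_sub, eval_pow, eval_X, eval_C, eval_neg,
    eval_one, rot_eval, nu_eval, hG]
  rw [p1, p2, e1, e2, pow_succ (-CC.w * y - 1), pow_succ ((CC.w - 1) * y - 1)]
  generalize g.eval ((1 - CC.w) * y) = A
  generalize g.eval (CC.w * y) = B
  generalize (-CC.w * y - 1) ^ (2 * L) = P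
  generalize ((CC.w - 1) * y - 1) ^ (2 * L) = R
  linear_combination (B * R) * i1 + (A * P) * i2

/-- combination of `CC.evB_key` and `CC.evB_rot` -/
theorem fP_key (a L : ℕ) (ha : a = 1 ∨ a = 2) (N : ℂ[X]) (hN : N.natDegree ≤ 2 * L + 1)
    (hrel : (X - 1) ^ (2 * L + 1) ∣ N.comp (C (CC.w - 1) * X) * (C (-CC.w) * X - 1) ^ (2 * L + 1) +
      N.comp (C (-CC.w) * X) * (C (CC.w - 1) * X - 1) ^ (2 * L + 1)) :
    CC.fP a L * (C ((1 - CC.w) ^ a + CC.w ^ a) *
        (N.comp (C (CC.w - 1) * X) * (C (-CC.w) * X - 1) ^ (2 * L + 1)) -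
      C (-(((1 - CC.w) ^ a - CC.w ^ a) * N.coeff 0)) *
        ((C (CC.w - 1) * X - 1) ^ (2 * L + 1) * (C (-CC.w) * X - 1) ^ (2 * L + 1))) =
      C (CC.w ^ a) * (N.comp (C (CC.w - 1) * X) * (C (-CC.w) * X - 1) ^ (2 * L + 1) +
      N.comp (C (-CC.w) * X) * (C (CC.w - 1) * X - 1) ^ (2 * L + 1)) *
        (CC.fP a L).comp (C (-CC.w) * X) := by
  obtain ⟨h, hf⟩ := CC.fP_dvd a L ha
  have E1 := CC.evB_key a L ha N h hN hf hrel
  have E2 := CC.evB_rot a L ha
  have f1 : (CC.fP a L).comp (C (CC.w - 1) * X) =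
      (C (CC.w - 1) * X - 1) ^ (2 * L + 1) * h.comp (C (CC.w - 1) * X) := by
    rw [hf]; simp
  have f2 : (CC.fP a L).comp (C (-CC.w) * X) =
      (C (-CC.w) * X - 1) ^ (2 * L + 1) * h.comp (C (-CC.w) * X) := by
    rw [hf]; simp
  rw [f1, f2] at E2
  rw [f2]
  rw [mul_comp, mul_comp] at E1
  generalize (C (CC.w - 1) * X - 1 : ℂ[X]) ^ (2 * L + 1) = A2 at *
  generalize (C (-CC.w) * X - 1 : ℂ[X]) ^ (2 * L + 1) = A4 at *
  generalize N.comp (C (CC.w - 1) * X) = N2 at *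
  generalize N.comp (C (-CC.w) * X) = N4 at *
  generalize h.comp (C (CC.w - 1) * X) = h2 at *
  generalize h.comp (C (-CC.w) * X) = h4 at *
  linear_combination (-(N2 * A4)) * E2 + (A2 * A4) * E1

theorem D_ne {z : ℂ} (hz : z ∈ Sec) (m : ℕ) :
    ((CC.w - 1) * z - 1) ^ m * (-CC.w * z - 1) ^ m ≠ 0 := by
  have hre := Sec_re hz
  have hw := w_sq
  refine mul_ne_zero (pow_ne_zero _ ?_) (pow_ne_zero _ ?_)
  · intro h0
    have h1 : z = -CC.w := by grind
    rw [h1, Complex.neg_re, w_re] at hre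
    linarith
  · intro h0
    have h1 : z = CC.w - 1 := by grind
    rw [h1, Complex.sub_re, w_re, Complex.one_re] at hre
    linarith

theorem lin_free (L : ℕ) (γ : ℝ[X]) (hdeg : γ.natDegree ≤ 2 * L + 2) (h0 : γ.coeff 0 = 3)
    (hw : aeval CC.w γ = 0) (hd : (X - C 1) ^ (2 * L + 2) ∣ Vp L γ) :
    ∀ z ∈ Sec, (Vp L γ /ₘ (X - C 1) ^ (2 * L + 2)).eval z ≠ 0 := by
  have hws := w_sq
  have hw' : aeval (1 - CC.w) γ = 0 := by
    rw [← conj_w, aeval_conj', hw, map_zero]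
  have hww : CC.w - (1 - CC.w) ≠ 0 := by
    intro h
    have h1 : CC.w = 1 / 2 := by linear_combination h / 2
    rw [h1] at hws
    norm_num at hws
  -- the quotient
  set G : ℂ[X] := γ.map (algebraMap ℝ ℂ) with hG
  obtain ⟨g, hg⟩ : ∃ g, G = (X ^ 2 - X + 1) * g := by
    have d1 : (X - C CC.w) ∣ G := dvd_iff_isRoot.2 (by rw [IsRoot.def, hG, aeval_map_C]; exact hw)
    have d2 : (X - C (1 - CC.w)) ∣ G :=
      dvd_iff_isRoot.2 (by rw [IsRoot.def, hG, aeval_map_C]; exact hw')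
    have hc : IsCoprime (X - C CC.w) (X - C (1 - CC.w)) := isCoprime_X_sub_C_of_isUnit_sub (by
      rw [isUnit_iff_ne_zero]; exact hww)
    obtain ⟨g, hg⟩ := hc.mul_dvd d1 d2
    refine ⟨g, ?_⟩
    rw [hg]
    congr 1
    have : (X - C CC.w) * (X - C (1 - CC.w)) = X ^ 2 - X + C (CC.w * (1 - CC.w)) := by
      simp only [C_mul, C_sub, C_1]; ring
    rw [this, CC.w_mul, C_1]
  have hGd : G.natDegree ≤ 2 * L + 2 := natDegree_map_le.trans hdeg
  have hgd : g.natDegree ≤ 2 * L := by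
    by_cases h0 : g = 0
    · rw [h0, natDegree_zero]; exact Nat.zero_le _
    · have hq : (X ^ 2 - X + 1 : Polynomial ℂ).natDegree = 2 := by compute_degree!
      have hq0 : (X ^ 2 - X + 1 : Polynomial ℂ) ≠ 0 := by
        intro h; rw [h] at hq; simp at hq
      rw [hg, natDegree_mul hq0 h0, hq] at hGd
      omega
  have hN : ((X + 1) * g.comp (-X)).natDegree ≤ 2 * L + 1 := by
    refine natDegree_mul_le.trans ?_
    rw [natDegree_comp, natDegree_neg, natDegree_X]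
    have : (X + 1 : Polynomial ℂ).natDegree ≤ 1 := by compute_degree!
    omega
  have hN0 : ((X + 1) * g.comp (-X)).coeff 0 = 3 := by
    have h1 : G.eval 0 = 3 := by
      rw [hG, ← coeff_zero_eq_eval_zero, coeff_map, h0]
      simp
    rw [hg] at h1
    rw [coeff_zero_eq_eval_zero]
    simp at h1 ⊢
    exact h1
  have hV := Vp_eq L γ g hg
  have hX1 : (X - C 1 : ℂ[X]) ≠ 0 := X_sub_C_ne_zero (1:ℂ)
  -- coprimality with `X + 1`
  have hcop : ∀ m, IsCoprime ((X - 1 : Polynomial ℂ) ^ m) (X + 1) := by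
    intro m
    refine IsCoprime.pow_left ?_
    refine ⟨C (-1 / 2), C (1 / 2), ?_⟩
    have e1 : C (-1 / 2 : ℂ) = -C (1 / 2) := by rw [← C_neg]; congr 1; ring
    have e2 : C (1 / 2 : ℂ) * 2 = 1 := by
      rw [show (2 : Polynomial ℂ) = C 2 from rfl, ← C_mul]; norm_num
    rw [e1]
    linear_combination e2
  have hrel : (X - 1 : ℂ[X]) ^ (2 * L + 1) ∣ Wp L g := by
    have h1 := hd
    rw [hV, show 2 * L + 2 = (2 * L + 1) + 1 from rfl, pow_succ', mul_dvd_mul_iff_left hX1, C_1] at h1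
    exact (hcop _).dvd_of_dvd_mul_left h1
  obtain ⟨Q, hQ⟩ := hd
  have hQe : Vp L γ /ₘ (X - C 1) ^ (2 * L + 2) = Q := by
    rw [hQ, mul_divByMonic_cancel_left _ ((monic_X_sub_C (1:ℂ)).pow _)]
  rw [hQe]
  have k1 := fP_key 1 L (Or.inl rfl) _ hN hrel
  have k2 := fP_key 2 L (Or.inr rfl) _ hN hrel
  rw [hN0] at k1 k2
  -- the final contradiction
  have hfin : ∀ z ∈ Sec, ∀ A D : ℂ, D ≠ 0 →
      ((1 - CC.w) ^ 1 + CC.w ^ 1) * A - -(((1 - CC.w) ^ 1 - CC.w ^ 1) * 3) * D = 0 →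
      ((1 - CC.w) ^ 2 + CC.w ^ 2) * A - -(((1 - CC.w) ^ 2 - CC.w ^ 2) * 3) * D = 0 → False := by
    intro z _ A D hD h1 h2
    have h3 : (CC.w - (1 - CC.w)) * D = 0 := by grind
    rcases mul_eq_zero.1 h3 with h4 | h4
    · exact hww h4
    · exact hD h4
  intro z hz hzQ
  by_cases hz1 : z = 1
  · subst hz1
    obtain ⟨Q1, hQ1⟩ := (dvd_iff_isRoot.2 hzQ : (X - C 1) ∣ Q)
    have hW : (X - 1 : ℂ[X]) ^ (2 * L + 2) ∣ Wp L g := by
      have h1 : (X - C 1) * ((X - C 1) ^ (2 * L + 2) * Q1) = (X - C 1) * ((X + 1) * Wp L g) := by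
        rw [← hV, hQ, hQ1]
        ring
      have h2 := mul_left_cancel₀ hX1 h1
      rw [C_1] at h2
      exact (hcop _).dvd_of_dvd_mul_left ⟨Q1, h2.symm⟩
    obtain ⟨R, hR⟩ := hW
    have hk : ∀ a, (a = 1 ∨ a = 2) → CC.fP a L * (C ((1 - CC.w) ^ a + CC.w ^ a) *
        (((X + 1) * g.comp (-X)).comp (C (CC.w - 1) * X) * (C (-CC.w) * X - 1) ^ (2 * L + 1)) -
      C (-(((1 - CC.w) ^ a - CC.w ^ a) * 3)) *
        ((C (CC.w - 1) * X - 1) ^ (2 * L + 1) * (C (-CC.w) * X - 1) ^ (2 * L + 1))) =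
      C (CC.w ^ a) * (Wp L g) * (CC.fP a L).comp (C (-CC.w) * X) →
      ((1 - CC.w) ^ a + CC.w ^ a) *
        (((X + 1) * g.comp (-X)).comp (C (CC.w - 1) * X) * (C (-CC.w) * X - 1) ^ (2 * L + 1)).eval 1 -
      -(((1 - CC.w) ^ a - CC.w ^ a) * 3) *
        (((CC.w - 1) * 1 - 1) ^ (2 * L + 1) * (-CC.w * 1 - 1) ^ (2 * L + 1)) = 0 := by
      intro a ha hka
      obtain ⟨h, hf⟩ := CC.fP_dvd a L ha
      have hh : h.eval 1 ≠ 0 := by
        intro h1
        refine fP_order a L ha ?_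
        obtain ⟨h', hh'⟩ := (dvd_iff_isRoot.2 h1 : (X - C 1) ∣ h)
        refine ⟨h', ?_⟩
        rw [hf, hh', C_1]
        ring
      have hXn : (X - 1 : ℂ[X]) ^ (2 * L + 1) ≠ 0 := pow_ne_zero _ (X_sub_C_ne_zero (1:ℂ))
      set T : ℂ[X] := C ((1 - CC.w) ^ a + CC.w ^ a) *
        (((X + 1) * g.comp (-X)).comp (C (CC.w - 1) * X) * (C (-CC.w) * X - 1) ^ (2 * L + 1)) -
      C (-(((1 - CC.w) ^ a - CC.w ^ a) * 3)) *
        ((C (CC.w - 1) * X - 1) ^ (2 * L + 1) * (C (-CC.w) * X - 1) ^ (2 * L + 1)) with hT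
      have h2 : (X - 1 : ℂ[X]) ^ (2 * L + 1) * (h * T) = (X - 1) ^ (2 * L + 1) *
          ((X - 1) * (C (CC.w ^ a) * R * (CC.fP a L).comp (C (-CC.w) * X))) := by
        rw [← mul_assoc, ← hf, hka, hR]
        ring
      have h3 : eval 1 h * eval 1 T = 0 := by
        rw [← eval_mul, mul_left_cancel₀ hXn h2, eval_mul, eval_sub, eval_X, eval_one, sub_self,
          zero_mul]
      have h4 := (mul_eq_zero.1 h3).resolve_left hh
      rw [hT] at h4
      simpa only [eval_sub, eval_mul, eval_C, eval_pow, eval_X, eval_one] using h4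
    exact hfin 1 hz _ _ (D_ne hz (2 * L + 1)) (hk 1 (Or.inl rfl) k1) (hk 2 (Or.inr rfl) k2)
  · have hW : (Wp L g).eval z = 0 := by
      have h1 := congrArg (eval z) hV
      rw [hQ, eval_mul, hzQ, mul_zero, eval_mul, eval_mul, eval_sub, eval_X, eval_C] at h1
      rcases mul_eq_zero.1 h1.symm with h2 | h2
      · exact absurd (sub_eq_zero.1 h2) hz1
      · rcases mul_eq_zero.1 h2 with h3 | h3
        · exfalso
          rw [eval_add, eval_X, eval_one] at h3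
          have h4 : z = -1 := by linear_combination h3
          have := Sec_re hz
          rw [h4] at this
          simp at this
          linarith
        · exact h3
    have hk : ∀ a, (a = 1 ∨ a = 2) → CC.fP a L * (C ((1 - CC.w) ^ a + CC.w ^ a) *
        (((X + 1) * g.comp (-X)).comp (C (CC.w - 1) * X) * (C (-CC.w) * X - 1) ^ (2 * L + 1)) -
      C (-(((1 - CC.w) ^ a - CC.w ^ a) * 3)) *
        ((C (CC.w - 1) * X - 1) ^ (2 * L + 1) * (C (-CC.w) * X - 1) ^ (2 * L + 1))) =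
      C (CC.w ^ a) * (Wp L g) * (CC.fP a L).comp (C (-CC.w) * X) →
      ((1 - CC.w) ^ a + CC.w ^ a) *
        (((X + 1) * g.comp (-X)).comp (C (CC.w - 1) * X) * (C (-CC.w) * X - 1) ^ (2 * L + 1)).eval z -
      -(((1 - CC.w) ^ a - CC.w ^ a) * 3) *
        (((CC.w - 1) * z - 1) ^ (2 * L + 1) * (-CC.w * z - 1) ^ (2 * L + 1)) = 0 := by
      intro a ha hka
      have h1 := congrArg (eval z) hka
      have h5 : eval z (C (CC.w ^ a) * Wp L g * (CC.fP a L).comp (C (-CC.w) * X)) = 0 := by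
        rw [eval_mul, eval_mul, hW, mul_zero, zero_mul]
      rw [h5, eval_mul] at h1
      have h4 := (mul_eq_zero.1 h1).resolve_left (fP_sec a L ha hz hz1)
      simpa only [eval_sub, eval_mul, eval_C, eval_pow, eval_X, eval_one] using h4
    exact hfin z hz _ _ (D_ne hz (2 * L + 1)) (hk 1 (Or.inl rfl) k1) (hk 2 (Or.inr rfl) k2)

theorem nu_sec_ne {z : ℂ} (hz : z ∈ Sec) : z ^ 2 + z + 1 ≠ 0 := by
  intro h0
  have hre := Sec_re hz
  have h1 := congrArg Complex.re h0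
  have h2 := congrArg Complex.im h0
  have h : |z.im| ≤ Real.sqrt 3 * z.re := hz
  simp [pow_two] at h1 h2
  have h3 : z.im * (2 * z.re + 1) = 0 := by linarith
  rcases mul_eq_zero.1 h3 with h4 | h4
  · rw [h4] at h1
    nlinarith
  · linarith

/-- the base case -/
theorem base {L : ℕ} {lam : ℝ → ℝ[X]} (h : Fam L lam) : ∀ᶠ q in 𝓝[≠] (1:ℝ), Good L (lam q) := by
  by_contra hcon
  rw [Filter.not_eventually] at hcon
  set l : Filter ℝ := 𝓝[≠] (1:ℝ) ⊓ 𝓟 {q | ¬ Good L (lam q)} with hl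
  have hne : l.NeBot := frequently_mem_iff_neBot.1 hcon
  set U : Ultrafilter ℝ := Ultrafilter.of l with hU
  have hUl : (U : Filter ℝ) ≤ l := Ultrafilter.of_le l
  have hU1 : (U : Filter ℝ) ≤ 𝓝[≠] (1:ℝ) := hUl.trans inf_le_left
  have hUn : (U : Filter ℝ) ≤ 𝓝 (1:ℝ) := hU1.trans nhdsWithin_le_nhds
  have hbad : ∀ᶠ q in (U : Filter ℝ), ¬ Good L (lam q) :=
    (hUl.trans inf_le_right) (mem_principal_self _)
  have hq1 : ∀ᶠ q in (U : Filter ℝ), q ≠ 1 := hU1 self_mem_nhdsWithin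
  have hq0 : ∀ᶠ q in (U : Filter ℝ), 0 < q := hUn (lt_mem_nhds one_pos)
  have hqI : ∀ᶠ q in (U : Filter ℝ), q ∈ Set.Icc (1 / 2 : ℝ) 2 :=
    hUn (Icc_mem_nhds (by norm_num) (by norm_num))
  obtain ⟨c, hc⟩ := h.lip
  -- the difference quotient
  set γ : ℝ → ℝ[X] := fun q => C ((q - 1)⁻¹) * (lam q - nu L) with hγ
  have hγc : ∀ q k, (γ q).coeff k = (q - 1)⁻¹ * ((lam q).coeff k - (nu L).coeff k) := by
    intro q k
    rw [hγ]
    simp only [coeff_C_mul, coeff_sub]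
  have hlim : ∀ k, ∃ g : ℝ, Tendsto (fun q => (γ q).coeff k) U (𝓝 g) := by
    intro k
    have h1 : ∀ᶠ q in (U : Filter ℝ), (γ q).coeff k ∈ Set.Icc (-c) c := by
      filter_upwards [hq1, hqI] with q h2 h3
      have h4 := hc q h3 k
      have h5 : 0 < |q - 1| := abs_pos.2 (sub_ne_zero.2 h2)
      rw [Set.mem_Icc, ← abs_le, hγc, abs_mul, abs_inv, inv_mul_le_iff₀ h5, mul_comm]
      exact h4
    obtain ⟨g, _, hg⟩ := (isCompact_Icc (a := -c) (b := c)).ultrafilter_le_nhds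
      (U.map fun q => (γ q).coeff k) (by
        rw [le_principal_iff]
        exact h1)
    exact ⟨g, hg⟩
  choose g hg using hlim
  set Γ : ℝ[X] := ∑ k ∈ Finset.range (2 * L + 3), C (g k) * X ^ k with hΓ
  have hdegq : ∀ᶠ q in (U : Filter ℝ), (lam q).natDegree ≤ 2 * L + 2 := by
    filter_upwards [hq0] with q h1
    exact (h.sol q h1).deg
  have hγd : ∀ᶠ q in (U : Filter ℝ), (γ q).natDegree ≤ 2 * L + 2 := by
    filter_upwards [hdegq] with q h1
    exact (natDegree_C_mul_le _ _).trans ((natDegree_sub_le _ _).trans (max_le h1 (nu_deg L)))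
  have hΓd : Γ.natDegree ≤ 2 * L + 2 := by
    rw [hΓ]
    refine natDegree_sum_le_of_forall_le _ _ fun k hk => ?_
    rw [Finset.mem_range] at hk
    exact (natDegree_C_mul_X_pow_le _ _).trans (by omega)
  have hΓc : ∀ k, Tendsto (fun q => (γ q).coeff k) U (𝓝 (Γ.coeff k)) := by
    intro k
    have h1 : Γ.coeff k = if k < 2 * L + 3 then g k else 0 := by
      rw [hΓ, finsetSum_coeff]
      simp only [coeff_C_mul_X_pow]
      rw [Finset.sum_ite_eq]
      simp only [Finset.mem_range]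
    rw [h1]
    split_ifs with h2
    · exact hg k
    · refine tendsto_const_nhds.congr' ?_
      filter_upwards [hγd] with q h3
      exact (coeff_eq_zero_of_natDegree_lt (by omega)).symm
  have hlamc : ∀ k, Tendsto (fun q => (lam q).coeff k) U (𝓝 ((nu L).coeff k)) := by
    intro k
    have h1 : Tendsto (fun q : ℝ => q - 1) U (𝓝 (1 - 1)) := (tendsto_id'.2 hUn).sub_const 1
    have h2 := (h1.mul (hΓc k)).add_const ((nu L).coeff k)
    rw [sub_self, zero_mul, zero_add] at h2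
    refine h2.congr' ?_
    filter_upwards [hq1] with q h3
    have h4 : q - 1 ≠ 0 := sub_ne_zero.2 h3
    rw [hγc, mul_inv_cancel_left₀ h4]
    ring
  have hlamγ : ∀ q, q ≠ 1 → lam q = nu L + C (q - 1) * γ q := by
    intro q h3
    have h4 : q - 1 ≠ 0 := sub_ne_zero.2 h3
    rw [hγ]
    simp only
    rw [← mul_assoc, ← C_mul, mul_inv_cancel₀ h4, C_1]
    ring
  -- properties of the limit
  have hΓ0 : Γ.coeff 0 = 3 := by
    refine tendsto_nhds_unique (hΓc 0) ?_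
    refine tendsto_const_nhds.congr' ?_
    filter_upwards [hq0, hq1] with q h1 h2
    have h4 : q - 1 ≠ 0 := sub_ne_zero.2 h2
    rw [hγc, (h.sol q h1).zero, nu_coeff_zero]
    field_simp
    ring
  have hΓN : Γ.coeff (2 * L + 2) = 3 := by
    refine tendsto_nhds_unique (hΓc (2 * L + 2)) ?_
    refine tendsto_const_nhds.congr' ?_
    filter_upwards [hq0, hq1] with q h1 h2
    have h4 : q - 1 ≠ 0 := sub_ne_zero.2 h2
    have h5 := (h.sol q h1).pal 0 (Nat.zero_le _)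
    rw [Nat.sub_zero, (h.sol q h1).zero] at h5
    rw [hγc, h5, nu_coeff_top]
    field_simp
    ring
  have hrot : ∀ c, CT (U : Filter ℝ) (fun q => rot c (γ q)) (rot c Γ) (2 * L + 2) :=
    fun c => CT.rot hγd hΓd hΓc c
  have hΓw : aeval CC.w Γ = 0 := by
    have h1 := (hrot 1).eval CC.w
    simp only [rot_eval, one_mul] at h1
    refine tendsto_nhds_unique h1 ?_
    refine tendsto_const_nhds.congr' ?_
    filter_upwards [hq0] with q h2
    rw [hγ]
    simp only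
    rw [map_mul, map_sub, (h.sol q h2).atw, sub_self, mul_zero]
  -- the scaled fusion polynomials
  have hcn : ∀ c, (rot c (nu L)).natDegree ≤ 2 * L + 2 := fun c => (rot_deg c _).trans (nu_deg L)
  have hsm : Tendsto (fun q : ℝ => ((q:ℂ) - 1)) U (𝓝 0) := by
    have h1 : Tendsto (fun q : ℝ => ((q:ℂ) - 1)) (𝓝 (1:ℝ)) (𝓝 (((1:ℝ):ℂ) - 1)) :=
      (Complex.continuous_ofReal.tendsto 1).sub_const 1
    rw [Complex.ofReal_one, sub_self] at h1
    exact h1.mono_left hUn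
  have hV : CT (U : Filter ℝ) (fun q => Vp L (γ q) + C ((q:ℂ) - 1) * (rot CC.w (γ q) *
      rot (1 - CC.w) (γ q))) (Vp L Γ + C 0 * (rot CC.w Γ * rot (1 - CC.w) Γ))
      (2 * L + 2 + (2 * L + 2)) := by
    refine CT.add ?_ (CT.smul hsm ((hrot _).mul (hrot _)))
    unfold Vp
    exact ((hrot _).mul (CT.const (hcn _))).add ((CT.const (hcn _)).mul (hrot _))
  rw [C_0, zero_mul, add_zero] at hV
  have hYV : ∀ᶠ q : ℝ in (U : Filter ℝ), C (((q:ℂ) - 1)⁻¹) * Yp L (lam q) =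
      Vp L (γ q) + C ((q:ℂ) - 1) * (rot CC.w (γ q) * rot (1 - CC.w) (γ q)) := by
    filter_upwards [hq1] with q h1
    have h4 : (q:ℂ) - 1 ≠ 0 := by
      rw [← Complex.ofReal_one, ← Complex.ofReal_sub]
      exact Complex.ofReal_ne_zero.2 (sub_ne_zero.2 h1)
    have hr : ∀ c, rot c (lam q) = rot c (nu L) + C ((q:ℂ) - 1) * rot c (γ q) := by
      intro c
      refine Polynomial.funext fun z => ?_
      rw [eval_add, eval_mul, eval_C, rot_eval, rot_eval, rot_eval, hlamγ q h1, map_add, map_mul,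
        aeval_C, Complex.coe_algebraMap]
      push_cast
      ring
    have e : C (((q:ℂ) - 1)⁻¹) * C ((q:ℂ) - 1) = 1 := by
      rw [← C_mul, inv_mul_cancel₀ h4, C_1]
    unfold Yp Vp
    rw [hr, hr]
    linear_combination (rot CC.w (γ q) * rot (1 - CC.w) (nu L) +
      rot CC.w (nu L) * rot (1 - CC.w) (γ q) +
      C ((q:ℂ) - 1) * rot CC.w (γ q) * rot (1 - CC.w) (γ q)) * e
  have hdvd : (X - C 1) ^ (2 * L + 2) ∣ Vp L Γ := by
    refine hV.dvd 1 (2 * L + 2) ?_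
    filter_upwards [hYV, hq0] with q h1 h2
    rw [← h1]
    exact (h.sol q h2).fus.mul_left _
  have hfree := lin_free L Γ hΓd hΓ0 hΓw hdvd
  set QV : ℂ[X] := Vp L Γ /ₘ (X - C 1) ^ (2 * L + 2) with hQV
  have hQVm : Vp L Γ = (X - C 1) ^ (2 * L + 2) * QV := by
    obtain ⟨R, hR⟩ := hdvd
    rw [hQV, hR, mul_divByMonic_cancel_left _ ((monic_X_sub_C (1:ℂ)).pow _)]
  have hmon : ((X - C (1:ℂ)) ^ (2 * L + 2)).natDegree = 2 * L + 2 := by
    rw [natDegree_pow, natDegree_X_sub_C, mul_one]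
  have hmonl : ((X - C (1:ℂ)) ^ (2 * L + 2)).coeff (2 * L + 2) = 1 := by
    have := ((monic_X_sub_C (1:ℂ)).pow (2 * L + 2)).coeff_natDegree
    rwa [natDegree_pow, natDegree_X_sub_C, mul_one] at this
  have hQVd : QV.natDegree ≤ 2 * L + 2 := by
    by_cases hQ : QV = 0
    · rw [hQ, natDegree_zero]; exact Nat.zero_le _
    · have h1 := hV.deg'
      rw [hQVm, ((monic_X_sub_C (1:ℂ)).pow _).natDegree_mul' hQ, hmon] at h1
      omega
  have hQVt : QV.coeff (2 * L + 2) ≠ 0 := by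
    have h1 : (Vp L Γ).coeff (2 * L + 2 + (2 * L + 2)) = QV.coeff (2 * L + 2) := by
      rw [hQVm, coeff_top_mul _ _ _ _ hmon.le hQVd, hmonl, one_mul]
    rw [← h1]
    unfold Vp
    have hw : (CC.w * (1 - CC.w)) ^ (2 * L + 2) = 1 := by rw [CC.w_mul, one_pow]
    rw [mul_pow] at hw
    rw [coeff_add, coeff_top_mul _ _ _ _ ((rot_deg _ _).trans hΓd) (hcn _),
      coeff_top_mul _ _ _ _ (hcn _) ((rot_deg _ _).trans hΓd), rot_coeff, rot_coeff, rot_coeff,
      rot_coeff, nu_coeff_top, hΓN]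
    have h2 : ((3:ℝ):ℂ) * CC.w ^ (2 * L + 2) * (((1:ℝ):ℂ) * (1 - CC.w) ^ (2 * L + 2)) +
        ((1:ℝ):ℂ) * CC.w ^ (2 * L + 2) * (((3:ℝ):ℂ) * (1 - CC.w) ^ (2 * L + 2)) = 6 := by
      push_cast
      linear_combination 6 * hw
    rw [h2]
    norm_num
  -- no zeros of the two polynomials
  have hev2 := rc_open (l := (U : Filter ℝ)) (fun q => C (((q:ℂ) - 1)⁻¹) * Qp L (lam q)) QV
    (2 * L + 2) (by
      filter_upwards [hq0] with q h1
      exact (natDegree_C_mul_le _ _).trans (Qp_natDeg (h.sol q h1).deg (h.sol q h1).fus)) hQVt hQVd (by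
      have h1 := CT.quot hV 1 (2 * L + 2) (q := fun q : ℝ => C (((q:ℂ) - 1)⁻¹) * Qp L (lam q)) (Q := QV)
        (by
          filter_upwards [hYV, hq0] with q h2 h3
          rw [← h2, Qp_mul (h.sol q h3).fus]
          ring) hQVm
      exact h1.coeff) Sec Sec_closed hfree
  have hev1 := rc_open (l := (U : Filter ℝ)) (fun q => rot 1 (lam q)) (rot 1 (nu L)) (2 * L + 2)
    (by
      filter_upwards [hdegq] with q h1
      exact (rot_deg _ _).trans h1) (by
      rw [rot_coeff, nu_coeff_top]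
      simp) (hcn 1) (CT.rot hdegq (nu_deg L) hlamc 1).coeff Sec Sec_closed (by
      intro z hz
      rw [rot_eval, one_mul, nu_eval]
      have hre := Sec_re hz
      refine mul_ne_zero (pow_ne_zero _ ?_) ?_
      · intro h0
        have := congrArg Complex.re h0
        simp at this
        linarith
      · exact nu_sec_ne hz)
  have hgood : ∀ᶠ q in (U : Filter ℝ), Good L (lam q) := by
    filter_upwards [hev1, hev2] with q h1 h2
    refine ⟨fun z hz => ?_, fun z hz => ?_⟩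
    · have h3 := h1 z hz
      rwa [rot_eval, one_mul] at h3
    · have h3 := h2 z hz
      rw [eval_mul] at h3
      exact right_ne_zero_of_mul h3
  obtain ⟨q, h1, h2⟩ := (hgood.and hbad).exists
  exact h2 h1

end EP
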