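import Pool.Agent.Helper86.EP.MaxPr

/-! Bounds which are uniform in `L` (module BOUNDS). -/

namespace EP
open Polynomial Filter Topology

theorem pos_of_ne {f : ℝ → ℝ} (hf : Continuous f) (h0 : 0 < f 0) (hne : ∀ z, 0 ≤ z → f z ≠ 0) :
    ∀ z, 0 ≤ z → 0 < f z := by
  intro z hz
  by_contra hneg
  push Not at hneg
  obtain ⟨t, ht, ht0⟩ := intermediate_value_Icc' hz hf.continuousOn ⟨hneg, h0.le⟩
  exact hne t ht.1 ht0

theorem ofReal_mem_Sec {z : ℝ} (hz : 0 ≤ z) : (z : ℂ) ∈ Sec := by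
  show |((z : ℝ) : ℂ).im| ≤ Real.sqrt 3 * ((z : ℝ) : ℂ).re
  rw [Complex.ofReal_im, Complex.ofReal_re, abs_zero]
  positivity

theorem p_pos {L : ℕ} {q : ℝ} {p : ℝ[X]} (h : Sol L q p) (hq : 2 / 3 < q)
    (hp : ∀ z : ℝ, 0 ≤ z → aeval (z : ℂ) p ≠ 0) : ∀ z : ℝ, 0 ≤ z → 0 < p.eval z := by
  refine pos_of_ne p.continuous ?_ ?_
  · rw [← coeff_zero_eq_eval_zero, h.zero]; linarith
  · intro z hz h0
    apply hp z hz
    rw [aeval_ofReal', h0, Complex.ofReal_zero]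

theorem Qp_im {L : ℕ} {q : ℝ} {p : ℝ[X]} (h : Sol L q p) (z : ℝ) :
    ((Qp L p).eval (z : ℂ)).im = 0 := by
  have h1 := Qp_conj h z
  rw [Complex.conj_ofReal] at h1
  have h2 := congrArg Complex.im h1
  rw [Complex.conj_im] at h2
  linarith

theorem Qp_zero {L : ℕ} {q : ℝ} {p : ℝ[X]} (h : Sol L q p) :
    (Qp L p).eval 0 = (((3 * q - 2) ^ 2 - 1 : ℝ) : ℂ) := by
  have e0 : ∀ r : ℝ[X], aeval (0 : ℂ) r = ((r.coeff 0 : ℝ) : ℂ) := by
    intro r
    have := aeval_ofReal' r 0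
    rw [Complex.ofReal_zero, ← coeff_zero_eq_eval_zero] at this
    exact this
  have hn : (nu L).coeff 0 = 1 := by
    rw [coeff_zero_eq_eval_zero, nu_real]; norm_num
  have h1 : (Yp L p).eval 0 = (((3 * q - 2) ^ 2 - 1 : ℝ) : ℂ) := by
    rw [Yp_eval, mul_zero, mul_zero, e0, e0, h.zero, hn]
    push_cast
    ring
  rw [Yp_eq h, eval_mul, eval_pow, eval_sub, eval_X, eval_C] at h1
  have h2 : ((0 : ℂ) - 1) ^ (2 * L + 2) = 1 := by
    rw [show 2 * L + 2 = 2 * (L + 1) by ring, pow_mul]; norm_num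
  rw [h2, one_mul] at h1
  exact h1

theorem Qp_re_cont (L : ℕ) (p : ℝ[X]) : Continuous fun z : ℝ => ((Qp L p).eval (z : ℂ)).re :=
  Complex.continuous_re.comp ((Qp L p).continuous.comp Complex.continuous_ofReal)

theorem Qp_pos {L : ℕ} {q : ℝ} {p : ℝ[X]} (h : Sol L q p) (hq : 1 < q)
    (hQ : ∀ z : ℝ, 0 ≤ z → (Qp L p).eval (z : ℂ) ≠ 0) (z : ℝ) (hz : 0 ≤ z) :
    0 < ((Qp L p).eval (z : ℂ)).re := by
  refine pos_of_ne (Qp_re_cont L p) ?_ ?_ z hz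
  · show 0 < ((Qp L p).eval ((0 : ℝ) : ℂ)).re
    rw [Complex.ofReal_zero, Qp_zero h, Complex.ofReal_re]
    nlinarith
  · intro t ht h0
    exact hQ t ht (Complex.ext h0 (Qp_im h t))

theorem Qp_neg {L : ℕ} {q : ℝ} {p : ℝ[X]} (h : Sol L q p) (hq : 1 / 3 < q) (hq1 : q < 1)
    (hQ : ∀ z : ℝ, 0 ≤ z → (Qp L p).eval (z : ℂ) ≠ 0) (z : ℝ) (hz : 0 ≤ z) :
    ((Qp L p).eval (z : ℂ)).re < 0 := by
  have := pos_of_ne (f := fun z : ℝ => -((Qp L p).eval (z : ℂ)).re) (Qp_re_cont L p).neg ?_ ?_ z hz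
  · simpa using this
  · show 0 < -((Qp L p).eval ((0 : ℝ) : ℂ)).re
    rw [Complex.ofReal_zero, Qp_zero h, Complex.ofReal_re]
    nlinarith
  · intro t ht h0
    exact hQ t ht (Complex.ext (by simpa using h0) (Qp_im h t))

theorem yx_real {L : ℕ} {q : ℝ} {p : ℝ[X]} (h : Sol L q p) (x : ℝ) :
    yx L p x * ‖aeval (CC.w * Real.exp (2 * x)) (nu L)‖ ^ 2 =
      (Real.exp (2 * x) - 1) ^ (2 * L + 2) * ((Qp L p).eval ((Real.exp (2 * x) : ℝ) : ℂ)).re := by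
  have hw1 : ∀ r : ℝ[X], aeval (CC.w * (Real.exp (2 * x) : ℝ)) r *
      aeval ((1 - CC.w) * (Real.exp (2 * x) : ℝ)) r =
        ((‖aeval (CC.w * (Real.exp (2 * x) : ℝ)) r‖ ^ 2 : ℝ) : ℂ) := by
    intro r
    have e1 : ((1 - CC.w) * ((Real.exp (2 * x) : ℝ) : ℂ)) =
        (starRingEnd ℂ) (CC.w * (Real.exp (2 * x) : ℝ)) := by
      rw [map_mul, conj_w, Complex.conj_ofReal]
    rw [e1, aeval_conj', Complex.mul_conj, Complex.normSq_eq_norm_sq]
  have hy : ‖aeval (CC.w * (Real.exp (2 * x) : ℝ)) p‖ ^ 2 -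
      ‖aeval (CC.w * (Real.exp (2 * x) : ℝ)) (nu L)‖ ^ 2 = yx L p x *
        ‖aeval (CC.w * (Real.exp (2 * x) : ℝ)) (nu L)‖ ^ 2 := by
    rw [yx_eq L p x]; ring
  have h1 : (Yp L p).eval ((Real.exp (2 * x) : ℝ) : ℂ) = ((yx L p x *
      ‖aeval (CC.w * (Real.exp (2 * x) : ℝ)) (nu L)‖ ^ 2 : ℝ) : ℂ) := by
    rw [Yp_eval, hw1, hw1, ← hy]
    push_cast
    ring
  rw [Yp_eq h, eval_mul, eval_pow, eval_sub, eval_X, eval_C] at h1
  have h2 : (((Real.exp (2 * x) : ℝ) : ℂ) - 1) ^ (2 * L + 2) =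
      (((Real.exp (2 * x) - 1) ^ (2 * L + 2) : ℝ) : ℂ) := by push_cast; ring
  rw [h2] at h1
  have h3 := congrArg Complex.re h1
  rw [Complex.re_ofReal_mul, Complex.ofReal_re] at h3
  exact h3.symm

theorem nu_norm_pos (L : ℕ) (x : ℝ) : 0 < ‖aeval (CC.w * Real.exp (2 * x)) (nu L)‖ ^ 2 :=
  pow_pos (norm_pos_iff.2 (nu_ne_zero (w_mul_mem x))) _

theorem yx_nonneg {L : ℕ} {q : ℝ} {p : ℝ[X]} (h : Sol L q p)
    (hQ : ∀ z : ℝ, 0 ≤ z → 0 ≤ ((Qp L p).eval (z : ℂ)).re) (x : ℝ) : 0 ≤ yx L p x := by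
  have h1 := yx_real h x
  have h2 := hQ _ (Real.exp_pos (2 * x)).le
  have h3 : 0 ≤ (Real.exp (2 * x) - 1) ^ (2 * L + 2) := by
    rw [show 2 * L + 2 = 2 * (L + 1) by ring, pow_mul]; positivity
  exact nonneg_of_mul_nonneg_left (by rw [h1]; positivity) (nu_norm_pos L x)

theorem yx_nonpos {L : ℕ} {q : ℝ} {p : ℝ[X]} (h : Sol L q p)
    (hQ : ∀ z : ℝ, 0 ≤ z → ((Qp L p).eval (z : ℂ)).re ≤ 0) (x : ℝ) : yx L p x ≤ 0 := by
  have h1 := yx_real h x
  have h2 := hQ _ (Real.exp_pos (2 * x)).le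
  have h3 : 0 ≤ (Real.exp (2 * x) - 1) ^ (2 * L + 2) := by
    rw [show 2 * L + 2 = 2 * (L + 1) by ring, pow_mul]; positivity
  have h4 := mul_nonpos_of_nonneg_of_nonpos h3 h2
  rw [← h1] at h4
  by_contra h5
  push Not at h5
  have := mul_pos h5 (nu_norm_pos L x)
  linarith

theorem gx_le {L : ℕ} {p : ℝ[X]} {B : ℝ} (x : ℝ) (h : ∀ z ∈ Sec, ‖aeval z p‖ ≤
    B * ‖aeval z (nu L)‖) : gx L p x ≤ B := by
  have h1 := h _ (ofReal_mem_Sec (Real.exp_pos (2 * x)).le)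
  have hn := nu_real_pos L (Real.exp_pos (2 * x)).le
  rw [aeval_ofReal', aeval_ofReal', Complex.norm_real, Complex.norm_real, Real.norm_eq_abs,
    Real.norm_of_nonneg hn.le] at h1
  unfold gx
  rw [div_le_iff₀ hn]
  exact (le_abs_self _).trans h1

theorem le_gx {L : ℕ} {p : ℝ[X]} {m : ℝ} (x : ℝ) (hp : 0 < p.eval (Real.exp (2 * x)))
    (h : ∀ z ∈ Sec, m * ‖aeval z (nu L)‖ ≤ ‖aeval z p‖) : m ≤ gx L p x := by
  have h1 := h _ (ofReal_mem_Sec (Real.exp_pos (2 * x)).le)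
  have hn := nu_real_pos L (Real.exp_pos (2 * x)).le
  rw [aeval_ofReal', aeval_ofReal', Complex.norm_real, Complex.norm_real,
    Real.norm_of_nonneg hp.le, Real.norm_of_nonneg hn.le] at h1
  unfold gx
  rw [le_div_iff₀ hn]
  exact h1

theorem th_sq_le (x : ℝ) : th x ^ 2 ≤ 1 := by
  unfold th
  have := Real.abs_tanh_lt_one (3 * x / 2)
  rw [← sq_abs]
  exact pow_le_one₀ (abs_nonneg _) this.le

theorem th_pow_le (L : ℕ) (x : ℝ) : |th x| ^ (2 * L + 2) * (2 / (1 + th x ^ 2)) ≤ 1 := by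
  have h1 := th_sq_le x
  have h0 : 0 ≤ th x ^ 2 := sq_nonneg _
  have h2 : |th x| ^ (2 * L + 2) = (th x ^ 2) ^ (L + 1) := by
    rw [← sq_abs (th x), ← pow_mul]; congr 1
  rw [h2, ← mul_div_assoc, div_le_one (by positivity)]
  have h3 : (th x ^ 2) ^ (L + 1) ≤ th x ^ 2 := by
    calc (th x ^ 2) ^ (L + 1) ≤ (th x ^ 2) ^ 1 := pow_le_pow_of_le_one h0 h1 (by omega)
      _ = th x ^ 2 := pow_one _
  linarith

theorem th_pow_le2 (L : ℕ) (x : ℝ) : |th x| ^ (2 * L + 2) * (2 / (1 + th x ^ 2)) ≤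
    2 * |th x| ^ (2 * L + 2) := by
  have h0 : 0 ≤ th x ^ 2 := sq_nonneg _
  rw [mul_comm]
  refine mul_le_mul_of_nonneg_right ?_ (by positivity)
  rw [div_le_iff₀ (by positivity)]
  linarith

theorem th_pow_lt (L : ℕ) (x : ℝ) : |th x| ^ (2 * L + 2) * (2 / (1 + th x ^ 2)) < 1 := by
  have h1 : th x ^ 2 < 1 := by
    unfold th
    have := Real.abs_tanh_lt_one (3 * x / 2)
    rw [← sq_abs]
    exact pow_lt_one₀ (abs_nonneg _) this (by norm_num)
  have h0 : 0 ≤ th x ^ 2 := sq_nonneg _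
  have h2 : |th x| ^ (2 * L + 2) = (th x ^ 2) ^ (L + 1) := by
    rw [← sq_abs (th x), ← pow_mul]; congr 1
  rw [h2, ← mul_div_assoc, div_lt_one (by positivity)]
  have h3 : (th x ^ 2) ^ (L + 1) ≤ th x ^ 2 := by
    calc (th x ^ 2) ^ (L + 1) ≤ (th x ^ 2) ^ 1 := pow_le_pow_of_le_one h0 h1.le (by omega)
      _ = th x ^ 2 := pow_one _
  linarith

theorem tanh_sq_le (x : ℝ) : Real.tanh x ^ 2 ≤ 1 := by
  have := Real.abs_tanh_lt_one x
  rw [← sq_abs]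
  exact pow_le_one₀ (abs_nonneg _) this.le

/-- `y` is bounded -/
theorem yx_bdd {L : ℕ} {q : ℝ} {p : ℝ[X]} (h : Sol L q p) :
    ∃ c : ℝ, ∀ x, |yx L p x| ≤ c := by
  obtain ⟨c, hc, hcb⟩ := ratio_bound (p.map (algebraMap ℝ ℂ)) ((nu L).map (algebraMap ℝ ℂ)) 0
    (by rw [natDegree_map, natDegree_map, nu_natDegree]; exact h.deg) Sec Sec_closed (by
      intro z hz
      rw [eval_map_algebraMap]
      exact nu_ne_zero hz)
  refine ⟨c ^ 2 + 1, fun x => ?_⟩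
  have h1 := hcb _ (w_mul_mem x)
  rw [eval_map_algebraMap, eval_map_algebraMap, pow_zero, mul_one] at h1
  have hn := nu_norm_pos L x
  have h2 : yx L p x + 1 ≤ c ^ 2 := by
    have h3 := pow_le_pow_left₀ (norm_nonneg _) h1 2
    rw [mul_pow, yx_eq] at h3
    exact le_of_mul_le_mul_right h3 hn
  have h3 : 0 ≤ yx L p x + 1 := by
    unfold yx
    have : 0 ≤ ‖aeval (CC.w * Real.exp (2 * x)) p‖ ^ 2 /
      ‖aeval (CC.w * Real.exp (2 * x)) (nu L)‖ ^ 2 := by positivity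
    linarith
  rw [abs_le]
  constructor
  · nlinarith [sq_nonneg c]
  · linarith

/-- `1 + y` is bounded from below -/
theorem yx_low {L : ℕ} {q : ℝ} {p : ℝ[X]} (h : Sol L q p) (hq : 2 / 3 < q)
    (hp : ∀ z ∈ Sec, aeval z p ≠ 0) :
    ∃ c : ℝ, 0 < c ∧ ∀ x, c ≤ 1 + yx L p x := by
  have hpd : 2 * L + 2 ≤ p.natDegree := by
    refine le_natDegree_of_ne_zero ?_
    have := h.pal 0 (Nat.zero_le _)
    rw [Nat.sub_zero, h.zero] at this
    rw [this]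
    linarith
  obtain ⟨c, hc, hcb⟩ := ratio_bound ((nu L).map (algebraMap ℝ ℂ)) (p.map (algebraMap ℝ ℂ)) 0
    (by rw [natDegree_map, natDegree_map, nu_natDegree]; exact hpd) Sec Sec_closed (by
      intro z hz
      rw [eval_map_algebraMap]
      exact hp z hz)
  refine ⟨(c ^ 2)⁻¹, by positivity, fun x => ?_⟩
  have h1 := hcb _ (w_mul_mem x)
  rw [eval_map_algebraMap, eval_map_algebraMap, pow_zero, mul_one] at h1
  have hn := nu_norm_pos L x
  have h3 := pow_le_pow_left₀ (norm_nonneg _) h1 2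
  rw [mul_pow, yx_eq L p] at h3
  rw [inv_le_iff_one_le_mul₀ (by positivity)]
  have h4 : ‖aeval (CC.w * Real.exp (2 * x)) (nu L)‖ ^ 2 * 1 ≤
      ‖aeval (CC.w * Real.exp (2 * x)) (nu L)‖ ^ 2 * ((1 + yx L p x) * c ^ 2) := by
    linarith
  exact le_of_mul_le_mul_left h4 hn

theorem kap_eq (q : ℝ) : kap q = (3 * q - 2 - 1) ^ 2 * (3 * q - 2 + 2) := by
  unfold kap; ring

theorem q0_gt : 2 / 3 < q0 := by
  have h1 : 0 < Real.cos (2 * (2 * Real.pi / 9)) := by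
    apply Real.cos_pos_of_mem_Ioo
    constructor <;> linarith [Real.pi_pos]
  rw [Real.cos_two_mul] at h1
  unfold q0
  linarith

theorem kap_lt_one {q : ℝ} (hq : q0 < q) (hq1 : q < 1) : kap q < 1 := by
  have h23 := q0_gt
  have h0 : kap q0 = 1 := by
    have h1 : Real.cos (3 * (2 * Real.pi / 9)) = -1 / 2 := by
      rw [show 3 * (2 * Real.pi / 9) = Real.pi - Real.pi / 3 by ring, Real.cos_pi_sub,
        Real.cos_pi_div_three]
      norm_num
    rw [Real.cos_three_mul] at h1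
    set c := Real.cos (2 * Real.pi / 9) with hc
    unfold kap q0
    rw [← hc]
    have h2 : (4 * c ^ 3 - 3 * c) ^ 2 = 1 / 4 := by rw [h1]; norm_num
    nlinarith [h2]
  rw [← h0]
  unfold kap
  have h2 : q0 < 1 := by linarith
  nlinarith [mul_pos (sub_pos.2 hq) (sub_pos.2 hq1), mul_pos (sub_pos.2 hq) (sub_pos.2 h2),
    mul_pos (sub_pos.2 hq) (show 0 < 3 - (3 * q - 2) ^ 2 - (3 * q - 2) * (3 * q0 - 2) -
      (3 * q0 - 2) ^ 2 by nlinarith)]

theorem kap_nonneg {q : ℝ} (hq : 0 ≤ q) : 0 ≤ kap q := by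
  unfold kap; positivity

theorem bounds_gt {q : ℝ} (hq1 : 1 < q) : ∃ m M c1 : ℝ, 0 < m ∧ m ≤ 3 * q - 2 ∧
    3 * q - 2 ≤ M ∧ 0 ≤ c1 ∧ ∀ L : ℕ, ∀ p : ℝ[X], Sol L q p → Good L p → ∀ x,
      m ≤ gx L p x ∧ gx L p x ≤ M ∧
      |Real.log (1 + yx L p x)| ≤ c1 * |th x| ^ (2 * L + 2) := by
  have hk := kap_nonneg (show 0 ≤ q by linarith)
  set G := 3 * q - 2 with hG
  have hG1 : 1 < G := by rw [hG]; linarith
  refine ⟨1, G, 2 * Real.sqrt ((G - 1) ^ 2 + kap q * G), one_pos, hG1.le, le_rfl, by positivity,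
    fun L p h hgood x => ?_⟩
  have hreal : ∀ z : ℝ, 0 ≤ z → aeval (z : ℂ) p ≠ 0 := fun z hz => hgood.1 _ (ofReal_mem_Sec hz)
  have hppos := p_pos h (by linarith) hreal
  have hy0 : ∀ x, 0 ≤ yx L p x := yx_nonneg h fun z hz =>
    (Qp_pos h hq1 (fun z hz => hgood.2 _ (ofReal_mem_Sec hz)) z hz).le
  obtain ⟨c, hc⟩ := yx_bdd h
  have hbdd : BddAbove (Set.range (yx L p)) := by
    refine ⟨c, ?_⟩
    rintro _ ⟨x, rfl⟩
    exact (le_abs_self _).trans (hc x)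
  set T := sSup (Set.range (yx L p)) with hT
  have hTy : ∀ x, yx L p x ≤ T := fun x => le_csSup hbdd ⟨x, rfl⟩
  have hT0 : 0 ≤ T := (hy0 0).trans (hTy 0)
  set M := Real.sqrt (1 + T) with hM
  have hM2 : M ^ 2 = 1 + T := Real.sq_sqrt (by linarith)
  have hM0 : 0 ≤ M := Real.sqrt_nonneg _
  have hM1 : 1 ≤ M := by nlinarith
  have hgM : ∀ x, gx L p x ≤ M := fun x => gx_le x (mp1 h M hM0 fun x => by
    rw [hM2]; linarith [hTy x])
  have hg1 : ∀ x, 1 ≤ gx L p x := fun x => le_gx x (hppos _ (Real.exp_pos _).le)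
    (mp1' h (by linarith) hgood.1 1 one_pos fun x => by linarith [hy0 x])
  have hbound : ∀ A : ℝ, M ≤ A → ∀ x, (1 - gx L p x) ^ 2 * Real.tanh (3 * x) ^ 2 +
      kap q * gx L p x ≤ Real.sqrt ((A - 1) ^ 2 + kap q * A) ^ 2 := by
    intro A hA x
    rw [Real.sq_sqrt (by have : 0 ≤ A := hM0.trans hA; positivity)]
    have h1 := hgM x
    have h2 := hg1 x
    have h3 : (1 - gx L p x) ^ 2 * Real.tanh (3 * x) ^ 2 ≤ (A - 1) ^ 2 := by
      calc (1 - gx L p x) ^ 2 * Real.tanh (3 * x) ^ 2 ≤ (1 - gx L p x) ^ 2 * 1 :=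
            mul_le_mul_of_nonneg_left (tanh_sq_le _) (sq_nonneg _)
        _ ≤ (A - 1) ^ 2 := by nlinarith
    have h4 : kap q * gx L p x ≤ kap q * A := mul_le_mul_of_nonneg_left (h1.trans hA) hk
    linarith
  have hMG : M ≤ G := by
    have h1 : T ≤ Real.sqrt ((M - 1) ^ 2 + kap q * M) := by
      refine csSup_le ⟨_, ⟨0, rfl⟩⟩ ?_
      rintro _ ⟨x, rfl⟩
      have h2 := mp2 h _ (Real.sqrt_nonneg _) (hbound M le_rfl) x
      refine (le_abs_self _).trans (h2.trans ?_)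
      exact mul_le_of_le_one_right (Real.sqrt_nonneg _) (th_pow_le L x)
    have h2 := pow_le_pow_left₀ hT0 h1 2
    rw [Real.sq_sqrt (by positivity)] at h2
    have h3 : T = M ^ 2 - 1 := by linarith
    rw [h3, kap_eq, ← hG] at h2
    by_contra hlt
    push Not at hlt
    have hMpos : 0 < M := by linarith
    have h4 : M * ((M - 1) ^ 2 * (M + 2)) ≤ M * ((G - 1) ^ 2 * (G + 2)) := by nlinarith
    have h5 := le_of_mul_le_mul_left h4 hMpos
    have h6 : (G - 1) ^ 2 < (M - 1) ^ 2 := by nlinarith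
    nlinarith [sq_nonneg (G - 1), mul_pos (show 0 < (M - 1) ^ 2 - (G - 1) ^ 2 by linarith)
      (show 0 < M + 2 by linarith), mul_nonneg (sq_nonneg (G - 1)) (show 0 ≤ M - G by linarith)]
  refine ⟨hg1 x, (hgM x).trans hMG, ?_⟩
  have h2 := mp2 h _ (Real.sqrt_nonneg _) (hbound G hMG) x
  rw [abs_of_nonneg (hy0 x)] at h2
  have h3 := mul_le_mul_of_nonneg_left (th_pow_le2 L x)
    (Real.sqrt_nonneg ((G - 1) ^ 2 + kap q * G))
  have h4 : 0 ≤ Real.log (1 + yx L p x) := Real.log_nonneg (by linarith [hy0 x])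
  have h5 : Real.log (1 + yx L p x) ≤ yx L p x := by
    have := Real.log_le_sub_one_of_pos (show 0 < 1 + yx L p x by linarith [hy0 x])
    linarith
  rw [abs_of_nonneg h4]
  calc _ ≤ _ := h5
    _ ≤ _ := h2
    _ ≤ _ := h3
    _ = _ := by ring

theorem bounds_lt {q : ℝ} (hq : q0 < q) (hq1 : q < 1) : ∃ m M c1 : ℝ, 0 < m ∧ m ≤ 3 * q - 2 ∧
    3 * q - 2 ≤ M ∧ 0 ≤ c1 ∧ ∀ L : ℕ, ∀ p : ℝ[X], Sol L q p → Good L p → ∀ x,
      m ≤ gx L p x ∧ gx L p x ≤ M ∧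
      |Real.log (1 + yx L p x)| ≤ c1 * |th x| ^ (2 * L + 2) := by
  have h23 := q0_gt
  have hk := kap_nonneg (show 0 ≤ q by linarith)
  have hk1 := kap_lt_one hq hq1
  set G := 3 * q - 2 with hG
  have hG0 : 0 < G := by rw [hG]; linarith
  have hG1 : G < 1 := by rw [hG]; linarith
  set η0 := max (Real.sqrt (kap q)) (1 - G ^ 2) with hη0
  have hη1 : η0 < 1 := by
    rw [hη0]
    refine max_lt ?_ (by nlinarith)
    rw [Real.sqrt_lt' one_pos]
    linarith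
  have hη00 : 0 ≤ η0 := (Real.sqrt_nonneg _).trans (le_max_left _ _)
  have hηG : 1 - η0 ≤ G ^ 2 := by
    have := le_max_right (Real.sqrt (kap q)) (1 - G ^ 2)
    rw [← hη0] at this
    linarith
  refine ⟨Real.sqrt (1 - η0), 1, 2 / (1 - η0), Real.sqrt_pos.2 (by linarith), ?_, hG1.le,
    by have : 0 < 1 - η0 := by linarith
       positivity, fun L p h hgood x => ?_⟩
  · calc Real.sqrt (1 - η0) ≤ Real.sqrt (G ^ 2) := Real.sqrt_le_sqrt hηG
      _ = G := Real.sqrt_sq hG0.le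
  have hreal : ∀ z : ℝ, 0 ≤ z → aeval (z : ℂ) p ≠ 0 := fun z hz => hgood.1 _ (ofReal_mem_Sec hz)
  have hppos := p_pos h (by linarith) hreal
  have hy0 : ∀ x, yx L p x ≤ 0 := yx_nonpos h fun z hz =>
    (Qp_neg h (by linarith) hq1 (fun z hz => hgood.2 _ (ofReal_mem_Sec hz)) z hz).le
  obtain ⟨c, hc0, hc⟩ := yx_low h (by linarith) hgood.1
  have hbdd : BddAbove (Set.range fun x => -yx L p x) := by
    refine ⟨1 - c, ?_⟩
    rintro _ ⟨x, rfl⟩
    show -yx L p x ≤ 1 - c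
    linarith [hc x]
  set T := sSup (Set.range fun x => -yx L p x) with hT
  have hTy : ∀ x, -yx L p x ≤ T := fun x => le_csSup hbdd ⟨x, rfl⟩
  have hT0 : 0 ≤ T := (neg_nonneg.2 (hy0 0)).trans (hTy 0)
  have hTc : T ≤ 1 - c := by
    refine csSup_le ⟨_, ⟨0, rfl⟩⟩ ?_
    rintro _ ⟨x, rfl⟩
    show -yx L p x ≤ 1 - c
    linarith [hc x]
  set m := Real.sqrt (1 - T) with hm
  have hm2 : m ^ 2 = 1 - T := Real.sq_sqrt (by linarith)
  have hm0 : 0 < m := Real.sqrt_pos.2 (by linarith)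
  have hm1 : m ≤ 1 := by nlinarith
  have hg1 : ∀ x, gx L p x ≤ 1 := fun x => gx_le x (mp1 h 1 zero_le_one fun x => by
    linarith [hy0 x])
  have hgm : ∀ x, m ≤ gx L p x := fun x => le_gx x (hppos _ (Real.exp_pos _).le)
    (mp1' h (by linarith) hgood.1 m hm0 fun x => by rw [hm2]; linarith [hTy x])
  have hb : ∀ x, (1 - gx L p x) ^ 2 * Real.tanh (3 * x) ^ 2 + kap q * gx L p x ≤
      max ((1 - m) ^ 2 + kap q * m) (kap q) := by
    intro x
    have h1 := hg1 x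
    have h2 := hgm x
    set g := gx L p x with hg
    have h3 : (1 - g) ^ 2 * Real.tanh (3 * x) ^ 2 ≤ (1 - g) ^ 2 :=
      mul_le_of_le_one_right (sq_nonneg _) (tanh_sq_le _)
    rw [le_max_iff]
    by_cases h4 : 1 - g ≤ kap q
    · right
      nlinarith
    · left
      push Not at h4
      nlinarith [mul_nonneg (sub_nonneg.2 h2) (show 0 ≤ 2 - m - g - kap q by linarith)]
  have hmG : T ≤ η0 := by
    have hmx : 0 ≤ max ((1 - m) ^ 2 + kap q * m) (kap q) := le_max_of_le_right hk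
    have h1 : T ≤ Real.sqrt (max ((1 - m) ^ 2 + kap q * m) (kap q)) := by
      refine csSup_le ⟨_, ⟨0, rfl⟩⟩ ?_
      rintro _ ⟨x, rfl⟩
      have h2 := mp2 h (Real.sqrt (max ((1 - m) ^ 2 + kap q * m) (kap q))) (Real.sqrt_nonneg _)
        (fun x => by rw [Real.sq_sqrt hmx]; exact hb x) x
      refine (neg_le_abs _).trans (h2.trans ?_)
      exact mul_le_of_le_one_right (Real.sqrt_nonneg _) (th_pow_le L x)
    rcases le_total ((1 - m) ^ 2 + kap q * m) (kap q) with hc1 | hc1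
    · rw [max_eq_right hc1] at h1
      exact h1.trans (le_max_left _ _)
    · rw [max_eq_left hc1] at h1
      have h2 := pow_le_pow_left₀ hT0 h1 2
      rw [Real.sq_sqrt (by positivity)] at h2
      have h3 : T = 1 - m ^ 2 := by linarith
      rw [h3, kap_eq, ← hG] at h2
      have h4 : m * ((m - 1) ^ 2 * (m + 2)) ≤ m * ((G - 1) ^ 2 * (G + 2)) := by nlinarith
      have h5 := le_of_mul_le_mul_left h4 hm0
      have h6 : G ≤ m := by
        by_contra hlt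
        push Not at hlt
        have h7 : 0 < 3 - m ^ 2 - m * G - G ^ 2 := by nlinarith
        nlinarith [mul_pos (sub_pos.2 hlt) h7]
      refine le_trans ?_ (le_max_right _ _)
      rw [h3]
      nlinarith
  have hm0' : Real.sqrt (1 - η0) ≤ m := Real.sqrt_le_sqrt (by linarith)
  refine ⟨hm0'.trans (hgm x), hg1 x, ?_⟩
  have h2 := mp2 h 1 zero_le_one (fun x => by
    have h1 := hg1 x
    have h2 := hgm x
    set g := gx L p x with hg
    have h3 : (1 - g) ^ 2 * Real.tanh (3 * x) ^ 2 ≤ (1 - g) ^ 2 :=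
      mul_le_of_le_one_right (sq_nonneg _) (tanh_sq_le _)
    have h4 : kap q * g ≤ 1 * g := mul_le_mul_of_nonneg_right hk1.le (by linarith)
    nlinarith) x
  rw [one_mul] at h2
  have h3 := h2.trans (th_pow_le2 L x)
  rw [abs_of_nonpos (hy0 x)] at h3
  have h5 : 1 - η0 ≤ 1 + yx L p x := by linarith [hTy x]
  have h6 : 0 < 1 + yx L p x := by linarith
  have h7 : Real.log (1 + yx L p x) ≤ 0 := Real.log_nonpos h6.le (by linarith [hy0 x])
  have h8 : -Real.log (1 + yx L p x) ≤ -yx L p x / (1 - η0) := by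
    rw [← Real.log_inv]
    have h9 := Real.log_le_sub_one_of_pos (inv_pos.2 h6)
    refine h9.trans ?_
    have h10 : (1 + yx L p x)⁻¹ - 1 = -yx L p x / (1 + yx L p x) := by
      field_simp
      ring
    rw [h10]
    exact div_le_div_of_nonneg_left (neg_nonneg.2 (hy0 x)) (by linarith) h5
  rw [abs_of_nonpos h7]
  calc _ ≤ _ := h8
    _ ≤ (2 * |th x| ^ (2 * L + 2)) / (1 - η0) :=
        div_le_div_of_nonneg_right h3 (by linarith)
    _ = _ := by ring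

theorem bounds (q : ℝ) (hq : q0 < q) (hq1 : q ≠ 1) : ∃ m M c1 : ℝ, 0 < m ∧ m ≤ 3 * q - 2 ∧
    3 * q - 2 ≤ M ∧ 0 ≤ c1 ∧ ∀ L : ℕ, ∀ p : ℝ[X], Sol L q p → Good L p → ∀ x,
      m ≤ gx L p x ∧ gx L p x ≤ M ∧
      |Real.log (1 + yx L p x)| ≤ c1 * |th x| ^ (2 * L + 2) := by
  rcases lt_or_gt_of_ne hq1 with h | h
  · exact bounds_lt hq h
  · exact bounds_gt h

end EP
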