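import Mathlib

/-! Continuity of the roots of polynomials (module ROOTCONT). -/

namespace EP
open Polynomial Filter Topology

/-- crude upper bound -/
theorem rc_upper (p : ℂ[X]) (n : ℕ) (h : p.natDegree ≤ n) :
    ∃ c : ℝ, 0 < c ∧ ∀ z : ℂ, ‖p.eval z‖ ≤ c * (1 + ‖z‖) ^ n := by
  refine ⟨1 + ∑ i ∈ Finset.range (n + 1), ‖p.coeff i‖, by positivity, fun z => ?_⟩
  rw [eval_eq_sum_range' (Nat.lt_succ_of_le h)]
  have h1 : (1 : ℝ) ≤ 1 + ‖z‖ := by linarith [norm_nonneg z]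
  calc ‖∑ i ∈ Finset.range (n + 1), p.coeff i * z ^ i‖
      ≤ ∑ i ∈ Finset.range (n + 1), ‖p.coeff i * z ^ i‖ := norm_sum_le _ _
    _ ≤ ∑ i ∈ Finset.range (n + 1), ‖p.coeff i‖ * (1 + ‖z‖) ^ n := by
        refine Finset.sum_le_sum fun i hi => ?_
        rw [norm_mul, norm_pow]
        have h2 : i ≤ n := Nat.lt_succ_iff.1 (Finset.mem_range.1 hi)
        have h3 : ‖z‖ ^ i ≤ (1 + ‖z‖) ^ i :=
          pow_le_pow_left₀ (norm_nonneg z) (by linarith) i
        have h4 : (1 + ‖z‖) ^ i ≤ (1 + ‖z‖) ^ n := pow_le_pow_right₀ h1 h2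
        exact mul_le_mul_of_nonneg_left (h3.trans h4) (norm_nonneg _)
    _ = (∑ i ∈ Finset.range (n + 1), ‖p.coeff i‖) * (1 + ‖z‖) ^ n := by
        rw [Finset.sum_mul]
    _ ≤ (1 + ∑ i ∈ Finset.range (n + 1), ‖p.coeff i‖) * (1 + ‖z‖) ^ n := by
        have : 0 ≤ (1 + ‖z‖) ^ n := by positivity
        nlinarith

/-- uniform lower bound near a polynomial of degree exactly `d` -/
theorem rc_lower {α : Type*} {l : Filter α} (p : α → ℂ[X]) (P : ℂ[X]) (d : ℕ)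
    (hd : ∀ᶠ a in l, (p a).natDegree ≤ d) (hP : P.coeff d ≠ 0)
    (hc : ∀ k, Tendsto (fun a => (p a).coeff k) l (𝓝 (P.coeff k))) :
    ∃ R : ℝ, 1 ≤ R ∧ ∀ᶠ a in l, ∀ z : ℂ, R ≤ ‖z‖ →
      ‖P.coeff d‖ / 4 * ‖z‖ ^ d ≤ ‖(p a).eval z‖ := by
  set B : ℝ := ∑ i ∈ Finset.range d, (‖P.coeff i‖ + 1) with hB
  have hB0 : 0 ≤ B := Finset.sum_nonneg fun i _ => by positivity
  have hl : 0 < ‖P.coeff d‖ := norm_pos_iff.2 hP
  refine ⟨max 1 (4 * B / ‖P.coeff d‖), le_max_left _ _, ?_⟩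
  have h1 : ∀ᶠ a in l, ∀ i ∈ Finset.range d, ‖(p a).coeff i‖ ≤ ‖P.coeff i‖ + 1 := by
    rw [Finset.eventually_all]
    intro i _
    exact (hc i).norm.eventually_le_const (by linarith)
  have h2 : ∀ᶠ a in l, ‖P.coeff d‖ / 2 < ‖(p a).coeff d‖ :=
    (hc d).norm.eventually_const_lt (by linarith)
  filter_upwards [hd, h1, h2] with a ha h1 h2 z hz
  have hz1 : 1 ≤ ‖z‖ := (le_max_left _ _).trans hz
  have hz0 : 0 < ‖z‖ := by linarith
  have hz2 : 4 * B / ‖P.coeff d‖ ≤ ‖z‖ := (le_max_right _ _).trans hz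
  rw [eval_eq_sum_range' (Nat.lt_succ_of_le ha), Finset.sum_range_succ]
  have h3 : ‖∑ i ∈ Finset.range d, (p a).coeff i * z ^ i‖ ≤ ‖P.coeff d‖ / 4 * ‖z‖ ^ d := by
    rcases Nat.eq_zero_or_pos d with rfl | hdp
    · simp only [Finset.range_zero, Finset.sum_empty, norm_zero]
      positivity
    calc ‖∑ i ∈ Finset.range d, (p a).coeff i * z ^ i‖
        ≤ ∑ i ∈ Finset.range d, ‖(p a).coeff i * z ^ i‖ := norm_sum_le _ _
      _ ≤ ∑ i ∈ Finset.range d, (‖P.coeff i‖ + 1) * ‖z‖ ^ (d - 1) := by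
          refine Finset.sum_le_sum fun i hi => ?_
          rw [norm_mul, norm_pow]
          have h4 : i ≤ d - 1 := Nat.le_pred_of_lt (Finset.mem_range.1 hi)
          exact mul_le_mul (h1 i hi) (pow_le_pow_right₀ hz1 h4) (by positivity) (by positivity)
      _ = B * ‖z‖ ^ (d - 1) := by rw [hB, Finset.sum_mul]
      _ ≤ (‖P.coeff d‖ / 4 * ‖z‖) * ‖z‖ ^ (d - 1) := by
          refine mul_le_mul_of_nonneg_right ?_ (by positivity)
          rw [div_le_iff₀ hl] at hz2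
          linarith
      _ = ‖P.coeff d‖ / 4 * ‖z‖ ^ d := by
          rw [mul_assoc, ← pow_succ', Nat.sub_add_cancel hdp]
  have h4 : ‖P.coeff d‖ / 2 * ‖z‖ ^ d ≤ ‖(p a).coeff d * z ^ d‖ := by
    rw [norm_mul, norm_pow]
    exact mul_le_mul_of_nonneg_right h2.le (by positivity)
  have h5 : ‖(p a).coeff d * z ^ d‖ - ‖∑ i ∈ Finset.range d, (p a).coeff i * z ^ i‖ ≤
      ‖∑ i ∈ Finset.range d, (p a).coeff i * z ^ i + (p a).coeff d * z ^ d‖ := by
    have := norm_sub_le (∑ i ∈ Finset.range d, (p a).coeff i * z ^ i + (p a).coeff d * z ^ d)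
      (∑ i ∈ Finset.range d, (p a).coeff i * z ^ i)
    rw [add_sub_cancel_left] at this
    linarith
  linarith

/-- `‖p‖ ≤ c (1 + ‖z‖) ^ k ‖r‖` on a closed set without zeros of `r`, if `deg p ≤ deg r + k` -/
theorem ratio_bound (p r : ℂ[X]) (k : ℕ) (h : p.natDegree ≤ r.natDegree + k) (Z : Set ℂ)
    (hZ : IsClosed Z) (hr : ∀ z ∈ Z, r.eval z ≠ 0) :
    ∃ c : ℝ, 0 < c ∧ ∀ z ∈ Z, ‖p.eval z‖ ≤ c * (1 + ‖z‖) ^ k * ‖r.eval z‖ := by
  rcases Z.eq_empty_or_nonempty with rfl | ⟨z1, hz1⟩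
  · exact ⟨1, one_pos, fun z hz => absurd hz (Set.notMem_empty z)⟩
  have hr0 : r ≠ 0 := by
    rintro rfl
    exact hr z1 hz1 (by simp)
  have hlead : r.coeff r.natDegree ≠ 0 := leadingCoeff_ne_zero.2 hr0
  obtain ⟨c0, hc0, hup⟩ := rc_upper p _ h
  obtain ⟨R, hR, hlow⟩ := rc_lower (l := (pure () : Filter Unit)) (fun _ => r) r r.natDegree
    (by simp) hlead (fun k => tendsto_const_nhds)
  have hlow' : ∀ z : ℂ, R ≤ ‖z‖ → ‖r.coeff r.natDegree‖ / 4 * ‖z‖ ^ r.natDegree ≤ ‖r.eval z‖ := by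
    simpa using hlow
  set n := r.natDegree with hn
  have hlp : 0 < ‖r.coeff n‖ := norm_pos_iff.2 hlead
  -- the compact part
  have hK : IsCompact (Z ∩ Metric.closedBall 0 R) := (isCompact_closedBall 0 R).inter_left hZ
  obtain ⟨m, hm, hmK⟩ : ∃ m : ℝ, 0 < m ∧ ∀ z ∈ Z ∩ Metric.closedBall (0 : ℂ) R, m ≤ ‖r.eval z‖ := by
    rcases (Z ∩ Metric.closedBall (0 : ℂ) R).eq_empty_or_nonempty with he | hne
    · exact ⟨1, one_pos, fun z hz => by rw [he] at hz; exact absurd hz (Set.notMem_empty z)⟩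
    · obtain ⟨z0, hz0, hmin⟩ := hK.exists_isMinOn hne
        (f := fun z => ‖r.eval z‖) (r.continuous.norm.continuousOn)
      exact ⟨‖r.eval z0‖, norm_pos_iff.2 (hr z0 hz0.1), fun z hz => hmin hz⟩
  refine ⟨c0 * (1 + R) ^ n / m + c0 * 2 ^ n * (4 / ‖r.coeff n‖), by positivity, fun z hz => ?_⟩
  have hk : 0 < (1 + ‖z‖) ^ k := by positivity
  rcases le_total ‖z‖ R with hzR | hzR
  · have h1 := hmK z ⟨hz, by simpa using hzR⟩
    have h2 : (1 + ‖z‖) ^ n ≤ (1 + R) ^ n := by gcongr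
    calc ‖p.eval z‖ ≤ c0 * (1 + ‖z‖) ^ (n + k) := hup z
      _ = c0 * (1 + ‖z‖) ^ n * (1 + ‖z‖) ^ k := by rw [pow_add]; ring
      _ ≤ c0 * (1 + R) ^ n * (1 + ‖z‖) ^ k := by gcongr
      _ = (c0 * (1 + R) ^ n / m) * (1 + ‖z‖) ^ k * m := by field_simp
      _ ≤ (c0 * (1 + R) ^ n / m) * (1 + ‖z‖) ^ k * ‖r.eval z‖ := by gcongr
      _ ≤ (c0 * (1 + R) ^ n / m + c0 * 2 ^ n * (4 / ‖r.coeff n‖)) * (1 + ‖z‖) ^ k *
          ‖r.eval z‖ := by
          gcongr
          have : 0 ≤ c0 * 2 ^ n * (4 / ‖r.coeff n‖) := by positivity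
          linarith
  · have h1 := hlow' z hzR
    have hz1 : 1 ≤ ‖z‖ := hR.trans hzR
    have h2 : (1 + ‖z‖) ^ n ≤ (2 * ‖z‖) ^ n := by gcongr; linarith
    have h3 : ‖z‖ ^ n ≤ 4 / ‖r.coeff n‖ * ‖r.eval z‖ := by
      rw [div_mul_eq_mul_div, le_div_iff₀ hlp]
      linarith
    calc ‖p.eval z‖ ≤ c0 * (1 + ‖z‖) ^ (n + k) := hup z
      _ = c0 * (1 + ‖z‖) ^ n * (1 + ‖z‖) ^ k := by rw [pow_add]; ring
      _ ≤ c0 * (2 * ‖z‖) ^ n * (1 + ‖z‖) ^ k := by gcongr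
      _ = c0 * 2 ^ n * ‖z‖ ^ n * (1 + ‖z‖) ^ k := by rw [mul_pow]; ring
      _ ≤ c0 * 2 ^ n * (4 / ‖r.coeff n‖ * ‖r.eval z‖) * (1 + ‖z‖) ^ k := by gcongr
      _ = (c0 * 2 ^ n * (4 / ‖r.coeff n‖)) * (1 + ‖z‖) ^ k * ‖r.eval z‖ := by ring
      _ ≤ (c0 * (1 + R) ^ n / m + c0 * 2 ^ n * (4 / ‖r.coeff n‖)) * (1 + ‖z‖) ^ k *
          ‖r.eval z‖ := by
          gcongr
          have : 0 ≤ c0 * (1 + R) ^ n / m := by positivity
          linarith

theorem rc_open {α : Type*} {l : Filter α} (p : α → ℂ[X]) (P : ℂ[X]) (d : ℕ)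
    (hd : ∀ᶠ a in l, (p a).natDegree ≤ d) (hP : P.coeff d ≠ 0) (hPd : P.natDegree ≤ d)
    (hc : ∀ k, Tendsto (fun a => (p a).coeff k) l (𝓝 (P.coeff k))) (Z : Set ℂ) (hZ : IsClosed Z)
    (hr : ∀ z ∈ Z, P.eval z ≠ 0) : ∀ᶠ a in l, ∀ z ∈ Z, (p a).eval z ≠ 0 := by
  obtain ⟨R, hR, hlow⟩ := rc_lower p P d hd hP hc
  have hlp : 0 < ‖P.coeff d‖ := norm_pos_iff.2 hP
  have hK : IsCompact (Z ∩ Metric.closedBall 0 R) := (isCompact_closedBall 0 R).inter_left hZ
  obtain ⟨m, hm, hmK⟩ : ∃ m : ℝ, 0 < m ∧ ∀ z ∈ Z ∩ Metric.closedBall (0 : ℂ) R, m ≤ ‖P.eval z‖ := by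
    rcases (Z ∩ Metric.closedBall (0 : ℂ) R).eq_empty_or_nonempty with he | hne
    · exact ⟨1, one_pos, fun z hz => by rw [he] at hz; exact absurd hz (Set.notMem_empty z)⟩
    · obtain ⟨z0, hz0, hmin⟩ := hK.exists_isMinOn hne
        (f := fun z => ‖P.eval z‖) (P.continuous.norm.continuousOn)
      exact ⟨‖P.eval z0‖, norm_pos_iff.2 (hr z0 hz0.1), fun z hz => hmin hz⟩
  -- uniform convergence on the ball
  have hconv : Tendsto (fun a => ∑ i ∈ Finset.range (d + 1), ‖(p a).coeff i - P.coeff i‖ * R ^ i)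
      l (𝓝 0) := by
    have h1 : Tendsto (fun a => ∑ i ∈ Finset.range (d + 1), ‖(p a).coeff i - P.coeff i‖ * R ^ i)
        l (𝓝 (∑ i ∈ Finset.range (d + 1), ‖P.coeff i - P.coeff i‖ * R ^ i)) :=
      tendsto_finsetSum _ fun i _ => ((hc i).sub_const _).norm.mul_const _
    simpa using h1
  filter_upwards [hd, hlow, hconv.eventually_lt_const hm] with a ha hlo hcv z hz
  rcases le_total ‖z‖ R with hzR | hzR
  · have h1 := hmK z ⟨hz, by simpa using hzR⟩
    intro h0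
    have h2 : P.eval z - (p a).eval z = ∑ i ∈ Finset.range (d + 1), (P.coeff i - (p a).coeff i) *
        z ^ i := by
      rw [eval_eq_sum_range' (Nat.lt_succ_of_le ha), eval_eq_sum_range' (Nat.lt_succ_of_le hPd),
        ← Finset.sum_sub_distrib]
      exact Finset.sum_congr rfl fun i _ => by ring
    rw [h0, sub_zero] at h2
    have h3 : ‖P.eval z‖ ≤ ∑ i ∈ Finset.range (d + 1), ‖(p a).coeff i - P.coeff i‖ * R ^ i := by
      rw [h2]
      refine (norm_sum_le _ _).trans (Finset.sum_le_sum fun i _ => ?_)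
      rw [norm_mul, norm_pow, norm_sub_rev]
      gcongr
    linarith
  · have h1 := hlo z hzR
    intro h0
    rw [h0, norm_zero] at h1
    have : 0 < ‖P.coeff d‖ / 4 * ‖z‖ ^ d := by
      have : 0 < ‖z‖ := by linarith
      positivity
    linarith

theorem rc_hurwitz {α : Type*} {l : Filter α} (p : α → ℂ[X]) (P : ℂ[X]) (d : ℕ)
    (hd : ∀ᶠ a in l, (p a).natDegree ≤ d) (hP : P.coeff d ≠ 0)
    (hc : ∀ k, Tendsto (fun a => (p a).coeff k) l (𝓝 (P.coeff k))) (z : ℂ) (hz : P.eval z = 0)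
    (U : Set ℂ) (hU : U ∈ 𝓝 z) : ∀ᶠ a in l, ∃ y ∈ U, (p a).eval y = 0 := by
  rcases l.eq_or_neBot with rfl | hl
  · simp
  obtain ⟨ε, hε, hball⟩ := Metric.mem_nhds_iff.1 hU
  have hlp : 0 < ‖P.coeff d‖ := norm_pos_iff.2 hP
  -- `P` has degree `≤ d` as well
  have hPd : P.natDegree ≤ d := by
    rw [natDegree_le_iff_coeff_eq_zero]
    intro N hN
    refine tendsto_nhds_unique (hc N) ?_
    refine tendsto_const_nhds.congr' ?_
    filter_upwards [hd] with a ha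
    exact (coeff_eq_zero_of_natDegree_lt (lt_of_le_of_lt ha hN)).symm
  have hPdeg : P.natDegree = d := le_antisymm hPd (le_natDegree_of_ne_zero hP)
  have hd0 : d ≠ 0 := by
    intro h0
    rw [h0] at hPdeg hP
    rw [eq_C_of_natDegree_eq_zero hPdeg, eval_C] at hz
    exact hP hz
  -- the value at `z` is small
  have hval : Tendsto (fun a => ‖(p a).eval z‖) l (𝓝 0) := by
    have h1 : Tendsto (fun a => ∑ i ∈ Finset.range (d + 1), (p a).coeff i * z ^ i) l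
        (𝓝 (∑ i ∈ Finset.range (d + 1), P.coeff i * z ^ i)) :=
      tendsto_finsetSum _ fun i _ => (hc i).mul_const _
    rw [← eval_eq_sum_range' (Nat.lt_succ_of_le hPd), hz] at h1
    have h2 := h1.norm
    rw [norm_zero] at h2
    refine h2.congr' ?_
    filter_upwards [hd] with a ha
    rw [eval_eq_sum_range' (Nat.lt_succ_of_le ha)]
  have hlow : 0 < ‖P.coeff d‖ / 2 * ε ^ d := by positivity
  have h2 : ∀ᶠ a in l, ‖P.coeff d‖ / 2 < ‖(p a).coeff d‖ :=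
    (hc d).norm.eventually_const_lt (by linarith)
  filter_upwards [hd, h2, hval.eventually_lt_const hlow] with a ha h2 h3
  by_contra hcon
  push Not at hcon
  have hpd : (p a).coeff d ≠ 0 := by
    rw [← norm_pos_iff]
    linarith
  have hdeg : (p a).natDegree = d := le_antisymm ha (le_natDegree_of_ne_zero hpd)
  have hp0 : p a ≠ 0 := by
    intro h0
    rw [h0] at hpd
    simp at hpd
  have hsplit := IsAlgClosed.splits (p a)
  have hcard : (p a).roots.card = d := by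
    rw [← hdeg]
    exact hsplit.natDegree_eq_card_roots.symm
  have hev : (p a).eval z = (p a).coeff d * ((p a).roots.map fun y => z - y).prod := by
    have h4 := hsplit.eq_prod_roots
    conv_lhs => rw [h4]
    rw [eval_mul, eval_C, eval_multiset_prod, Multiset.map_map]
    congr 1
    · rw [leadingCoeff, hdeg]
    · congr 1
      refine Multiset.map_congr rfl fun y _ => ?_
      simp
  have h5 : ε ^ d ≤ ‖((p a).roots.map fun y => z - y).prod‖ := by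
    have h6 : ∀ s : Multiset ℂ, (∀ y ∈ s, ε ≤ ‖z - y‖) →
        ε ^ s.card ≤ ‖(s.map fun y => z - y).prod‖ := by
      intro s
      induction s using Multiset.induction_on with
      | empty => simp
      | cons y s ih =>
        intro hs
        rw [Multiset.map_cons, Multiset.prod_cons, norm_mul, Multiset.card_cons, pow_succ']
        exact mul_le_mul (hs y (Multiset.mem_cons_self y s))
          (ih fun y' hy' => hs y' (Multiset.mem_cons_of_mem hy')) (by positivity) (norm_nonneg _)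
    have h7 := h6 (p a).roots (fun y hy => by
      by_contra hlt
      push Not at hlt
      refine hcon y (hball ?_) ((mem_roots hp0).1 hy)
      rw [Metric.mem_ball, dist_eq_norm, norm_sub_rev]
      exact hlt)
    rwa [hcard] at h7
  rw [hev, norm_mul] at h3
  have h8 : ‖P.coeff d‖ / 2 * ε ^ d ≤ ‖(p a).coeff d‖ *
      ‖((p a).roots.map fun y => z - y).prod‖ :=
    mul_le_mul h2.le h5 (by positivity) (norm_nonneg _)
  linarith

end EP
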