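import Pool.Agent.Helper86.EP.Closure
import Pool.Agent.Helper86.EP.RootCont

/-! Coefficientwise limits of polynomials. -/

namespace EP
open Polynomial Filter Topology

/-- coefficientwise convergence with bounded degree -/
structure CT {α : Type*} (l : Filter α) (p : α → ℂ[X]) (P : ℂ[X]) (D : ℕ) : Prop where
  deg : ∀ᶠ a in l, (p a).natDegree ≤ D
  deg' : P.natDegree ≤ D
  coeff : ∀ k, Tendsto (fun a => (p a).coeff k) l (𝓝 (P.coeff k))

variable {α : Type*} {l : Filter α} {p q : α → ℂ[X]} {P Q : ℂ[X]} {D E : ℕ}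

theorem CT.eval (h : CT l p P D) (z : ℂ) : Tendsto (fun a => (p a).eval z) l (𝓝 (P.eval z)) := by
  rw [eval_eq_sum_range' (Nat.lt_succ_of_le h.deg')]
  have h1 : Tendsto (fun a => ∑ i ∈ Finset.range (D + 1), (p a).coeff i * z ^ i) l
      (𝓝 (∑ i ∈ Finset.range (D + 1), P.coeff i * z ^ i)) :=
    tendsto_finsetSum _ fun i _ => (h.coeff i).mul_const _
  refine h1.congr' ?_
  filter_upwards [h.deg] with a ha
  rw [eval_eq_sum_range' (Nat.lt_succ_of_le ha)]

theorem CT.mono (h : CT l p P D) (hDE : D ≤ E) : CT l p P E :=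
  ⟨h.deg.mono fun _ ha => ha.trans hDE, h.deg'.trans hDE, h.coeff⟩

theorem CT.of_deg (h : CT l p P D) (h1 : ∀ᶠ a in l, (p a).natDegree ≤ E) (h2 : P.natDegree ≤ E) :
    CT l p P E := ⟨h1, h2, h.coeff⟩

theorem CT.congr (h : CT l p P D) (hpq : ∀ᶠ a in l, p a = q a) : CT l q P D := by
  refine ⟨?_, h.deg', fun k => ?_⟩
  · filter_upwards [h.deg, hpq] with a h1 h2
    rwa [← h2]
  · refine (h.coeff k).congr' ?_
    filter_upwards [hpq] with a h2
    rw [h2]

theorem CT.const (h : P.natDegree ≤ D) : CT l (fun _ => P) P D :=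
  ⟨Eventually.of_forall fun _ => h, h, fun _ => tendsto_const_nhds⟩

theorem CT.add (h : CT l p P D) (h' : CT l q Q D) : CT l (fun a => p a + q a) (P + Q) D := by
  refine ⟨?_, (natDegree_add_le _ _).trans (max_le h.deg' h'.deg'), fun k => ?_⟩
  · filter_upwards [h.deg, h'.deg] with a h1 h2
    exact (natDegree_add_le _ _).trans (max_le h1 h2)
  · simp only [coeff_add]
    exact (h.coeff k).add (h'.coeff k)

theorem CT.sub (h : CT l p P D) (h' : CT l q Q D) : CT l (fun a => p a - q a) (P - Q) D := by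
  refine ⟨?_, (natDegree_sub_le _ _).trans (max_le h.deg' h'.deg'), fun k => ?_⟩
  · filter_upwards [h.deg, h'.deg] with a h1 h2
    exact (natDegree_sub_le _ _).trans (max_le h1 h2)
  · simp only [coeff_sub]
    exact (h.coeff k).sub (h'.coeff k)

theorem CT.mul (h : CT l p P D) (h' : CT l q Q E) : CT l (fun a => p a * q a) (P * Q) (D + E) := by
  refine ⟨?_, natDegree_mul_le.trans (add_le_add h.deg' h'.deg'), fun k => ?_⟩
  · filter_upwards [h.deg, h'.deg] with a h1 h2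
    exact natDegree_mul_le.trans (add_le_add h1 h2)
  · simp only [coeff_mul]
    exact tendsto_finsetSum _ fun i _ => (h.coeff _).mul (h'.coeff _)

theorem CT.smul {c : α → ℂ} {c0 : ℂ} (hc : Tendsto c l (𝓝 c0)) (h : CT l p P D) :
    CT l (fun a => C (c a) * p a) (C c0 * P) D := by
  refine ⟨?_, (natDegree_C_mul_le _ _).trans h.deg', fun k => ?_⟩
  · filter_upwards [h.deg] with a h1
    exact (natDegree_C_mul_le _ _).trans h1
  · simp only [coeff_C_mul]
    exact hc.mul (h.coeff k)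

theorem comp_sum (p r : ℂ[X]) (h : p.natDegree ≤ D) :
    p.comp r = ∑ i ∈ Finset.range (D + 1), C (p.coeff i) * r ^ i := by
  conv_lhs => rw [p.as_sum_range_C_mul_X_pow' (Nat.lt_succ_of_le h)]
  rw [Polynomial.sum_comp]
  refine Finset.sum_congr rfl fun i _ => ?_
  rw [mul_comp, C_comp, X_pow_comp]

theorem CT.comp (h : CT l p P D) (r : ℂ[X]) :
    CT l (fun a => (p a).comp r) (P.comp r) (D * r.natDegree) := by
  refine ⟨?_, natDegree_comp_le.trans (Nat.mul_le_mul h.deg' le_rfl), fun k => ?_⟩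
  · filter_upwards [h.deg] with a h1
    exact natDegree_comp_le.trans (Nat.mul_le_mul h1 le_rfl)
  · rw [comp_sum P r h.deg', finsetSum_coeff]
    have h1 : Tendsto (fun a => ∑ i ∈ Finset.range (D + 1), (C ((p a).coeff i) * r ^ i).coeff k) l
        (𝓝 (∑ i ∈ Finset.range (D + 1), (C (P.coeff i) * r ^ i).coeff k)) := by
      refine tendsto_finsetSum _ fun i _ => ?_
      simp only [coeff_C_mul]
      exact (h.coeff i).mul_const _
    refine h1.congr' ?_
    filter_upwards [h.deg] with a ha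
    rw [comp_sum (p a) r ha, finsetSum_coeff]

theorem CT.dvd [l.NeBot] (h : CT l p P D) (c : ℂ) (N : ℕ) (hd : ∀ᶠ a in l, (X - C c) ^ N ∣ p a) :
    (X - C c) ^ N ∣ P := by
  rw [X_sub_C_pow_dvd_iff, X_pow_dvd_iff]
  intro d hdN
  refine tendsto_nhds_unique ((h.comp (X + C c)).coeff d) ?_
  refine tendsto_const_nhds.congr' ?_
  filter_upwards [hd] with a ha
  rw [X_sub_C_pow_dvd_iff, X_pow_dvd_iff] at ha
  exact (ha d hdN).symm

theorem CT.quot (h : CT l p P D) (c : ℂ) (N : ℕ) (hp : ∀ᶠ a in l, p a = (X - C c) ^ N * q a)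
    (hP : P = (X - C c) ^ N * Q) : CT l q Q D := by
  have hdeg : ∀ P Q : ℂ[X], P = (X - C c) ^ N * Q → P.natDegree ≤ D → Q.natDegree ≤ D := by
    intro P Q hPQ hP
    by_cases hQ : Q = 0
    · rw [hQ, natDegree_zero]; exact Nat.zero_le _
    · rw [hPQ, ((monic_X_sub_C c).pow N).natDegree_mul' hQ] at hP
      omega
  refine ⟨?_, hdeg _ _ hP h.deg', fun k => ?_⟩
  · filter_upwards [h.deg, hp] with a h1 h2
    exact hdeg _ _ h2 h1
  -- the shifted polynomials
  have hc : ∀ P Q : ℂ[X], P = (X - C c) ^ N * Q → ∀ k, (Q.comp (X + C c)).coeff k =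
      (P.comp (X + C c)).coeff (k + N) := by
    intro P Q hPQ k
    rw [hPQ, mul_comp, pow_comp, sub_comp, X_comp, C_comp, add_sub_cancel_right, coeff_X_pow_mul]
  have h1 : CT l (fun a => (q a).comp (X + C c)) (Q.comp (X + C c)) (D * (X + C c : ℂ[X]).natDegree) := by
    refine ⟨?_, natDegree_comp_le.trans (Nat.mul_le_mul (hdeg _ _ hP h.deg') le_rfl), fun k => ?_⟩
    · filter_upwards [h.deg, hp] with a h1 h2
      exact natDegree_comp_le.trans (Nat.mul_le_mul (hdeg _ _ h2 h1) le_rfl)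
    · rw [hc _ _ hP k]
      refine ((h.comp (X + C c)).coeff (k + N)).congr' ?_
      filter_upwards [hp] with a h2
      exact (hc _ _ h2 k).symm
  have h2 := (h1.comp (X - C c)).coeff k
  have e : ∀ Q : ℂ[X], (Q.comp (X + C c)).comp (X - C c) = Q := by
    intro Q
    rw [comp_assoc, add_comp, X_comp, C_comp, sub_add_cancel, comp_X]
  simp only [e] at h2
  exact h2

/-- coefficientwise convergence of real polynomials -/
theorem CT.rot {p : α → ℝ[X]} {P : ℝ[X]} (h : ∀ᶠ a in l, (p a).natDegree ≤ D)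
    (h' : P.natDegree ≤ D) (hc : ∀ k, Tendsto (fun a => (p a).coeff k) l (𝓝 (P.coeff k))) (c : ℂ) :
    CT l (fun a => rot c (p a)) (rot c P) D := by
  refine ⟨?_, (rot_deg c P).trans h', fun k => ?_⟩
  · filter_upwards [h] with a h1
    exact (rot_deg c _).trans h1
  · unfold EP.rot
    simp only [comp_C_mul_X_coeff, coeff_map]
    exact ((Complex.continuous_ofReal.tendsto _).comp (hc k)).mul_const _

theorem Yp_deg (L : ℕ) (p : ℝ[X]) (h : p.natDegree ≤ 2 * L + 2) :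
    (Yp L p).natDegree ≤ 2 * L + 2 + (2 * L + 2) := by
  unfold Yp
  refine (natDegree_sub_le _ _).trans (max_le ?_ ?_)
  · exact natDegree_mul_le.trans (add_le_add ((rot_deg _ _).trans h) ((rot_deg _ _).trans h))
  · exact natDegree_mul_le.trans
      (add_le_add ((rot_deg _ _).trans (nu_deg L)) ((rot_deg _ _).trans (nu_deg L)))

theorem CT.Yp (L : ℕ) {p : α → ℝ[X]} {P : ℝ[X]} (h : ∀ᶠ a in l, (p a).natDegree ≤ 2 * L + 2)
    (h' : P.natDegree ≤ 2 * L + 2) (hc : ∀ k, Tendsto (fun a => (p a).coeff k) l (𝓝 (P.coeff k))) :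
    CT l (fun a => Yp L (p a)) (Yp L P) (2 * L + 2 + (2 * L + 2)) := by
  unfold EP.Yp
  exact ((CT.rot h h' hc _).mul (CT.rot h h' hc _)).sub
    (CT.const (natDegree_mul_le.trans
      (add_le_add ((rot_deg _ _).trans (nu_deg L)) ((rot_deg _ _).trans (nu_deg L)))))

theorem Qp_mul {L : ℕ} {p : ℝ[X]} (h : (X - C 1) ^ (2 * L + 2) ∣ Yp L p) :
    Yp L p = (X - C 1) ^ (2 * L + 2) * Qp L p := by
  obtain ⟨R, hR⟩ := h
  unfold Qp
  rw [hR, mul_divByMonic_cancel_left _ ((monic_X_sub_C (1:ℂ)).pow _)]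

theorem Qp_natDeg {L : ℕ} {p : ℝ[X]} (hp : p.natDegree ≤ 2 * L + 2)
    (h : (X - C 1) ^ (2 * L + 2) ∣ Yp L p) : (Qp L p).natDegree ≤ 2 * L + 2 := by
  by_cases hQ : Qp L p = 0
  · rw [hQ, natDegree_zero]; exact Nat.zero_le _
  · have h1 := Yp_deg L p hp
    rw [Qp_mul h, ((monic_X_sub_C (1:ℂ)).pow _).natDegree_mul' hQ, natDegree_pow, natDegree_X_sub_C] at h1
    omega

theorem CT.Qp (L : ℕ) {p : α → ℝ[X]} {P : ℝ[X]} (h : ∀ᶠ a in l, (p a).natDegree ≤ 2 * L + 2)
    (h' : P.natDegree ≤ 2 * L + 2) (hc : ∀ k, Tendsto (fun a => (p a).coeff k) l (𝓝 (P.coeff k)))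
    (hd : ∀ᶠ a in l, (X - C 1) ^ (2 * L + 2) ∣ EP.Yp L (p a))
    (hd' : (X - C 1) ^ (2 * L + 2) ∣ EP.Yp L P) :
    CT l (fun a => Qp L (p a)) (Qp L P) (2 * L + 2) := by
  have h1 := CT.quot (CT.Yp L h h' hc) 1 (2 * L + 2) (q := fun a => EP.Qp L (p a)) (Q := EP.Qp L P)
    (hd.mono fun a ha => Qp_mul ha) (Qp_mul hd')
  refine h1.of_deg ?_ (Qp_natDeg h' hd')
  filter_upwards [h, hd] with a h2 h3
  exact Qp_natDeg h2 h3

/-- coefficient of `X ^ (2 N)` of the product -/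
theorem coeff_top_mul (p r : ℂ[X]) (N M : ℕ) (hp : p.natDegree ≤ N) (hr : r.natDegree ≤ M) :
    (p * r).coeff (N + M) = p.coeff N * r.coeff M :=
  coeff_mul_add_eq_of_natDegree_le hp hr

theorem rot_coeff (c : ℂ) (p : ℝ[X]) (k : ℕ) : (rot c p).coeff k = p.coeff k * c ^ k := by
  unfold rot
  rw [comp_C_mul_X_coeff, coeff_map]
  rfl

theorem nu_coeff_top (L : ℕ) : (nu L).coeff (2 * L + 2) = 1 := by
  unfold nu
  have h1 : (1 + X : ℝ[X]).natDegree ≤ 1 := by compute_degree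
  have h2 : (X ^ 2 + X + 1 : ℝ[X]).natDegree ≤ 2 := by compute_degree
  have h3 := natDegree_pow_le_of_le (2 * L) h1
  rw [mul_one] at h3
  rw [coeff_mul_add_eq_of_natDegree_le h3 h2]
  have h4 : ((1 + X : ℝ[X]) ^ (2 * L)).coeff (2 * L) = 1 := by
    rw [coeff_one_add_X_pow]
    simp
  have h5 : (X ^ 2 + X + 1 : ℝ[X]).coeff 2 = 1 := by
    simp [coeff_X, coeff_one]
  rw [h4, h5, one_mul]

/-- the top coefficient of `Qp` -/
theorem Qp_top {L : ℕ} {p : ℝ[X]} (hp : p.natDegree ≤ 2 * L + 2)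
    (h : (X - C 1) ^ (2 * L + 2) ∣ Yp L p) :
    (Qp L p).coeff (2 * L + 2) = ((p.coeff (2 * L + 2) ^ 2 - 1 : ℝ) : ℂ) := by
  have h1 : (Yp L p).coeff (2 * L + 2 + (2 * L + 2)) =
      ((X - C 1) ^ (2 * L + 2) * Qp L p).coeff (2 * L + 2 + (2 * L + 2)) := by
    rw [← Qp_mul h]
  have hm : ((X - C (1:ℂ)) ^ (2 * L + 2)).natDegree ≤ 2 * L + 2 := by
    rw [natDegree_pow, natDegree_X_sub_C, mul_one]
  have hl : ((X - C (1:ℂ)) ^ (2 * L + 2)).coeff (2 * L + 2) = 1 := by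
    have := ((monic_X_sub_C (1:ℂ)).pow (2 * L + 2)).coeff_natDegree
    rwa [natDegree_pow, natDegree_X_sub_C, mul_one] at this
  rw [coeff_top_mul _ _ _ _ hm (Qp_natDeg hp h), hl, one_mul] at h1
  rw [← h1]
  unfold Yp
  have hw : (CC.w * (1 - CC.w)) ^ (2 * L + 2) = 1 := by
    have : CC.w * (1 - CC.w) = 1 := by have := w_sq; linear_combination -this
    rw [this, one_pow]
  rw [mul_pow] at hw
  rw [coeff_sub, coeff_top_mul _ _ _ _ ((rot_deg _ _).trans hp) ((rot_deg _ _).trans hp),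
    coeff_top_mul _ _ _ _ ((rot_deg _ _).trans (nu_deg L)) ((rot_deg _ _).trans (nu_deg L)),
    rot_coeff, rot_coeff, rot_coeff, rot_coeff, nu_coeff_top]
  push_cast
  linear_combination ((p.coeff (2 * L + 2) : ℂ) ^ 2 - 1) * hw

end EP
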