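import Pool.Agent.Helper86.EP.Base
import Pool.Agent.Helper86.EP.Bounds
import Pool.Agent.Helper86.EP.CoefLim

/-! Continuity argument (module CONT). -/

namespace EP
open Polynomial Filter Topology

theorem CT.mono_left {α : Type*} {l l' : Filter α} {p : α → ℂ[X]} {P : ℂ[X]} {D : ℕ}
    (h : CT l p P D) (hl : l' ≤ l) : CT l' p P D :=
  ⟨h.deg.filter_mono hl, h.deg', fun k => (h.coeff k).mono_left hl⟩

theorem Fam.tendsto {L : ℕ} {lam : ℝ → ℝ[X]} (h : Fam L lam) {q : ℝ} (hq : 0 < q) (k : ℕ) :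
    Tendsto (fun a => (lam a).coeff k) (𝓝 q) (𝓝 ((lam q).coeff k)) :=
  (h.cont k).continuousAt (Ioi_mem_nhds hq)

theorem Fam.ctMap {L : ℕ} {lam : ℝ → ℝ[X]} (h : Fam L lam) {q : ℝ} (hq : 0 < q) :
    CT (𝓝 q) (fun a => (lam a).map (algebraMap ℝ ℂ)) ((lam q).map (algebraMap ℝ ℂ))
      (2 * L + 2) where
  deg := by
    filter_upwards [Ioi_mem_nhds hq] with a ha
    rw [natDegree_map]
    exact (h.sol a ha).deg
  deg' := by
    rw [natDegree_map]
    exact (h.sol q hq).deg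
  coeff k := by
    simp only [coeff_map]
    exact (Complex.continuous_ofReal.tendsto _).comp (h.tendsto hq k)

theorem Fam.ctQp {L : ℕ} {lam : ℝ → ℝ[X]} (h : Fam L lam) {q : ℝ} (hq : 0 < q) :
    CT (𝓝 q) (fun a => Qp L (lam a)) (Qp L (lam q)) (2 * L + 2) := by
  refine CT.Qp L ?_ (h.sol q hq).deg (fun k => h.tendsto hq k) ?_ (h.sol q hq).fus
  · filter_upwards [Ioi_mem_nhds hq] with a ha
    exact (h.sol a ha).deg
  · filter_upwards [Ioi_mem_nhds hq] with a ha
    exact (h.sol a ha).fus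

theorem Sol.top {L : ℕ} {q : ℝ} {p : ℝ[X]} (h : Sol L q p) :
    p.coeff (2 * L + 2) = 3 * q - 2 := by
  have := h.pal 0 (Nat.zero_le _)
  rwa [Nat.sub_zero, h.zero] at this

theorem top_ne {L : ℕ} {q : ℝ} {p : ℝ[X]} (h : Sol L q p) (hq : 2 / 3 < q) :
    (p.map (algebraMap ℝ ℂ)).coeff (2 * L + 2) ≠ 0 := by
  rw [coeff_map, h.top]
  intro h0
  have h1 : (3 * q - 2 : ℝ) = 0 := Complex.ofReal_injective (by simpa using h0)
  linarith

theorem topQ_ne {L : ℕ} {q : ℝ} {p : ℝ[X]} (h : Sol L q p) (hq : 2 / 3 < q) (hq1 : q ≠ 1) :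
    (Qp L p).coeff (2 * L + 2) ≠ 0 := by
  rw [Qp_top h.deg h.fus, h.top]
  intro h0
  have h1 : ((3 * q - 2) ^ 2 - 1 : ℝ) = 0 := by exact_mod_cast h0
  have h2 : (3 * (q - 1)) * (3 * q - 1) = 0 := by linarith
  rcases mul_eq_zero.1 h2 with h3 | h3
  · apply hq1; linarith
  · linarith

theorem open_good {L : ℕ} {lam : ℝ → ℝ[X]} (h : Fam L lam) {q : ℝ} (hq : 2 / 3 < q) (hq1 : q ≠ 1)
    (hg : Good L (lam q)) : ∀ᶠ a in 𝓝 q, Good L (lam a) := by
  have hq0 : 0 < q := by linarith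
  have hs := h.sol q hq0
  have c1 := h.ctMap hq0
  have c2 := h.ctQp hq0
  have r1 := rc_open _ _ (2 * L + 2) c1.deg (top_ne hs hq) c1.deg' c1.coeff Sec Sec_closed (by
    intro z hz
    rw [eval_map_algebraMap]
    exact hg.1 z hz)
  have r2 := rc_open _ _ (2 * L + 2) c2.deg (topQ_ne hs hq hq1) c2.deg' c2.coeff Sec Sec_closed hg.2
  filter_upwards [r1, r2] with a h1 h2
  exact ⟨fun z hz => by have := h1 z hz; rwa [eval_map_algebraMap] at this, h2⟩

theorem Sec_cases {z : ℂ} (hz : z ∈ Sec) : z = 0 ∨ Sec ∈ 𝓝 z ∨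
    (∃ x : ℝ, z = CC.w * Real.exp (2 * x)) ∨
    ∃ x : ℝ, z = (starRingEnd ℂ) (CC.w * Real.exp (2 * x)) := by
  have hre := Sec_re hz
  have h3 := sqrt3_pos
  rcases lt_or_eq_of_le (show |z.im| ≤ Real.sqrt 3 * z.re from hz) with h1 | h1
  · right; left
    have ho : IsOpen {z : ℂ | |z.im| < Real.sqrt 3 * z.re} :=
      isOpen_lt (continuous_abs.comp Complex.continuous_im)
        (continuous_const.mul Complex.continuous_re)
    exact mem_of_superset (ho.mem_nhds h1) fun w hw =>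
      le_of_lt (show |w.im| < Real.sqrt 3 * w.re from hw)
  · rcases hre.lt_or_eq with h2 | h2
    · right; right
      have hx : Real.exp (2 * (Real.log (2 * z.re) / 2)) = 2 * z.re := by
        rw [show 2 * (Real.log (2 * z.re) / 2) = Real.log (2 * z.re) by ring,
          Real.exp_log (by linarith)]
      rcases abs_cases z.im with ⟨h4, -⟩ | ⟨h4, -⟩
      · left
        refine ⟨Real.log (2 * z.re) / 2, ?_⟩
        rw [hx]
        apply Complex.ext
        · simp [CC.w]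
        · simp [CC.w]
          linarith
      · right
        refine ⟨Real.log (2 * z.re) / 2, ?_⟩
        rw [hx]
        apply Complex.ext
        · simp [CC.w]
        · simp [CC.w]
          linarith
    · left
      rw [← h2, mul_zero, abs_eq_zero] at h1
      exact Complex.ext h2.symm h1

theorem closed_good {L : ℕ} {lam : ℝ → ℝ[X]} (h : Fam L lam) {q : ℝ} (hq : 2 / 3 < q)
    (hq1 : q ≠ 1) {l : Filter ℝ} [l.NeBot] (hl : l ≤ 𝓝 q) (hg : ∀ᶠ a in l, Good L (lam a))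
    (hy : ∀ x, 0 < 1 + yx L (lam q) x) : Good L (lam q) := by
  have hq0 : 0 < q := by linarith
  have hs := h.sol q hq0
  have c1 := (h.ctMap hq0).mono_left hl
  have c2 := (h.ctQp hq0).mono_left hl
  have hray : ∀ x : ℝ, aeval (CC.w * Real.exp (2 * x)) (lam q) ≠ 0 := by
    intro x h0
    have h1 := yx_eq L (lam q) x
    rw [h0, norm_zero] at h1
    have h2 := nu_norm_pos L x
    have h3 := mul_pos (hy x) h2
    rw [add_comm 1] at h3
    rw [← h1] at h3
    norm_num at h3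
  have P1 : ∀ z ∈ Sec, aeval z (lam q) ≠ 0 := by
    intro z hz
    rcases Sec_cases hz with rfl | h1 | ⟨x, rfl⟩ | ⟨x, rfl⟩
    · have := aeval_ofReal' (lam q) 0
      rw [Complex.ofReal_zero] at this
      rw [this, ← coeff_zero_eq_eval_zero, hs.zero]
      intro h0
      have h1 : (3 * q - 2 : ℝ) = 0 := by exact_mod_cast h0
      linarith
    · intro h0
      have h2 := rc_hurwitz _ _ (2 * L + 2) c1.deg (top_ne hs hq) c1.coeff z
        (by rw [eval_map_algebraMap]; exact h0) Sec h1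
      obtain ⟨a, ⟨y, hy1, hy2⟩, ha⟩ := (h2.and hg).exists
      rw [eval_map_algebraMap] at hy2
      exact ha.1 y hy1 hy2
    · exact hray x
    · rw [aeval_conj']
      exact (_root_.map_ne_zero _).2 (hray x)
  refine ⟨P1, ?_⟩
  have hpp := p_pos hs hq (fun z hz => P1 _ (ofReal_mem_Sec hz))
  have hkap : 0 < kap q := by
    unfold kap
    have : q - 1 ≠ 0 := sub_ne_zero.2 hq1
    positivity
  have hrayQ : ∀ x : ℝ, (Qp L (lam q)).eval (CC.w * Real.exp (2 * x)) ≠ 0 := by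
    intro x h0
    have h1 := norm_Yp_ray hs (Real.exp (2 * x))
    rw [Yp_eq hs, eval_mul, h0, mul_zero, norm_zero] at h1
    have h2 : 0 < kap q * (lam q).eval (Real.exp (2 * x)) *
        (1 + Real.exp (2 * x) ^ 3) ^ (2 * L + 2) := by
      have := hpp _ (Real.exp_pos (2 * x)).le
      positivity
    have h3 : 0 ≤ ((lam q).eval (Real.exp (2 * x)) - (nu L).eval (Real.exp (2 * x))) ^ 2 *
        ‖aeval (CC.w ^ 2 * (Real.exp (2 * x) : ℝ)) (nu L)‖ ^ 2 := by positivity
    have h4 : (0 : ℝ) ^ 2 = 0 := by norm_num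
    rw [h4] at h1
    linarith
  intro z hz
  rcases Sec_cases hz with rfl | h1 | ⟨x, rfl⟩ | ⟨x, rfl⟩
  · rw [Qp_zero hs]
    intro h0
    have h1 : ((3 * q - 2) ^ 2 - 1 : ℝ) = 0 := by exact_mod_cast h0
    have h2 : (3 * (q - 1)) * (3 * q - 1) = 0 := by linarith
    rcases mul_eq_zero.1 h2 with h3 | h3
    · apply hq1; linarith
    · linarith
  · intro h0
    have h2 := rc_hurwitz _ _ (2 * L + 2) c2.deg (topQ_ne hs hq hq1) c2.coeff z h0 Sec h1
    obtain ⟨a, ⟨y, hy1, hy2⟩, ha⟩ := (h2.and hg).exists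
    exact ha.2 y hy1 hy2
  · exact hrayQ x
  · rw [Qp_conj hs]
    exact (_root_.map_ne_zero _).2 (hrayQ x)

theorem Fam.yx_tendsto {L : ℕ} {lam : ℝ → ℝ[X]} (h : Fam L lam) {q : ℝ} (hq : 0 < q) (x : ℝ) :
    Tendsto (fun a => yx L (lam a) x) (𝓝 q) (𝓝 (yx L (lam q) x)) := by
  have h1 := (h.ctMap hq).eval (CC.w * Real.exp (2 * x))
  simp only [eval_map_algebraMap] at h1
  unfold yx
  exact ((h1.norm.pow 2).div_const _).sub_const _

theorem Fam.gx_tendsto {L : ℕ} {lam : ℝ → ℝ[X]} (h : Fam L lam) {q : ℝ} (hq : 0 < q) (x : ℝ) :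
    Tendsto (fun a => gx L (lam a) x) (𝓝 q) (𝓝 (gx L (lam q) x)) := by
  have h1 := (h.ctMap hq).eval ((Real.exp (2 * x) : ℝ) : ℂ)
  simp only [eval_map_algebraMap, aeval_ofReal'] at h1
  have h2 := (Complex.continuous_re.tendsto _).comp h1
  unfold gx
  refine Tendsto.div_const ?_ _
  simpa [Function.comp_def] using h2

theorem good_gt {L : ℕ} {lam : ℝ → ℝ[X]} (h : Fam L lam) {q : ℝ} (hq : 1 < q) :
    Good L (lam q) := by
  set U : Set ℝ := {a | 1 < a ∧ Good L (lam a)} with hU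
  have hopen : IsOpen U := by
    rw [isOpen_iff_mem_nhds]
    intro a ha
    filter_upwards [Ioi_mem_nhds ha.1, open_good h (by linarith [ha.1]) ha.1.ne' ha.2] with b h1 h2
    exact ⟨h1, h2⟩
  have hne : (Set.Ioi (1 : ℝ) ∩ U).Nonempty := by
    have h1 := (base h).filter_mono (nhdsWithin_mono 1 (fun x (hx : 1 < x) => hx.ne') :
      𝓝[>] (1 : ℝ) ≤ 𝓝[≠] 1)
    obtain ⟨a, ha, ha1⟩ := (h1.and self_mem_nhdsWithin).exists
    exact ⟨a, ha1, ha1, ha⟩
  have hcl : _root_.closure U ∩ Set.Ioi 1 ⊆ U := by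
    rintro a ⟨ha, ha1⟩
    have ha1' : 1 < a := ha1
    refine ⟨ha1, ?_⟩
    have hnb : (𝓝[U] a).NeBot := mem_closure_iff_nhdsWithin_neBot.1 ha
    have hl : 𝓝[U] a ≤ 𝓝 a := nhdsWithin_le_nhds
    refine closed_good h (by linarith) ha1'.ne' hl
      (eventually_nhdsWithin_of_forall fun b hb => hb.2) fun x => ?_
    have h1 : 0 ≤ yx L (lam a) x := by
      refine ge_of_tendsto ((h.yx_tendsto (by linarith) x).mono_left hl) ?_
      refine eventually_nhdsWithin_of_forall fun b hb => ?_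
      have hb1 : 1 < b := hb.1
      exact yx_nonneg (h.sol b (by linarith)) (fun z hz => (Qp_pos (h.sol b (by linarith)) hb1
        (fun z hz => hb.2.2 _ (ofReal_mem_Sec hz)) z hz).le) x
    linarith
  exact (isPreconnected_Ioi.subset_of_closure_inter_subset hopen hne hcl hq).2

theorem good_lt {L : ℕ} {lam : ℝ → ℝ[X]} (h : Fam L lam) {q : ℝ} (hq : q0 < q) (hq1 : q < 1) :
    Good L (lam q) := by
  have h23 := q0_gt
  set U : Set ℝ := {a | (q0 < a ∧ a < 1) ∧ Good L (lam a)} with hU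
  have hopen : IsOpen U := by
    rw [isOpen_iff_mem_nhds]
    intro a ha
    filter_upwards [Ioo_mem_nhds ha.1.1 ha.1.2, open_good h (by linarith [ha.1.1]) ha.1.2.ne ha.2]
      with b h1 h2
    exact ⟨h1, h2⟩
  have hne : (Set.Ioo q0 1 ∩ U).Nonempty := by
    have h1 := (base h).filter_mono (nhdsWithin_mono 1 (fun x (hx : x < 1) => hx.ne) :
      𝓝[<] (1 : ℝ) ≤ 𝓝[≠] 1)
    obtain ⟨a, ha, ha1⟩ := (h1.and (Ioo_mem_nhdsLT (hq.trans hq1))).exists
    exact ⟨a, ha1, ha1, ha⟩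
  have hcl : _root_.closure U ∩ Set.Ioo q0 1 ⊆ U := by
    rintro a ⟨ha, ha1⟩
    refine ⟨ha1, ?_⟩
    have hnb : (𝓝[U] a).NeBot := mem_closure_iff_nhdsWithin_neBot.1 ha
    have hl : 𝓝[U] a ≤ 𝓝 a := nhdsWithin_le_nhds
    have ha0 : 0 < a := by linarith [ha1.1]
    have hs := h.sol a ha0
    have h1 : ∀ x, yx L (lam a) x ≤ 0 := fun x => by
      refine le_of_tendsto ((h.yx_tendsto ha0 x).mono_left hl) ?_
      refine eventually_nhdsWithin_of_forall fun b hb => ?_
      have hb1 : 2 / 3 < b := h23.trans hb.1.1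
      exact yx_nonpos (h.sol b (by linarith)) (fun z hz => (Qp_neg (h.sol b (by linarith))
        (by linarith) hb.1.2 (fun z hz => hb.2.2 _ (ofReal_mem_Sec hz)) z hz).le) x
    have h2 : ∀ x, 0 ≤ gx L (lam a) x := fun x => by
      refine ge_of_tendsto ((h.gx_tendsto ha0 x).mono_left hl) ?_
      refine eventually_nhdsWithin_of_forall fun b hb => ?_
      have hb1 : 2 / 3 < b := h23.trans hb.1.1
      have h3 := p_pos (h.sol b (by linarith)) hb1 (fun z hz => hb.2.1 _ (ofReal_mem_Sec hz)) _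
        (Real.exp_pos (2 * x)).le
      have h4 := nu_real_pos L (Real.exp_pos (2 * x)).le
      unfold gx
      positivity
    have h3 : ∀ x, gx L (lam a) x ≤ 1 := fun x => gx_le x (mp1 hs 1 zero_le_one fun x => by
      linarith [h1 x])
    have hk1 := kap_lt_one ha1.1 ha1.2
    refine closed_good h (by linarith [ha1.1]) ha1.2.ne hl
      (eventually_nhdsWithin_of_forall fun b hb => hb.2) fun x => ?_
    have h5 := mp2 hs 1 zero_le_one (fun x => by
      have h1 := h2 x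
      have h2 := h3 x
      set g := gx L (lam a) x with hg
      have h3 : (1 - g) ^ 2 * Real.tanh (3 * x) ^ 2 ≤ (1 - g) ^ 2 :=
        mul_le_of_le_one_right (sq_nonneg _) (tanh_sq_le _)
      have h4 : kap a * g ≤ 1 * g := mul_le_mul_of_nonneg_right hk1.le h1
      nlinarith) x
    rw [one_mul] at h5
    have h6 := lt_of_le_of_lt h5 (th_pow_lt L x)
    linarith [neg_abs_le (yx L (lam a) x)]
  exact (isPreconnected_Ioo.subset_of_closure_inter_subset hopen hne hcl ⟨hq, hq1⟩).2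

end EP
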