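import Pool.Agent.Helper86.EP.Defs

/-! Convolutions with the kernel (module CONV). -/

namespace EP.ConvAux
open Filter Topology MeasureTheory Set


theorem Kr_pos (x : ℝ) : 0 < Kr x := by
  unfold Kr; positivity

theorem Kr_neg (x : ℝ) : Kr (-x) = Kr x := by
  unfold Kr; rw [show 3 * -x = -(3 * x) by ring, Real.cosh_neg]

theorem Kr'_neg (x : ℝ) : Kr' (-x) = -Kr' x := by
  unfold Kr'; rw [Kr_neg, show 3 * -x = -(3 * x) by ring, Real.tanh_neg]; ring

theorem cosh_ge_exp (x : ℝ) : Real.exp x / 2 ≤ Real.cosh x := by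
  rw [Real.cosh_eq]; have := Real.exp_pos (-x); linarith

theorem cosh_ge_exp_abs (x : ℝ) : Real.exp |x| / 2 ≤ Real.cosh x := by
  rw [← Real.cosh_abs]; exact cosh_ge_exp _

theorem Kr_le (x : ℝ) : Kr x ≤ 3 / Real.pi * Real.exp (-(3 * |x|)) := by
  unfold Kr
  have h1 := cosh_ge_exp_abs (3 * x)
  rw [abs_mul, abs_of_pos (by norm_num : (0:ℝ) < 3)] at h1
  have h2 : 0 < Real.exp (3 * |x|) := Real.exp_pos _
  rw [Real.exp_neg, div_le_iff₀ (by positivity)]
  have h3 : 0 < Real.pi := Real.pi_pos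
  have h4 : 3 / Real.pi * (Real.exp (3 * |x|))⁻¹ * Real.cosh (3 * x) ≥
      3 / Real.pi * (Real.exp (3 * |x|))⁻¹ * (Real.exp (3 * |x|) / 2) :=
    mul_le_mul_of_nonneg_left h1 (by positivity)
  have h5 : 3 / Real.pi * (Real.exp (3 * |x|))⁻¹ * (Real.exp (3 * |x|) / 2) = 3 / (2 * Real.pi) := by
    field_simp
  linarith

theorem Kr'_abs_le (x : ℝ) : |Kr' x| ≤ 3 * Kr x := by
  unfold Kr'
  rw [abs_mul, abs_neg, abs_mul, abs_of_pos (Kr_pos x), abs_of_pos (by norm_num : (0:ℝ) < 3)]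
  have h : |Real.tanh (3 * x)| ≤ 1 := by
    rw [abs_le]; exact ⟨(Real.neg_one_lt_tanh _).le, (Real.tanh_lt_one _).le⟩
  have := Kr_pos x
  nlinarith

theorem Kr'_le (x : ℝ) : |Kr' x| ≤ 9 / Real.pi * Real.exp (-(3 * |x|)) := by
  have h1 := Kr'_abs_le x
  have h2 := Kr_le x
  have : 9 / Real.pi * Real.exp (-(3 * |x|)) = 3 * (3 / Real.pi * Real.exp (-(3 * |x|))) := by ring
  linarith

theorem Kr_cont : Continuous Kr := by
  unfold Kr
  refine Continuous.div continuous_const ?_ (fun x => (Real.cosh_pos _).ne')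
  exact Real.continuous_cosh.comp (continuous_const.mul continuous_id)

theorem Kr'_cont : Continuous Kr' := by
  unfold Kr'
  refine Continuous.mul ?_ Kr_cont
  refine (continuous_const.mul ?_).neg
  have : (fun x : ℝ => Real.tanh (3 * x)) = fun x => Real.sinh (3 * x) / Real.cosh (3 * x) := by
    funext x; exact Real.tanh_eq_sinh_div_cosh _
  rw [this]
  exact (Real.continuous_sinh.comp (continuous_const.mul continuous_id)).div
    (Real.continuous_cosh.comp (continuous_const.mul continuous_id)) (fun x => (Real.cosh_pos _).ne')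

theorem Kr_deriv (x : ℝ) : HasDerivAt Kr (Kr' x) x := by
  have h1 : HasDerivAt (fun x : ℝ => Real.cosh (3 * x)) (Real.sinh (3 * x) * 3) x := by
    have := ((hasDerivAt_id x).const_mul 3).cosh
    simpa using this
  have h2 := h1.inv (Real.cosh_pos _).ne'
  have h3 := h2.const_mul (3 / (2 * Real.pi))
  refine (h3.congr_deriv ?_).congr_of_eventuallyEq ?_
  · unfold Kr' Kr
    rw [Real.tanh_eq_sinh_div_cosh]
    have := (Real.cosh_pos (3 * x)).ne'
    have hp := Real.pi_pos.ne'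
    field_simp
  · filter_upwards with y
    unfold Kr; rw [div_eq_mul_inv]; rfl

theorem exp_abs_int : Integrable (fun x : ℝ => Real.exp (-(3 * |x|))) := by
  have h1 : IntegrableOn (fun x : ℝ => Real.exp (-(3 * |x|))) (Ioi 0) := by
    refine (exp_neg_integrableOn_Ioi 0 (b := 3) (by norm_num)).congr_fun ?_ measurableSet_Ioi
    intro x hx
    have : |x| = x := abs_of_pos hx
    simp only [this]; ring_nf
  have h2 : IntegrableOn (fun x : ℝ => Real.exp (-(3 * |x|))) (Iic 0) := by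
    rw [← Measure.map_neg_eq_self (volume : Measure ℝ)]
    let m : MeasurableEmbedding fun x : ℝ => -x := (Homeomorph.neg ℝ).measurableEmbedding
    rw [m.integrableOn_map_iff]
    simp_rw [Function.comp_def, abs_neg, neg_preimage, neg_Iic, neg_zero]
    exact Iff.mpr integrableOn_Ici_iff_integrableOn_Ioi h1
  rw [← integrableOn_univ, ← Iic_union_Ioi (a := (0:ℝ))]
  exact h2.union h1

theorem Kr_int : Integrable Kr := by
  refine (exp_abs_int.const_mul (3 / Real.pi)).mono' Kr_cont.aestronglyMeasurable ?_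
  filter_upwards with x
  rw [Real.norm_of_nonneg (Kr_pos x).le]; exact Kr_le x

theorem Kr'_int : Integrable Kr' := by
  refine (Kr_int.const_mul 3).mono' Kr'_cont.aestronglyMeasurable ?_
  filter_upwards with x
  exact Kr'_abs_le x

/-- antiderivative of the kernel -/
noncomputable def Ka (x : ℝ) : ℝ := Real.arctan (Real.exp (3 * x)) / Real.pi

theorem Ka_deriv (x : ℝ) : HasDerivAt Ka (Kr x) x := by
  have h1 : HasDerivAt (fun x : ℝ => Real.exp (3 * x)) (Real.exp (3 * x) * 3) x := by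
    have := ((hasDerivAt_id x).const_mul 3).exp
    simpa using this
  have h2 := h1.arctan.div_const Real.pi
  refine h2.congr_deriv ?_
  unfold Kr
  rw [Real.cosh_eq, Real.exp_neg]
  have h3 := Real.exp_pos (3 * x)
  have hp := Real.pi_pos
  field_simp
  ring

theorem Ka_top : Tendsto Ka atTop (𝓝 (1 / 2)) := by
  have h1 : Tendsto (fun x : ℝ => Real.exp (3 * x)) atTop atTop :=
    Real.tendsto_exp_atTop.comp (tendsto_id.const_mul_atTop (by norm_num : (0:ℝ) < 3))
  have h2 : Tendsto (fun x : ℝ => Real.arctan (Real.exp (3 * x))) atTop (𝓝 (Real.pi / 2)) :=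
    (tendsto_nhds_of_tendsto_nhdsWithin Real.tendsto_arctan_atTop).comp h1
  have h3 := h2.div_const Real.pi
  have : Real.pi / 2 / Real.pi = 1 / 2 := by
    have := Real.pi_pos.ne'; field_simp
  rw [this] at h3; exact h3

theorem Ka_bot : Tendsto Ka atBot (𝓝 0) := by
  have h1 : Tendsto (fun x : ℝ => Real.exp (3 * x)) atBot (𝓝 0) :=
    Real.tendsto_exp_atBot.comp (tendsto_id.const_mul_atBot (by norm_num : (0:ℝ) < 3))
  have h2 : Tendsto (fun x : ℝ => Real.arctan (Real.exp (3 * x))) atBot (𝓝 (Real.arctan 0)) :=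
    (Real.continuous_arctan.tendsto 0).comp h1
  have h3 := h2.div_const Real.pi
  rw [Real.arctan_zero, zero_div] at h3; exact h3

theorem Kr_integral : ∫ x, Kr x = 1 / 2 := by
  rw [integral_of_hasDerivAt_of_tendsto Ka_deriv Kr_int Ka_bot Ka_top]; norm_num

theorem Kr_integral_Ioi : ∫ x in Ioi (0:ℝ), Kr x = 1 / 4 := by
  rw [integral_Ioi_of_hasDerivAt_of_tendsto' (fun x _ => Ka_deriv x) Kr_int.integrableOn Ka_top]
  unfold Ka
  rw [mul_zero, Real.exp_zero, Real.arctan_one]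
  have := Real.pi_pos.ne'
  field_simp; norm_num

theorem conv_integrable (φ : ℝ → ℝ) (hφ : Continuous φ) (c : ℝ) (hb : ∀ x, |φ x| ≤ c) (x : ℝ) :
    Integrable (fun u => Kr (x - u) * φ u) ∧ Integrable (fun u => Kr' (x - u) * φ u) := by
  constructor
  · exact (Kr_int.comp_sub_left x).mul_bdd hφ.aestronglyMeasurable (Eventually.of_forall hb)
  · exact (Kr'_int.comp_sub_left x).mul_bdd hφ.aestronglyMeasurable (Eventually.of_forall hb)

theorem conv_swap (k φ : ℝ → ℝ) (x : ℝ) : ∫ u, k (x - u) * φ u = ∫ v, k v * φ (x - v) := by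
  have := integral_sub_left_eq_self (fun v => k v * φ (x - v)) (volume : Measure ℝ) x
  rw [← this]
  congr 1; funext u; simp

theorem conv_cont' (φ : ℝ → ℝ) (hφ : Continuous φ) (c : ℝ) (hb : ∀ x, |φ x| ≤ c) :
    Continuous (fun x => ∫ u, Kr' (x - u) * φ u) := by
  simp_rw [conv_swap]
  refine continuous_of_dominated (bound := fun v => |Kr' v| * c) ?_ ?_ (Kr'_int.abs.mul_const c) ?_
  · intro x
    exact (Kr'_cont.mul (hφ.comp (continuous_const.sub continuous_id))).aestronglyMeasurable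
  · intro x
    filter_upwards with v
    rw [Real.norm_eq_abs, abs_mul]
    exact mul_le_mul_of_nonneg_left (hb _) (abs_nonneg _)
  · filter_upwards with v
    exact continuous_const.mul (hφ.comp (continuous_id.sub continuous_const))

theorem conv_lim (φ : ℝ → ℝ) (hφ : Continuous φ) (c : ℝ) (hb : ∀ x, |φ x| ≤ c) (a : ℝ)
    (ha : Tendsto φ atTop (𝓝 a)) :
    Tendsto (fun x => ∫ u, Kr (x - u) * φ u) atTop (𝓝 (a / 2)) := by
  simp_rw [conv_swap]
  have h : a / 2 = ∫ v, Kr v * a := by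
    rw [integral_mul_const, Kr_integral]; ring
  rw [h]
  refine tendsto_integral_filter_of_dominated_convergence (fun v => Kr v * c) ?_ ?_
    (Kr_int.mul_const c) ?_
  · filter_upwards with x
    exact (Kr_cont.mul (hφ.comp (continuous_const.sub continuous_id))).aestronglyMeasurable
  · filter_upwards with x
    filter_upwards with v
    rw [Real.norm_eq_abs, abs_mul, abs_of_pos (Kr_pos v)]
    exact mul_le_mul_of_nonneg_left (hb _) (Kr_pos v).le
  · filter_upwards with v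
    refine Tendsto.const_mul _ (ha.comp ?_)
    exact tendsto_atTop_add_const_right _ _ tendsto_id

theorem conv_deriv (φ : ℝ → ℝ) (hφ : Continuous φ) (c : ℝ) (hb : ∀ x, |φ x| ≤ c) (x : ℝ) :
    HasDerivAt (fun x => ∫ u, Kr (x - u) * φ u) (∫ u, Kr' (x - u) * φ u) x := by
  have hc : 0 ≤ c := (abs_nonneg _).trans (hb 0)
  have key := hasDerivAt_integral_of_dominated_loc_of_deriv_le (μ := volume)
    (F := fun x u => Kr (x - u) * φ u) (F' := fun x u => Kr' (x - u) * φ u) (x₀ := x)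
    (s := Metric.ball x 1)
    (bound := fun u => 9 / Real.pi * Real.exp 3 * c * Real.exp (-(3 * |x - u|)))
    (Metric.ball_mem_nhds x one_pos) ?_ (conv_integrable φ hφ c hb x).1 ?_ ?_ ?_ ?_
  · exact key.2
  · filter_upwards with y
    exact ((Kr_cont.comp (continuous_const.sub continuous_id)).mul hφ).aestronglyMeasurable
  · exact ((Kr'_cont.comp (continuous_const.sub continuous_id)).mul hφ).aestronglyMeasurable
  · filter_upwards with u y hy
    rw [Real.norm_eq_abs, abs_mul]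
    have h1 := Kr'_le (y - u)
    have hd : |y - x| < 1 := by simpa [Real.dist_eq] using hy
    have h2 : |x - u| ≤ |y - u| + 1 := by
      have : x - u = (y - u) - (y - x) := by ring
      rw [this]
      have := abs_sub (y - u) (y - x)
      linarith
    have h3 : Real.exp (-(3 * |y - u|)) ≤ Real.exp 3 * Real.exp (-(3 * |x - u|)) := by
      rw [← Real.exp_add]; apply Real.exp_le_exp.2; linarith
    calc |Kr' (y - u)| * |φ u| ≤ (9 / Real.pi * Real.exp (-(3 * |y - u|))) * c :=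
          mul_le_mul h1 (hb u) (abs_nonneg _) (by positivity)
      _ ≤ (9 / Real.pi * (Real.exp 3 * Real.exp (-(3 * |x - u|)))) * c := by gcongr
      _ = _ := by ring
  · exact ((exp_abs_int.comp_sub_left x).const_mul _)
  · filter_upwards with u y hy
    have h1 := (Kr_deriv (y - u)).comp y ((hasDerivAt_id y).sub_const u)
    have h2 := h1.mul_const (φ u)
    simpa [Function.comp_def] using h2

theorem Kr_top : Tendsto Kr atTop (𝓝 0) := by
  have h1 : Tendsto (fun x : ℝ => 3 / Real.pi * Real.exp (-(3 * x))) atTop (𝓝 (3 / Real.pi * 0)) := by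
    refine Tendsto.const_mul _ (Real.tendsto_exp_atBot.comp ?_)
    exact tendsto_neg_atTop_atBot.comp (tendsto_id.const_mul_atTop (by norm_num : (0:ℝ) < 3))
  rw [mul_zero] at h1
  refine squeeze_zero' (Eventually.of_forall (fun x => (Kr_pos x).le)) ?_ h1
  filter_upwards [eventually_ge_atTop 0] with x hx
  have := Kr_le x
  rwa [abs_of_nonneg hx] at this

theorem Kr_le' (x : ℝ) (hx : 0 ≤ x) : Kr x ≤ Real.exp (-(3 * x)) := by
  have h1 := Kr_le x
  rw [abs_of_nonneg hx] at h1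
  have h2 : 3 / Real.pi ≤ 1 := by
    rw [div_le_one Real.pi_pos]; exact Real.pi_gt_three.le
  have h3 := Real.exp_pos (-(3 * x))
  nlinarith

theorem Kr'_nonpos (x : ℝ) (hx : 0 ≤ x) : Kr' x ≤ 0 := by
  unfold Kr'
  have h1 : 0 ≤ Real.tanh (3 * x) := by
    rw [Real.tanh_eq_sinh_div_cosh]
    exact div_nonneg (Real.sinh_nonneg_iff.2 (by positivity)) (Real.cosh_pos _).le
  have := Kr_pos x
  nlinarith [mul_nonneg h1 this.le]

theorem Kr'_shift_int (x : ℝ) : ∫ u in Ioi (0:ℝ), Kr' (x + u) = -Kr x := by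
  have h := integral_Ioi_of_hasDerivAt_of_tendsto' (a := 0) (f := fun u => Kr (x + u))
    (f' := fun u => Kr' (x + u)) (m := 0) ?_ ?_ ?_
  · rw [h]; simp
  · intro u _
    have := (Kr_deriv (x + u)).comp u ((hasDerivAt_id u).const_add x)
    simpa [Function.comp_def] using this
  · exact (Kr'_int.comp_add_left x).integrableOn
  · exact Kr_top.comp (tendsto_atTop_add_const_left _ _ tendsto_id)

theorem Kr'_abs_shift_int (x : ℝ) (hx : 0 ≤ x) : ∫ u in Ioi (0:ℝ), |Kr' (x + u)| = Kr x := by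
  have : ∫ u in Ioi (0:ℝ), |Kr' (x + u)| = ∫ u in Ioi (0:ℝ), -Kr' (x + u) := by
    refine setIntegral_congr_fun measurableSet_Ioi ?_
    intro u hu
    exact abs_of_nonpos (Kr'_nonpos _ (by have : (0:ℝ) < u := hu; linarith))
  rw [this, integral_neg, Kr'_shift_int, neg_neg]

/-- a uniform bound of the inner integrals -/
theorem inner_bound (f : ℝ → ℝ) (d x : ℝ) (hx : 0 ≤ x) (hf : ∀ u, |f u| ≤ d) :
    |∫ u in Ioi (0:ℝ), f u * Kr' (x + u)| ≤ d * Kr x := by
  have h := norm_integral_le_of_norm_le (μ := volume.restrict (Ioi (0:ℝ)))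
    (f := fun u => f u * Kr' (x + u)) (g := fun u => d * |Kr' (x + u)|)
    (((Kr'_int.comp_add_left x).abs.const_mul d).integrableOn) ?_
  · rw [Real.norm_eq_abs, integral_const_mul, Kr'_abs_shift_int x hx] at h
    exact h
  · filter_upwards with u
    rw [Real.norm_eq_abs, abs_mul]
    exact mul_le_mul_of_nonneg_right (hf u) (abs_nonneg _)

theorem conv_cross_bound (φ ψ : ℝ → ℝ) (hφ : Continuous φ) (hψ : Continuous ψ) (c c' : ℝ)
    (hb : ∀ x, |φ x| ≤ c) (hb' : ∀ x, |ψ x| ≤ c') :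
    |∫ x in Ioi (0:ℝ), ∫ u in Ioi (0:ℝ), φ x * ψ u * Kr' (x + u)| ≤
      c' * ∫ x in Ioi (0:ℝ), |φ x| * Real.exp (-(3 * x)) := by
  have hc' : 0 ≤ c' := (abs_nonneg _).trans (hb' 0)
  have hI : IntegrableOn (fun x => |φ x| * Real.exp (-(3 * x))) (Ioi 0) := by
    have h1 : IntegrableOn (fun x : ℝ => Real.exp (-(3 * x))) (Ioi 0) := by
      refine (exp_neg_integrableOn_Ioi 0 (b := 3) (by norm_num)).congr_fun ?_ measurableSet_Ioi
      intro x _; simp only; ring_nf
    refine Integrable.bdd_mul (c := c) h1 hφ.abs.aestronglyMeasurable ?_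
    filter_upwards with x
    rw [Real.norm_eq_abs, abs_abs]; exact hb x
  rw [← integral_const_mul]
  refine norm_integral_le_of_norm_le (μ := volume.restrict (Ioi (0:ℝ)))
    (f := fun x => ∫ u in Ioi (0:ℝ), φ x * ψ u * Kr' (x + u))
    (g := fun x => c' * (|φ x| * Real.exp (-(3 * x)))) (Integrable.const_mul hI c') ?_
  filter_upwards [self_mem_ae_restrict measurableSet_Ioi] with x hx
  have hx0 : (0:ℝ) ≤ x := le_of_lt hx
  have h1 : ∫ u in Ioi (0:ℝ), φ x * ψ u * Kr' (x + u) =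
      φ x * ∫ u in Ioi (0:ℝ), ψ u * Kr' (x + u) := by
    rw [← integral_const_mul]; congr 1; funext u; ring
  rw [h1, Real.norm_eq_abs, abs_mul]
  have h2 := inner_bound ψ c' x hx0 hb'
  have h3 := Kr_le' x hx0
  calc |φ x| * |∫ u in Ioi (0:ℝ), ψ u * Kr' (x + u)| ≤ |φ x| * (c' * Real.exp (-(3 * x))) := by
        refine mul_le_mul_of_nonneg_left (h2.trans ?_) (abs_nonneg _)
        exact mul_le_mul_of_nonneg_left h3 hc'
    _ = _ := by ring

theorem sq_anti (h : ℝ → ℝ → ℝ) (hc : Continuous (Function.uncurry h)) (R d : ℝ)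
    (hd : ∀ x u, |h x u| ≤ d) (ha : ∀ x u, h u x = -h x u) :
    ∫ x in Ioc (0:ℝ) R, ∫ u in Ioc (0:ℝ) R, h x u = 0 := by
  have hi : Integrable (Function.uncurry h)
      ((volume.restrict (Ioc (0:ℝ) R)).prod (volume.restrict (Ioc (0:ℝ) R))) := by
    refine Integrable.of_bound hc.aestronglyMeasurable d ?_
    filter_upwards with z
    exact hd _ _
  have h1 := integral_integral_swap hi
  have h2 : ∫ x in Ioc (0:ℝ) R, ∫ u in Ioc (0:ℝ) R, h u x =
      -∫ x in Ioc (0:ℝ) R, ∫ u in Ioc (0:ℝ) R, h x u := by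
    rw [← integral_neg]
    congr 1; funext x
    rw [← integral_neg]
    congr 1; funext u
    exact ha x u
  linarith

theorem shift_Ioi (g : ℝ → ℝ) (R : ℝ) : ∫ u in Ioi R, g u = ∫ t in Ioi (0:ℝ), g (R + t) := by
  rw [← integral_indicator measurableSet_Ioi, ← integral_indicator measurableSet_Ioi]
  have h := integral_add_left_eq_self (μ := (volume : Measure ℝ)) ((Ioi R).indicator g) R
  rw [← h]
  congr 1
  funext t
  by_cases ht : 0 < t
  · have h1 : R + t ∈ Ioi R := by show R < R + t; linarith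
    have h2 : t ∈ Ioi (0:ℝ) := ht
    rw [indicator_of_mem h1, indicator_of_mem h2]
  · have h1 : R + t ∉ Ioi R := by intro h; have : R < R + t := h; exact ht (by linarith)
    have h2 : t ∉ Ioi (0:ℝ) := ht
    rw [indicator_of_notMem h1, indicator_of_notMem h2]

theorem int_meas (h : ℝ → ℝ → ℝ) (hc : Continuous (Function.uncurry h)) (S : Set ℝ) :
    StronglyMeasurable (fun x => ∫ u in S, h x u) :=
  StronglyMeasurable.integral_prod_right (ν := volume.restrict S) hc.stronglyMeasurable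

theorem int_bd (f : ℝ → ℝ) (d x : ℝ) (hf : ∀ u, |f u| ≤ d) (S : Set ℝ) :
    |∫ u in S, f u * Kr' (x - u)| ≤ d * ∫ v, |Kr' v| := by
  have hd : 0 ≤ d := (abs_nonneg _).trans (hf 0)
  have h := norm_integral_le_of_norm_le (μ := volume.restrict S)
    (f := fun u => f u * Kr' (x - u)) (g := fun u => d * |Kr' (x - u)|)
    (((Kr'_int.comp_sub_left x).abs.const_mul d).integrableOn) ?_
  · rw [Real.norm_eq_abs] at h
    refine h.trans ?_
    have h2 : ∫ u in S, d * |Kr' (x - u)| ≤ ∫ u, d * |Kr' (x - u)| := by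
      refine setIntegral_le_integral ((Kr'_int.comp_sub_left x).abs.const_mul d) ?_
      exact Eventually.of_forall fun u => mul_nonneg hd (abs_nonneg _)
    refine h2.trans ?_
    rw [integral_const_mul]
    rw [integral_sub_left_eq_self (fun v => |Kr' v|) (volume : Measure ℝ) x]
  · filter_upwards with u
    rw [Real.norm_eq_abs, abs_mul]
    exact mul_le_mul_of_nonneg_right (hf u) (abs_nonneg _)

theorem line_split (f : ℝ → ℝ) (hf : Integrable f) :
    ∫ u, f u = (∫ u in Ioi (0:ℝ), f u) + ∫ u in Ioi (0:ℝ), f (-u) := by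
  rw [integral_comp_neg_Ioi, neg_zero, add_comm]
  exact (intervalIntegral.integral_Iic_add_Ioi hf.integrableOn hf.integrableOn).symm

theorem Ioi_split (f : ℝ → ℝ) (hf : Integrable f) (R : ℝ) (hR : 0 ≤ R) :
    ∫ u in Ioi (0:ℝ), f u = (∫ u in Ioc (0:ℝ) R, f u) + ∫ u in Ioi R, f u := by
  rw [← Ioc_union_Ioi_eq_Ioi hR]
  refine setIntegral_union ?_ measurableSet_Ioi hf.integrableOn hf.integrableOn
  rw [Set.disjoint_left]
  intro x hx hx'
  exact absurd hx.2 (not_le.2 hx')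

/-- the symmetrised product -/
def sy (φ ψ : ℝ → ℝ) (x u : ℝ) : ℝ := φ x * ψ u + ψ x * φ u

theorem sy_symm (φ ψ : ℝ → ℝ) (x u : ℝ) : sy φ ψ u x = sy φ ψ x u := by unfold sy; ring

theorem sy_cont {φ ψ : ℝ → ℝ} (hφ : Continuous φ) (hψ : Continuous ψ) :
    Continuous (fun z : ℝ × ℝ => sy φ ψ z.1 z.2) := by
  unfold sy
  exact ((hφ.comp continuous_fst).mul (hψ.comp continuous_snd)).add
    ((hψ.comp continuous_fst).mul (hφ.comp continuous_snd))

theorem sy_bd {φ ψ : ℝ → ℝ} {c : ℝ} (hb : ∀ x, |φ x| ≤ c) (hb' : ∀ x, |ψ x| ≤ c) (x u : ℝ) :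
    |sy φ ψ x u| ≤ 2 * c ^ 2 := by
  have hc : 0 ≤ c := (abs_nonneg _).trans (hb 0)
  unfold sy
  have h1 := abs_add_le (φ x * ψ u) (ψ x * φ u)
  rw [abs_mul, abs_mul] at h1
  have h2 : |φ x| * |ψ u| ≤ c * c := mul_le_mul (hb x) (hb' u) (abs_nonneg _) hc
  have h3 : |ψ x| * |φ u| ≤ c * c := mul_le_mul (hb' x) (hb u) (abs_nonneg _) hc
  nlinarith

theorem cross_split (φ ψ : ℝ → ℝ) (hφ : Continuous φ) (hψ : Continuous ψ) (c : ℝ)
    (hb : ∀ x, |φ x| ≤ c) (hb' : ∀ x, |ψ x| ≤ c) (he : ∀ x, φ (-x) = φ x)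
    (he' : ∀ x, ψ (-x) = ψ x) (R : ℝ) (hR : 0 ≤ R) (x : ℝ) :
    φ x * (∫ u, Kr' (x - u) * ψ u) + ψ x * ∫ u, Kr' (x - u) * φ u =
      (∫ u in Ioc (0:ℝ) R, sy φ ψ x u * Kr' (x - u)) +
      (∫ u in Ioi R, sy φ ψ x u * Kr' (x - u)) +
      ∫ u in Ioi (0:ℝ), sy φ ψ x u * Kr' (x + u) := by
  have hi : Integrable (fun u => sy φ ψ x u * Kr' (x - u)) := by
    have h1 := ((conv_integrable ψ hψ c hb' x).2.const_mul (φ x)).add
      ((conv_integrable φ hφ c hb x).2.const_mul (ψ x))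
    refine h1.congr (Eventually.of_forall fun u => ?_)
    simp only [Pi.add_apply, sy]; ring
  have h0 : φ x * (∫ u, Kr' (x - u) * ψ u) + ψ x * ∫ u, Kr' (x - u) * φ u =
      ∫ u, sy φ ψ x u * Kr' (x - u) := by
    rw [← integral_const_mul, ← integral_const_mul, ← integral_add
      ((conv_integrable ψ hψ c hb' x).2.const_mul (φ x))
      ((conv_integrable φ hφ c hb x).2.const_mul (ψ x))]
    congr 1; funext u; unfold sy; ring
  rw [h0, line_split _ hi, Ioi_split _ hi R hR]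
  congr 1
  refine setIntegral_congr_fun measurableSet_Ioi ?_
  intro u _
  simp only [sy, he, he']
  rw [show x - -u = x + u by ring]

theorem cont_m (φ ψ : ℝ → ℝ) (hφ : Continuous φ) (hψ : Continuous ψ) :
    Continuous (Function.uncurry fun x u => sy φ ψ x u * Kr' (x - u)) :=
  (sy_cont hφ hψ).mul (Kr'_cont.comp (continuous_fst.sub continuous_snd))

theorem cont_p (φ ψ : ℝ → ℝ) (hφ : Continuous φ) (hψ : Continuous ψ) :
    Continuous (Function.uncurry fun x u => sy φ ψ x u * Kr' (x + u)) :=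
  (sy_cont hφ hψ).mul (Kr'_cont.comp (continuous_fst.add continuous_snd))

theorem int_R (φ ψ : ℝ → ℝ) (hφ : Continuous φ) (hψ : Continuous ψ) (c : ℝ)
    (hb : ∀ x, |φ x| ≤ c) (hb' : ∀ x, |ψ x| ≤ c) (S : Set ℝ) (a b : ℝ) :
    IntegrableOn (fun x => ∫ u in S, sy φ ψ x u * Kr' (x - u)) (Ioc a b) := by
  refine Integrable.of_bound (int_meas _ (cont_m φ ψ hφ hψ) S).aestronglyMeasurable
    (2 * c ^ 2 * ∫ v, |Kr' v|) ?_
  filter_upwards with x
  exact int_bd _ _ x (sy_bd hb hb' x) S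

theorem J3_bd (φ ψ : ℝ → ℝ) (c : ℝ)
    (hb : ∀ x, |φ x| ≤ c) (hb' : ∀ x, |ψ x| ≤ c) (x : ℝ) (hx : 0 ≤ x) :
    |∫ u in Ioi (0:ℝ), sy φ ψ x u * Kr' (x + u)| ≤ 2 * c ^ 2 * Kr x :=
  inner_bound _ _ x hx (sy_bd hb hb' x)

theorem J3_int (φ ψ : ℝ → ℝ) (hφ : Continuous φ) (hψ : Continuous ψ) (c : ℝ)
    (hb : ∀ x, |φ x| ≤ c) (hb' : ∀ x, |ψ x| ≤ c) :
    IntegrableOn (fun x => ∫ u in Ioi (0:ℝ), sy φ ψ x u * Kr' (x + u)) (Ioi 0) := by
  refine Integrable.mono' (g := fun x => 2 * c ^ 2 * Kr x) ((Kr_int.const_mul _).integrableOn)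
    (int_meas _ (cont_p φ ψ hφ hψ) _).aestronglyMeasurable ?_
  filter_upwards [self_mem_ae_restrict measurableSet_Ioi] with x hx
  exact J3_bd φ ψ c hb hb' x (le_of_lt hx)

theorem I1_zero (φ ψ : ℝ → ℝ) (hφ : Continuous φ) (hψ : Continuous ψ) (c : ℝ)
    (hb : ∀ x, |φ x| ≤ c) (hb' : ∀ x, |ψ x| ≤ c) (R : ℝ) :
    ∫ x in Ioc (0:ℝ) R, ∫ u in Ioc (0:ℝ) R, sy φ ψ x u * Kr' (x - u) = 0 := by
  refine sq_anti _ (cont_m φ ψ hφ hψ) R (2 * c ^ 2 * (9 / Real.pi)) ?_ ?_
  · intro x u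
    rw [abs_mul]
    refine mul_le_mul (sy_bd hb hb' x u) ?_ (abs_nonneg _) (by positivity)
    refine (Kr'_le _).trans ?_
    have : Real.exp (-(3 * |x - u|)) ≤ 1 := Real.exp_le_one_iff.2 (by have := abs_nonneg (x - u); linarith)
    have hp : 0 ≤ 9 / Real.pi := by positivity
    nlinarith
  · intro x u
    rw [sy_symm, show u - x = -(x - u) by ring, Kr'_neg]; ring

/-- the corner integrand -/
theorem corner_inner (φ ψ : ℝ → ℝ) (hφ : Continuous φ) (hψ : Continuous ψ) (c : ℝ)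
    (hb : ∀ x, |φ x| ≤ c) (hb' : ∀ x, |ψ x| ≤ c) (a b : ℝ) (ha : Tendsto φ atTop (𝓝 a))
    (hb1 : Tendsto ψ atTop (𝓝 b)) (p : ℝ) :
    Tendsto (fun R : ℝ => ∫ t in Ioi (0:ℝ), sy φ ψ (R - p) (R + t) * Kr' (p + t)) atTop
      (𝓝 (-(2 * (a * b) * Kr p))) := by
  have h0 : -(2 * (a * b) * Kr p) = ∫ t in Ioi (0:ℝ), (2 * (a * b)) * Kr' (p + t) := by
    rw [integral_const_mul, Kr'_shift_int]; ring
  rw [h0]
  refine tendsto_integral_filter_of_dominated_convergence
    (fun t => 2 * c ^ 2 * |Kr' (p + t)|) ?_ ?_ ?_ ?_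
  · filter_upwards with R
    refine Continuous.aestronglyMeasurable ?_
    refine Continuous.mul ?_ (Kr'_cont.comp (continuous_const.add continuous_id))
    exact (sy_cont hφ hψ).comp (continuous_const.prodMk (continuous_const.add continuous_id))
  · filter_upwards with R
    filter_upwards with t
    rw [Real.norm_eq_abs, abs_mul]
    exact mul_le_mul_of_nonneg_right (sy_bd hb hb' _ _) (abs_nonneg _)
  · exact ((Kr'_int.comp_add_left p).abs.const_mul _).integrableOn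
  · filter_upwards with t
    refine Tendsto.mul_const _ ?_
    have h1 : Tendsto (fun R : ℝ => R - p) atTop atTop := tendsto_atTop_add_const_right _ _ tendsto_id
    have h2 : Tendsto (fun R : ℝ => R + t) atTop atTop := tendsto_atTop_add_const_right _ _ tendsto_id
    have h3 := ((ha.comp h1).mul (hb1.comp h2)).add ((hb1.comp h1).mul (ha.comp h2))
    have h4 : a * b + b * a = 2 * (a * b) := by ring
    rw [h4] at h3
    exact h3

theorem I2_eq (φ ψ : ℝ → ℝ) (R : ℝ) (hR : 0 ≤ R) :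
    ∫ x in Ioc (0:ℝ) R, ∫ u in Ioi R, sy φ ψ x u * Kr' (x - u) =
      -∫ p in Ioi (0:ℝ), (Ioc (0:ℝ) R).indicator
        (fun p => ∫ t in Ioi (0:ℝ), sy φ ψ (R - p) (R + t) * Kr' (p + t)) p := by
  have h1 : ∀ x, ∫ u in Ioi R, sy φ ψ x u * Kr' (x - u) =
      ∫ t in Ioi (0:ℝ), sy φ ψ x (R + t) * Kr' (x - (R + t)) := fun x =>
    shift_Ioi (fun u => sy φ ψ x u * Kr' (x - u)) R
  simp_rw [h1]
  rw [← intervalIntegral.integral_of_le hR]
  have h2 := intervalIntegral.integral_comp_sub_left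
    (fun x => ∫ t in Ioi (0:ℝ), sy φ ψ x (R + t) * Kr' (x - (R + t))) (a := 0) (b := R) R
  rw [sub_self, sub_zero] at h2
  rw [← h2, intervalIntegral.integral_of_le hR, setIntegral_indicator measurableSet_Ioc]
  have h3 : Ioi (0:ℝ) ∩ Ioc 0 R = Ioc 0 R := by
    ext x; simp
  rw [h3, ← integral_neg]
  congr 1; funext p
  rw [← integral_neg]
  congr 1; funext t
  rw [show R - p - (R + t) = -(p + t) by ring, Kr'_neg]; ring

theorem I2_lim (φ ψ : ℝ → ℝ) (hφ : Continuous φ) (hψ : Continuous ψ) (c : ℝ)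
    (hb : ∀ x, |φ x| ≤ c) (hb' : ∀ x, |ψ x| ≤ c) (a b : ℝ) (ha : Tendsto φ atTop (𝓝 a))
    (hb1 : Tendsto ψ atTop (𝓝 b)) :
    Tendsto (fun R : ℝ => ∫ x in Ioc (0:ℝ) R, ∫ u in Ioi R, sy φ ψ x u * Kr' (x - u)) atTop
      (𝓝 (a * b / 2)) := by
  have h0 : a * b / 2 = -∫ p in Ioi (0:ℝ), -(2 * (a * b) * Kr p) := by
    rw [integral_neg, integral_const_mul, Kr_integral_Ioi]; ring
  rw [h0]
  have key : Tendsto (fun R : ℝ => ∫ p in Ioi (0:ℝ), (Ioc (0:ℝ) R).indicator
        (fun p => ∫ t in Ioi (0:ℝ), sy φ ψ (R - p) (R + t) * Kr' (p + t)) p) atTop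
      (𝓝 (∫ p in Ioi (0:ℝ), -(2 * (a * b) * Kr p))) := by
    refine tendsto_integral_filter_of_dominated_convergence
      (fun p => 2 * c ^ 2 * Kr p) ?_ ?_ ?_ ?_
    · filter_upwards with R
      refine AEStronglyMeasurable.indicator ?_ measurableSet_Ioc
      refine (int_meas (fun p t => sy φ ψ (R - p) (R + t) * Kr' (p + t)) ?_ _).aestronglyMeasurable
      refine Continuous.mul ?_ (Kr'_cont.comp (continuous_fst.add continuous_snd))
      exact (sy_cont hφ hψ).comp ((continuous_const.sub continuous_fst).prodMk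
        (continuous_const.add continuous_snd))
    · filter_upwards with R
      filter_upwards [self_mem_ae_restrict measurableSet_Ioi] with p hp
      have hp0 : (0:ℝ) ≤ p := le_of_lt hp
      by_cases h : p ∈ Ioc (0:ℝ) R
      · rw [indicator_of_mem h]
        exact inner_bound (fun t => sy φ ψ (R - p) (R + t)) _ p hp0 (fun t => sy_bd hb hb' _ _)
      · rw [indicator_of_notMem h, norm_zero]
        have := Kr_pos p
        positivity
    · exact (Kr_int.const_mul _).integrableOn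
    · filter_upwards [self_mem_ae_restrict measurableSet_Ioi] with p hp
      refine (corner_inner φ ψ hφ hψ c hb hb' a b ha hb1 p).congr' ?_
      filter_upwards [eventually_ge_atTop p] with R hR
      rw [indicator_of_mem (show p ∈ Ioc (0:ℝ) R from ⟨hp, hR⟩)]
  refine key.neg.congr' ?_
  filter_upwards [eventually_ge_atTop 0] with R hR
  exact (I2_eq φ ψ R hR).symm

theorem prod_int (φ ψ : ℝ → ℝ) (hφ : Continuous φ) (hψ : Continuous ψ) (c : ℝ)
    (hb : ∀ x, |φ x| ≤ c) (hb' : ∀ x, |ψ x| ≤ c) :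
    Integrable (Function.uncurry fun x u => φ x * ψ u * Kr' (x + u))
      ((volume.restrict (Ioi (0:ℝ))).prod (volume.restrict (Ioi (0:ℝ)))) := by
  have hc : 0 ≤ c := (abs_nonneg _).trans (hb 0)
  have h1 : Integrable (fun x : ℝ => Real.exp (-(3 * x))) (volume.restrict (Ioi (0:ℝ))) := by
    refine (exp_neg_integrableOn_Ioi 0 (b := 3) (by norm_num)).congr_fun ?_ measurableSet_Ioi
    intro x _; simp only; ring_nf
  have h2 := (h1.mul_prod h1).const_mul (c ^ 2 * (9 / Real.pi))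
  refine Integrable.mono' h2 ?_ ?_
  · refine Continuous.aestronglyMeasurable ?_
    exact ((hφ.comp continuous_fst).mul (hψ.comp continuous_snd)).mul
      (Kr'_cont.comp (continuous_fst.add continuous_snd))
  · rw [Measure.prod_restrict]
    filter_upwards [self_mem_ae_restrict (measurableSet_Ioi.prod measurableSet_Ioi)] with z hz
    have hx : 0 < z.1 := hz.1
    have hu : 0 < z.2 := hz.2
    simp only [Function.uncurry]
    rw [Real.norm_eq_abs, abs_mul, abs_mul]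
    have h3 := Kr'_le (z.1 + z.2)
    rw [abs_of_pos (show (0:ℝ) < z.1 + z.2 by linarith)] at h3
    have h4 : |φ z.1| * |ψ z.2| ≤ c * c := mul_le_mul (hb _) (hb' _) (abs_nonneg _) hc
    calc |φ z.1| * |ψ z.2| * |Kr' (z.1 + z.2)| ≤
        (c * c) * (9 / Real.pi * Real.exp (-(3 * (z.1 + z.2)))) :=
          mul_le_mul h4 h3 (abs_nonneg _) (by positivity)
      _ = _ := by
          rw [show -(3 * (z.1 + z.2)) = -(3 * z.1) + -(3 * z.2) by ring, Real.exp_add]; ring

theorem I3_val (φ ψ : ℝ → ℝ) (hφ : Continuous φ) (hψ : Continuous ψ) (c : ℝ)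
    (hb : ∀ x, |φ x| ≤ c) (hb' : ∀ x, |ψ x| ≤ c) :
    ∫ x in Ioi (0:ℝ), ∫ u in Ioi (0:ℝ), sy φ ψ x u * Kr' (x + u) =
      2 * ∫ x in Ioi (0:ℝ), ∫ u in Ioi (0:ℝ), φ x * ψ u * Kr' (x + u) := by
  have i1 := prod_int φ ψ hφ hψ c hb hb'
  have i2 := prod_int ψ φ hψ hφ c hb' hb
  have h1 : ∀ x u, sy φ ψ x u * Kr' (x + u) =
      φ x * ψ u * Kr' (x + u) + ψ x * φ u * Kr' (x + u) := by
    intro x u; unfold sy; ring
  simp_rw [h1]
  have h2 := integral_integral_add i1 i2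
  simp only [Function.uncurry] at h2
  rw [h2]
  have h3 := integral_integral_swap i2
  rw [h3]
  have h4 : ∫ y in Ioi (0:ℝ), ∫ x in Ioi (0:ℝ), ψ x * φ y * Kr' (x + y) =
      ∫ x in Ioi (0:ℝ), ∫ u in Ioi (0:ℝ), φ x * ψ u * Kr' (x + u) := by
    congr 1; funext y; congr 1; funext x
    rw [add_comm x y]; ring
  rw [h4]; ring

theorem add3 (f g h : ℝ → ℝ) (S : Set ℝ) (hf : IntegrableOn f S) (hg : IntegrableOn g S)
    (hh : IntegrableOn h S) :
    ∫ x in S, (f x + g x + h x) = (∫ x in S, f x) + (∫ x in S, g x) + ∫ x in S, h x := by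
  have h1 := integral_add (μ := volume.restrict S) (hf.add hg) hh
  have h2 := integral_add (μ := volume.restrict S) hf hg
  simp only [Pi.add_apply] at h1
  rw [h1, h2]

theorem conv_cross (φ ψ : ℝ → ℝ) (hφ : Continuous φ) (hψ : Continuous ψ) (c : ℝ)
    (hb : ∀ x, |φ x| ≤ c) (hb' : ∀ x, |ψ x| ≤ c) (he : ∀ x, φ (-x) = φ x)
    (he' : ∀ x, ψ (-x) = ψ x) (a b : ℝ) (ha : Tendsto φ atTop (𝓝 a))
    (hb1 : Tendsto ψ atTop (𝓝 b)) :
    Tendsto (fun R : ℝ => ∫ x in (0:ℝ)..R, (φ x * (∫ u, Kr' (x - u) * ψ u) +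
      ψ x * ∫ u, Kr' (x - u) * φ u)) atTop
      (𝓝 (a * b / 2 + 2 * ∫ x in Ioi (0:ℝ), ∫ u in Ioi (0:ℝ), φ x * ψ u * Kr' (x + u))) := by
  have hI3 := J3_int φ ψ hφ hψ c hb hb'
  have h3 := intervalIntegral_tendsto_integral_Ioi 0 hI3 tendsto_id
  rw [I3_val φ ψ hφ hψ c hb hb'] at h3
  have h2 := I2_lim φ ψ hφ hψ c hb hb' a b ha hb1
  refine (h2.add h3).congr' ?_
  filter_upwards [eventually_ge_atTop 0] with R hR
  have e1 := int_R φ ψ hφ hψ c hb hb' (Ioc (0:ℝ) R) 0 R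
  have e2 := int_R φ ψ hφ hψ c hb hb' (Ioi R) 0 R
  have e3 : IntegrableOn (fun x => ∫ u in Ioi (0:ℝ), sy φ ψ x u * Kr' (x + u)) (Ioc 0 R) :=
    hI3.mono_set Ioc_subset_Ioi_self
  rw [intervalIntegral.integral_of_le hR]
  rw [show (fun x => φ x * (∫ u, Kr' (x - u) * ψ u) + ψ x * ∫ u, Kr' (x - u) * φ u) =
    fun x => (∫ u in Ioc (0:ℝ) R, sy φ ψ x u * Kr' (x - u)) +
      (∫ u in Ioi R, sy φ ψ x u * Kr' (x - u)) +
      ∫ u in Ioi (0:ℝ), sy φ ψ x u * Kr' (x + u) from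
    funext (cross_split φ ψ hφ hψ c hb hb' he he' R hR)]
  rw [add3 _ _ _ _ e1 e2 e3, I1_zero φ ψ hφ hψ c hb hb' R, zero_add]
  simp only [id]
  rw [intervalIntegral.integral_of_le hR]

theorem sech_eq (x : ℝ) : 1 / Real.cosh (3 * x) = 2 * Real.pi / 3 * Kr x := by
  unfold Kr
  have := Real.pi_pos.ne'
  have := (Real.cosh_pos (3 * x)).ne'
  field_simp

theorem sech_int : Integrable (fun x : ℝ => 1 / Real.cosh (3 * x)) := by
  simp_rw [sech_eq]; exact Kr_int.const_mul _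

theorem sech_Ioi : ∫ x in Ioi (0:ℝ), 1 / Real.cosh (3 * x) = Real.pi / 6 := by
  simp_rw [sech_eq]; rw [integral_const_mul, Kr_integral_Ioi]; ring

theorem cosh_sub_le (a b : ℝ) : Real.cosh b ≤ 2 * Real.cosh a * Real.cosh (a - b) := by
  have h1 : b = a - (a - b) := by ring
  have h2 : Real.cosh b = Real.cosh a * Real.cosh (a - b) - Real.sinh a * Real.sinh (a - b) := by
    conv_lhs => rw [h1, Real.cosh_sub]
  rw [h2]
  have h3 : |Real.sinh a * Real.sinh (a - b)| ≤ Real.cosh a * Real.cosh (a - b) := by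
    rw [abs_mul]
    have e1 : ∀ t : ℝ, |Real.sinh t| ≤ Real.cosh t := by
      intro t
      rw [abs_le]
      have p1 := Real.exp_pos t
      have p2 := Real.exp_pos (-t)
      rw [Real.sinh_eq, Real.cosh_eq]
      constructor <;> linarith
    exact mul_le_mul (e1 _) (e1 _) (abs_nonneg _) (Real.cosh_pos _).le
  have h4 := neg_abs_le (Real.sinh a * Real.sinh (a - b))
  nlinarith

theorem err_pt (x u : ℝ) : 1 / Real.cosh (3 * x) ^ 2 * |Kr' (x - u)| ≤
    9 / Real.pi * (1 / Real.cosh (3 * x)) * (1 / Real.cosh (3 * u)) := by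
  have h1 := Kr'_abs_le (x - u)
  have h2 := cosh_sub_le (3 * x) (3 * u)
  have c1 := Real.cosh_pos (3 * x)
  have c2 := Real.cosh_pos (3 * u)
  have c3 := Real.cosh_pos (3 * x - 3 * u)
  have hp := Real.pi_pos
  have h3 : 1 / (Real.cosh (3 * x) * Real.cosh (3 * x - 3 * u)) ≤ 2 / Real.cosh (3 * u) := by
    rw [div_le_div_iff₀ (by positivity) c2]; nlinarith
  calc 1 / Real.cosh (3 * x) ^ 2 * |Kr' (x - u)| ≤
      1 / Real.cosh (3 * x) ^ 2 * (3 * Kr (x - u)) := by gcongr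
    _ = 9 / (2 * Real.pi) * (1 / Real.cosh (3 * x)) *
        (1 / (Real.cosh (3 * x) * Real.cosh (3 * x - 3 * u))) := by
          unfold Kr
          rw [show 3 * (x - u) = 3 * x - 3 * u by ring]
          field_simp
          ring
    _ ≤ 9 / (2 * Real.pi) * (1 / Real.cosh (3 * x)) * (2 / Real.cosh (3 * u)) := by gcongr
    _ = _ := by field_simp

theorem conv_err (φ : ℝ → ℝ) (hφ : Continuous φ) (c : ℝ) (hb : ∀ x, |φ x| ≤ c)
    (he : ∀ x, φ (-x) = φ x) :
    IntegrableOn (fun x => 1 / Real.cosh (3 * x) ^ 2 * |∫ u, Kr' (x - u) * φ u|) (Ioi (0:ℝ)) ∧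
    ∫ x in Ioi (0:ℝ), 1 / Real.cosh (3 * x) ^ 2 * |∫ u, Kr' (x - u) * φ u| ≤
      6 * ∫ x in Ioi (0:ℝ), |φ x| / Real.cosh (3 * x) := by
  have hM : Integrable (fun u => |φ u| / Real.cosh (3 * u)) := by
    have h1 : Integrable (fun u => |φ u| * (1 / Real.cosh (3 * u))) := by
      refine Integrable.bdd_mul (c := c) sech_int hφ.abs.aestronglyMeasurable ?_
      filter_upwards with x
      rw [Real.norm_eq_abs, abs_abs]; exact hb x
    refine h1.congr (Eventually.of_forall fun u => ?_)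
    simp only [mul_one_div]
  set M := ∫ u, |φ u| / Real.cosh (3 * u) with hMd
  have hM2 : M = 2 * ∫ x in Ioi (0:ℝ), |φ x| / Real.cosh (3 * x) := by
    rw [hMd, line_split _ hM]
    have : ∫ u in Ioi (0:ℝ), |φ (-u)| / Real.cosh (3 * -u) =
        ∫ u in Ioi (0:ℝ), |φ u| / Real.cosh (3 * u) := by
      congr 1; funext u
      rw [he, show 3 * -u = -(3 * u) by ring, Real.cosh_neg]
    rw [this]; ring
  have hM0 : 0 ≤ M := integral_nonneg fun u => div_nonneg (abs_nonneg _) (Real.cosh_pos _).le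
  have hpt : ∀ x, 1 / Real.cosh (3 * x) ^ 2 * |∫ u, Kr' (x - u) * φ u| ≤
      9 / Real.pi * M * (1 / Real.cosh (3 * x)) := by
    intro x
    have c1 := Real.cosh_pos (3 * x)
    have e0 : 1 / Real.cosh (3 * x) ^ 2 * |∫ u, Kr' (x - u) * φ u| =
        |∫ u, 1 / Real.cosh (3 * x) ^ 2 * (Kr' (x - u) * φ u)| := by
      rw [integral_const_mul, abs_mul, abs_of_pos (show (0:ℝ) < 1 / Real.cosh (3 * x) ^ 2 by positivity)]
    rw [e0]
    have h := norm_integral_le_of_norm_le (μ := (volume : Measure ℝ))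
      (f := fun u => 1 / Real.cosh (3 * x) ^ 2 * (Kr' (x - u) * φ u))
      (g := fun u => 9 / Real.pi * (1 / Real.cosh (3 * x)) * (|φ u| / Real.cosh (3 * u)))
      (hM.const_mul _) ?_
    · rw [Real.norm_eq_abs] at h
      refine h.trans (le_of_eq ?_)
      rw [integral_const_mul, ← hMd]; ring
    · filter_upwards with u
      rw [Real.norm_eq_abs, abs_mul, abs_mul,
        abs_of_pos (show (0:ℝ) < 1 / Real.cosh (3 * x) ^ 2 by positivity)]
      have h2 := mul_le_mul_of_nonneg_right (err_pt x u) (abs_nonneg (φ u))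
      calc 1 / Real.cosh (3 * x) ^ 2 * (|Kr' (x - u)| * |φ u|) =
          1 / Real.cosh (3 * x) ^ 2 * |Kr' (x - u)| * |φ u| := by ring
        _ ≤ _ := h2
        _ = _ := by ring
  have hint : IntegrableOn (fun x => 1 / Real.cosh (3 * x) ^ 2 * |∫ u, Kr' (x - u) * φ u|)
      (Ioi (0:ℝ)) := by
    refine Integrable.mono' (g := fun x => 9 / Real.pi * M * (1 / Real.cosh (3 * x)))
      ((sech_int.const_mul _).integrableOn) ?_ ?_
    · refine Continuous.aestronglyMeasurable ?_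
      refine Continuous.mul ?_ (conv_cont' φ hφ c hb).abs
      refine continuous_const.div ?_ (fun x => (pow_pos (Real.cosh_pos _) 2).ne')
      exact (Real.continuous_cosh.comp (continuous_const.mul continuous_id)).pow 2
    · filter_upwards with x
      have c1 := Real.cosh_pos (3 * x)
      rw [Real.norm_of_nonneg (by positivity)]
      exact hpt x
  refine ⟨hint, ?_⟩
  have h1 : ∫ x in Ioi (0:ℝ), 1 / Real.cosh (3 * x) ^ 2 * |∫ u, Kr' (x - u) * φ u| ≤
      ∫ x in Ioi (0:ℝ), 9 / Real.pi * M * (1 / Real.cosh (3 * x)) :=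
    integral_mono hint ((sech_int.const_mul _).integrableOn) hpt
  refine h1.trans ?_
  rw [integral_const_mul, sech_Ioi]
  have hp := Real.pi_pos
  have : 9 / Real.pi * M * (Real.pi / 6) = 3 / 2 * M := by field_simp; ring
  rw [this, hM2]
  have : 0 ≤ ∫ x in Ioi (0:ℝ), |φ x| / Real.cosh (3 * x) := by
    rw [hM2] at hM0; linarith
  linarith

end EP.ConvAux

namespace EP
open Filter Topology MeasureTheory Set

theorem conv_integrable (φ : ℝ → ℝ) (hφ : Continuous φ) (c : ℝ) (hb : ∀ x, |φ x| ≤ c) (x : ℝ) :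
    Integrable (fun u => Kr (x - u) * φ u) ∧ Integrable (fun u => Kr' (x - u) * φ u) := by
  exact ConvAux.conv_integrable φ hφ c hb x

theorem conv_deriv (φ : ℝ → ℝ) (hφ : Continuous φ) (c : ℝ) (hb : ∀ x, |φ x| ≤ c) (x : ℝ) :
    HasDerivAt (fun x => ∫ u, Kr (x - u) * φ u) (∫ u, Kr' (x - u) * φ u) x := by
  exact ConvAux.conv_deriv φ hφ c hb x

theorem conv_cont' (φ : ℝ → ℝ) (hφ : Continuous φ) (c : ℝ) (hb : ∀ x, |φ x| ≤ c) :
    Continuous (fun x => ∫ u, Kr' (x - u) * φ u) := by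
  exact ConvAux.conv_cont' φ hφ c hb

theorem conv_lim (φ : ℝ → ℝ) (hφ : Continuous φ) (c : ℝ) (hb : ∀ x, |φ x| ≤ c) (a : ℝ)
    (ha : Tendsto φ atTop (𝓝 a)) :
    Tendsto (fun x => ∫ u, Kr (x - u) * φ u) atTop (𝓝 (a / 2)) := by
  exact ConvAux.conv_lim φ hφ c hb a ha

theorem conv_cross (φ ψ : ℝ → ℝ) (hφ : Continuous φ) (hψ : Continuous ψ) (c : ℝ)
    (hb : ∀ x, |φ x| ≤ c) (hb' : ∀ x, |ψ x| ≤ c) (he : ∀ x, φ (-x) = φ x)
    (he' : ∀ x, ψ (-x) = ψ x) (a b : ℝ) (ha : Tendsto φ atTop (𝓝 a))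
    (hb1 : Tendsto ψ atTop (𝓝 b)) :
    Tendsto (fun R : ℝ => ∫ x in (0:ℝ)..R, (φ x * (∫ u, Kr' (x - u) * ψ u) +
      ψ x * ∫ u, Kr' (x - u) * φ u)) atTop
      (𝓝 (a * b / 2 + 2 * ∫ x in Ioi (0:ℝ), ∫ u in Ioi (0:ℝ), φ x * ψ u * Kr' (x + u))) := by
  exact ConvAux.conv_cross φ ψ hφ hψ c hb hb' he he' a b ha hb1

theorem conv_cross_bound (φ ψ : ℝ → ℝ) (hφ : Continuous φ) (hψ : Continuous ψ) (c c' : ℝ)
    (hb : ∀ x, |φ x| ≤ c) (hb' : ∀ x, |ψ x| ≤ c') :
    |∫ x in Ioi (0:ℝ), ∫ u in Ioi (0:ℝ), φ x * ψ u * Kr' (x + u)| ≤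
      c' * ∫ x in Ioi (0:ℝ), |φ x| * Real.exp (-(3 * x)) := by
  exact ConvAux.conv_cross_bound φ ψ hφ hψ c c' hb hb'

/-- the error term with `A'` -/
theorem conv_err (φ : ℝ → ℝ) (hφ : Continuous φ) (c : ℝ) (hb : ∀ x, |φ x| ≤ c)
    (he : ∀ x, φ (-x) = φ x) :
    IntegrableOn (fun x => 1 / Real.cosh (3 * x) ^ 2 * |∫ u, Kr' (x - u) * φ u|) (Ioi (0:ℝ)) ∧
    ∫ x in Ioi (0:ℝ), 1 / Real.cosh (3 * x) ^ 2 * |∫ u, Kr' (x - u) * φ u| ≤
      6 * ∫ x in Ioi (0:ℝ), |φ x| / Real.cosh (3 * x) := by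
  exact ConvAux.conv_err φ hφ c hb he

end EP
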