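import Mathlib
import Pool.Agent.Helper9.CC.EvalB

/-!
(E+), analytic half: definitions.

`N = 2 L + 2`, `w = exp (i π / 3) = CC.w`, `w⁻¹ = 1 - w`.  `p : ℝ[X]` is the eigenvalue polynomial
(divided by `n 0`), `nu L` its value at `q = 1`.  With `z = exp (2 s)` the function
`g s = p z / nu z` is analytic in the strip `|Im s| < π / 3`, `y s = g (s + iπ/6) g (s - iπ/6) - 1`.
-/

namespace EP
open Polynomial

/-- `nu L = (1 + X) ^ (2 L) (1 + X + X ^ 2)` -/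
noncomputable def nu (L : ℕ) : ℝ[X] := (1 + X) ^ (2 * L) * (X ^ 2 + X + 1)

/-- `rot c p = p (c X)` -/
noncomputable def rot (c : ℂ) (p : ℝ[X]) : ℂ[X] := (p.map (algebraMap ℝ ℂ)).comp (C c * X)

/-- `p (w X) p (X / w) - nu (w X) nu (X / w)` -/
noncomputable def Yp (L : ℕ) (p : ℝ[X]) : ℂ[X] :=
  rot CC.w p * rot (1 - CC.w) p - rot CC.w (nu L) * rot (1 - CC.w) (nu L)

/-- `Yp L p = (X - 1) ^ (2 L + 2) Qp L p` -/
noncomputable def Qp (L : ℕ) (p : ℝ[X]) : ℂ[X] := Yp L p /ₘ (X - C 1) ^ (2 * L + 2)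

/-- the closed sector `|arg z| ≤ π / 3` (with `0`) -/
def Sec : Set ℂ := {z | |z.im| ≤ Real.sqrt 3 * z.re}

/-- the algebraic equations for the eigenvalue polynomial at the weight `q` -/
structure Sol (L : ℕ) (q : ℝ) (p : ℝ[X]) : Prop where
  deg : p.natDegree ≤ 2 * L + 2
  pal : ∀ k ≤ 2 * L + 2, p.coeff (2 * L + 2 - k) = p.coeff k
  zero : p.coeff 0 = 3 * q - 2
  atw : aeval CC.w p = aeval CC.w (nu L)
  fus : (X - C 1) ^ (2 * L + 2) ∣ Yp L p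

/-- `κ² = 4 cos² (π r / 2) = (G - 1)² (G + 2)`, `G = 3 q - 2` -/
def kap (q : ℝ) : ℝ := 27 * q * (q - 1) ^ 2

/-- no zeros in the physical strip -/
def Good (L : ℕ) (p : ℝ[X]) : Prop :=
  (∀ z ∈ Sec, aeval z p ≠ 0) ∧ ∀ z ∈ Sec, (Qp L p).eval z ≠ 0

/-- the family of the eigenvalue polynomials for all weights `q > 0` -/
structure Fam (L : ℕ) (lam : ℝ → ℝ[X]) : Prop where
  sol : ∀ q, 0 < q → Sol L q (lam q)
  cont : ∀ k, ContinuousOn (fun q => (lam q).coeff k) (Set.Ioi 0)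
  one : lam 1 = nu L
  lip : ∃ c : ℝ, ∀ q ∈ Set.Icc (1 / 2 : ℝ) 2, ∀ k, |(lam q).coeff k - (nu L).coeff k| ≤ c * |q - 1|

/-- the kernel -/
noncomputable def Kr (x : ℝ) : ℝ := 3 / (2 * Real.pi) / Real.cosh (3 * x)

/-- its derivative -/
noncomputable def Kr' (x : ℝ) : ℝ := -(3 * Real.tanh (3 * x)) * Kr x

noncomputable def th (x : ℝ) : ℝ := Real.tanh (3 * x / 2)

noncomputable def gx (L : ℕ) (p : ℝ[X]) (x : ℝ) : ℝ :=
  p.eval (Real.exp (2 * x)) / (nu L).eval (Real.exp (2 * x))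

noncomputable def yx (L : ℕ) (p : ℝ[X]) (x : ℝ) : ℝ :=
  ‖aeval (CC.w * Real.exp (2 * x)) p‖ ^ 2 / ‖aeval (CC.w * Real.exp (2 * x)) (nu L)‖ ^ 2 - 1

/-- `∫₀^u log (1 + t) / t dt` -/
noncomputable def Dl (u : ℝ) : ℝ := ∫ t in (0:ℝ)..u, Real.log (1 + t) / t

/-- `∫₁^G log ((1 - a)² + κ² a) / a da` -/
noncomputable def El (k2 G : ℝ) : ℝ := ∫ a in (1:ℝ)..G, Real.log ((1 - a) ^ 2 + k2 * a) / a

/-- the constant of the dilogarithm trick -/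
noncomputable def sc (k2 G : ℝ) : ℝ :=
  Dl (G ^ 2 - 1) + El k2 G - 2 * Real.log G * Real.log |G ^ 2 - 1|

/-- the critical weight `(4/3) cos² (2π/9)` -/
noncomputable def q0 : ℝ := 4 / 3 * Real.cos (2 * Real.pi / 9) ^ 2

end EP
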