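import Pool.Agent.Helper86.EP.Defs

/-! The functions `Dl` and `El` (module DIL). -/

namespace EP
open Filter Topology MeasureTheory Set

/-- the continuous integrand of `Dl` -/
noncomputable def dl : ℝ → ℝ := dslope (fun t => Real.log (1 + t)) 0

theorem dl_ne {t : ℝ} (ht : t ≠ 0) : dl t = Real.log (1 + t) / t := by
  unfold dl
  rw [dslope_of_ne _ ht, slope_def_field]
  simp

theorem log_one_add_deriv {t : ℝ} (ht : -1 < t) :
    HasDerivAt (fun t : ℝ => Real.log (1 + t)) (1 / (1 + t)) t := by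
  have h1 : HasDerivAt (fun t : ℝ => 1 + t) 1 t := by
    simpa using (hasDerivAt_id t).const_add 1
  exact h1.log (by linarith)

theorem dl_zero : dl 0 = 1 := by
  unfold dl
  rw [dslope_same]
  have := (log_one_add_deriv (show (-1:ℝ) < 0 by norm_num)).deriv
  rw [this]
  norm_num

theorem dl_cont : ContinuousOn dl (Ioi (-1)) := by
  unfold dl
  rw [continuousOn_dslope (Ioi_mem_nhds (by norm_num))]
  exact ⟨fun t ht => (log_one_add_deriv ht).continuousAt.continuousWithinAt,
    (log_one_add_deriv (by norm_num)).differentiableAt⟩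

theorem dl_mul (t : ℝ) : dl t * t = Real.log (1 + t) := by
  by_cases ht : t = 0
  · rw [ht]; simp
  · rw [dl_ne ht, div_mul_cancel₀ _ ht]

theorem uIcc_subset_Ioi {a b c : ℝ} (ha : c < a) (hb : c < b) : uIcc a b ⊆ Ioi c := by
  intro t ht
  exact lt_of_lt_of_le (lt_min ha hb) ht.1

theorem Dl_eq (u : ℝ) : Dl u = ∫ t in (0:ℝ)..u, dl t := by
  unfold Dl
  refine intervalIntegral.integral_congr_ae ?_
  have h : ∀ᵐ t : ℝ, t ≠ 0 := by
    rw [ae_iff]
    simp
  filter_upwards [h] with t ht _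
  exact (dl_ne ht).symm

theorem Dl_deriv {u : ℝ} (hu : -1 < u) : HasDerivAt Dl (dl u) u := by
  have h1 : HasDerivAt (fun u => ∫ t in (0:ℝ)..u, dl t) (dl u) u := by
    refine intervalIntegral.integral_hasDerivAt_right ?_ ?_ ?_
    · exact (dl_cont.mono (uIcc_subset_Ioi (by norm_num) hu)).intervalIntegrable
    · exact dl_cont.stronglyMeasurableAtFilter isOpen_Ioi u hu
    · exact dl_cont.continuousAt (Ioi_mem_nhds hu)
  exact h1.congr_of_eventuallyEq (Eventually.of_forall fun u => Dl_eq u)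

theorem Dl_contAt {u : ℝ} (hu : -1 < u) : ContinuousAt Dl u := (Dl_deriv hu).continuousAt

theorem Dl_zero : Dl 0 = 0 := by
  unfold Dl
  exact intervalIntegral.integral_same

/-- the integrand of `El` -/
noncomputable def wE (k a : ℝ) : ℝ := Real.log ((1 - a) ^ 2 + k * a) / a

theorem El_eq (k G : ℝ) : El k G = ∫ a in (1:ℝ)..G, wE k a := rfl

theorem quad_pos {k a : ℝ} (hk : 0 < k) (ha : 0 < a) : 0 < (1 - a) ^ 2 + k * a := by positivity

theorem wE_contAt {k a : ℝ} (hk : 0 < k) (ha : 0 < a) :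
    ContinuousAt (fun p : ℝ × ℝ => wE p.1 p.2) (k, a) := by
  unfold wE
  have h1 : ContinuousAt (fun p : ℝ × ℝ => (1 - p.2) ^ 2 + p.1 * p.2) (k, a) := by fun_prop
  exact (h1.log (quad_pos hk ha).ne').div continuousAt_snd ha.ne'

theorem wE_cont {k : ℝ} (hk : 0 < k) : ContinuousOn (wE k) (Ioi 0) := by
  intro a ha
  have h1 : ContinuousAt (fun a : ℝ => (k, a)) a := by fun_prop
  have h2 : ContinuousAt (fun a : ℝ => wE k a) a :=
    ContinuousAt.comp (f := fun a : ℝ => (k, a)) (g := fun p : ℝ × ℝ => wE p.1 p.2)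
      (wE_contAt hk ha) h1
  exact h2.continuousWithinAt

theorem El_deriv_right {k a : ℝ} (hk : 0 < k) (ha : 0 < a) : HasDerivAt (El k) (wE k a) a := by
  refine intervalIntegral.integral_hasDerivAt_right ?_ ?_ ?_
  · exact ((wE_cont hk).mono (uIcc_subset_Ioi one_pos ha)).intervalIntegrable
  · exact (wE_cont hk).stronglyMeasurableAtFilter isOpen_Ioi a ha
  · exact (wE_cont hk).continuousAt (Ioi_mem_nhds ha)

end EP
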