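import Pool.Agent.Helper86.EP.TrickB

/-! The dilogarithm trick at finite `N` (module TRICK). -/

namespace EP
open Filter Topology MeasureTheory Set

variable {N : ℕ} {k2 G m M c1 : ℝ} {g y : ℝ → ℝ}

theorem tk_mono (h : TBA N k2 G g y) (hb : ∀ x, |Real.log (1 + y x)| ≤ c1 * |th x| ^ N)
    (hc1 : 0 ≤ c1) (w : ℝ → ℝ) (hw : Continuous w) (hw0 : ∀ x, 0 < x → 0 ≤ w x)
    (hw1 : ∀ x, 0 < x → w x ≤ 1 - th x ^ 2) :
    IntegrableOn (fun x => |tkφ y x| * w x) (Ioi (0:ℝ)) ∧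
      ∫ x in Ioi (0:ℝ), |tkφ y x| * w x ≤ c1 * (2 / 3 / ((N:ℝ) + 1)) := by
  obtain ⟨j1, j2⟩ := tk_J1 N
  have hle : ∀ x ∈ Ioi (0:ℝ), |tkφ y x| * w x ≤ c1 * (th x ^ N * (1 - th x ^ 2)) := by
    intro x hx
    have h1 := hb x
    rw [abs_of_pos (tk_th_pos hx)] at h1
    have h2 : 0 ≤ th x ^ N := pow_nonneg (tk_th_pos hx).le _
    calc |tkφ y x| * w x ≤ (c1 * th x ^ N) * (1 - th x ^ 2) :=
          mul_le_mul h1 (hw1 x hx) (hw0 x hx) (by positivity)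
      _ = _ := by ring
  have hi : IntegrableOn (fun x => |tkφ y x| * w x) (Ioi (0:ℝ)) := by
    refine Integrable.mono' (j1.const_mul c1) ?_ ?_
    · exact ((tkφ_cont h).abs.mul hw).aestronglyMeasurable
    · refine (ae_restrict_iff' measurableSet_Ioi).2 (Eventually.of_forall fun x hx => ?_)
      rw [Real.norm_of_nonneg (mul_nonneg (abs_nonneg _) (hw0 x hx))]
      exact hle x hx
  refine ⟨hi, ?_⟩
  calc ∫ x in Ioi (0:ℝ), |tkφ y x| * w x ≤ ∫ x in Ioi (0:ℝ), c1 * (th x ^ N * (1 - th x ^ 2)) :=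
        setIntegral_mono_on hi (j1.const_mul c1) measurableSet_Ioi hle
    _ = c1 * (2 / 3 / ((N:ℝ) + 1)) := by rw [integral_const_mul, j2]

theorem tk_icosh (h : TBA N k2 G g y) (hb : ∀ x, |Real.log (1 + y x)| ≤ c1 * |th x| ^ N)
    (hc1 : 0 ≤ c1) : IntegrableOn (fun x => |tkφ y x| * (1 / Real.cosh (3 * x))) (Ioi (0:ℝ)) ∧
      ∫ x in Ioi (0:ℝ), |tkφ y x| * (1 / Real.cosh (3 * x)) ≤ c1 * (2 / 3 / ((N:ℝ) + 1)) :=
  tk_mono h hb hc1 _ tk_icosh_cont (fun x _ => by have := Real.cosh_pos (3 * x); positivity)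
    fun x _ => tk_inv_cosh x

theorem tk_iexp (h : TBA N k2 G g y) (hb : ∀ x, |Real.log (1 + y x)| ≤ c1 * |th x| ^ N)
    (hc1 : 0 ≤ c1) : IntegrableOn (fun x => |tkφ y x| * Real.exp (-(3 * x))) (Ioi (0:ℝ)) ∧
      ∫ x in Ioi (0:ℝ), |tkφ y x| * Real.exp (-(3 * x)) ≤ c1 * (2 / 3 / ((N:ℝ) + 1)) :=
  tk_mono h hb hc1 _ (by fun_prop) (fun x _ => (Real.exp_pos _).le)
    fun x hx => (tk_exp_le hx.le).trans (tk_inv_cosh x)

theorem tkφ_icosh_int (h : TBA N k2 G g y) (hb : ∀ x, |Real.log (1 + y x)| ≤ c1 * |th x| ^ N)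
    (hc1 : 0 ≤ c1) : IntegrableOn (fun x => tkφ y x * (1 / Real.cosh (3 * x))) (Ioi (0:ℝ)) := by
  refine (tk_icosh h hb hc1).1.mono' ?_ ?_
  · exact ((tkφ_cont h).mul tk_icosh_cont).aestronglyMeasurable
  · refine Eventually.of_forall fun x => ?_
    have := Real.cosh_pos (3 * x)
    rw [norm_mul, Real.norm_eq_abs, Real.norm_of_nonneg (show 0 ≤ 1 / Real.cosh (3 * x) by positivity)]

/-- the value of `log (g 0)` -/
theorem tk_log_g0 (h : TBA N k2 G g y) :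
    Real.log (g 0) = 3 / Real.pi * ∫ x in Ioi (0:ℝ), tkφ y x * (1 / Real.cosh (3 * x)) := by
  have h1 := h.t1 0
  have h2 : (fun u => Kr (0 - u) * Real.log (1 + y u)) = fun u => Kr |u| * tkφ y |u| := by
    funext u
    have e1 : Kr (0 - u) = Kr |u| := by
      unfold Kr
      rcases abs_choice u with hu | hu
      · rw [hu, zero_sub, mul_neg, Real.cosh_neg]
      · rw [hu, zero_sub]
    have e2 : Real.log (1 + y u) = tkφ y |u| := by
      unfold tkφ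
      rcases abs_choice u with hu | hu
      · rw [hu]
      · rw [hu, h.yeven]
    rw [e1, e2]
  rw [h1, h2, integral_comp_abs (f := fun u => Kr u * tkφ y u), ← integral_const_mul,
    ← integral_const_mul]
  refine integral_congr_ae (Eventually.of_forall fun x => ?_)
  have := Real.cosh_pos (3 * x)
  have := Real.pi_pos
  simp only [Kr]
  field_simp

theorem tk_log_g0_bd (h : TBA N k2 G g y) (hb : ∀ x, |Real.log (1 + y x)| ≤ c1 * |th x| ^ N)
    (hc1 : 0 ≤ c1) : |Real.log (g 0)| ≤ 3 / Real.pi * (c1 * (2 / 3 / ((N:ℝ) + 1))) := by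
  have hpi := Real.pi_pos
  rw [tk_log_g0 h, abs_mul, abs_of_pos (by positivity)]
  refine mul_le_mul_of_nonneg_left ?_ (by positivity)
  refine le_trans ?_ (tk_icosh h hb hc1).2
  have h1 : |∫ x in Ioi (0:ℝ), tkφ y x * (1 / Real.cosh (3 * x))| ≤
      ∫ x in Ioi (0:ℝ), |tkφ y x * (1 / Real.cosh (3 * x))| := abs_integral_le_integral_abs
  refine h1.trans (le_of_eq ?_)
  refine integral_congr_ae (Eventually.of_forall fun x => ?_)
  have := Real.cosh_pos (3 * x)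
  simp only
  rw [abs_mul, abs_of_nonneg (show 0 ≤ 1 / Real.cosh (3 * x) by positivity)]

theorem tk_Fψ (hk : 0 < k2) (hm : 0 < m) (h : TBA N k2 G g y) (hg1 : ∀ x, m ≤ g x)
    (hg2 : ∀ x, g x ≤ M) (x : ℝ) :
    |tkF k2 g x - tkψ k2 g x| ≤ (1 + M) ^ 2 / (k2 * m) * (1 / Real.cosh (3 * x) ^ 2) := by
  have h1 := hg1 x
  have h2 := hg2 x
  have hP := tkψ_pos hk h x
  have hF := tk_El_pos hk (h.gpos x)
  have hc := Real.cosh_pos (3 * x)
  have ht : 1 - Real.tanh (3 * x) ^ 2 = 1 / Real.cosh (3 * x) ^ 2 := by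
    have h3 := Real.cosh_sq (3 * x)
    rw [Real.tanh_eq_sinh_div_cosh]
    field_simp
    linarith
  unfold tkF tkψ
  rw [← Real.log_div hF.ne' hP.ne']
  set P := (1 - g x) ^ 2 * Real.tanh (3 * x) ^ 2 + k2 * g x with hPd
  have e1 : (1 - g x) ^ 2 + k2 * g x = P + (1 - g x) ^ 2 * (1 / Real.cosh (3 * x) ^ 2) := by
    rw [← ht, hPd]; ring
  have hd : 0 ≤ (1 - g x) ^ 2 * (1 / Real.cosh (3 * x) ^ 2) := by positivity
  have e2 : 1 ≤ ((1 - g x) ^ 2 + k2 * g x) / P := by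
    rw [one_le_div hP, e1]
    linarith
  rw [abs_of_nonneg (Real.log_nonneg e2)]
  have h3 := Real.log_le_sub_one_of_pos (lt_of_lt_of_le one_pos e2)
  refine h3.trans ?_
  have e3 : ((1 - g x) ^ 2 + k2 * g x) / P - 1 =
      (1 - g x) ^ 2 * (1 / Real.cosh (3 * x) ^ 2) / P := by
    rw [e1]
    field_simp
    ring
  rw [e3, div_mul_eq_mul_div]
  refine div_le_div₀ (by positivity) ?_ (by positivity) ?_
  · refine mul_le_mul_of_nonneg_right ?_ (by positivity)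
    nlinarith
  · have : 0 ≤ (1 - g x) ^ 2 * Real.tanh (3 * x) ^ 2 := by positivity
    nlinarith

/-- the bound of the error integral -/
theorem tk_err (n : ℕ) (hk : 0 < k2) (hm : 0 < m) (h : TBA (n + 1) k2 G g y)
    (hb : ∀ x, |Real.log (1 + y x)| ≤ c1 * |th x| ^ (n + 1)) (hc1 : 0 ≤ c1)
    (hg1 : ∀ x, m ≤ g x) (hg2 : ∀ x, g x ≤ M) {R : ℝ} (hR : 0 ≤ R) :
    |∫ x in (0:ℝ)..R, tkErr (n + 1) k2 g y x| ≤
      (4 * c1 + 4 * ((1 + M) ^ 2 / (k2 * m)) * c1) / (((n + 1 : ℕ) : ℝ) + 1) := by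
  set CF := (1 + M) ^ 2 / (k2 * m) with hCF
  have hCF0 : 0 ≤ CF := by positivity
  obtain ⟨j1, j2⟩ := tk_J1 (n + 1)
  obtain ⟨l1, l2⟩ := tk_J2 n
  obtain ⟨q1, q2⟩ := conv_err (tkφ y) (tkφ_cont h) c1 (tkφ_bd hb hc1) (tkφ_even h)
  have q3 : ∫ x in Ioi (0:ℝ), 1 / Real.cosh (3 * x) ^ 2 * |cv' (tkφ y) x| ≤
      6 * (c1 * (2 / 3 / (((n + 1 : ℕ) : ℝ) + 1))) := by
    refine q2.trans ?_
    refine mul_le_mul_of_nonneg_left ?_ (by norm_num)
    have := (tk_icosh h hb hc1).2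
    simpa only [mul_one_div] using this
  set b : ℝ → ℝ := fun x => 3 * ((n + 1 : ℕ) : ℝ) * c1 * (th x ^ n * ((1 - th x) * (1 - th x ^ 2))) +
    3 * c1 * (th x ^ (n + 1) * (1 - th x ^ 2)) +
    CF * (1 / Real.cosh (3 * x) ^ 2 * |cv' (tkφ y) x|) with hbdef
  have hbi : IntegrableOn b (Ioi (0:ℝ)) :=
    ((l1.const_mul _).add (j1.const_mul _)).add (Integrable.const_mul q1 _)
  have hbI : ∫ x in Ioi (0:ℝ), b x ≤ (4 * c1 + 4 * CF * c1) / (((n + 1 : ℕ) : ℝ) + 1) := by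
    have e1 : ∫ x in Ioi (0:ℝ), b x = 3 * ((n + 1 : ℕ) : ℝ) * c1 * (2 / 3 / (((n:ℝ) + 1) * ((n:ℝ) + 2))) +
        3 * c1 * (2 / 3 / (((n + 1 : ℕ) : ℝ) + 1)) +
        CF * ∫ x in Ioi (0:ℝ), 1 / Real.cosh (3 * x) ^ 2 * |cv' (tkφ y) x| := by
      have f1 : ∫ x in Ioi (0:ℝ), b x = (∫ x in Ioi (0:ℝ), (3 * ((n + 1 : ℕ) : ℝ) * c1 *
          (th x ^ n * ((1 - th x) * (1 - th x ^ 2))) + 3 * c1 * (th x ^ (n + 1) * (1 - th x ^ 2)))) +
          ∫ x in Ioi (0:ℝ), CF * (1 / Real.cosh (3 * x) ^ 2 * |cv' (tkφ y) x|) :=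
        integral_add ((l1.const_mul _).add (j1.const_mul _)) (Integrable.const_mul q1 _)
      have f2 : ∫ x in Ioi (0:ℝ), (3 * ((n + 1 : ℕ) : ℝ) * c1 *
          (th x ^ n * ((1 - th x) * (1 - th x ^ 2))) + 3 * c1 * (th x ^ (n + 1) * (1 - th x ^ 2))) =
          (∫ x in Ioi (0:ℝ), 3 * ((n + 1 : ℕ) : ℝ) * c1 *
          (th x ^ n * ((1 - th x) * (1 - th x ^ 2)))) +
          ∫ x in Ioi (0:ℝ), 3 * c1 * (th x ^ (n + 1) * (1 - th x ^ 2)) :=
        integral_add (l1.const_mul _) (j1.const_mul _)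
      rw [f1, f2, integral_const_mul, integral_const_mul, integral_const_mul, l2, j2]
    rw [e1]
    have e2 := mul_le_mul_of_nonneg_left q3 hCF0
    refine (add_le_add le_rfl e2).trans (le_of_eq ?_)
    push_cast
    field_simp
    ring
  have hb0 : ∀ x ∈ Ioi (0:ℝ), 0 ≤ b x := by
    intro x hx
    have a1 := tk_th_pos hx
    have a2 := tk_one_sub_pos x
    have a3 : 0 < 1 - th x := by linarith [tk_th_lt x]
    rw [hbdef]
    positivity
  have hle : ∀ x, x ∈ Ioc (0:ℝ) R → ‖tkErr (n + 1) k2 g y x‖ ≤ b x := by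
    intro x hx
    have hx0 : 0 < x := hx.1
    have a1 := tk_th_pos hx0
    have a2 := tk_one_sub_pos x
    have a3 : 0 < 1 - th x := by linarith [tk_th_lt x]
    obtain ⟨b1, b2⟩ := tk_inv_sub hx0
    have b3 := hb x
    rw [abs_of_pos a1] at b3
    have b4 := tk_Fψ hk hm h hg1 hg2 x
    rw [Real.norm_eq_abs]
    unfold tkErr
    refine (abs_add_le _ _).trans (add_le_add ((abs_sub _ _).trans (add_le_add ?_ ?_)) ?_)
    · rw [← mul_sub, abs_mul (3 * ((n + 1 : ℕ) : ℝ)), abs_mul (tkφ y x),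
        abs_of_nonneg (show (0:ℝ) ≤ 3 * ((n + 1 : ℕ) : ℝ) by positivity), abs_of_nonneg b1]
      calc 3 * ((n + 1 : ℕ) : ℝ) * (|tkφ y x| * (1 / Real.sinh (3 * x) - 1 / Real.cosh (3 * x)))
          ≤ 3 * ((n + 1 : ℕ) : ℝ) * ((c1 * th x ^ (n + 1)) *
            (1 / Real.sinh (3 * x) - 1 / Real.cosh (3 * x))) :=
            mul_le_mul_of_nonneg_left (mul_le_mul_of_nonneg_right b3 b1) (by positivity)
        _ = 3 * ((n + 1 : ℕ) : ℝ) * c1 * (th x ^ n *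
            (th x * (1 / Real.sinh (3 * x) - 1 / Real.cosh (3 * x)))) := by ring
        _ ≤ _ := mul_le_mul_of_nonneg_left (mul_le_mul_of_nonneg_left b2 (by positivity))
            (by positivity)
    · rw [abs_mul, abs_of_nonneg (show 0 ≤ 3 * th x * (1 - th x ^ 2) / (1 + th x ^ 2) by positivity)]
      calc |tkφ y x| * (3 * th x * (1 - th x ^ 2) / (1 + th x ^ 2))
          ≤ (c1 * th x ^ (n + 1)) * (3 * (1 - th x ^ 2)) := by
            refine mul_le_mul b3 ?_ (by positivity) (by positivity)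
            rw [div_le_iff₀ (by positivity)]
            have a4 : th x ≤ 1 + th x ^ 2 := by nlinarith [tk_th_lt x]
            nlinarith
        _ = _ := by ring
    · rw [abs_mul]
      calc |tkF k2 g x - tkψ k2 g x| * |cv' (tkφ y) x| ≤
          (CF * (1 / Real.cosh (3 * x) ^ 2)) * |cv' (tkφ y) x| :=
            mul_le_mul_of_nonneg_right b4 (abs_nonneg _)
        _ = _ := by ring
  have h1 := intervalIntegral.norm_integral_le_of_norm_le (μ := volume) hR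
    (Eventually.of_forall hle) (by
      rw [intervalIntegrable_iff_integrableOn_Ioc_of_le hR]
      exact hbi.mono_set Ioc_subset_Ioi_self)
  refine h1.trans (le_trans ?_ hbI)
  rw [intervalIntegral.integral_of_le hR]
  refine setIntegral_mono_set hbi ?_ (Eventually.of_forall Ioc_subset_Ioi_self)
  exact (ae_restrict_iff' measurableSet_Ioi).2 (Eventually.of_forall hb0)

theorem tk_tanh_lim : Tendsto (fun x => Real.tanh (3 * x)) atTop (𝓝 1) := by
  have h1 : Tendsto (fun x : ℝ => 2 * x) atTop atTop := tendsto_id.const_mul_atTop (by norm_num)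
  refine (tk_th_lim.comp h1).congr fun x => ?_
  unfold th
  rw [Function.comp_apply]
  congr 1
  ring

theorem trick (k2 G m M c1 : ℝ) (hk : 0 < k2) (hG : k2 = (G - 1) ^ 2 * (G + 2)) (hm : 0 < m)
    (hmG : m ≤ G) (hGM : G ≤ M) (hc1 : 0 ≤ c1) :
    ∃ c : ℝ, ∀ N : ℕ, 2 ≤ N → ∀ g y : ℝ → ℝ, TBA N k2 G g y → (∀ x, m ≤ g x) → (∀ x, g x ≤ M) →
      (∀ x, |Real.log (1 + y x)| ≤ c1 * |th x| ^ N) →
      |Real.pi * N * Real.log (g 0) - sc k2 G| ≤ c / N := by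
  have hpi := Real.pi_pos
  have hG0 : 0 < G := hm.trans_le hmG
  have hM0 : 0 < M := hG0.trans_le hGM
  obtain ⟨CE, hCE0, hCE⟩ := tk_El_bound (M := M) hk hm
  set CF := (1 + M) ^ 2 / (k2 * m) with hCF
  have hCF0 : 0 ≤ CF := by positivity
  set cψ := |Real.log (k2 * m)| + |Real.log ((1 + M) ^ 2 + k2 * M)| with hcψ
  have hcψ0 : 0 ≤ cψ := by positivity
  set K1 := 4 * c1 + 4 * CF * c1 with hK1
  set K2 := CE * (3 / Real.pi * (c1 * (2 / 3))) with hK2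
  set K3 := 2 * (cψ * (c1 * (2 / 3))) with hK3
  have hK10 : 0 ≤ K1 := by positivity
  have hK20 : 0 ≤ K2 := by positivity
  have hK30 : 0 ≤ K3 := by positivity
  refine ⟨K1 + K2 + K3, fun N hN g y h hg1 hg2 hb => ?_⟩
  obtain ⟨n, rfl⟩ : ∃ n, N = n + 1 := ⟨N - 1, by omega⟩
  set N : ℕ := n + 1 with hNdef
  have hN1 : (0:ℝ) < (N:ℝ) + 1 := by positivity
  have hφb := tkφ_bd hb hc1
  have hψb := tkψ_bd hk hm h hg1 hg2
  have hφc := tkφ_cont h
  have hψc := tkψ_cont hk h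
  -- finite R
  set I : ℝ → ℝ := fun R => ∫ x in (0:ℝ)..R, tkφ y x * (1 / Real.cosh (3 * x)) with hI
  set X : ℝ → ℝ := fun R => ∫ x in (0:ℝ)..R, (tkφ y x * cv' (tkψ k2 g) x +
    tkψ k2 g x * cv' (tkφ y) x) with hX
  have hfin : ∀ R : ℝ, 0 ≤ R → |3 * N * I R + X R - Dl (y R) - El k2 (g R)| ≤
      (K1 + K2) / ((N:ℝ) + 1) := by
    intro R hR
    have e1 := tk_ftc hk hN h hc1 hb cψ hψb hR
    have e2 := tk_err n hk hm h hb hc1 hg1 hg2 hR
    have e3 : |El k2 (g 0)| ≤ K2 / ((N:ℝ) + 1) := by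
      refine (hCE (g 0) (hg1 0) (hg2 0)).trans ?_
      refine (mul_le_mul_of_nonneg_left (tk_log_g0_bd h hb hc1) hCE0).trans (le_of_eq ?_)
      rw [hK2]
      field_simp
    have e4 : 3 * N * I R + X R - Dl (y R) - El k2 (g R) =
        -(∫ x in (0:ℝ)..R, tkErr N k2 g y x) - El k2 (g 0) := by
      linarith
    rw [e4, add_div]
    refine (abs_sub _ _).trans (add_le_add ?_ e3)
    rw [abs_neg]
    exact e2
  -- limits
  have l1 : Tendsto I atTop (𝓝 (∫ x in Ioi (0:ℝ), tkφ y x * (1 / Real.cosh (3 * x)))) :=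
    intervalIntegral_tendsto_integral_Ioi 0 (tkφ_icosh_int h hb hc1) tendsto_id
  have hylim := h.ylim
  have hglim := h.glim
  have hφlim : Tendsto (tkφ y) atTop (𝓝 (2 * Real.log G)) := by
    have h1 : Tendsto (fun x => 1 + y x) atTop (𝓝 (1 + (G ^ 2 - 1))) := hylim.const_add 1
    have h2 := h1.log (by rw [add_sub_cancel]; positivity)
    rw [add_sub_cancel, Real.log_pow] at h2
    exact_mod_cast h2
  have hψlim : Tendsto (tkψ k2 g) atTop (𝓝 (2 * Real.log |G ^ 2 - 1|)) := by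
    have h1 : Tendsto (fun x => (1 - g x) ^ 2 * Real.tanh (3 * x) ^ 2 + k2 * g x) atTop
        (𝓝 ((1 - G) ^ 2 * 1 ^ 2 + k2 * G)) :=
      (((hglim.const_sub 1).pow 2).mul (tk_tanh_lim.pow 2)).add (hglim.const_mul k2)
    have e1 : (1 - G) ^ 2 * 1 ^ 2 + k2 * G = |G ^ 2 - 1| ^ 2 := by
      rw [sq_abs, hG]; ring
    have h2 := h1.log (by
      have := tk_El_pos hk hG0
      rw [one_pow, mul_one]
      exact this.ne')
    rw [e1, Real.log_pow] at h2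
    exact_mod_cast h2
  have l2 := conv_cross (tkφ y) (tkψ k2 g) hφc hψc (max c1 cψ) (fun x => (hφb x).trans (le_max_left _ _))
    (fun x => (hψb x).trans (le_max_right _ _)) (tkφ_even h) (tkψ_even h) _ _ hφlim hψlim
  set JJ := ∫ x in Ioi (0:ℝ), ∫ u in Ioi (0:ℝ), tkφ y x * tkψ k2 g u * Kr' (x + u) with hJJ
  have l2' : Tendsto X atTop (𝓝 (2 * Real.log G * (2 * Real.log |G ^ 2 - 1|) / 2 + 2 * JJ)) := l2
  have l3 : Tendsto (fun R => Dl (y R)) atTop (𝓝 (Dl (G ^ 2 - 1))) :=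
    ((tk_Dl_deriv (show -1 < G ^ 2 - 1 by nlinarith)).continuousAt.tendsto.comp hylim)
  have l4 : Tendsto (fun R => El k2 (g R)) atTop (𝓝 (El k2 G)) :=
    ((tk_El_deriv hk hG0).continuousAt.tendsto.comp hglim)
  have l5 := (((l1.const_mul (3 * (N:ℝ))).add l2').sub l3).sub l4
  have hlim := le_of_tendsto l5.abs ((eventually_ge_atTop (0:ℝ)).mono hfin)
  have hJb : |2 * JJ| ≤ K3 / ((N:ℝ) + 1) := by
    have h1 := conv_cross_bound (tkφ y) (tkψ k2 g) hφc hψc c1 cψ hφb hψb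
    have h2 := mul_le_mul_of_nonneg_left (tk_iexp h hb hc1).2 hcψ0
    rw [abs_mul, abs_two, hK3]
    calc 2 * |JJ| ≤ 2 * (cψ * (c1 * (2 / 3 / ((N:ℝ) + 1)))) :=
          mul_le_mul_of_nonneg_left (h1.trans h2) (by norm_num)
      _ = _ := by field_simp
  have hg0 := tk_log_g0 h
  have e5 : Real.pi * N * Real.log (g 0) - sc k2 G =
      (3 * N * (∫ x in Ioi (0:ℝ), tkφ y x * (1 / Real.cosh (3 * x))) +
        (2 * Real.log G * (2 * Real.log |G ^ 2 - 1|) / 2 + 2 * JJ) - Dl (G ^ 2 - 1) - El k2 G) -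
        2 * JJ := by
    rw [hg0]
    unfold sc
    field_simp
    ring
  rw [e5]
  calc _ ≤ _ := abs_sub _ _
    _ ≤ (K1 + K2) / ((N:ℝ) + 1) + K3 / ((N:ℝ) + 1) := add_le_add hlim hJb
    _ = (K1 + K2 + K3) / ((N:ℝ) + 1) := by ring
    _ ≤ (K1 + K2 + K3) / N := by
        refine div_le_div_of_nonneg_left (by positivity) ?_ (by linarith)
        rw [hNdef]; positivity

end EP
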