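import Pool.Agent.Helper86.EP.Dil

/-! The value of the dilogarithm constant (module VALUE). -/

namespace EP
open Real Filter Topology MeasureTheory Set

theorem uIoc_pos {b a : ℝ} (ha : a ∈ uIoc (1:ℝ) b) : min 1 b < a := by
  rw [uIoc, mem_Ioc] at ha
  exact ha.1

theorem El_param {b k0 : ℝ} (hb : 0 < b) (hk : 0 < k0) :
    HasDerivAt (fun k => ∫ a in (1:ℝ)..b, wE k a)
      (∫ a in (1:ℝ)..b, 1 / ((1 - a) ^ 2 + k0 * a)) k0 := by
  have hm : 0 < min 1 b := lt_min one_pos hb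
  have hsub : uIcc (1:ℝ) b ⊆ Ioi 0 := uIcc_subset_Ioi one_pos hb
  have hc' : ∀ k : ℝ, 0 < k → ContinuousOn (fun a : ℝ => 1 / ((1 - a) ^ 2 + k * a)) (uIcc 1 b) := by
    intro k hk
    refine ContinuousOn.div (by fun_prop) (by fun_prop) fun a ha => ?_
    exact (quad_pos hk (hsub ha)).ne'
  have key := intervalIntegral.hasDerivAt_integral_of_dominated_loc_of_deriv_le (μ := volume)
    (a := 1) (b := b) (F := wE) (F' := fun k a => 1 / ((1 - a) ^ 2 + k * a)) (x₀ := k0)
    (s := Ioi (k0 / 2)) (bound := fun _ => 1 / (k0 / 2 * min 1 b))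
    (Ioi_mem_nhds (by linarith)) ?_ ?_ ?_ ?_ ?_ ?_
  · exact key.2
  · filter_upwards [Ioi_mem_nhds hk] with k hk1
    exact (intervalIntegrable_iff.1
      ((wE_cont hk1).mono hsub).intervalIntegrable).aestronglyMeasurable
  · exact ((wE_cont hk).mono hsub).intervalIntegrable
  · exact (intervalIntegrable_iff.1 (hc' k0 hk).intervalIntegrable).aestronglyMeasurable
  · refine Eventually.of_forall fun a ha k hk1 => ?_
    have h1 := uIoc_pos ha
    have hk1' : k0 / 2 < k := hk1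
    have h2 : 0 < a := hm.trans h1
    have h3 : 0 < k := by linarith
    have h4 : k0 / 2 * min 1 b ≤ (1 - a) ^ 2 + k * a := by
      have h5 : k0 / 2 * min 1 b ≤ k * a := mul_le_mul hk1'.le h1.le hm.le h3.le
      have := sq_nonneg (1 - a)
      linarith
    rw [Real.norm_of_nonneg (by positivity)]
    exact one_div_le_one_div_of_le (by positivity) h4
  · exact intervalIntegrable_const
  · refine Eventually.of_forall fun a ha k hk1 => ?_
    have h1 := uIoc_pos ha
    have hk1' : k0 / 2 < k := hk1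
    have h2 : 0 < a := hm.trans h1
    have h3 : 0 < k := by linarith
    have h4 : HasDerivAt (fun k : ℝ => (1 - a) ^ 2 + k * a) a k := by
      simpa using ((hasDerivAt_id k).mul_const a).const_add ((1 - a) ^ 2)
    have h5 := (h4.log (quad_pos h3 h2).ne').div_const a
    have e : a / ((1 - a) ^ 2 + k * a) / a = 1 / ((1 - a) ^ 2 + k * a) := by
      have := (quad_pos h3 h2).ne'
      field_simp
    rw [e] at h5
    exact h5

/-- the chain rule for `El` in both variables -/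
theorem El_chain {κ γ : ℝ → ℝ} {κ' γ' s0 : ℝ} (hκ : HasDerivAt κ κ' s0) (hγ : HasDerivAt γ γ' s0)
    (h1 : 0 < κ s0) (h2 : 0 < γ s0) :
    HasDerivAt (fun s => El (κ s) (γ s))
      (κ' * (∫ a in (1:ℝ)..(γ s0), 1 / ((1 - a) ^ 2 + κ s0 * a)) + γ' * wE (κ s0) (γ s0)) s0 := by
  -- the first part
  have hA : HasDerivAt (fun s => ∫ a in (1:ℝ)..(γ s0), wE (κ s) a)
      ((∫ a in (1:ℝ)..(γ s0), 1 / ((1 - a) ^ 2 + κ s0 * a)) * κ') s0 :=
    (El_param h2 h1).comp s0 hκ
  -- the second part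
  have hB : HasDerivAt (fun s => ∫ a in (γ s0)..(γ s), wE (κ s) a) (γ' * wE (κ s0) (γ s0)) s0 := by
    have hB0 : HasDerivAt (fun s => γ s * wE (κ s0) (γ s0)) (γ' * wE (κ s0) (γ s0)) s0 :=
      hγ.mul_const _
    rw [hasDerivAt_iff_isLittleO] at hB0 ⊢
    have hd : (fun s => (∫ a in (γ s0)..(γ s), wE (κ s) a) - (∫ a in (γ s0)..(γ s0), wE (κ s0) a) -
        (s - s0) • (γ' * wE (κ s0) (γ s0))) = fun s =>
        ((∫ a in (γ s0)..(γ s), wE (κ s) a) - (γ s - γ s0) * wE (κ s0) (γ s0)) +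
        (γ s * wE (κ s0) (γ s0) - γ s0 * wE (κ s0) (γ s0) - (s - s0) • (γ' * wE (κ s0) (γ s0))) := by
      funext s
      rw [intervalIntegral.integral_same]
      ring
    rw [hd]
    refine Asymptotics.IsLittleO.add ?_ hB0
    have hO : (fun s => γ s - γ s0) =O[𝓝 s0] fun s => s - s0 := hγ.differentiableAt.isBigO_sub
    refine Asymptotics.IsLittleO.trans_isBigO ?_ hO
    rw [Asymptotics.isLittleO_iff]
    intro ε hε
    -- joint continuity
    have hc := wE_contAt h1 h2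
    rw [Metric.continuousAt_iff] at hc
    obtain ⟨δ, hδ, hδ'⟩ := hc ε hε
    have e1 : ∀ᶠ s in 𝓝 s0, dist (κ s) (κ s0) < δ := hκ.continuousAt.eventually (Metric.ball_mem_nhds _ hδ)
    have e2 : ∀ᶠ s in 𝓝 s0, dist (γ s) (γ s0) < δ := hγ.continuousAt.eventually (Metric.ball_mem_nhds _ hδ)
    have e3 : ∀ᶠ s in 𝓝 s0, 0 < κ s := hκ.continuousAt.eventually (lt_mem_nhds h1)
    have e4 : ∀ᶠ s in 𝓝 s0, 0 < γ s := hγ.continuousAt.eventually (lt_mem_nhds h2)
    filter_upwards [e1, e2, e3, e4] with s e1 e2 e3 e4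
    have hi : IntervalIntegrable (wE (κ s)) volume (γ s0) (γ s) :=
      ((wE_cont e3).mono (uIcc_subset_Ioi h2 e4)).intervalIntegrable
    have e5 : (∫ a in (γ s0)..(γ s), wE (κ s) a) - (γ s - γ s0) * wE (κ s0) (γ s0) =
        ∫ a in (γ s0)..(γ s), (wE (κ s) a - wE (κ s0) (γ s0)) := by
      rw [intervalIntegral.integral_sub hi intervalIntegrable_const,
        intervalIntegral.integral_const, smul_eq_mul]
    rw [e5, Real.norm_eq_abs (γ s - γ s0)]
    refine intervalIntegral.norm_integral_le_of_norm_le_const fun a ha => ?_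
    have h3 : dist a (γ s0) ≤ dist (γ s) (γ s0) := by
      rw [Real.dist_eq, Real.dist_eq]
      rw [uIoc, mem_Ioc] at ha
      rcases le_total (γ s0) (γ s) with h | h
      · rw [min_eq_left h, max_eq_right h] at ha
        rw [abs_of_nonneg (by linarith), abs_of_nonneg (by linarith)]
        linarith
      · rw [min_eq_right h, max_eq_left h] at ha
        rw [abs_of_nonpos (by linarith), abs_of_nonpos (by linarith)]
        linarith
    have h4 := @hδ' (κ s, a) (by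
      rw [Prod.dist_eq]
      exact max_lt e1 (h3.trans_lt e2))
    rw [Real.dist_eq] at h4
    exact h4.le
  have hC := hA.add hB
  rw [mul_comm _ κ'] at hC
  refine hC.congr_of_eventuallyEq ?_
  have e3 : ∀ᶠ s in 𝓝 s0, 0 < κ s := hκ.continuousAt.eventually (lt_mem_nhds h1)
  have e4 : ∀ᶠ s in 𝓝 s0, 0 < γ s := hγ.continuousAt.eventually (lt_mem_nhds h2)
  filter_upwards [e3, e4] with s e3 e4
  have hi : IntervalIntegrable (wE (κ s)) volume 1 (γ s0) :=
    ((wE_cont e3).mono (uIcc_subset_Ioi one_pos h2)).intervalIntegrable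
  have hi' : IntervalIntegrable (wE (κ s)) volume (γ s0) (γ s) :=
    ((wE_cont e3).mono (uIcc_subset_Ioi h2 e4)).intervalIntegrable
  rw [El_eq]
  exact (intervalIntegral.integral_add_adjacent_intervals hi hi').symm

/-- `sc` along the curve -/
noncomputable def scG (G : ℝ) : ℝ := sc ((G - 1) ^ 2 * (G + 2)) G

theorem scG_one : scG 1 = 0 := by
  unfold scG sc
  rw [El_eq, intervalIntegral.integral_same]
  norm_num [Dl_zero]

theorem scG_deriv {G : ℝ} (hG : 0 < G) (hG1 : G ≠ 1) :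
    HasDerivAt scG (3 * (G ^ 2 - 1) *
      ∫ a in (1:ℝ)..G, 1 / ((1 - a) ^ 2 + (G - 1) ^ 2 * (G + 2) * a)) G := by
  have hG1' : G - 1 ≠ 0 := sub_ne_zero.2 hG1
  have hk : 0 < (G - 1) ^ 2 * (G + 2) := by positivity
  have h21 : G ^ 2 - 1 ≠ 0 := by
    intro h
    have : (G - 1) * (G + 1) = 0 := by linarith
    rcases mul_eq_zero.1 this with h | h
    · exact hG1' h
    · linarith
  have d1 : HasDerivAt (fun G : ℝ => (G - 1) ^ 2 * (G + 2)) (3 * (G ^ 2 - 1)) G := by
    have a1 : HasDerivAt (fun G : ℝ => (G - 1) ^ 2) (2 * (G - 1)) G := by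
      simpa using ((hasDerivAt_id G).sub_const 1).fun_pow 2
    have a2 : HasDerivAt (fun G : ℝ => G + 2) 1 G := (hasDerivAt_id G).add_const 2
    exact (a1.fun_mul a2).congr_deriv (by ring)
  have d2 : HasDerivAt (fun G : ℝ => G ^ 2 - 1) (2 * G) G := by
    simpa using (hasDerivAt_pow 2 G).sub_const 1
  have d3 : HasDerivAt (fun G : ℝ => Dl (G ^ 2 - 1)) (dl (G ^ 2 - 1) * (2 * G)) G :=
    HasDerivAt.comp (h₂ := Dl) (h := fun G : ℝ => G ^ 2 - 1) G
      (Dl_deriv (u := G ^ 2 - 1) (by nlinarith)) d2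
  have d4 := El_chain d1 (hasDerivAt_id G) hk hG
  have d5 : HasDerivAt (fun G : ℝ => 2 * Real.log G * Real.log |G ^ 2 - 1|)
      (2 * G⁻¹ * Real.log |G ^ 2 - 1| + 2 * Real.log G * (2 * G / (G ^ 2 - 1))) G := by
    have a1 : HasDerivAt (fun G : ℝ => 2 * Real.log G) (2 * G⁻¹) G :=
      (Real.hasDerivAt_log hG.ne').const_mul 2
    have a2 : HasDerivAt (fun G : ℝ => Real.log |G ^ 2 - 1|) (2 * G / (G ^ 2 - 1)) G := by
      simp only [Real.log_abs]
      exact d2.log h21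
    exact a1.fun_mul a2
  have d6 := (d3.fun_add d4).fun_sub d5
  refine HasDerivAt.congr_deriv (f := scG) d6 ?_
  have e1 : dl (G ^ 2 - 1) = 2 * Real.log G / (G ^ 2 - 1) := by
    rw [dl_ne h21, add_sub_cancel, Real.log_pow]
    norm_num
  have e2 : wE ((G - 1) ^ 2 * (G + 2)) (id G) = 2 * Real.log |G ^ 2 - 1| / G := by
    unfold wE
    have : (1 - id G) ^ 2 + (G - 1) ^ 2 * (G + 2) * id G = (G ^ 2 - 1) ^ 2 := by
      simp only [id]
      ring
    rw [this, ← sq_abs, Real.log_pow]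
    norm_num
  rw [e1, e2]
  simp only [id]
  generalize (∫ a in (1:ℝ)..G, 1 / ((1 - a) ^ 2 + (G - 1) ^ 2 * (G + 2) * a)) = I
  field_simp
  ring

theorem mvt_zero {f : ℝ → ℝ} {a b : ℝ} (hab : a < b) (hc : ∀ x ∈ Icc a b, ContinuousAt f x)
    (hd : ∀ x ∈ Ioo a b, HasDerivAt f 0 x) : f b = f a := by
  obtain ⟨c, hc1, hc2⟩ := exists_hasDerivAt_eq_slope f (fun _ => 0) hab
    (fun x hx => (hc x hx).continuousWithinAt) hd
  have h1 : b - a ≠ 0 := by linarith
  have h2 : (f b - f a) / (b - a) = 0 := hc2.symm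
  rcases div_eq_zero_iff.1 h2 with h3 | h3
  · linarith
  · exact absurd h3 h1

/-- the value of the integral, trigonometric case -/
theorem int_cos {θ : ℝ} (h0 : 0 < θ) (h1 : θ < π / 2) (h2 : θ ≠ π / 3) :
    ∫ a in (1:ℝ)..(2 * cos θ), 1 / ((1 - a) ^ 2 + (2 * cos θ - 1) ^ 2 * (2 * cos θ + 2) * a) =
      θ / (2 * sin (3 * θ)) := by
  have hpi := Real.pi_pos
  have hs : sin (3 * θ) ≠ 0 := by
    intro h
    rcases lt_or_gt_of_ne h2 with h3 | h3
    · exact (sin_pos_of_pos_of_lt_pi (by linarith) (by linarith)).ne' h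
    · have h4 : sin (3 * θ - π) > 0 := sin_pos_of_pos_of_lt_pi (by linarith) (by linarith)
      rw [sin_sub_pi, h] at h4
      simp at h4
  have hst : 0 < sin θ := sin_pos_of_pos_of_lt_pi h0 (by linarith)
  have hct : 0 < cos θ := cos_pos_of_mem_Ioo ⟨by linarith, h1⟩
  have hsc := sin_sq_add_cos_sq θ
  have h3s : sin (3 * θ) = 3 * sin θ - 4 * sin θ ^ 3 := sin_three_mul θ
  have h3c : cos (3 * θ) = 4 * cos θ ^ 3 - 3 * cos θ := cos_three_mul θ
  set s := sin (3 * θ) with hsdef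
  set c := cos (3 * θ) with hcdef
  have hsc3 : s ^ 2 + c ^ 2 = 1 := sin_sq_add_cos_sq (3 * θ)
  have hden : ∀ a : ℝ, (1 - a) ^ 2 + (2 * cos θ - 1) ^ 2 * (2 * cos θ + 2) * a =
      (a + c) ^ 2 + s ^ 2 := by
    intro a
    rw [show s ^ 2 = 1 - c ^ 2 by linarith, h3c]
    ring
  have hder : ∀ a : ℝ, HasDerivAt (fun a => 1 / s * arctan ((a + c) / s))
      (1 / ((1 - a) ^ 2 + (2 * cos θ - 1) ^ 2 * (2 * cos θ + 2) * a)) a := by
    intro a
    have e1 : HasDerivAt (fun a : ℝ => (a + c) / s) (1 / s) a :=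
      ((hasDerivAt_id a).add_const c).div_const s
    refine (e1.arctan.const_mul (1 / s)).congr_deriv ?_
    rw [hden a]
    have h4 : (a + c) ^ 2 + s ^ 2 ≠ 0 := by positivity
    have h5 : s ^ 2 + (a + c) ^ 2 ≠ 0 := by positivity
    field_simp
    ring
  have hcont : Continuous fun a : ℝ =>
      1 / ((1 - a) ^ 2 + (2 * cos θ - 1) ^ 2 * (2 * cos θ + 2) * a) := by
    refine Continuous.div (by fun_prop) (by fun_prop) fun a => ?_
    rw [hden a]
    positivity
  rw [intervalIntegral.integral_eq_sub_of_hasDerivAt (fun a _ => hder a)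
    (hcont.intervalIntegrable _ _)]
  have e1 : (2 * cos θ + c) / s = tan (π / 2 - θ) := by
    rw [tan_pi_div_two_sub, tan_eq_sin_div_cos, inv_div, div_eq_div_iff hs hst.ne', h3s, h3c]
    have : sin θ ^ 2 = 1 - cos θ ^ 2 := by linarith
    linear_combination (4 * cos θ * sin θ) * hsc
  have e2 : (1 + c) / s = tan (π / 2 - 3 * θ / 2) := by
    have hs2 : s = 2 * sin (3 * θ / 2) * cos (3 * θ / 2) := by
      rw [hsdef, ← sin_two_mul]; congr 1; ring
    have hc2 : c = 2 * cos (3 * θ / 2) ^ 2 - 1 := by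
      rw [hcdef, ← cos_two_mul]; congr 1; ring
    have hcc : cos (3 * θ / 2) ≠ 0 := by
      intro h; rw [hs2, h, mul_zero] at hs; exact hs rfl
    have hss : sin (3 * θ / 2) ≠ 0 := by
      intro h; rw [hs2, h, mul_zero, zero_mul] at hs; exact hs rfl
    rw [tan_pi_div_two_sub, tan_eq_sin_div_cos, inv_div, hs2, hc2]
    field_simp
    ring
  rw [e1, e2, arctan_tan (by linarith) (by linarith), arctan_tan (by linarith) (by linarith)]
  field_simp
  ring

theorem int_cosh {θ : ℝ} (h0 : 0 < θ) :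
    ∫ a in (1:ℝ)..(2 * cosh θ), 1 / ((1 - a) ^ 2 + (2 * cosh θ - 1) ^ 2 * (2 * cosh θ + 2) * a) =
      θ / (2 * sinh (3 * θ)) := by
  set s := sinh (3 * θ) with hsdef
  set E := exp θ with hE
  have hE0 : 0 < E := exp_pos θ
  have hs : 0 < s := sinh_pos_iff.2 (by linarith)
  have hG : 2 * cosh θ = E + E⁻¹ := by
    rw [cosh_eq, exp_neg, hE]; ring
  have hE3 : exp (3 * θ) = E ^ 3 := by
    rw [hE, ← exp_nat_mul]; norm_num
  have hs' : 2 * s = E ^ 3 - (E ^ 3)⁻¹ := by
    rw [hsdef, sinh_eq, exp_neg, hE3]; ring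
  have hG1 : 1 ≤ 2 * cosh θ := by have := one_le_cosh θ; linarith
  have hden : ∀ a : ℝ, (1 - a) ^ 2 + (2 * cosh θ - 1) ^ 2 * (2 * cosh θ + 2) * a =
      (a + (E ^ 3)⁻¹) * (a + E ^ 3) := by
    intro a
    rw [hG]
    field_simp
    ring
  have hder : ∀ a ∈ uIcc 1 (2 * cosh θ), HasDerivAt
      (fun a => 1 / (2 * s) * (Real.log (a + (E ^ 3)⁻¹) - Real.log (a + E ^ 3)))
      (1 / ((1 - a) ^ 2 + (2 * cosh θ - 1) ^ 2 * (2 * cosh θ + 2) * a)) a := by
    intro a ha
    have ha0 : 0 < a := uIcc_subset_Ioi one_pos (by linarith) ha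
    have h3 : 0 < a + (E ^ 3)⁻¹ := by positivity
    have h4 : 0 < a + E ^ 3 := by positivity
    have e1 : HasDerivAt (fun a : ℝ => Real.log (a + (E ^ 3)⁻¹)) (1 / (a + (E ^ 3)⁻¹)) a :=
      ((hasDerivAt_id a).add_const _).log h3.ne'
    have e2 : HasDerivAt (fun a : ℝ => Real.log (a + E ^ 3)) (1 / (a + E ^ 3)) a :=
      ((hasDerivAt_id a).add_const _).log h4.ne'
    refine ((e1.fun_sub e2).const_mul (1 / (2 * s))).congr_deriv ?_
    rw [hden a]
    have h5 : 1 / (a + (E ^ 3)⁻¹) - 1 / (a + E ^ 3) = 2 * s / ((a + (E ^ 3)⁻¹) * (a + E ^ 3)) := by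
      rw [hs', div_sub_div _ _ h3.ne' h4.ne']
      congr 1
      ring
    rw [h5]
    field_simp
  have hcont : ContinuousOn (fun a : ℝ =>
      1 / ((1 - a) ^ 2 + (2 * cosh θ - 1) ^ 2 * (2 * cosh θ + 2) * a)) (uIcc 1 (2 * cosh θ)) := by
    refine ContinuousOn.div (by fun_prop) (by fun_prop) fun a ha => ?_
    have ha0 : 0 < a := uIcc_subset_Ioi one_pos (by linarith) ha
    rw [hden a]
    positivity
  rw [intervalIntegral.integral_eq_sub_of_hasDerivAt hder hcont.intervalIntegrable]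
  have h6 : Real.log (2 * cosh θ + (E ^ 3)⁻¹) - Real.log (2 * cosh θ + E ^ 3) = -(2 * θ) := by
    have : 2 * cosh θ + (E ^ 3)⁻¹ = exp (-(2 * θ)) * (2 * cosh θ + E ^ 3) := by
      have h7 : exp (-(2 * θ)) = (E ^ 2)⁻¹ := by
        rw [exp_neg, hE, ← exp_nat_mul]; norm_num
      rw [h7, hG]
      field_simp
      ring
    rw [this, Real.log_mul (exp_pos _).ne' (by positivity), Real.log_exp]
    ring
  have h8 : Real.log (1 + (E ^ 3)⁻¹) - Real.log (1 + E ^ 3) = -(3 * θ) := by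
    have : 1 + (E ^ 3)⁻¹ = exp (-(3 * θ)) * (1 + E ^ 3) := by
      rw [exp_neg, hE3]
      field_simp
      ring
    rw [this, Real.log_mul (exp_pos _).ne' (by positivity), Real.log_exp]
    ring
  rw [h6, h8]
  field_simp
  ring

theorem scG_cont {G : ℝ} (hG : 0 < G) : ContinuousAt scG G := by
  by_cases hG1 : G = 1
  swap
  · exact (scG_deriv hG hG1).continuousAt
  subst hG1
  have t0 : Tendsto (fun G : ℝ => G - 1) (𝓝 1) (𝓝 0) := by
    have h1 : ContinuousAt (fun G : ℝ => G - 1) 1 := by fun_prop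
    have h2 := h1.tendsto
    rwa [sub_self] at h2
  have t1 : Tendsto (fun G : ℝ => (G - 1) * Real.log (G - 1)) (𝓝 1) (𝓝 0) := by
    have h1 := (Real.continuous_mul_log.tendsto 0).comp t0
    rw [zero_mul] at h1
    exact h1
  -- first term
  have a1 : Tendsto (fun G : ℝ => Dl (G ^ 2 - 1)) (𝓝 1) (𝓝 0) := by
    have h1 : Tendsto (fun G : ℝ => G ^ 2 - 1) (𝓝 1) (𝓝 0) := by
      have h1 : ContinuousAt (fun G : ℝ => G ^ 2 - 1) 1 := by fun_prop
      have h2 := h1.tendsto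
      rwa [one_pow, sub_self] at h2
    have h2 := (Dl_contAt (show (-1:ℝ) < 0 by norm_num)).tendsto.comp h1
    rwa [Dl_zero] at h2
  -- third term
  have a3 : Tendsto (fun G : ℝ => 2 * Real.log G * Real.log |G ^ 2 - 1|) (𝓝 1) (𝓝 0) := by
    have h1 : Tendsto (fun G : ℝ => dl (G - 1)) (𝓝 1) (𝓝 (dl 0)) :=
      (dl_cont.continuousAt (Ioi_mem_nhds (by norm_num))).tendsto.comp t0
    have h2 : Tendsto (fun G : ℝ => Real.log (G + 1)) (𝓝 1) (𝓝 (Real.log (1 + 1))) := by
      have : ContinuousAt (fun G : ℝ => Real.log (G + 1)) 1 :=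
        ContinuousAt.log (by fun_prop) (by norm_num)
      exact this
    have h3 := (h1.const_mul 2).mul (t1.add (t0.mul h2))
    rw [zero_mul, add_zero, mul_zero] at h3
    refine h3.congr' ?_
    filter_upwards [lt_mem_nhds (show (0:ℝ) < 1 by norm_num)] with G hG
    by_cases hG1 : G = 1
    · rw [hG1]; simp
    have h4 : Real.log G = dl (G - 1) * (G - 1) := by
      rw [dl_mul]; congr 1; ring
    have h5 : Real.log |G ^ 2 - 1| = Real.log (G - 1) + Real.log (G + 1) := by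
      rw [Real.log_abs, show G ^ 2 - 1 = (G - 1) * (G + 1) by ring,
        Real.log_mul (sub_ne_zero.2 hG1) (by positivity)]
    rw [h4, h5]
    ring
  -- second term
  have a2 : Tendsto (fun G : ℝ => El ((G - 1) ^ 2 * (G + 2)) G) (𝓝 1) (𝓝 0) := by
    have h1 : Tendsto (fun G : ℝ => 4 * |(G - 1) * Real.log (G - 1)| + 2 * |G - 1|) (𝓝 1) (𝓝 0) := by
      have := (t1.abs.const_mul 4).add (t0.abs.const_mul 2)
      simpa using this
    refine squeeze_zero_norm' ?_ h1
    have hI : Ioo (1 / 2 : ℝ) (3 / 2) ∈ 𝓝 (1:ℝ) := Ioo_mem_nhds (by norm_num) (by norm_num)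
    filter_upwards [hI] with G hGI
    by_cases hG1 : G = 1
    · rw [hG1, El_eq, intervalIntegral.integral_same]; simp
    have hd : 0 < (G - 1) ^ 2 := by
      have := sub_ne_zero.2 hG1
      positivity
    have hd4 : (G - 1) ^ 2 ≤ 1 / 4 := by
      have := hGI.1; have := hGI.2
      nlinarith
    have h2 : ∀ a ∈ uIoc 1 G, ‖wE ((G - 1) ^ 2 * (G + 2)) a‖ ≤ 2 * (2 * |Real.log (G - 1)| + 1) := by
      intro a ha
      have ha1 : 1 / 2 < a ∧ a < 3 / 2 := by
        rw [uIoc, mem_Ioc] at ha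
        constructor
        · exact lt_of_lt_of_le (lt_min (by norm_num) hGI.1) ha.1.le
        · exact lt_of_le_of_lt ha.2 (max_lt (by norm_num) hGI.2)
      have ha0 : 0 < a := by linarith [ha1.1]
      have h3 : (G - 1) ^ 2 ≤ (1 - a) ^ 2 + (G - 1) ^ 2 * (G + 2) * a := by
        have h4 : 1 ≤ (G + 2) * a := by nlinarith [hGI.1, ha1.1]
        have h5 : (G - 1) ^ 2 * 1 ≤ (G - 1) ^ 2 * ((G + 2) * a) := by gcongr
        have := sq_nonneg (1 - a)
        linarith
      have h4 : (1 - a) ^ 2 + (G - 1) ^ 2 * (G + 2) * a ≤ 2 := by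
        have h5 : (1 - a) ^ 2 ≤ 1 / 4 := by nlinarith [ha1.1, ha1.2]
        have h6 : (G + 2) * a ≤ 6 := by nlinarith [hGI.1, hGI.2, ha1.1, ha1.2]
        have h7 : (G - 1) ^ 2 * ((G + 2) * a) ≤ 1 / 4 * 6 := by
          have : 0 ≤ (G + 2) * a := by have := hGI.1; positivity
          gcongr
        linarith
      set x := (1 - a) ^ 2 + (G - 1) ^ 2 * (G + 2) * a with hx
      have hx0 : 0 < x := hd.trans_le h3
      have h5 : Real.log x ≤ 1 := by
        have := Real.log_le_sub_one_of_pos hx0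
        linarith
      have h6 : -(2 * |Real.log (G - 1)|) ≤ Real.log x := by
        have h7 := Real.log_le_log hd h3
        rw [Real.log_pow] at h7
        have h8 := neg_abs_le (Real.log (G - 1))
        push_cast at h7
        linarith
      have h7 : |Real.log x| ≤ 2 * |Real.log (G - 1)| + 1 := by
        rw [abs_le]
        have := abs_nonneg (Real.log (G - 1))
        constructor <;> linarith
      have h8 : wE ((G - 1) ^ 2 * (G + 2)) a = Real.log x / a := rfl
      rw [h8, norm_div, Real.norm_eq_abs, Real.norm_of_nonneg ha0.le, div_le_iff₀ ha0]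
      have h9 : 0 ≤ 2 * |Real.log (G - 1)| + 1 := by positivity
      nlinarith [ha1.1]
    have h3 := intervalIntegral.norm_integral_le_of_norm_le_const h2
    rw [El_eq]
    refine h3.trans (le_of_eq ?_)
    rw [abs_mul]
    ring
  have h := (a1.add a2).sub a3
  rw [add_zero, sub_zero, ← scG_one] at h
  exact h

theorem sc_cos (θ : ℝ) (h0 : 0 < θ) (h1 : θ < π / 2) (h2 : θ ≠ π / 3) :
    sc ((2 * cos θ - 1) ^ 2 * (2 * cos θ + 2)) (2 * cos θ) = π ^ 2 / 6 - 3 / 2 * θ ^ 2 := by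
  have hpi := Real.pi_pos
  set f : ℝ → ℝ := fun θ => scG (2 * cos θ) + 3 / 2 * θ ^ 2 with hf
  have hcos : ∀ θ : ℝ, 0 < θ → θ < π / 2 → 0 < 2 * cos θ := by
    intro θ h0 h1
    have := cos_pos_of_mem_Ioo ⟨by linarith, h1⟩
    linarith
  have hcont : ∀ θ, 0 < θ → θ < π / 2 → ContinuousAt f θ := by
    intro θ h0 h1
    have e1 : ContinuousAt (fun θ => scG (2 * cos θ)) θ :=
      ContinuousAt.comp (g := scG) (f := fun θ => 2 * cos θ) (scG_cont (hcos θ h0 h1)) (by fun_prop)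
    exact e1.add (by fun_prop)
  have hder : ∀ θ, 0 < θ → θ < π / 2 → θ ≠ π / 3 → HasDerivAt f 0 θ := by
    intro θ h0 h1 h2
    have hG1 : 2 * cos θ ≠ 1 := by
      intro h3
      have h4 : cos θ = cos (π / 3) := by rw [cos_pi_div_three]; linarith
      exact h2 (injOn_cos ⟨h0.le, by linarith⟩ ⟨by positivity, by linarith⟩ h4)
    have e1 := scG_deriv (hcos θ h0 h1) hG1
    rw [int_cos h0 h1 h2] at e1
    have e2 : HasDerivAt (fun θ => 2 * cos θ) (2 * -sin θ) θ := (hasDerivAt_cos θ).const_mul 2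
    have e3 : HasDerivAt (fun θ => scG (2 * cos θ)) _ θ :=
      HasDerivAt.comp (h₂ := scG) (h := fun θ => 2 * cos θ) θ e1 e2
    have e4 : HasDerivAt (fun θ : ℝ => 3 / 2 * θ ^ 2) (3 / 2 * (2 * θ)) θ := by
      simpa using (hasDerivAt_pow 2 θ).const_mul (3 / 2)
    refine (e3.fun_add e4).congr_deriv ?_
    have hst : sin θ ≠ 0 := (sin_pos_of_pos_of_lt_pi h0 (by linarith)).ne'
    have hs : sin (3 * θ) = sin θ * (4 * cos θ ^ 2 - 1) := by
      rw [sin_three_mul]
      have := sin_sq_add_cos_sq θ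
      linear_combination (-4 * sin θ) * this
    have hq : 4 * cos θ ^ 2 - 1 ≠ 0 := by
      intro h3
      have h4 : (2 * cos θ - 1) * (2 * cos θ + 1) = 0 := by linarith
      rcases mul_eq_zero.1 h4 with h5 | h5
      · exact hG1 (by linarith)
      · have := hcos θ h0 h1
        linarith
    have e5 : (2 * cos θ) ^ 2 - 1 = 4 * cos θ ^ 2 - 1 := by ring
    rw [hs, e5]
    generalize 4 * cos θ ^ 2 - 1 = Q at hq
    field_simp
    ring
  have hval : f (π / 3) = π ^ 2 / 6 := by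
    rw [hf]
    simp only
    rw [cos_pi_div_three, show (2:ℝ) * (1 / 2) = 1 by norm_num, scG_one]
    ring
  have key : f θ = π ^ 2 / 6 := by
    rcases lt_or_gt_of_ne h2 with h3 | h3
    · rw [← hval]
      refine (mvt_zero h3 (fun x hx => hcont x (h0.trans_le hx.1) (by linarith [hx.2])) ?_).symm
      intro x hx
      exact hder x (h0.trans hx.1) (by linarith [hx.2]) hx.2.ne
    · rw [← hval]
      refine mvt_zero h3 (fun x hx => hcont x (by linarith [hx.1]) (by linarith [hx.2])) ?_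
      intro x hx
      exact hder x (by linarith [hx.1]) (by linarith [hx.2]) hx.1.ne'
  have e : f θ = sc ((2 * cos θ - 1) ^ 2 * (2 * cos θ + 2)) (2 * cos θ) + 3 / 2 * θ ^ 2 := rfl
  linarith

theorem scG_two : scG 2 = π ^ 2 / 6 := by
  have hpi := Real.pi_pos
  have h1 : Tendsto (fun θ : ℝ => scG (2 * cos θ)) (𝓝[>] 0) (𝓝 (scG 2)) := by
    have e1 : ContinuousAt (fun θ => scG (2 * cos θ)) 0 :=
      ContinuousAt.comp (g := scG) (f := fun θ => 2 * cos θ) (scG_cont (by simp)) (by fun_prop)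
    have e2 := e1.tendsto
    simp only [cos_zero, mul_one] at e2
    exact e2.mono_left nhdsWithin_le_nhds
  have h2 : Tendsto (fun θ : ℝ => π ^ 2 / 6 - 3 / 2 * θ ^ 2) (𝓝[>] 0) (𝓝 (π ^ 2 / 6)) := by
    have e1 : ContinuousAt (fun θ : ℝ => π ^ 2 / 6 - 3 / 2 * θ ^ 2) 0 := by fun_prop
    have e2 := e1.tendsto
    simp only [ne_eq, OfNat.ofNat_ne_zero, not_false_eq_true, zero_pow, mul_zero, sub_zero] at e2
    exact e2.mono_left nhdsWithin_le_nhds
  refine tendsto_nhds_unique h1 (h2.congr' ?_)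
  have hI : Ioo (0:ℝ) (π / 3) ∈ 𝓝[>] (0:ℝ) := Ioo_mem_nhdsGT (by positivity)
  filter_upwards [hI] with θ hθ
  exact (sc_cos θ hθ.1 (by linarith [hθ.2]) hθ.2.ne).symm

theorem sc_cosh (θ : ℝ) (h0 : 0 ≤ θ) :
    sc ((2 * cosh θ - 1) ^ 2 * (2 * cosh θ + 2)) (2 * cosh θ) = π ^ 2 / 6 + 3 / 2 * θ ^ 2 := by
  set f : ℝ → ℝ := fun θ => scG (2 * cosh θ) - 3 / 2 * θ ^ 2 with hf
  have hcosh : ∀ θ : ℝ, 2 ≤ 2 * cosh θ := by
    intro θ
    have := one_le_cosh θ
    linarith
  have hcont : ∀ θ, ContinuousAt f θ := by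
    intro θ
    have e1 : ContinuousAt (fun θ => scG (2 * cosh θ)) θ :=
      ContinuousAt.comp (g := scG) (f := fun θ => 2 * cosh θ)
        (scG_cont (by linarith [hcosh θ])) (by fun_prop)
    exact e1.sub (by fun_prop)
  have hder : ∀ θ, 0 < θ → HasDerivAt f 0 θ := by
    intro θ h0
    have e1 := scG_deriv (G := 2 * cosh θ) (by linarith [hcosh θ]) (by linarith [hcosh θ])
    rw [int_cosh h0] at e1
    have e2 : HasDerivAt (fun θ => 2 * cosh θ) (2 * sinh θ) θ := (hasDerivAt_cosh θ).const_mul 2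
    have e3 : HasDerivAt (fun θ => scG (2 * cosh θ)) _ θ :=
      HasDerivAt.comp (h₂ := scG) (h := fun θ => 2 * cosh θ) θ e1 e2
    have e4 : HasDerivAt (fun θ : ℝ => 3 / 2 * θ ^ 2) (3 / 2 * (2 * θ)) θ := by
      simpa using (hasDerivAt_pow 2 θ).const_mul (3 / 2)
    refine (e3.fun_sub e4).congr_deriv ?_
    have hst : sinh θ ≠ 0 := (sinh_pos_iff.2 h0).ne'
    have hs : sinh (3 * θ) = sinh θ * (4 * cosh θ ^ 2 - 1) := by
      rw [sinh_three_mul]
      have := cosh_sq θ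
      linear_combination (-4 * sinh θ) * this
    have hq : 4 * cosh θ ^ 2 - 1 ≠ 0 := by
      have := hcosh θ
      nlinarith
    have e5 : (2 * cosh θ) ^ 2 - 1 = 4 * cosh θ ^ 2 - 1 := by ring
    rw [hs, e5]
    generalize 4 * cosh θ ^ 2 - 1 = Q at hq
    field_simp
    ring
  have hval : f 0 = π ^ 2 / 6 := by
    rw [hf]
    simp only
    rw [cosh_zero, mul_one, scG_two]
    ring
  have key : f θ = π ^ 2 / 6 := by
    rcases h0.eq_or_lt with h3 | h3
    · rw [← h3, hval]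
    · rw [← hval]
      exact mvt_zero h3 (fun x _ => hcont x) fun x hx => hder x hx.1
  have e : f θ = sc ((2 * cosh θ - 1) ^ 2 * (2 * cosh θ + 2)) (2 * cosh θ) - 3 / 2 * θ ^ 2 := rfl
  linarith

end EP
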