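import Pool.Agent.Helper86.EP.Cont
import Pool.Agent.Helper86.EP.Trick
import Pool.Agent.Helper86.EP.Value
import Pool.Agent.Helper86.EP.Bounds

/-! Main theorem of the analytic half (module MAIN). -/

namespace EP
open Polynomial Filter Topology

theorem main_aux (lam : ℕ → ℝ → ℝ[X]) (h : ∀ L, 1 ≤ L → Fam L (lam L)) (q : ℝ) (hq : q0 < q)
    (hq1 : q ≠ 1) :
    Tendsto (fun L : ℕ => (L:ℝ) * Real.log ((lam L q).eval 1 / (nu L).eval 1)) atTop
      (𝓝 (sc (kap q) (3 * q - 2) / (2 * Real.pi))) := by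
  have h23 := q0_gt
  have hq0 : 0 < q := by linarith
  have hk : 0 < kap q := by
    unfold kap
    have : 0 < (q - 1) ^ 2 := by
      have : q - 1 ≠ 0 := sub_ne_zero.2 hq1
      positivity
    positivity
  obtain ⟨m, M, c1, hm, hmG, hGM, hc1, hb⟩ := bounds q hq hq1
  obtain ⟨c, hc⟩ := trick (kap q) (3 * q - 2) m M c1 hk (kap_eq q) hm hmG hGM hc1
  have hpi := Real.pi_pos
  have key : ∀ L : ℕ, 1 ≤ L → |Real.pi * ((2 * L + 2 : ℕ) : ℝ) *
      Real.log ((lam L q).eval 1 / (nu L).eval 1) - sc (kap q) (3 * q - 2)| ≤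
        c / ((2 * L + 2 : ℕ) : ℝ) := by
    intro L hL
    have hF := h L hL
    have hS := hF.sol q hq0
    have hG : Good L (lam L q) := by
      rcases lt_or_gt_of_ne hq1 with h1 | h1
      · exact good_lt hF hq h1
      · exact good_gt hF h1
    have h1 := hc (2 * L + 2) (by omega) (gx L (lam L q)) (yx L (lam L q))
      (tba hS hG (by linarith) hq1) (fun x => (hb L _ hS hG x).1) (fun x => (hb L _ hS hG x).2.1)
      (fun x => (hb L _ hS hG x).2.2)
    have h2 : gx L (lam L q) 0 = (lam L q).eval 1 / (nu L).eval 1 := by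
      unfold gx
      rw [mul_zero, Real.exp_zero]
    rwa [h2] at h1
  -- the limit
  have hN : Tendsto (fun L : ℕ => c / ((2 * L + 2 : ℕ) : ℝ)) atTop (𝓝 0) := by
    refine Tendsto.div_atTop tendsto_const_nhds ?_
    refine tendsto_natCast_atTop_atTop.comp ?_
    exact tendsto_atTop_mono (fun L => (by omega : L ≤ 2 * L + 2)) tendsto_id
  have h1 : Tendsto (fun L : ℕ => Real.pi * ((2 * L + 2 : ℕ) : ℝ) *
      Real.log ((lam L q).eval 1 / (nu L).eval 1)) atTop (𝓝 (sc (kap q) (3 * q - 2))) := by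
    rw [tendsto_iff_norm_sub_tendsto_zero]
    refine squeeze_zero' (Eventually.of_forall fun _ => norm_nonneg _) ?_ hN
    filter_upwards [eventually_ge_atTop 1] with L hL
    exact key L hL
  have h2 : Tendsto (fun L : ℕ => (L:ℝ) / ((2 * L + 2 : ℕ) : ℝ)) atTop (𝓝 (1 / 2)) := by
    have h3 : Tendsto (fun L : ℕ => (1 / 2 : ℝ) - 1 / ((2 * L + 2 : ℕ) : ℝ)) atTop
        (𝓝 (1 / 2 - 0)) := by
      refine Tendsto.sub tendsto_const_nhds ?_
      refine Tendsto.div_atTop tendsto_const_nhds ?_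
      refine tendsto_natCast_atTop_atTop.comp ?_
      exact tendsto_atTop_mono (fun L => (by omega : L ≤ 2 * L + 2)) tendsto_id
    rw [sub_zero] at h3
    refine h3.congr fun L => ?_
    push_cast
    field_simp
    ring
  have h4 := (h1.mul h2).div_const Real.pi
  have e : sc (kap q) (3 * q - 2) * (1 / 2) / Real.pi = sc (kap q) (3 * q - 2) / (2 * Real.pi) := by
    field_simp
  rw [e] at h4
  refine h4.congr fun L => ?_
  push_cast
  field_simp

theorem main_cos (lam : ℕ → ℝ → ℝ[X]) (h : ∀ L, 1 ≤ L → Fam L (lam L)) (r : ℝ) (h0 : 0 < r)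
    (h1 : r < 4 / 3) :
    Tendsto (fun L : ℕ => (L:ℝ) * Real.log
      ((lam L (4 / 3 * Real.cos (Real.pi * r / 6) ^ 2)).eval 1 / (nu L).eval 1)) atTop
      (𝓝 (Real.pi / 12 * (1 - r ^ 2))) := by
  have hpi := Real.pi_pos
  set q : ℝ := 4 / 3 * Real.cos (Real.pi * r / 6) ^ 2 with hq
  have hG : 3 * q - 2 = 2 * Real.cos (Real.pi * r / 3) := by
    have e : Real.pi * r / 3 = 2 * (Real.pi * r / 6) := by ring
    rw [e, Real.cos_two_mul, hq]
    ring
  by_cases hr : r = 1
  · have hq1 : q = 1 := by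
      rw [hq, hr, mul_one, Real.cos_pi_div_six, div_pow, Real.sq_sqrt (by norm_num)]
      norm_num
    rw [hq1, hr]
    have e : Real.pi / 12 * (1 - 1 ^ 2) = 0 := by ring
    rw [e]
    refine tendsto_const_nhds.congr' ?_
    filter_upwards [eventually_ge_atTop 1] with L hL
    have hn : (nu L).eval 1 ≠ 0 := (nu_real_pos L zero_le_one).ne'
    rw [(h L hL).one, div_self hn, Real.log_one, mul_zero]
  · have hθ1 : Real.pi * r / 3 < Real.pi / 2 := by nlinarith
    have hθ0 : 0 < Real.pi * r / 3 := by positivity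
    have hθ : Real.pi * r / 3 ≠ Real.pi / 3 := by
      intro h2
      apply hr
      have : Real.pi * (r - 1) = 0 := by linarith
      rcases mul_eq_zero.1 this with h3 | h3
      · exact absurd h3 hpi.ne'
      · linarith
    have hq1 : q ≠ 1 := by
      intro h2
      rw [h2] at hG
      have h3 : Real.cos (Real.pi * r / 3) = Real.cos (Real.pi / 3) := by
        rw [Real.cos_pi_div_three]
        linarith
      exact hθ (Real.injOn_cos ⟨hθ0.le, by linarith⟩ ⟨by positivity, by linarith⟩ h3)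
    have hqq : q0 < q := by
      rw [hq]
      unfold q0
      have hc : Real.cos (2 * Real.pi / 9) < Real.cos (Real.pi * r / 6) :=
        Real.cos_lt_cos_of_nonneg_of_le_pi (by positivity) (by linarith) (by nlinarith)
      have hc0 : 0 < Real.cos (2 * Real.pi / 9) :=
        Real.cos_pos_of_mem_Ioo ⟨by linarith, by linarith⟩
      nlinarith
    have key := main_aux lam h q hqq hq1
    have hk : kap q = (2 * Real.cos (Real.pi * r / 3) - 1) ^ 2 *
        (2 * Real.cos (Real.pi * r / 3) + 2) := by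
      rw [kap_eq, hG]
    rw [hk, hG, sc_cos _ hθ0 hθ1 hθ] at key
    have e : (Real.pi ^ 2 / 6 - 3 / 2 * (Real.pi * r / 3) ^ 2) / (2 * Real.pi) =
        Real.pi / 12 * (1 - r ^ 2) := by
      field_simp
      ring
    rwa [e] at key

theorem main_cosh (lam : ℕ → ℝ → ℝ[X]) (h : ∀ L, 1 ≤ L → Fam L (lam L)) (r : ℝ) (h0 : 0 ≤ r) :
    Tendsto (fun L : ℕ => (L:ℝ) * Real.log
      ((lam L (4 / 3 * Real.cosh (Real.pi * r / 6) ^ 2)).eval 1 / (nu L).eval 1)) atTop
      (𝓝 (Real.pi / 12 * (1 + r ^ 2))) := by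
  have hpi := Real.pi_pos
  set q : ℝ := 4 / 3 * Real.cosh (Real.pi * r / 6) ^ 2 with hq
  have hG : 3 * q - 2 = 2 * Real.cosh (Real.pi * r / 3) := by
    have e : Real.pi * r / 3 = 2 * (Real.pi * r / 6) := by ring
    have e2 := Real.cosh_two_mul (Real.pi * r / 6)
    have e3 := Real.cosh_sq (Real.pi * r / 6)
    rw [e, e2, hq]
    linarith
  have hc := Real.one_le_cosh (Real.pi * r / 6)
  have hq1 : 1 < q := by
    rw [hq]
    nlinarith
  have hqq : q0 < q := by
    rw [hq]
    unfold q0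
    have hc1 : Real.cos (2 * Real.pi / 9) < 1 := by
      have := Real.cos_lt_cos_of_nonneg_of_le_pi (le_refl 0) (show 2 * Real.pi / 9 ≤ Real.pi by
        linarith) (show 0 < 2 * Real.pi / 9 by positivity)
      rwa [Real.cos_zero] at this
    have hc0 : 0 < Real.cos (2 * Real.pi / 9) :=
      Real.cos_pos_of_mem_Ioo ⟨by linarith, by linarith⟩
    nlinarith
  have key := main_aux lam h q hqq hq1.ne'
  have hk : kap q = (2 * Real.cosh (Real.pi * r / 3) - 1) ^ 2 *
      (2 * Real.cosh (Real.pi * r / 3) + 2) := by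
    rw [kap_eq, hG]
  rw [hk, hG, sc_cosh _ (by positivity)] at key
  have e : (Real.pi ^ 2 / 6 + 3 / 2 * (Real.pi * r / 3) ^ 2) / (2 * Real.pi) =
      Real.pi / 12 * (1 + r ^ 2) := by
    field_simp
    ring
  rwa [e] at key

end EP
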