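import Pool.Agent.Helper9.CQ.Final
import Pool.Agent.Helper86.EP.Main

/-! Large deviations of the number of the crossing clusters (module FINAL). -/

namespace EP
open Polynomial Filter Topology

theorem final : ∃ F : ℕ → ℝ → ℝ,
    (∀ L : ℕ, 1 ≤ L → ∀ q : ℝ, 0 < q →
      Tendsto (fun H : ℕ => Real.log (CQ.EQ q L H) / H) atTop (𝓝 (F L q))) ∧
    (∀ r : ℝ, 0 < r → r < 4 / 3 →
      Tendsto (fun L : ℕ => L * F L (4 / 3 * Real.cos (Real.pi * r / 6) ^ 2)) atTop
        (𝓝 (Real.pi / 24 * (1 - r ^ 2)))) ∧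
    (∀ r : ℝ, 0 ≤ r →
      Tendsto (fun L : ℕ => L * F L (4 / 3 * Real.cosh (Real.pi * r / 6) ^ 2)) atTop
        (𝓝 (Real.pi / 24 * (1 + r ^ 2)))) := by
  choose! lam hlam using CQ.fam
  refine ⟨fun L q => 1 / 2 * Real.log ((lam L q).eval 1 / (nu L).eval 1), ?_, ?_, ?_⟩
  · intro L hL q hq
    exact ((hlam L hL).2 q hq).2
  · intro r h0 h1
    have := (main_cos lam (fun L hL => (hlam L hL).1) r h0 h1).const_mul (1 / 2)
    have e : 1 / 2 * (Real.pi / 12 * (1 - r ^ 2)) = Real.pi / 24 * (1 - r ^ 2) := by ring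
    rw [e] at this
    refine this.congr fun L => ?_
    ring
  · intro r h0
    have := (main_cosh lam (fun L hL => (hlam L hL).1) r h0).const_mul (1 / 2)
    have e : 1 / 2 * (Real.pi / 12 * (1 + r ^ 2)) = Real.pi / 24 * (1 + r ^ 2) := by ring
    rw [e] at this
    refine this.congr fun L => ?_
    ring

end EP
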