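import Pool.Agent.Helper86.EP.Defs

/-! Sectors (module SECTOR). -/

namespace EP
open Complex

/-- the closed sector `|arg z| ≤ π / 6` -/
def Sec6 : Set ℂ := {z | Real.sqrt 3 * |z.im| ≤ z.re}

theorem Sec_closed : IsClosed Sec := by
  unfold Sec
  exact isClosed_le (continuous_abs.comp continuous_im) (continuous_const.mul continuous_re)

theorem Sec6_closed : IsClosed Sec6 := by
  unfold Sec6
  exact isClosed_le (continuous_const.mul (continuous_abs.comp continuous_im)) continuous_re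

theorem zero_mem_Sec : (0:ℂ) ∈ Sec := by simp [Sec]
theorem zero_mem_Sec6 : (0:ℂ) ∈ Sec6 := by simp [Sec6]

theorem sqrt3_sq : Real.sqrt 3 * Real.sqrt 3 = 3 := Real.mul_self_sqrt (by norm_num)
theorem sqrt3_pos : 0 < Real.sqrt 3 := Real.sqrt_pos.2 (by norm_num)

theorem w_exp : CC.w = exp ((Real.pi / 3 : ℝ) * I) := by
  rw [exp_mul_I]
  apply Complex.ext
  · rw [← ofReal_cos, ← ofReal_sin, Real.cos_pi_div_three, Real.sin_pi_div_three]
    simp [CC.w]
  · rw [← ofReal_cos, ← ofReal_sin, Real.cos_pi_div_three, Real.sin_pi_div_three]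
    simp [CC.w]

theorem Sec_re {z : ℂ} (hz : z ∈ Sec) : 0 ≤ z.re := by
  have h : |z.im| ≤ Real.sqrt 3 * z.re := hz
  have := abs_nonneg z.im
  have h3 := sqrt3_pos
  by_contra hneg
  push Not at hneg
  nlinarith

theorem Sec6_re {z : ℂ} (hz : z ∈ Sec6) : 0 ≤ z.re := by
  have h : Real.sqrt 3 * |z.im| ≤ z.re := hz
  have := abs_nonneg z.im
  have h3 := sqrt3_pos
  nlinarith

theorem conj_mem_Sec {z : ℂ} (hz : z ∈ Sec) : (starRingEnd ℂ) z ∈ Sec := by
  have h : |z.im| ≤ Real.sqrt 3 * z.re := hz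
  change |((starRingEnd ℂ) z).im| ≤ Real.sqrt 3 * ((starRingEnd ℂ) z).re
  rw [conj_im, conj_re, abs_neg]
  exact h

theorem conj_mem_Sec6 {z : ℂ} (hz : z ∈ Sec6) : (starRingEnd ℂ) z ∈ Sec6 := by
  have h : Real.sqrt 3 * |z.im| ≤ z.re := hz
  change Real.sqrt 3 * |((starRingEnd ℂ) z).im| ≤ ((starRingEnd ℂ) z).re
  rw [conj_im, conj_re, abs_neg]
  exact h

theorem exp_mem_Sec {x y : ℝ} (hy : |y| ≤ Real.pi / 3) : exp (x + y * I) ∈ Sec := by
  change |(exp (x + y * I)).im| ≤ Real.sqrt 3 * (exp (x + y * I)).re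
  have e1 : ((x:ℂ) + y * I).re = x := by simp
  have e2 : ((x:ℂ) + y * I).im = y := by simp
  rw [exp_im, exp_re, e1, e2, abs_mul, abs_of_pos (Real.exp_pos x)]
  have key : |Real.sin y| ≤ Real.sqrt 3 * Real.cos y := by
    rw [abs_le] at hy
    have hp := Real.pi_pos
    have s1 : 0 ≤ Real.sin (Real.pi / 3 - y) :=
      Real.sin_nonneg_of_nonneg_of_le_pi (by linarith) (by linarith)
    have s2 : 0 ≤ Real.sin (Real.pi / 3 + y) :=
      Real.sin_nonneg_of_nonneg_of_le_pi (by linarith) (by linarith)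
    rw [Real.sin_sub, Real.cos_pi_div_three, Real.sin_pi_div_three] at s1
    rw [Real.sin_add, Real.cos_pi_div_three, Real.sin_pi_div_three] at s2
    rw [abs_le]
    constructor <;> linarith
  have := mul_le_mul_of_nonneg_left key (Real.exp_pos x).le
  linarith

theorem exp_mem_Sec6 {x y : ℝ} (hy : |y| ≤ Real.pi / 6) : exp (x + y * I) ∈ Sec6 := by
  change Real.sqrt 3 * |(exp (x + y * I)).im| ≤ (exp (x + y * I)).re
  have e1 : ((x:ℂ) + y * I).re = x := by simp
  have e2 : ((x:ℂ) + y * I).im = y := by simp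
  rw [exp_im, exp_re, e1, e2, abs_mul, abs_of_pos (Real.exp_pos x)]
  have key : Real.sqrt 3 * |Real.sin y| ≤ Real.cos y := by
    rw [abs_le] at hy
    have hp := Real.pi_pos
    have s1 : 0 ≤ Real.sin (Real.pi / 6 - y) :=
      Real.sin_nonneg_of_nonneg_of_le_pi (by linarith) (by linarith)
    have s2 : 0 ≤ Real.sin (Real.pi / 6 + y) :=
      Real.sin_nonneg_of_nonneg_of_le_pi (by linarith) (by linarith)
    rw [Real.sin_sub, Real.cos_pi_div_six, Real.sin_pi_div_six] at s1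
    rw [Real.sin_add, Real.cos_pi_div_six, Real.sin_pi_div_six] at s2
    have : |Real.sin y| * Real.sqrt 3 ≤ Real.cos y := by
      rcases abs_cases (Real.sin y) with ⟨h, _⟩ | ⟨h, _⟩ <;> rw [h] <;> linarith
    linarith
  have := mul_le_mul_of_nonneg_left key (Real.exp_pos x).le
  linarith

/-- polar form of the points of the sector -/
theorem Sec_polar {z : ℂ} (hz : z ∈ Sec) (h0 : z ≠ 0) :
    ∃ x y : ℝ, |y| ≤ Real.pi / 3 ∧ z = exp (x + y * I) := by
  refine ⟨Real.log ‖z‖, z.arg, ?_, ?_⟩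
  · have hre := Sec_re hz
    have harg : |z.arg| ≤ Real.pi / 2 := Complex.abs_arg_le_pi_div_two_iff.2 hre
    have h : |z.im| ≤ Real.sqrt 3 * z.re := hz
    have hn : 0 < ‖z‖ := norm_pos_iff.2 h0
    have e1 : z.re = ‖z‖ * Real.cos z.arg := (Complex.norm_mul_cos_arg z).symm
    have e2 : z.im = ‖z‖ * Real.sin z.arg := (Complex.norm_mul_sin_arg z).symm
    rw [e1, e2, abs_mul, abs_of_pos hn] at h
    have h' : |Real.sin z.arg| ≤ Real.sqrt 3 * Real.cos z.arg := by
      have : ‖z‖ * |Real.sin z.arg| ≤ ‖z‖ * (Real.sqrt 3 * Real.cos z.arg) := by linarith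
      exact le_of_mul_le_mul_left this hn
    have hp := Real.pi_pos
    rw [abs_le] at harg h' ⊢
    constructor
    · by_contra hc
      push Not at hc
      have : Real.sin (Real.pi / 3 + z.arg) < 0 :=
        Real.sin_neg_of_neg_of_neg_pi_lt (by linarith) (by linarith)
      rw [Real.sin_add, Real.cos_pi_div_three, Real.sin_pi_div_three] at this
      linarith [h'.1]
    · by_contra hc
      push Not at hc
      have : Real.sin (Real.pi / 3 - z.arg) < 0 :=
        Real.sin_neg_of_neg_of_neg_pi_lt (by linarith) (by linarith)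
      rw [Real.sin_sub, Real.cos_pi_div_three, Real.sin_pi_div_three] at this
      linarith [h'.2]
  · rw [Complex.exp_add, ← ofReal_exp, Real.exp_log (norm_pos_iff.2 h0), norm_mul_exp_arg_mul_I]

theorem Sec6_polar {z : ℂ} (hz : z ∈ Sec6) (h0 : z ≠ 0) :
    ∃ x y : ℝ, |y| ≤ Real.pi / 6 ∧ z = exp (x + y * I) := by
  refine ⟨Real.log ‖z‖, z.arg, ?_, ?_⟩
  · have hre := Sec6_re hz
    have harg : |z.arg| ≤ Real.pi / 2 := Complex.abs_arg_le_pi_div_two_iff.2 hre
    have h : Real.sqrt 3 * |z.im| ≤ z.re := hz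
    have hn : 0 < ‖z‖ := norm_pos_iff.2 h0
    have e1 : z.re = ‖z‖ * Real.cos z.arg := (Complex.norm_mul_cos_arg z).symm
    have e2 : z.im = ‖z‖ * Real.sin z.arg := (Complex.norm_mul_sin_arg z).symm
    rw [e1, e2, abs_mul, abs_of_pos hn] at h
    have h' : Real.sqrt 3 * |Real.sin z.arg| ≤ Real.cos z.arg := by
      have : ‖z‖ * (Real.sqrt 3 * |Real.sin z.arg|) ≤ ‖z‖ * Real.cos z.arg := by linarith
      exact le_of_mul_le_mul_left this hn
    have hp := Real.pi_pos
    have h3 := sqrt3_pos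
    have a1 := le_abs_self (Real.sin z.arg)
    have a2 := neg_abs_le (Real.sin z.arg)
    have b1 : Real.sqrt 3 * Real.sin z.arg ≤ Real.cos z.arg := by nlinarith
    have b2 : -(Real.sqrt 3 * Real.sin z.arg) ≤ Real.cos z.arg := by nlinarith
    rw [abs_le] at harg ⊢
    constructor
    · by_contra hc
      push Not at hc
      have : Real.sin (Real.pi / 6 + z.arg) < 0 :=
        Real.sin_neg_of_neg_of_neg_pi_lt (by linarith) (by linarith)
      rw [Real.sin_add, Real.cos_pi_div_six, Real.sin_pi_div_six] at this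
      linarith
    · by_contra hc
      push Not at hc
      have : Real.sin (Real.pi / 6 - z.arg) < 0 :=
        Real.sin_neg_of_neg_of_neg_pi_lt (by linarith) (by linarith)
      rw [Real.sin_sub, Real.cos_pi_div_six, Real.sin_pi_div_six] at this
      linarith
  · rw [Complex.exp_add, ← ofReal_exp, Real.exp_log (norm_pos_iff.2 h0), norm_mul_exp_arg_mul_I]

theorem sq_mem_Sec {z : ℂ} (hz : z ∈ Sec6) : z ^ 2 ∈ Sec := by
  by_cases h0 : z = 0
  · rw [h0, zero_pow (by norm_num)]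
    exact zero_mem_Sec
  obtain ⟨x, y, hy, rfl⟩ := Sec6_polar hz h0
  rw [← Complex.exp_nat_mul]
  have e : ((2:ℕ):ℂ) * ((x:ℂ) + y * I) = ((2 * x : ℝ) : ℂ) + ((2 * y : ℝ) : ℂ) * I := by
    push_cast; ring
  rw [e]
  refine exp_mem_Sec ?_
  rw [abs_mul, abs_of_pos (by norm_num : (0:ℝ) < 2)]
  linarith

theorem Sec_sqrt {z : ℂ} (hz : z ∈ Sec) : ∃ u ∈ Sec6, u ^ 2 = z := by
  by_cases h0 : z = 0
  · exact ⟨0, zero_mem_Sec6, by rw [h0, zero_pow (by norm_num)]⟩
  obtain ⟨x, y, hy, rfl⟩ := Sec_polar hz h0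
  refine ⟨exp ((x / 2 : ℝ) + (y / 2 : ℝ) * I), exp_mem_Sec6 ?_, ?_⟩
  · rw [abs_div, abs_of_pos (by norm_num : (0:ℝ) < 2)]
    linarith
  · rw [← Complex.exp_nat_mul]
    congr 1
    push_cast
    ring

end EP
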