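import Pool.Agent.Helper86.EP.Closure
import Pool.Agent.Helper86.EP.RootCont
import Pool.Agent.Helper86.EP.Sector

/-! Maximum principle (module MAXPR). -/

namespace EP
open Polynomial Filter Topology

theorem max_sec6 (P R : ℂ[X]) (hd : P.natDegree ≤ R.natDegree) (hR : ∀ z ∈ Sec6, R.eval z ≠ 0)
    (B : ℝ) (hB : ∀ x : ℝ, ∀ σ : ℝ, (σ = 1 ∨ σ = -1) →
      ‖P.eval (Complex.exp (x + σ * (Real.pi / 6) * Complex.I))‖ ≤
        B * ‖R.eval (Complex.exp (x + σ * (Real.pi / 6) * Complex.I))‖) :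
    ∀ z ∈ Sec6, ‖P.eval z‖ ≤ B * ‖R.eval z‖ := by
  obtain ⟨c, hc, hcb⟩ := ratio_bound P R 0 (by simpa using hd) Sec6 Sec6_closed hR
  have hpi := Real.pi_pos
  set f : ℂ → ℂ := fun s => P.eval (Complex.exp s) / R.eval (Complex.exp s) with hf
  have hmem : ∀ s : ℂ, |s.im| ≤ Real.pi / 6 → Complex.exp s ∈ Sec6 := by
    intro s hs
    have := exp_mem_Sec6 (x := s.re) (y := s.im) hs
    rwa [Complex.re_add_im] at this
  have hRs : ∀ s : ℂ, |s.im| ≤ Real.pi / 6 → R.eval (Complex.exp s) ≠ 0 := fun s hs =>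
    hR _ (hmem s hs)
  have hfb : ∀ s : ℂ, |s.im| ≤ Real.pi / 6 → ‖f s‖ ≤ c := by
    intro s hs
    rw [hf]
    simp only
    rw [norm_div, div_le_iff₀ (norm_pos_iff.2 (hRs s hs))]
    have := hcb _ (hmem s hs)
    rwa [pow_zero, mul_one] at this
  have hPe : Differentiable ℂ fun s : ℂ => P.eval (Complex.exp s) :=
    P.differentiable.comp Complex.differentiable_exp
  have hRe : Differentiable ℂ fun s : ℂ => R.eval (Complex.exp s) :=
    R.differentiable.comp Complex.differentiable_exp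
  have hdiff : ∀ s : ℂ, |s.im| ≤ Real.pi / 6 → DifferentiableAt ℂ f s := by
    intro s hs
    exact (hPe s).div (hRe s) (hRs s hs)
  have hstrip : ∀ s : ℂ, -(Real.pi / 6) ≤ s.im → s.im ≤ Real.pi / 6 → ‖f s‖ ≤ B := by
    intro s h1 h2
    refine PhragmenLindelof.horizontal_strip (a := -(Real.pi / 6)) (b := Real.pi / 6) ?_ ?_ ?_ ?_ h1 h2
    · have hcl : _root_.closure (Complex.im ⁻¹' Set.Ioo (-(Real.pi / 6)) (Real.pi / 6)) ⊆
          {s : ℂ | |s.im| ≤ Real.pi / 6} := by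
        refine closure_minimal (fun s hs => ?_)
          (isClosed_le (continuous_abs.comp Complex.continuous_im) continuous_const)
        exact abs_le.2 ⟨hs.1.le, hs.2.le⟩
      constructor
      · intro s hs
        exact (hdiff s (abs_le.2 ⟨hs.1.le, hs.2.le⟩)).differentiableWithinAt
      · intro s hs
        exact (hdiff s (hcl hs)).continuousAt.continuousWithinAt
    · refine ⟨0, by rw [sub_neg_eq_add]; positivity, 0, ?_⟩
      refine Asymptotics.IsBigO.of_bound c ?_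
      rw [eventually_inf_principal]
      refine Eventually.of_forall fun s hs => ?_
      rw [zero_mul, Real.exp_zero, norm_one, mul_one]
      exact hfb s (abs_le.2 ⟨hs.1.le, hs.2.le⟩)
    · intro s hs
      have h3 := hB s.re (-1) (Or.inr rfl)
      have e : (s.re : ℂ) + ((-1 : ℝ) : ℂ) * (Real.pi / 6) * Complex.I = s := by
        apply Complex.ext
        · simp
        · simp only [Complex.add_im, Complex.ofReal_im, zero_add, Complex.mul_im, Complex.mul_re,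
            Complex.I_re, Complex.I_im]
          rw [hs]
          simp
      rw [e] at h3
      have hs' : |s.im| ≤ Real.pi / 6 := by
        rw [hs, abs_neg, abs_of_pos (by positivity)]
      rw [hf]
      simp only
      rwa [norm_div, div_le_iff₀ (norm_pos_iff.2 (hRs s hs'))]
    · intro s hs
      have h3 := hB s.re 1 (Or.inl rfl)
      have e : (s.re : ℂ) + ((1 : ℝ) : ℂ) * (Real.pi / 6) * Complex.I = s := by
        apply Complex.ext
        · simp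
        · simp only [Complex.add_im, Complex.ofReal_im, zero_add, Complex.mul_im, Complex.mul_re,
            Complex.I_re, Complex.I_im]
          rw [hs]
          simp
      rw [e] at h3
      have hs' : |s.im| ≤ Real.pi / 6 := by
        rw [hs, abs_of_pos (by positivity)]
      rw [hf]
      simp only
      rwa [norm_div, div_le_iff₀ (norm_pos_iff.2 (hRs s hs'))]
  have hnz : ∀ z ∈ Sec6, z ≠ 0 → ‖P.eval z‖ ≤ B * ‖R.eval z‖ := by
    intro z hz h0
    obtain ⟨x, y, hy, rfl⟩ := Sec6_polar hz h0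
    have him : ((x : ℂ) + y * Complex.I).im = y := by simp
    have h1 := hstrip ((x : ℂ) + y * Complex.I) (by rw [him]; exact (abs_le.1 hy).1)
      (by rw [him]; exact (abs_le.1 hy).2)
    rw [hf] at h1
    simp only at h1
    rwa [norm_div, div_le_iff₀ (norm_pos_iff.2 (hR _ hz))] at h1
  intro z hz
  by_cases h0 : z = 0
  · subst h0
    have h1 : Tendsto (fun x : ℝ => (x : ℂ)) (𝓝[>] 0) (𝓝 0) := by
      have : Tendsto (fun x : ℝ => (x : ℂ)) (𝓝 0) (𝓝 ((0 : ℝ) : ℂ)) :=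
        Complex.continuous_ofReal.tendsto 0
      exact this.mono_left nhdsWithin_le_nhds
    have h2 : Tendsto (fun x : ℝ => ‖P.eval (x : ℂ)‖) (𝓝[>] 0) (𝓝 ‖P.eval 0‖) :=
      ((P.continuous.tendsto 0).comp h1).norm
    have h3 : Tendsto (fun x : ℝ => B * ‖R.eval (x : ℂ)‖) (𝓝[>] 0) (𝓝 (B * ‖R.eval 0‖)) :=
      (((R.continuous.tendsto 0).comp h1).norm).const_mul B
    refine le_of_tendsto_of_tendsto h2 h3 ?_
    filter_upwards [self_mem_nhdsWithin] with x hx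
    have hx0 : (0 : ℝ) < x := hx
    refine hnz _ ?_ (by exact_mod_cast hx0.ne')
    show Real.sqrt 3 * |(x : ℂ).im| ≤ (x : ℂ).re
    rw [Complex.ofReal_im, Complex.ofReal_re, abs_zero, mul_zero]
    exact hx0.le
  · exact hnz z hz h0

/-- the boundary rays -/
theorem bdry_sq (x : ℝ) : Complex.exp (x + (1 : ℝ) * (Real.pi / 6) * Complex.I) ^ 2 =
    CC.w * Real.exp (2 * x) := by
  rw [w_exp, ← Complex.exp_nat_mul, Complex.ofReal_exp, ← Complex.exp_add]
  congr 1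
  push_cast
  ring

theorem bdry_conj (x : ℝ) : Complex.exp (x + (-1 : ℝ) * (Real.pi / 6) * Complex.I) =
    (starRingEnd ℂ) (Complex.exp (x + (1 : ℝ) * (Real.pi / 6) * Complex.I)) := by
  rw [← Complex.exp_conj]
  congr 1
  simp [Complex.conj_ofNat]

theorem norm_aeval_conj (p : ℝ[X]) (z : ℂ) : ‖aeval ((starRingEnd ℂ) z) p‖ = ‖aeval z p‖ := by
  rw [aeval_conj', Complex.norm_conj]

theorem nu_natDegree (L : ℕ) : (nu L).natDegree = 2 * L + 2 := by
  have h1 : (1 + X : ℝ[X]) ≠ 0 := by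
    intro h
    have := congrArg (eval 0) h
    simp at this
  have h2 : (X ^ 2 + X + 1 : ℝ[X]) ≠ 0 := by
    intro h
    have := congrArg (eval 0) h
    simp at this
  have h3 : (1 + X : ℝ[X]).natDegree = 1 := by compute_degree!
  have h4 : (X ^ 2 + X + 1 : ℝ[X]).natDegree = 2 := by compute_degree!
  unfold nu
  rw [natDegree_mul (pow_ne_zero _ h1) h2, natDegree_pow, h3, h4, mul_one]

theorem nu_ne_zero {L : ℕ} {z : ℂ} (hz : z ∈ Sec) : aeval z (nu L) ≠ 0 := by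
  have hre := Sec_re hz
  have him : |z.im| ≤ Real.sqrt 3 * z.re := hz
  rw [nu_eval]
  refine mul_ne_zero (pow_ne_zero _ ?_) ?_
  · intro h
    have := congrArg Complex.re h
    simp at this
    linarith
  · intro h
    have h1 := congrArg Complex.re h
    have h2 := congrArg Complex.im h
    simp only [pow_two, Complex.add_re, Complex.mul_re, Complex.one_re, Complex.zero_re] at h1
    simp only [pow_two, Complex.add_im, Complex.mul_im, Complex.one_im, Complex.zero_im] at h2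
    have h3 : z.im * (2 * z.re + 1) = 0 := by linarith
    have h4 : z.im = 0 := by
      rcases mul_eq_zero.1 h3 with h | h
      · exact h
      · linarith
    rw [h4] at h1
    nlinarith

/-- squared argument -/
noncomputable def sqp (p : ℝ[X]) : ℂ[X] := (p.map (algebraMap ℝ ℂ)).comp (X ^ 2)

theorem sqp_eval (p : ℝ[X]) (z : ℂ) : (sqp p).eval z = aeval (z ^ 2) p := by
  unfold sqp
  rw [eval_comp, eval_map_algebraMap, eval_pow, eval_X]

theorem sqp_natDegree (p : ℝ[X]) : (sqp p).natDegree = p.natDegree * 2 := by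
  unfold sqp
  rw [natDegree_comp, natDegree_X_pow, natDegree_map]

theorem norm_sqp_bdry (p : ℝ[X]) (x σ : ℝ) (hσ : σ = 1 ∨ σ = -1) :
    ‖(sqp p).eval (Complex.exp (x + σ * (Real.pi / 6) * Complex.I))‖ =
      ‖aeval (CC.w * Real.exp (2 * x)) p‖ := by
  rcases hσ with rfl | rfl
  · rw [sqp_eval, bdry_sq]
  · rw [sqp_eval, bdry_conj, ← map_pow, norm_aeval_conj, bdry_sq]

theorem w_mul_mem (x : ℝ) : CC.w * Real.exp (2 * x) ∈ Sec := by
  rw [w_exp, Complex.ofReal_exp, ← Complex.exp_add]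
  have := exp_mem_Sec (x := 2 * x) (y := Real.pi / 3) (by
    rw [abs_of_pos (by have := Real.pi_pos; positivity)])
  rwa [add_comm] at this

theorem yx_eq (L : ℕ) (p : ℝ[X]) (x : ℝ) : ‖aeval (CC.w * Real.exp (2 * x)) p‖ ^ 2 =
    (yx L p x + 1) * ‖aeval (CC.w * Real.exp (2 * x)) (nu L)‖ ^ 2 := by
  have h1 : ‖aeval (CC.w * Real.exp (2 * x)) (nu L)‖ ^ 2 ≠ 0 :=
    pow_ne_zero _ (norm_ne_zero_iff.2 (nu_ne_zero (w_mul_mem x)))
  unfold yx
  rw [sub_add_cancel, div_mul_cancel₀ _ h1]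

/-- upper bound for `g` -/
theorem mp1 {L : ℕ} {q : ℝ} {p : ℝ[X]} (h : Sol L q p) (B : ℝ) (hB0 : 0 ≤ B)
    (hB : ∀ x, yx L p x ≤ B ^ 2 - 1) :
    ∀ z ∈ Sec, ‖aeval z p‖ ≤ B * ‖aeval z (nu L)‖ := by
  intro z hz
  obtain ⟨u, hu, rfl⟩ := Sec_sqrt hz
  have key := max_sec6 (sqp p) (sqp (nu L)) (by
    rw [sqp_natDegree, sqp_natDegree, nu_natDegree]
    exact Nat.mul_le_mul_right _ h.deg) (fun z hz => by
    rw [sqp_eval]
    exact nu_ne_zero (sq_mem_Sec hz)) B (fun x σ hσ => by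
    rw [norm_sqp_bdry _ _ _ hσ, norm_sqp_bdry _ _ _ hσ]
    refine le_of_sq_le_sq ?_ (by positivity)
    rw [mul_pow, yx_eq]
    refine mul_le_mul_of_nonneg_right ?_ (by positivity)
    linarith [hB x]) u hu
  rwa [sqp_eval, sqp_eval] at key

/-- lower bound for `g` -/
theorem mp1' {L : ℕ} {q : ℝ} {p : ℝ[X]} (h : Sol L q p) (hq : 2 / 3 < q)
    (hp : ∀ z ∈ Sec, aeval z p ≠ 0) (m : ℝ) (hm0 : 0 < m)
    (hm : ∀ x, m ^ 2 - 1 ≤ yx L p x) :
    ∀ z ∈ Sec, m * ‖aeval z (nu L)‖ ≤ ‖aeval z p‖ := by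
  intro z hz
  obtain ⟨u, hu, rfl⟩ := Sec_sqrt hz
  have hpd : 2 * L + 2 ≤ p.natDegree := by
    refine le_natDegree_of_ne_zero ?_
    have := h.pal 0 (Nat.zero_le _)
    rw [Nat.sub_zero, h.zero] at this
    rw [this]
    linarith
  have key := max_sec6 (sqp (nu L)) (sqp p) (by
    rw [sqp_natDegree, sqp_natDegree, nu_natDegree]
    exact Nat.mul_le_mul_right _ hpd) (fun z hz => by
    rw [sqp_eval]
    exact hp _ (sq_mem_Sec hz)) m⁻¹ (fun x σ hσ => by
    rw [norm_sqp_bdry _ _ _ hσ, norm_sqp_bdry _ _ _ hσ]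
    rw [inv_mul_eq_div, le_div_iff₀ hm0]
    refine le_of_sq_le_sq ?_ (by positivity)
    rw [mul_pow, yx_eq L p]
    have h1 : m ^ 2 ≤ yx L p x + 1 := by linarith [hm x]
    have h2 := mul_le_mul_of_nonneg_right h1
      (sq_nonneg ‖aeval (CC.w * Real.exp (2 * x)) (nu L)‖)
    linarith) u hu
  rw [sqp_eval, sqp_eval, inv_mul_eq_div, le_div_iff₀ hm0] at key
  linarith

/-! ### the bound for `y` -/

theorem Yp_eq {L : ℕ} {q : ℝ} {p : ℝ[X]} (h : Sol L q p) :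
    Yp L p = (X - C 1) ^ (2 * L + 2) * Qp L p := by
  obtain ⟨c, hc⟩ := h.fus
  have hm : ((X - C 1 : ℂ[X]) ^ (2 * L + 2)).Monic := (monic_X_sub_C 1).pow _
  unfold Qp
  rw [hc, mul_divByMonic_cancel_left _ hm]

theorem Qp_deg_sol {L : ℕ} {q : ℝ} {p : ℝ[X]} (h : Sol L q p) :
    (Qp L p).natDegree ≤ 2 * L + 2 := by
  have hm : ((X - C 1 : ℂ[X]) ^ (2 * L + 2)).Monic := (monic_X_sub_C 1).pow _
  have hY : (Yp L p).natDegree ≤ 2 * (2 * L + 2) := by
    unfold Yp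
    refine (natDegree_sub_le _ _).trans (max_le ?_ ?_)
    · have h1 := natDegree_mul_le (p := rot CC.w p) (q := rot (1 - CC.w) p)
      have h2 := (rot_deg CC.w p).trans h.deg
      have h3 := (rot_deg (1 - CC.w) p).trans h.deg
      omega
    · have h1 := natDegree_mul_le (p := rot CC.w (nu L)) (q := rot (1 - CC.w) (nu L))
      have h2 := (rot_deg CC.w (nu L)).trans (nu_deg L)
      have h3 := (rot_deg (1 - CC.w) (nu L)).trans (nu_deg L)
      omega
  unfold Qp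
  rw [natDegree_divByMonic _ hm, natDegree_pow, natDegree_X_sub_C]
  omega

/-- numerator of `y / (t ^ N h)` in the variable `e ^ s` -/
noncomputable def yP (L : ℕ) (p : ℝ[X]) : ℂ[X] :=
  (Qp L p).comp (X ^ 2) * (X + 1) ^ (2 * L + 2) * (X ^ 3 + 1) ^ (2 * L)

/-- denominator of `y / (t ^ N h)` in the variable `e ^ s` -/
noncomputable def yR (L : ℕ) : ℂ[X] :=
  (X ^ 2 + X + 1) ^ (2 * L + 2) * (1 + X ^ 2 + X ^ 4) ^ (2 * L) * (X ^ 2 + 1)

theorem yP_eval (L : ℕ) (p : ℝ[X]) (u : ℂ) : (yP L p).eval u =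
    (Qp L p).eval (u ^ 2) * (u + 1) ^ (2 * L + 2) * (u ^ 3 + 1) ^ (2 * L) := by
  simp [yP, eval_comp]

theorem yR_eval (L : ℕ) (u : ℂ) : (yR L).eval u =
    (u ^ 2 + u + 1) ^ (2 * L + 2) * (1 + u ^ 2 + u ^ 4) ^ (2 * L) * (u ^ 2 + 1) := by
  simp [yR]

theorem yR_natDegree (L : ℕ) : (yR L).natDegree = 12 * L + 6 := by
  have n1 : (X ^ 2 + X + 1 : ℂ[X]) ≠ 0 := by
    intro h
    have := congrArg (eval 0) h
    simp at this
  have n2 : (1 + X ^ 2 + X ^ 4 : ℂ[X]) ≠ 0 := by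
    intro h
    have := congrArg (eval 0) h
    simp at this
  have n3 : (X ^ 2 + 1 : ℂ[X]) ≠ 0 := by
    intro h
    have := congrArg (eval 0) h
    simp at this
  have h1 : (X ^ 2 + X + 1 : ℂ[X]).natDegree = 2 := by compute_degree!
  have h2 : (1 + X ^ 2 + X ^ 4 : ℂ[X]).natDegree = 4 := by compute_degree!
  have h3 : (X ^ 2 + 1 : ℂ[X]).natDegree = 2 := by compute_degree!
  unfold yR
  rw [natDegree_mul (mul_ne_zero (pow_ne_zero _ n1) (pow_ne_zero _ n2)) n3,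
    natDegree_mul (pow_ne_zero _ n1) (pow_ne_zero _ n2), natDegree_pow, natDegree_pow, h1, h2, h3]
  ring

theorem yP_deg {L : ℕ} {q : ℝ} {p : ℝ[X]} (h : Sol L q p) :
    (yP L p).natDegree ≤ 12 * L + 6 := by
  have h1 : ((Qp L p).comp (X ^ 2)).natDegree ≤ (2 * L + 2) * 2 := by
    rw [natDegree_comp, natDegree_X_pow]
    exact Nat.mul_le_mul_right _ (Qp_deg_sol h)
  have h2 : ((X + 1 : ℂ[X]) ^ (2 * L + 2)).natDegree ≤ (2 * L + 2) * 1 :=
    natDegree_pow_le_of_le _ (by compute_degree)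
  have h3 : ((X ^ 3 + 1 : ℂ[X]) ^ (2 * L)).natDegree ≤ (2 * L) * 3 :=
    natDegree_pow_le_of_le _ (by compute_degree)
  unfold yP
  have h4 := natDegree_mul_le (p := (Qp L p).comp (X ^ 2) * (X + 1) ^ (2 * L + 2))
    (q := (X ^ 3 + 1 : ℂ[X]) ^ (2 * L))
  have h5 := natDegree_mul_le (p := (Qp L p).comp (X ^ 2)) (q := (X + 1 : ℂ[X]) ^ (2 * L + 2))
  omega

theorem yR_ne_zero {L : ℕ} {u : ℂ} (hu : u ∈ Sec6) : (yR L).eval u ≠ 0 := by
  have hre := Sec6_re hu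
  have him : Real.sqrt 3 * |u.im| ≤ u.re := hu
  have h3 := sqrt3_sq
  have h3p := sqrt3_pos
  have hsq : 3 * u.im ^ 2 ≤ u.re ^ 2 := by
    have h4 : (Real.sqrt 3 * |u.im|) ^ 2 ≤ u.re ^ 2 := by
      have := mul_nonneg h3p.le (abs_nonneg u.im)
      gcongr
    rw [mul_pow, sq_abs, pow_two (Real.sqrt 3), h3] at h4
    exact h4
  have e4 : 1 + u ^ 2 + u ^ 4 = (u ^ 2 + u + 1) * (u ^ 2 - u + 1) := by ring
  rw [yR_eval, e4]
  have a1 : u ^ 2 + u + 1 ≠ 0 := by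
    intro h
    have h1 := congrArg Complex.re h
    simp only [pow_two, Complex.add_re, Complex.mul_re, Complex.one_re, Complex.zero_re] at h1
    nlinarith
  have a2 : u ^ 2 - u + 1 ≠ 0 := by
    intro h
    have h1 := congrArg Complex.re h
    have h2 := congrArg Complex.im h
    simp only [pow_two, Complex.add_re, Complex.sub_re, Complex.mul_re, Complex.one_re,
      Complex.zero_re] at h1
    simp only [pow_two, Complex.add_im, Complex.sub_im, Complex.mul_im, Complex.one_im,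
      Complex.zero_im] at h2
    have h5 : u.im * (2 * u.re - 1) = 0 := by linarith
    rcases mul_eq_zero.1 h5 with h6 | h6
    · rw [h6] at h1
      nlinarith [sq_nonneg (u.re - 1 / 2)]
    · have h7 : u.re = 1 / 2 := by linarith
      rw [h7] at h1 hsq
      nlinarith
  have a3 : u ^ 2 + 1 ≠ 0 := by
    intro h
    have h1 := congrArg Complex.re h
    simp only [pow_two, Complex.add_re, Complex.mul_re, Complex.one_re, Complex.zero_re] at h1
    nlinarith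
  exact mul_ne_zero (mul_ne_zero (pow_ne_zero _ a1) (pow_ne_zero _ (mul_ne_zero a1 a2))) a3

/-- conjugation symmetry of `Yp` -/
theorem Yp_conj (L : ℕ) (p : ℝ[X]) (z : ℂ) :
    (Yp L p).eval ((starRingEnd ℂ) z) = (starRingEnd ℂ) ((Yp L p).eval z) := by
  have e1 : CC.w * (starRingEnd ℂ) z = (starRingEnd ℂ) ((1 - CC.w) * z) := by
    rw [map_mul, map_sub, map_one, conj_w]; ring
  have e2 : (1 - CC.w) * (starRingEnd ℂ) z = (starRingEnd ℂ) (CC.w * z) := by
    rw [map_mul, conj_w]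
  rw [Yp_eval, Yp_eval, e1, e2, aeval_conj', aeval_conj', aeval_conj', aeval_conj', map_sub,
    map_mul, map_mul]
  ring

/-- the modulus of `Yp` on the ray `arg = π / 3` -/
theorem norm_Yp_ray {L : ℕ} {q : ℝ} {p : ℝ[X]} (h : Sol L q p) (z : ℝ) :
    ‖(Yp L p).eval (CC.w * z)‖ ^ 2 =
      (p.eval z - (nu L).eval z) ^ 2 * ‖aeval (CC.w ^ 2 * z) (nu L)‖ ^ 2 +
        kap q * p.eval z * (1 + z ^ 3) ^ (2 * L + 2) := by
  have h1 := y2 h (z : ℂ)
  have e1 : ((1 - CC.w) * (z : ℂ)) = (starRingEnd ℂ) (CC.w * z) := by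
    rw [map_mul, conj_w, Complex.conj_ofReal]
  have e2 : -(CC.w * (z : ℂ)) = (starRingEnd ℂ) (CC.w ^ 2 * z) := by
    rw [map_mul, map_pow, conj_w, Complex.conj_ofReal]
    have := w_sq
    have e3 : (1 - CC.w) ^ 2 = -CC.w := by linear_combination this
    rw [e3]; ring
  have er : ∀ r : ℝ[X], aeval (z : ℂ) r = ((r.eval z : ℝ) : ℂ) := by
    intro r
    have := aeval_algebraMap_apply ℂ z r
    simpa using this
  rw [e1, Yp_conj, Complex.mul_conj, e2, aeval_conj', Complex.mul_conj, er, er,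
    Complex.normSq_eq_norm_sq, Complex.normSq_eq_norm_sq] at h1
  exact_mod_cast h1

theorem tanh_exp (y : ℝ) : Real.tanh y = (Real.exp (2 * y) - 1) / (Real.exp (2 * y) + 1) := by
  have h1 := Real.exp_pos y
  have h2 : Real.exp (2 * y) = Real.exp y * Real.exp y := by rw [← Real.exp_add]; congr 1; ring
  rw [Real.tanh_eq_sinh_div_cosh, Real.sinh_eq, Real.cosh_eq, Real.exp_neg, h2]
  field_simp

theorem aeval_ofReal' (r : ℝ[X]) (z : ℝ) : aeval (z : ℂ) r = ((r.eval z : ℝ) : ℂ) := by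
  have := aeval_algebraMap_apply ℂ z r
  simpa using this

theorem nu_real (L : ℕ) (z : ℝ) : (nu L).eval z = (1 + z) ^ (2 * L) * (z ^ 2 + z + 1) := by
  simp [nu]

theorem nu_real_pos (L : ℕ) {z : ℝ} (hz : 0 ≤ z) : 0 < (nu L).eval z := by
  rw [nu_real]; positivity

/-- `ν(z) |ν(w² z)|² = (1 + z³)^(2L) (1 - z³)²` -/
theorem nu_prod_real (L : ℕ) (z : ℝ) :
    (nu L).eval z * ‖aeval (CC.w ^ 2 * z) (nu L)‖ ^ 2 = (1 + z ^ 3) ^ (2 * L) * (1 - z ^ 3) ^ 2 := by
  have h1 := nu_prod L (z : ℂ)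
  have e2 : -(CC.w * (z : ℂ)) = (starRingEnd ℂ) (CC.w ^ 2 * z) := by
    rw [map_mul, map_pow, conj_w, Complex.conj_ofReal]
    have := w_sq
    have e3 : (1 - CC.w) ^ 2 = -CC.w := by linear_combination this
    rw [e3]; ring
  rw [e2, aeval_conj', mul_assoc, Complex.mul_conj, aeval_ofReal', Complex.normSq_eq_norm_sq] at h1
  exact_mod_cast h1

theorem norm_sq_w (z : ℝ) : ‖CC.w * (z : ℂ) + 1‖ ^ 2 = z ^ 2 + z + 1 := by
  rw [← Complex.normSq_eq_norm_sq, Complex.normSq_apply]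
  have h3 := sqrt3_sq
  simp only [CC.w, Complex.add_re, Complex.add_im, Complex.mul_re, Complex.mul_im,
    Complex.ofReal_re, Complex.ofReal_im, Complex.one_re, Complex.one_im]
  nlinarith

theorem norm_sq_w2 (z : ℝ) : ‖1 + CC.w * (z : ℂ) + (CC.w * z) ^ 2‖ ^ 2 =
    (z ^ 3 + 1) * (z + 1) := by
  have e : 1 + CC.w * (z : ℂ) + (CC.w * z) ^ 2 =
      (((1 + z / 2 - z ^ 2 / 2 : ℝ) : ℂ)) + ((Real.sqrt 3 / 2 * (z + z ^ 2) : ℝ) : ℂ) *
        Complex.I := by
    have hw := w_sq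
    have e1 : (CC.w * (z : ℂ)) ^ 2 = (CC.w - 1) * z ^ 2 := by rw [mul_pow, hw]
    rw [e1]
    apply Complex.ext
    · simp [CC.w, pow_two]; ring
    · simp [CC.w, pow_two]; ring
  rw [e, ← Complex.normSq_eq_norm_sq, Complex.normSq_add_mul_I, mul_pow, div_pow,
    pow_two (Real.sqrt 3), sqrt3_sq]
  ring

theorem bdry_cube (x : ℝ) : Complex.exp (x + (1 : ℝ) * (Real.pi / 6) * Complex.I) ^ 3 =
    Real.exp (3 * x) * Complex.I := by
  have e : Complex.I = Complex.exp (((Real.pi / 2 : ℝ) : ℂ) * Complex.I) := by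
    rw [Complex.exp_mul_I, ← Complex.ofReal_cos, ← Complex.ofReal_sin, Real.cos_pi_div_two,
      Real.sin_pi_div_two]
    simp
  conv_rhs => rw [e]
  rw [← Complex.exp_nat_mul, Complex.ofReal_exp, ← Complex.exp_add]
  congr 1
  push_cast
  ring

/-- the ratio on the boundary -/
theorem yP_bdry {L : ℕ} {q : ℝ} {p : ℝ[X]} (h : Sol L q p) (x : ℝ) :
    ‖(yP L p).eval (Complex.exp (x + (1 : ℝ) * (Real.pi / 6) * Complex.I))‖ ^ 2 =
      ((1 - gx L p x) ^ 2 * Real.tanh (3 * x) ^ 2 + kap q * gx L p x) *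
      ‖(yR L).eval (Complex.exp (x + (1 : ℝ) * (Real.pi / 6) * Complex.I))‖ ^ 2 := by
  set u := Complex.exp (x + (1 : ℝ) * (Real.pi / 6) * Complex.I) with hu
  set z := Real.exp (2 * x) with hz
  have hz0 : 0 < z := Real.exp_pos _
  have hu2 : u ^ 2 = CC.w * z := bdry_sq x
  have hu3 : u ^ 3 = Real.exp (3 * x) * Complex.I := bdry_cube x
  have hE : Real.exp (3 * x) ^ 2 = z ^ 3 := by
    rw [hz, ← Real.exp_nat_mul, ← Real.exp_nat_mul]
    congr 1
    push_cast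
    ring
  have hnu := nu_real_pos L hz0.le
  have hZ : 0 < 1 + z ^ 3 := by positivity
  have hu1 : u - 1 ≠ 0 := by
    intro h0
    have h1 : u = 1 := by linear_combination h0
    have h2 : CC.w * (z : ℂ) = 1 := by rw [← hu2, h1, one_pow]
    have h3 := congrArg Complex.im h2
    simp only [CC.w, Complex.mul_im, Complex.ofReal_re, Complex.ofReal_im, Complex.one_im] at h3
    have := sqrt3_pos
    have : 0 < Real.sqrt 3 / 2 * z := by positivity
    linarith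
  have n1 : ‖u ^ 3 + 1‖ ^ 2 = 1 + z ^ 3 := by
    rw [hu3, add_comm, ← Complex.normSq_eq_norm_sq]
    have := Complex.normSq_add_mul_I 1 (Real.exp (3 * x))
    rw [Complex.ofReal_one] at this
    rw [this, hE, one_pow]
  have n2 : ‖u ^ 3 - 1‖ ^ 2 = 1 + z ^ 3 := by
    have e : u ^ 3 - 1 = ((-1 : ℝ) : ℂ) + (Real.exp (3 * x) : ℂ) * Complex.I := by
      rw [hu3]; push_cast; ring
    rw [e, ← Complex.normSq_eq_norm_sq, Complex.normSq_add_mul_I, hE]
    ring
  -- the numerator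
  have m1 : (u - 1) ^ (2 * L + 2) * (yP L p).eval u =
      (Yp L p).eval (u ^ 2) * (u ^ 3 + 1) ^ (2 * L) := by
    rw [yP_eval, Yp_eq h, eval_mul, eval_pow, eval_sub, eval_X, eval_C,
      show u ^ 2 - 1 = (u - 1) * (u + 1) by ring, mul_pow]
    ring
  have m2 : (u - 1) ^ (2 * L + 2) * (yR L).eval u =
      (u ^ 3 - 1) ^ (2 * L + 2) * (1 + u ^ 2 + u ^ 4) ^ (2 * L) * (u ^ 2 + 1) := by
    rw [yR_eval, show u ^ 3 - 1 = (u - 1) * (u ^ 2 + u + 1) by ring, mul_pow]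
    ring
  have k1 : ‖u - 1‖ ^ (2 * (2 * L + 2)) * ‖(yP L p).eval u‖ ^ 2 =
      ‖(Yp L p).eval (CC.w * z)‖ ^ 2 * (1 + z ^ 3) ^ (2 * L) := by
    have h1 := congrArg (fun t : ℂ => ‖t‖ ^ 2) m1
    simp only [norm_mul, norm_pow, mul_pow] at h1
    rw [← pow_mul, ← pow_mul, mul_comm (2 * L) 2, pow_mul _ 2 (2 * L), n1, hu2,
      mul_comm (2 * L + 2) 2] at h1
    exact h1
  have k2 : ‖u - 1‖ ^ (2 * (2 * L + 2)) * ‖(yR L).eval u‖ ^ 2 =
      (1 + z ^ 3) ^ (2 * L + 2) * ((z ^ 3 + 1) * (z + 1)) ^ (2 * L) * (z ^ 2 + z + 1) := by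
    have h1 := congrArg (fun t : ℂ => ‖t‖ ^ 2) m2
    simp only [norm_mul, norm_pow, mul_pow] at h1
    have e4 : u ^ 4 = (CC.w * z) ^ 2 := by rw [← hu2]; ring
    rw [← pow_mul, ← pow_mul, ← pow_mul, mul_comm (2 * L) 2, mul_comm (2 * L + 2) 2,
      pow_mul _ 2 (2 * L), pow_mul ‖u ^ 3 - 1‖ 2 (2 * L + 2), n2, e4, hu2, norm_sq_w,
      norm_sq_w2] at h1
    exact h1
  have k3 : ((z ^ 3 + 1) * (z + 1)) ^ (2 * L) * (z ^ 2 + z + 1) =
      (1 + z ^ 3) ^ (2 * L) * (nu L).eval z := by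
    rw [nu_real, mul_pow, add_comm (z ^ 3) 1, add_comm z 1]
    ring
  have hpos : 0 < ‖u - 1‖ ^ (2 * (2 * L + 2)) := pow_pos (norm_pos_iff.2 hu1) _
  have hY := norm_Yp_ray h z
  have hν := nu_prod_real L z
  -- the hyperbolic tangent
  have hT : Real.tanh (3 * x) ^ 2 = (1 - z ^ 3) ^ 2 / (1 + z ^ 3) ^ 2 := by
    have h1 : Real.exp (2 * (3 * x)) = z ^ 3 := by
      rw [hz, ← Real.exp_nat_mul]
      congr 1
      push_cast
      ring
    rw [tanh_exp, h1, div_pow]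
    congr 1 <;> ring
  have hg : gx L p x = p.eval z / (nu L).eval z := rfl
  have hfin : ‖(Yp L p).eval (CC.w * z)‖ ^ 2 =
      ((1 - gx L p x) ^ 2 * Real.tanh (3 * x) ^ 2 + kap q * gx L p x) *
        ((1 + z ^ 3) ^ (2 * L + 2) * (nu L).eval z) := by
    rw [hY, hT, hg]
    have e5 : (p.eval z - (nu L).eval z) ^ 2 * ‖aeval (CC.w ^ 2 * z) (nu L)‖ ^ 2 =
        (1 - p.eval z / (nu L).eval z) ^ 2 * ((nu L).eval z *
          ((nu L).eval z * ‖aeval (CC.w ^ 2 * z) (nu L)‖ ^ 2)) := by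
      field_simp
      ring
    rw [e5, hν]
    field_simp
    ring
  refine mul_left_cancel₀ hpos.ne' ?_
  rw [k1, hfin, mul_left_comm (‖u - 1‖ ^ (2 * (2 * L + 2))), k2,
    mul_assoc ((1 + z ^ 3) ^ (2 * L + 2)) (((z ^ 3 + 1) * (z + 1)) ^ (2 * L)), k3]
  ring

/-- conjugation symmetry of `yP` -/
theorem Qp_conj {L : ℕ} {q : ℝ} {p : ℝ[X]} (h : Sol L q p) (z : ℂ) :
    (Qp L p).eval ((starRingEnd ℂ) z) = (starRingEnd ℂ) ((Qp L p).eval z) := by
  have key : ∀ z : ℂ, z ≠ 1 → (Qp L p).eval ((starRingEnd ℂ) z) =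
      (starRingEnd ℂ) ((Qp L p).eval z) := by
    intro z hz
    have h1 := Yp_conj L p z
    rw [Yp_eq h] at h1
    simp only [eval_mul, eval_pow, eval_sub, eval_X, eval_one, map_mul, map_pow, map_sub,
      map_one] at h1
    refine mul_left_cancel₀ (pow_ne_zero _ ?_) h1
    intro h2
    apply hz
    have h3 : (starRingEnd ℂ) z = 1 := by linear_combination h2
    have h4 := congrArg (starRingEnd ℂ) h3
    simpa using h4
  by_cases hz : z = 1
  · subst hz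
    have c1 : Continuous fun z : ℂ => (Qp L p).eval ((starRingEnd ℂ) z) :=
      (Qp L p).continuous.comp Complex.continuous_conj
    have c2 : Continuous fun z : ℂ => (starRingEnd ℂ) ((Qp L p).eval z) :=
      Complex.continuous_conj.comp (Qp L p).continuous
    have hcl : IsClosed {z : ℂ | (Qp L p).eval ((starRingEnd ℂ) z) =
        (starRingEnd ℂ) ((Qp L p).eval z)} := isClosed_eq c1 c2
    have hd : Dense ({1}ᶜ : Set ℂ) := dense_compl_singleton 1
    exact (hcl.closure_subset_iff.2 fun z hz => key z hz) (hd 1)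
  · exact key z hz

theorem yP_conj {L : ℕ} {q : ℝ} {p : ℝ[X]} (h : Sol L q p) (u : ℂ) :
    (yP L p).eval ((starRingEnd ℂ) u) = (starRingEnd ℂ) ((yP L p).eval u) := by
  rw [yP_eval, yP_eval]
  simp only [map_mul, map_pow, map_add, map_one]
  rw [← map_pow, Qp_conj h]

theorem yR_conj (L : ℕ) (u : ℂ) :
    (yR L).eval ((starRingEnd ℂ) u) = (starRingEnd ℂ) ((yR L).eval u) := by
  rw [yR_eval, yR_eval]
  simp only [map_mul, map_pow, map_add, map_one]

/-- bound for `y` -/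
theorem mp2 {L : ℕ} {q : ℝ} {p : ℝ[X]} (h : Sol L q p) (B : ℝ) (hB0 : 0 ≤ B)
    (hB : ∀ x, (1 - gx L p x) ^ 2 * Real.tanh (3 * x) ^ 2 + kap q * gx L p x ≤ B ^ 2) (x : ℝ) :
    |yx L p x| ≤ B * (|th x| ^ (2 * L + 2) * (2 / (1 + th x ^ 2))) := by
  have key := max_sec6 (yP L p) (yR L) (by rw [yR_natDegree]; exact yP_deg h)
    (fun z hz => yR_ne_zero hz) B (fun x σ hσ => by
      have h0 : ‖(yP L p).eval (Complex.exp (x + (1 : ℝ) * (Real.pi / 6) * Complex.I))‖ ≤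
          B * ‖(yR L).eval (Complex.exp (x + (1 : ℝ) * (Real.pi / 6) * Complex.I))‖ := by
        refine le_of_sq_le_sq ?_ (by positivity)
        rw [yP_bdry h, mul_pow]
        exact mul_le_mul_of_nonneg_right (hB x) (by positivity)
      rcases hσ with rfl | rfl
      · exact h0
      · rw [bdry_conj, yP_conj h, yR_conj, Complex.norm_conj, Complex.norm_conj]
        exact h0) (Real.exp x : ℂ) (by
      show Real.sqrt 3 * |((Real.exp x : ℝ) : ℂ).im| ≤ ((Real.exp x : ℝ) : ℂ).re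
      rw [Complex.ofReal_im, Complex.ofReal_re, abs_zero, mul_zero]
      exact (Real.exp_pos x).le)
  set o := Real.exp x with ho
  have ho0 : 0 < o := Real.exp_pos x
  have hz : Real.exp (2 * x) = o ^ 2 := by
    rw [ho, ← Real.exp_nat_mul]; norm_num
  -- the ratio at the real point
  have r1 : ‖(yP L p).eval (o : ℂ)‖ = ‖(Qp L p).eval ((o : ℂ) ^ 2)‖ * (o + 1) ^ (2 * L + 2) *
      (o ^ 3 + 1) ^ (2 * L) := by
    rw [yP_eval, norm_mul, norm_mul, norm_pow, norm_pow]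
    congr 2
    · congr 2
      have : (o : ℂ) + 1 = ((o + 1 : ℝ) : ℂ) := by push_cast; ring
      rw [this, Complex.norm_real, Real.norm_of_nonneg (by positivity)]
    · have : (o : ℂ) ^ 3 + 1 = ((o ^ 3 + 1 : ℝ) : ℂ) := by push_cast; ring
      rw [this, Complex.norm_real, Real.norm_of_nonneg (by positivity)]
  have r2 : ‖(yR L).eval (o : ℂ)‖ = (o ^ 2 + o + 1) ^ (2 * L + 2) *
      (1 + o ^ 2 + o ^ 4) ^ (2 * L) * (o ^ 2 + 1) := by
    have : (yR L).eval (o : ℂ) = (((o ^ 2 + o + 1) ^ (2 * L + 2) *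
      (1 + o ^ 2 + o ^ 4) ^ (2 * L) * (o ^ 2 + 1) : ℝ) : ℂ) := by
      rw [yR_eval]; push_cast; ring
    rw [this, Complex.norm_real, Real.norm_of_nonneg (by positivity)]
  rw [r1, r2] at key
  -- `y`
  have hw1 : ∀ r : ℝ[X], aeval (CC.w * (Real.exp (2 * x) : ℝ)) r *
      aeval ((1 - CC.w) * (Real.exp (2 * x) : ℝ)) r =
        ((‖aeval (CC.w * (Real.exp (2 * x) : ℝ)) r‖ ^ 2 : ℝ) : ℂ) := by
    intro r
    have e1 : ((1 - CC.w) * ((Real.exp (2 * x) : ℝ) : ℂ)) =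
        (starRingEnd ℂ) (CC.w * (Real.exp (2 * x) : ℝ)) := by
      rw [map_mul, conj_w, Complex.conj_ofReal]
    rw [e1, aeval_conj', Complex.mul_conj, Complex.normSq_eq_norm_sq]
  have hn : ‖aeval (CC.w * (Real.exp (2 * x) : ℝ)) (nu L)‖ ^ 2 =
      (1 + o ^ 2 + o ^ 4) ^ (2 * L) * (o ^ 2 + 1) * (o ^ 6 + 1) := by
    have h1 := nu_rot L ((Real.exp (2 * x) : ℝ) : ℂ)
    rw [hw1] at h1
    rw [hz] at h1 ⊢
    have h2 : (((‖aeval (CC.w * ((o ^ 2 : ℝ) : ℂ)) (nu L)‖ ^ 2 : ℝ)) : ℂ) =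
        (((1 + o ^ 2 + o ^ 4) ^ (2 * L) * (o ^ 2 + 1) * (o ^ 6 + 1) : ℝ) : ℂ) := by
      rw [h1]; push_cast; ring
    exact_mod_cast h2
  have hy : ‖aeval (CC.w * (Real.exp (2 * x) : ℝ)) p‖ ^ 2 -
      ‖aeval (CC.w * (Real.exp (2 * x) : ℝ)) (nu L)‖ ^ 2 = yx L p x *
        ‖aeval (CC.w * (Real.exp (2 * x) : ℝ)) (nu L)‖ ^ 2 := by
    rw [yx_eq L p x]; ring
  have hY : |yx L p x| * ‖aeval (CC.w * (Real.exp (2 * x) : ℝ)) (nu L)‖ ^ 2 =
      |o ^ 2 - 1| ^ (2 * L + 2) * ‖(Qp L p).eval ((o : ℂ) ^ 2)‖ := by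
    have h1 : (Yp L p).eval ((Real.exp (2 * x) : ℝ) : ℂ) = ((yx L p x *
        ‖aeval (CC.w * (Real.exp (2 * x) : ℝ)) (nu L)‖ ^ 2 : ℝ) : ℂ) := by
      rw [Yp_eval, hw1, hw1, ← hy]
      push_cast
      ring
    have h2 := congrArg (fun t : ℂ => ‖t‖) h1
    rw [Complex.norm_real, Real.norm_eq_abs, abs_mul, abs_of_nonneg
      (sq_nonneg ‖aeval (CC.w * (Real.exp (2 * x) : ℝ)) (nu L)‖)] at h2
    rw [← h2, Yp_eq h, eval_mul, eval_pow, eval_sub, eval_X, eval_C, norm_mul, norm_pow, hz]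
    congr 2
    · have : ((o ^ 2 : ℝ) : ℂ) - 1 = ((o ^ 2 - 1 : ℝ) : ℂ) := by push_cast; ring
      rw [this, Complex.norm_real, Real.norm_eq_abs]
    · push_cast
      rfl
  rw [hn] at hY
  -- `t` and `h`
  have hth : th x = (o ^ 3 - 1) / (o ^ 3 + 1) := by
    unfold th
    have h1 : Real.exp (2 * (3 * x / 2)) = o ^ 3 := by
      rw [ho, ← Real.exp_nat_mul]
      congr 1
      push_cast
      ring
    rw [tanh_exp, h1]
  have hh : 2 / (1 + th x ^ 2) = (o ^ 3 + 1) ^ 2 / (o ^ 6 + 1) := by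
    rw [hth, div_pow]
    have h1 : 0 < o ^ 3 + 1 := by positivity
    have h2 : 0 < o ^ 6 + 1 := by positivity
    rw [div_eq_div_iff (by positivity) h2.ne']
    field_simp
    ring
  rw [hh, hth, abs_div, abs_of_pos (show 0 < o ^ 3 + 1 by positivity), div_pow]
  have hD : 0 < (1 + o ^ 2 + o ^ 4) ^ (2 * L) * (o ^ 2 + 1) * (o ^ 6 + 1) := by positivity
  refine le_of_mul_le_mul_right ?_ hD
  rw [hY]
  have e1 : |o ^ 2 - 1| = |o - 1| * (o + 1) := by
    rw [show o ^ 2 - 1 = (o - 1) * (o + 1) by ring, abs_mul,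
      abs_of_pos (show 0 < o + 1 by positivity)]
  have e2 : |o ^ 3 - 1| = |o - 1| * (o ^ 2 + o + 1) := by
    rw [show o ^ 3 - 1 = (o - 1) * (o ^ 2 + o + 1) by ring, abs_mul,
      abs_of_pos (show 0 < o ^ 2 + o + 1 by positivity)]
  have hc : 0 < (o ^ 3 + 1) ^ (2 * L) := by positivity
  refine le_of_mul_le_mul_right ?_ hc
  have f1 : |o ^ 2 - 1| ^ (2 * L + 2) * ‖(Qp L p).eval ((o : ℂ) ^ 2)‖ * (o ^ 3 + 1) ^ (2 * L) =
      |o - 1| ^ (2 * L + 2) * (‖(Qp L p).eval ((o : ℂ) ^ 2)‖ * (o + 1) ^ (2 * L + 2) *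
        (o ^ 3 + 1) ^ (2 * L)) := by
    rw [e1, mul_pow]; ring
  have f2 : B * (|o ^ 3 - 1| ^ (2 * L + 2) / (o ^ 3 + 1) ^ (2 * L + 2) *
      ((o ^ 3 + 1) ^ 2 / (o ^ 6 + 1))) * ((1 + o ^ 2 + o ^ 4) ^ (2 * L) * (o ^ 2 + 1) *
        (o ^ 6 + 1)) * (o ^ 3 + 1) ^ (2 * L) =
      |o - 1| ^ (2 * L + 2) * (B * ((o ^ 2 + o + 1) ^ (2 * L + 2) *
        (1 + o ^ 2 + o ^ 4) ^ (2 * L) * (o ^ 2 + 1))) := by
    rw [e2, mul_pow, pow_add (o ^ 3 + 1) (2 * L) 2]
    field_simp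
  rw [f1, f2]
  exact mul_le_mul_of_nonneg_left key (by positivity)

end EP
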