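import Pool.Agent.Helper86.EP.Sector
import Pool.Agent.Helper86.EP.RootCont

/-! A Phragmen-Lindelof argument in the sector (module PL). -/

namespace EP
open Complex Filter Topology Set

/-- points of the upper boundary ray -/
theorem exp_ray (x : ℝ) : exp (x + (Real.pi / 3 : ℝ) * I) = (Real.exp x : ℝ) * CC.w := by
  rw [Complex.exp_add, ← w_exp, ofReal_exp]

theorem pl_sector (P R : Polynomial ℂ) (hd : P.natDegree ≤ R.natDegree + 2)
    (hR : ∀ z ∈ Sec, R.eval z ≠ 0)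
    (hreal : ∀ x : ℝ, 0 < x → (P.eval (x : ℂ) / R.eval (x : ℂ)).im = 0)
    (hray : ∀ τ : ℝ, 0 < τ → (P.eval (τ * CC.w) / R.eval (τ * CC.w)).im ≠ 0)
    (x y : ℝ) (hy0 : 0 < y) (hy : y ≤ Real.pi / 3) :
    (P.eval (exp (x + y * I)) / R.eval (exp (x + y * I))).im ≠ 0 := by
  have hpi := Real.pi_pos
  set χ : ℂ → ℂ := fun z => P.eval z / R.eval z with hχ
  -- points of the strip
  have hmem : ∀ ζ : ℂ, 0 ≤ ζ.im → ζ.im ≤ Real.pi / 3 → exp ζ ∈ Sec := by
    intro ζ h1 h2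
    rw [← re_add_im ζ]
    exact exp_mem_Sec (by rw [abs_of_nonneg h1]; exact h2)
  -- the sign
  have hraymem : ∀ τ : ℝ, 0 < τ → (τ:ℂ) * CC.w ∈ Sec := by
    intro τ hτ
    have := exp_ray (Real.log τ)
    rw [Real.exp_log hτ] at this
    rw [← this]
    exact exp_mem_Sec (by rw [abs_of_nonneg (by positivity)])
  have hcont : ContinuousOn (fun τ : ℝ => (χ (τ * CC.w)).im) (Ioi 0) := by
    intro τ hτ
    have h1 : ContinuousAt χ (τ * CC.w) := by
      rw [hχ]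
      exact (P.continuous.continuousAt).div (R.continuous.continuousAt) (hR _ (hraymem τ hτ))
    have h2 : ContinuousAt (fun τ : ℝ => (τ:ℂ) * CC.w) τ := by fun_prop
    exact (continuous_im.continuousAt.comp
      (ContinuousAt.comp (g := χ) (f := fun τ : ℝ => (τ:ℂ) * CC.w) h1 h2)).continuousWithinAt
  obtain ⟨σ, hσ, hσ1⟩ : ∃ σ : ℝ, (σ = 1 ∨ σ = -1) ∧ ∀ τ : ℝ, 0 < τ → 0 < σ * (χ (τ * CC.w)).im := by
    rcases lt_or_gt_of_ne (hray 1 one_pos) with h1 | h1
    · refine ⟨-1, Or.inr rfl, fun τ hτ => ?_⟩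
      by_contra hc
      push Not at hc
      have h2 : 0 ≤ (χ (τ * CC.w)).im := by linarith
      have h3 := isPreconnected_Ioi.intermediate_value (mem_Ioi.2 one_pos) (mem_Ioi.2 hτ) hcont
      obtain ⟨t, ht, ht'⟩ := h3 (⟨h1.le, h2⟩ : (0:ℝ) ∈ Icc _ _)
      exact hray t ht ht'
    · refine ⟨1, Or.inl rfl, fun τ hτ => ?_⟩
      by_contra hc
      push Not at hc
      have h2 : (χ (τ * CC.w)).im ≤ 0 := by linarith
      have h3 := isPreconnected_Ioi.intermediate_value (mem_Ioi.2 hτ) (mem_Ioi.2 one_pos) hcont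
      obtain ⟨t, ht, ht'⟩ := h3 (⟨h2, h1.le⟩ : (0:ℝ) ∈ Icc _ _)
      exact hray t ht ht'
  set E : ℂ → ℂ := fun ζ => exp (I * (σ * χ (exp ζ))) with hE
  have hnorm : ∀ ζ, ‖E ζ‖ = Real.exp (-(σ * (χ (exp ζ)).im)) := by
    intro ζ
    rw [hE]
    simp only
    rw [norm_exp]
    congr 1
    simp
  have hdiff : ∀ ζ : ℂ, 0 ≤ ζ.im → ζ.im ≤ Real.pi / 3 → DifferentiableAt ℂ E ζ := by
    intro ζ h1 h2
    have h3 : DifferentiableAt ℂ χ (exp ζ) := by
      rw [hχ]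
      exact (P.differentiable.differentiableAt).div (R.differentiable.differentiableAt)
        (hR _ (hmem ζ h1 h2))
    have h4 : DifferentiableAt ℂ (fun ζ => χ (exp ζ)) ζ :=
      DifferentiableAt.comp (g := χ) (f := exp) ζ h3 differentiableAt_exp
    rw [hE]
    fun_prop
  have hU : closure (im ⁻¹' Ioo 0 (Real.pi / 3)) = im ⁻¹' Icc 0 (Real.pi / 3) := by
    rw [closure_preimage_im, closure_Ioo (by positivity)]
  have hdc : DiffContOnCl ℂ E (im ⁻¹' Ioo 0 (Real.pi / 3)) := by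
    apply DifferentiableOn.diffContOnCl
    rw [hU]
    intro ζ hζ
    exact (hdiff ζ hζ.1 hζ.2).differentiableWithinAt
  -- growth
  obtain ⟨c, hc0, hc⟩ := ratio_bound P R 2 hd Sec Sec_closed hR
  have hgrow : ∃ c < Real.pi / (Real.pi / 3 - 0), ∃ B,
      E =O[comap (_root_.abs ∘ re) atTop ⊓ 𝓟 (im ⁻¹' Ioo 0 (Real.pi / 3))]
      fun z ↦ Real.exp (B * Real.exp (c * |z.re|)) := by
    refine ⟨2, ?_, 4 * c, ?_⟩
    · rw [sub_zero, lt_div_iff₀ (by positivity)]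
      linarith
    · rw [Asymptotics.isBigO_iff]
      refine ⟨1, ?_⟩
      refine Filter.mem_inf_of_right ?_
      intro ζ hζ
      have hz : exp ζ ∈ Sec := hmem ζ hζ.1.le hζ.2.le
      change ‖E ζ‖ ≤ 1 * ‖Real.exp (4 * c * Real.exp (2 * |ζ.re|))‖
      rw [one_mul, hnorm, Real.norm_of_nonneg (Real.exp_pos _).le, Real.exp_le_exp]
      have h1 : ‖χ (exp ζ)‖ ≤ c * (1 + ‖exp ζ‖) ^ 2 := by
        rw [hχ]
        simp only
        rw [norm_div, div_le_iff₀ (norm_pos_iff.2 (hR _ hz))]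
        exact hc _ hz
      have h2 : |σ * (χ (exp ζ)).im| ≤ ‖χ (exp ζ)‖ := by
        rw [abs_mul]
        have : |σ| = 1 := by rcases hσ with h | h <;> rw [h] <;> simp
        rw [this, one_mul]
        exact abs_im_le_norm _
      have h3 : ‖exp ζ‖ ≤ Real.exp |ζ.re| := by
        rw [norm_exp]
        exact Real.exp_le_exp.2 (le_abs_self _)
      have h4 : (1:ℝ) ≤ Real.exp |ζ.re| := Real.one_le_exp (abs_nonneg _)
      have h5 : (1 + ‖exp ζ‖) ^ 2 ≤ 4 * Real.exp (2 * |ζ.re|) := by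
        have e : Real.exp (2 * |ζ.re|) = Real.exp |ζ.re| ^ 2 := by
          rw [← Real.exp_nat_mul]; norm_num
        rw [e]
        have : 1 + ‖exp ζ‖ ≤ 2 * Real.exp |ζ.re| := by linarith
        have h0 : 0 ≤ 1 + ‖exp ζ‖ := by positivity
        nlinarith
      have h6 := neg_abs_le (σ * (χ (exp ζ)).im)
      have h7 := mul_le_mul_of_nonneg_left h5 hc0.le
      linarith
  have hle : ∀ ζ : ℂ, 0 ≤ ζ.im → ζ.im ≤ Real.pi / 3 → ‖E ζ‖ ≤ 1 := by
    intro ζ h1 h2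
    refine PhragmenLindelof.horizontal_strip hdc hgrow ?_ ?_ h1 h2
    · intro z hz
      rw [hnorm]
      have e : exp z = ((Real.exp z.re : ℝ) : ℂ) := by
        rw [← re_add_im z, hz]
        simp
      have : (χ (exp z)).im = 0 := by
        rw [e]
        exact hreal _ (Real.exp_pos _)
      rw [this]
      simp
    · intro z hz
      rw [hnorm]
      have e : exp z = (Real.exp z.re : ℝ) * CC.w := by
        rw [← exp_ray, ← hz, re_add_im]
      rw [e, Real.exp_le_one_iff]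
      have := hσ1 _ (Real.exp_pos z.re)
      linarith
  -- strictness
  rcases eq_or_lt_of_le hy with hy1 | hy1
  · rw [hy1, exp_ray]
    exact hray _ (Real.exp_pos x)
  intro h0
  have hζim : ((x:ℂ) + y * I).im = y := by simp
  have hin : ((x:ℂ) + y * I) ∈ im ⁻¹' Ioo 0 (Real.pi / 3) := by
    change ((x:ℂ) + y * I).im ∈ Ioo 0 (Real.pi / 3)
    rw [hζim]
    exact ⟨hy0, hy1⟩
  have hE1 : ‖E (x + y * I)‖ = 1 := by
    rw [hnorm]
    have : (χ (exp (x + y * I))).im = 0 := h0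
    rw [this]
    simp
  have hmax : IsMaxOn (norm ∘ E) (im ⁻¹' Ioo 0 (Real.pi / 3)) (x + y * I) := by
    intro z hz
    change ‖E z‖ ≤ ‖E (x + y * I)‖
    rw [hE1]
    exact hle z hz.1.le hz.2.le
  have hconn : IsPreconnected (im ⁻¹' Ioo 0 (Real.pi / 3)) := by
    refine Convex.isPreconnected ?_
    exact (convex_Ioo _ _).linear_preimage (imLm)
  have hopen : IsOpen (im ⁻¹' Ioo 0 (Real.pi / 3)) := isOpen_Ioo.preimage continuous_im
  have hcl := norm_eqOn_closure_of_isPreconnected_of_isMaxOn hconn hopen hdc hin hmax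
  have h1 : ((0:ℝ):ℂ) + (Real.pi / 3 : ℝ) * I ∈ closure (im ⁻¹' Ioo 0 (Real.pi / 3)) := by
    rw [hU]
    change (((0:ℝ):ℂ) + (Real.pi / 3 : ℝ) * I).im ∈ Icc 0 (Real.pi / 3)
    have : (((0:ℝ):ℂ) + (Real.pi / 3 : ℝ) * I).im = Real.pi / 3 := by simp
    rw [this]
    exact ⟨by positivity, le_rfl⟩
  have h2 := hcl h1
  change ‖E (((0:ℝ):ℂ) + (Real.pi / 3 : ℝ) * I)‖ = ‖E (x + y * I)‖ at h2
  rw [hE1, hnorm, exp_ray, Real.exp_eq_one_iff] at h2
  have h3 := hσ1 _ (Real.exp_pos 0)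
  linarith

end EP
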