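import Pool.Agent.Helper86.EP.MaxPr
import Pool.Agent.Helper86.EP.Conv

/-! Poisson formula of the strip (module STRIP). -/

namespace EP.StripAux
open Complex Filter Topology MeasureTheory Set

theorem exp_abs_int (b : ℝ) (hb : 0 < b) : Integrable (fun x : ℝ => Real.exp (-(b * |x|))) := by
  have h1 : IntegrableOn (fun x : ℝ => Real.exp (-(b * |x|))) (Ioi 0) := by
    refine (exp_neg_integrableOn_Ioi 0 (b := b) hb).congr_fun ?_ measurableSet_Ioi
    intro x hx
    have : |x| = x := abs_of_pos hx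
    simp only [this]; ring_nf
  have h2 : IntegrableOn (fun x : ℝ => Real.exp (-(b * |x|))) (Iic 0) := by
    rw [← Measure.map_neg_eq_self (volume : Measure ℝ)]
    let m : MeasurableEmbedding fun x : ℝ => -x := (Homeomorph.neg ℝ).measurableEmbedding
    rw [m.integrableOn_map_iff]
    simp_rw [Function.comp_def, abs_neg, neg_preimage, neg_Iic, neg_zero]
    exact Iff.mpr integrableOn_Ici_iff_integrableOn_Ioi h1
  rw [← integrableOn_univ, ← Iic_union_Ioi (a := (0:ℝ))]
  exact h2.union h1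

/-- kernel times a function of linear growth -/
theorem growth_int (f : ℝ → ℂ) (hf : Continuous f) (C : ℝ) (hb : ∀ x, ‖f x‖ ≤ |x| + C) :
    Integrable (fun x => (Kr x : ℂ) * f x) := by
  have hC : 0 ≤ |C| := abs_nonneg _
  refine Integrable.mono' ((exp_abs_int 2 (by norm_num)).const_mul (3 / Real.pi * (1 + |C|))) ?_ ?_
  · exact ((Complex.continuous_ofReal.comp ConvAux.Kr_cont).mul hf).aestronglyMeasurable
  · filter_upwards with x
    rw [norm_mul, Complex.norm_real, Real.norm_of_nonneg (ConvAux.Kr_pos x).le]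
    have h1 := ConvAux.Kr_le x
    have h2 : ‖f x‖ ≤ (1 + |C|) * Real.exp |x| := by
      have h3 := Real.add_one_le_exp |x|
      have h4 : 1 ≤ Real.exp |x| := Real.one_le_exp (abs_nonneg x)
      have h5 := le_abs_self C
      have h6 := hb x
      nlinarith
    calc Kr x * ‖f x‖ ≤ (3 / Real.pi * Real.exp (-(3 * |x|))) * ((1 + |C|) * Real.exp |x|) :=
          mul_le_mul h1 h2 (norm_nonneg _) (by positivity)
      _ = 3 / Real.pi * (1 + |C|) * (Real.exp (-(3 * |x|)) * Real.exp |x|) := by ring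
      _ = _ := by rw [← Real.exp_add]; congr 2; ring

theorem sinh3 (a b : ℝ) : sinh (3 * ((a:ℂ) + b * I)) =
    ((Real.sinh (3 * a) * Real.cos (3 * b) : ℝ) : ℂ) + ((Real.cosh (3 * a) * Real.sin (3 * b) : ℝ) : ℂ) * I := by
  have : (3 : ℂ) * ((a:ℂ) + b * I) = ((3 * a : ℝ) : ℂ) + ((3 * b : ℝ) : ℂ) * I := by
    push_cast; ring
  rw [this, Complex.sinh_add, Complex.sinh_mul_I, Complex.cosh_mul_I]
  push_cast; ring

theorem sinh3_normSq (a b : ℝ) : ‖sinh (3 * ((a:ℂ) + b * I))‖ ^ 2 =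
    Real.sinh (3 * a) ^ 2 + Real.sin (3 * b) ^ 2 := by
  rw [sinh3, ← Complex.normSq_eq_norm_sq, Complex.normSq_add_mul_I]
  have h1 := Real.cosh_sq (3 * a)
  have h2 := Real.cos_sq_add_sin_sq (3 * b)
  have h3 : Real.cos (3 * b) ^ 2 = 1 - Real.sin (3 * b) ^ 2 := by linarith
  rw [mul_pow, mul_pow, h1, h3]; ring

theorem sinh3_ne (s : ℂ) (hs : |s.im| ≤ Real.pi / 6) (h0 : s ≠ 0) : sinh (3 * s) ≠ 0 := by
  intro h
  have h1 := sinh3_normSq s.re s.im
  rw [re_add_im, h, norm_zero] at h1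
  have h2 : Real.sinh (3 * s.re) = 0 := by
    have := sq_nonneg (Real.sinh (3 * s.re)); have := sq_nonneg (Real.sin (3 * s.im)); nlinarith
  have h3 : Real.sin (3 * s.im) = 0 := by
    have := sq_nonneg (Real.sinh (3 * s.re)); have := sq_nonneg (Real.sin (3 * s.im)); nlinarith
  have h4 : s.re = 0 := by
    have := Real.sinh_eq_zero.1 h2; linarith
  have hp := Real.pi_pos
  rw [abs_le] at hs
  have h5 : 3 * s.im = 0 := by
    rwa [Real.sin_eq_zero_iff_of_lt_of_lt (by linarith) (by linarith)] at h3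
  apply h0
  exact Complex.ext h4 (by simp; linarith)

theorem sinh3_lower (R y : ℝ) (hR : 0 ≤ R) : Real.sinh (3 * R) ≤ ‖sinh (3 * ((R:ℂ) + y * I))‖ := by
  have h1 := sinh3_normSq R y
  have h2 : 0 ≤ Real.sinh (3 * R) := Real.sinh_nonneg_iff.2 (by positivity)
  have h3 := sq_nonneg (Real.sin (3 * y))
  exact abs_le_of_sq_le_sq' (by nlinarith) (norm_nonneg _) |>.2

/-- the logarithm -/
noncomputable def hh (c s : ℂ) : ℂ := log (1 - exp s / c)

variable {c : ℂ}

theorem c_ne (hc : c ∉ Sec6) : c ≠ 0 := by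
  rintro rfl; exact hc zero_mem_Sec6

theorem exp_mem (s : ℂ) (hs : |s.im| ≤ Real.pi / 6) : exp s ∈ Sec6 := by
  have := exp_mem_Sec6 (x := s.re) (y := s.im) hs
  rwa [re_add_im] at this

theorem slit (hc : c ∉ Sec6) (s : ℂ) (hs : |s.im| ≤ Real.pi / 6) : 1 - exp s / c ∈ slitPlane := by
  have hc0 := c_ne hc
  by_contra h
  rw [mem_slitPlane_iff] at h
  push Not at h
  obtain ⟨h1, h2⟩ := h
  set t : ℝ := -(1 - exp s / c).re with ht
  have h3 : 1 - exp s / c = -(t:ℂ) := by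
    apply Complex.ext
    · simp [ht]
    · simp [h2]
  have h4 : exp s = (1 + t) * c := by
    have : exp s / c = 1 + t := by linear_combination -h3
    rw [div_eq_iff hc0] at this; exact this
  have h5 := exp_mem s hs
  apply hc
  have ht0 : 0 ≤ t := by rw [ht]; linarith
  have h6 : Real.sqrt 3 * |(exp s).im| ≤ (exp s).re := h5
  have e1 : (exp s).im = (1 + t) * c.im := by rw [h4]; simp
  have e2 : (exp s).re = (1 + t) * c.re := by rw [h4]; simp
  rw [e1, e2, abs_mul, abs_of_pos (show (0:ℝ) < 1 + t by linarith)] at h6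
  change Real.sqrt 3 * |c.im| ≤ c.re
  have : (1 + t) * (Real.sqrt 3 * |c.im|) ≤ (1 + t) * c.re := by linarith
  exact le_of_mul_le_mul_left this (by linarith)

theorem hh_diff (hc : c ∉ Sec6) (s : ℂ) (hs : |s.im| ≤ Real.pi / 6) : DifferentiableAt ℂ (hh c) s := by
  unfold hh
  refine DifferentiableAt.clog ?_ (slit hc s hs)
  fun_prop

theorem hh_bound (hc : c ∉ Sec6) : ∃ C : ℝ, ∀ s : ℂ, |s.im| ≤ Real.pi / 6 → ‖hh c s‖ ≤ |s.re| + C := by
  have hc0 := c_ne hc
  have hcn : 0 < ‖c‖ := norm_pos_iff.2 hc0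
  have hδ : 0 < Metric.infDist c Sec6 :=
    (Sec6_closed.notMem_iff_infDist_pos ⟨0, zero_mem_Sec6⟩).1 hc
  set δ := Metric.infDist c Sec6 / ‖c‖ with hδd
  have hδ' : 0 < δ := by positivity
  refine ⟨|Real.log δ| + Real.log (1 + 1 / ‖c‖) + Real.pi, fun s hs => ?_⟩
  have h1 : δ ≤ ‖1 - exp s / c‖ := by
    have h2 := Metric.infDist_le_dist_of_mem (x := c) (exp_mem s hs)
    rw [dist_eq_norm] at h2
    have h3 : ‖1 - exp s / c‖ = ‖c - exp s‖ / ‖c‖ := by
      rw [← norm_div, sub_div, div_self hc0]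
    rw [h3, hδd]
    gcongr
  have h2 : ‖1 - exp s / c‖ ≤ (1 + 1 / ‖c‖) * Real.exp |s.re| := by
    have h3 : ‖1 - exp s / c‖ ≤ 1 + Real.exp s.re / ‖c‖ := by
      refine (norm_sub_le _ _).trans ?_
      rw [norm_one, norm_div, Complex.norm_exp]
    refine h3.trans ?_
    have h4 : Real.exp s.re ≤ Real.exp |s.re| := Real.exp_le_exp.2 (le_abs_self _)
    have h5 : 1 ≤ Real.exp |s.re| := Real.one_le_exp (abs_nonneg _)
    have h6 : Real.exp s.re / ‖c‖ ≤ Real.exp |s.re| / ‖c‖ := by gcongr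
    have h7 : (1 + 1 / ‖c‖) * Real.exp |s.re| = Real.exp |s.re| + Real.exp |s.re| / ‖c‖ := by ring
    linarith
  have h0 : 0 < ‖1 - exp s / c‖ := lt_of_lt_of_le hδ' h1
  have h3 : Real.log δ ≤ Real.log ‖1 - exp s / c‖ := Real.log_le_log hδ' h1
  have h4 : Real.log ‖1 - exp s / c‖ ≤ Real.log (1 + 1 / ‖c‖) + |s.re| := by
    have := Real.log_le_log h0 h2
    rwa [Real.log_mul (by positivity) (Real.exp_pos _).ne', Real.log_exp] at this
  have h5 : 0 ≤ Real.log (1 + 1 / ‖c‖) := Real.log_nonneg (by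
    have : 0 < 1 / ‖c‖ := by positivity
    linarith)
  have h6 : |Real.log ‖1 - exp s / c‖| ≤ |s.re| + |Real.log δ| + Real.log (1 + 1 / ‖c‖) := by
    rw [abs_le]
    have := neg_abs_le (Real.log δ)
    have := abs_nonneg s.re
    have := abs_nonneg (Real.log δ)
    constructor <;> linarith
  have h7 : ‖hh c s‖ ≤ |(hh c s).re| + |(hh c s).im| := Complex.norm_le_abs_re_add_abs_im _
  have h8 : (hh c s).re = Real.log ‖1 - exp s / c‖ := by unfold hh; exact Complex.log_re _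
  have h9 : |(hh c s).im| ≤ Real.pi := by
    unfold hh; rw [Complex.log_im]; exact Complex.abs_arg_le_pi _
  rw [h8] at h7
  linarith

/-- the contour integrand -/
noncomputable def FF (c : ℂ) (x₀ : ℝ) (s : ℂ) : ℂ :=
  dslope (fun s => hh c (s + x₀)) 0 s / dslope (fun s : ℂ => sinh (3 * s)) 0 s

theorem num_diff (hc : c ∉ Sec6) (x₀ : ℝ) (s : ℂ) (hs : |s.im| ≤ Real.pi / 6) :
    DifferentiableAt ℂ (fun s => hh c (s + x₀)) s := by
  have h1 : DifferentiableAt ℂ (hh c) (s + x₀) := hh_diff hc _ (by simpa using hs)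
  exact DifferentiableAt.comp (f := fun s : ℂ => s + x₀) s h1 (by fun_prop)

theorem sinh_diff (s : ℂ) : DifferentiableAt ℂ (fun s : ℂ => sinh (3 * s)) s := by fun_prop

theorem den_ne (s : ℂ) (hs : |s.im| ≤ Real.pi / 6) :
    dslope (fun s : ℂ => sinh (3 * s)) 0 s ≠ 0 := by
  by_cases h : s = 0
  · rw [h, dslope_same]
    have h1 : HasDerivAt (fun s : ℂ => sinh (3 * s)) (cosh (3 * 0) * (3 * 1)) 0 :=
      ((hasDerivAt_id (0:ℂ)).const_mul 3).csinh
    rw [h1.deriv]; simp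
  · rw [dslope_of_ne _ h, slope_def_field]
    simp only [mul_zero, Complex.sinh_zero, sub_zero]
    exact div_ne_zero (sinh3_ne s hs h) h

theorem FF_eq (x₀ : ℝ) (s : ℂ) (h : s ≠ 0) :
    FF c x₀ s = (hh c (s + x₀) - hh c x₀) / sinh (3 * s) := by
  unfold FF
  rw [dslope_of_ne _ h, dslope_of_ne _ h, slope_def_field, slope_def_field]
  simp only [mul_zero, Complex.sinh_zero, sub_zero, zero_add]
  rw [div_div_div_cancel_right₀ h]

theorem FF_cont (hc : c ∉ Sec6) (x₀ : ℝ) (s : ℂ) (hs : |s.im| ≤ Real.pi / 6) :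
    ContinuousAt (FF c x₀) s := by
  unfold FF
  refine ContinuousAt.div ?_ ?_ (den_ne s hs)
  · by_cases h : s = 0
    · rw [h, continuousAt_dslope_same]
      exact num_diff hc x₀ 0 (by rw [← h]; exact hs)
    · rw [continuousAt_dslope_of_ne h]
      exact (num_diff hc x₀ s hs).continuousAt
  · by_cases h : s = 0
    · rw [h, continuousAt_dslope_same]
      exact sinh_diff 0
    · rw [continuousAt_dslope_of_ne h]
      exact (sinh_diff s).continuousAt

theorem FF_diff (hc : c ∉ Sec6) (x₀ : ℝ) (s : ℂ) (hs : |s.im| ≤ Real.pi / 6) (h : s ≠ 0) :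
    DifferentiableAt ℂ (FF c x₀) s := by
  unfold FF
  refine DifferentiableAt.div ?_ ?_ (den_ne s hs)
  · rw [differentiableAt_dslope_of_ne h]; exact num_diff hc x₀ s hs
  · rw [differentiableAt_dslope_of_ne h]; exact sinh_diff s

theorem sinh_low (x : ℝ) : sinh (3 * ((x:ℂ) + ((-(Real.pi / 6) : ℝ) : ℂ) * I)) =
    -(Real.cosh (3 * x) : ℂ) * I := by
  rw [sinh3]
  have h1 : (3 * (-(Real.pi / 6)) : ℝ) = -(Real.pi / 2) := by ring
  rw [h1, Real.cos_neg, Real.cos_pi_div_two, Real.sin_neg, Real.sin_pi_div_two]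
  push_cast; ring

theorem sinh_up (x : ℝ) : sinh (3 * ((x:ℂ) + ((Real.pi / 6 : ℝ) : ℂ) * I)) =
    (Real.cosh (3 * x) : ℂ) * I := by
  rw [sinh3]
  have h1 : (3 * (Real.pi / 6) : ℝ) = Real.pi / 2 := by ring
  rw [h1, Real.cos_pi_div_two, Real.sin_pi_div_two]
  push_cast; ring

theorem pt_ne (x y : ℝ) (hy : y ≠ 0) : (x:ℂ) + (y:ℂ) * I ≠ 0 := by
  intro h
  have := congrArg Complex.im h
  simp at this; exact hy this

/-- the sum of the two boundary values -/
noncomputable def gg (c : ℂ) (x₀ : ℝ) (x : ℝ) : ℂ :=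
  hh c ((x:ℂ) + ((-(Real.pi / 6) : ℝ) : ℂ) * I + x₀) + hh c ((x:ℂ) + ((Real.pi / 6 : ℝ) : ℂ) * I + x₀)

theorem FF_low (x₀ x : ℝ) : FF c x₀ ((x:ℂ) + ((-(Real.pi / 6) : ℝ) : ℂ) * I) =
    I * ((hh c ((x:ℂ) + ((-(Real.pi / 6) : ℝ) : ℂ) * I + x₀) - hh c x₀) / Real.cosh (3 * x)) := by
  have hp := Real.pi_pos
  rw [FF_eq _ _ (pt_ne _ _ (by linarith)), sinh_low]
  have h1 : (Real.cosh (3 * x) : ℂ) ≠ 0 := by exact_mod_cast (Real.cosh_pos _).ne'
  have h2 := I_ne_zero
  field_simp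
  rw [I_sq]; ring

theorem FF_up (x₀ x : ℝ) : FF c x₀ ((x:ℂ) + ((Real.pi / 6 : ℝ) : ℂ) * I) =
    -(I * ((hh c ((x:ℂ) + ((Real.pi / 6 : ℝ) : ℂ) * I + x₀) - hh c x₀) / Real.cosh (3 * x))) := by
  have hp := Real.pi_pos
  rw [FF_eq _ _ (pt_ne _ _ (by linarith)), sinh_up]
  have h1 : (Real.cosh (3 * x) : ℂ) ≠ 0 := by exact_mod_cast (Real.cosh_pos _).ne'
  have h2 := I_ne_zero
  field_simp
  rw [I_sq]; ring

theorem gg_cont (hc : c ∉ Sec6) (x₀ : ℝ) : Continuous (gg c x₀) := by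
  have hp := Real.pi_pos
  unfold gg
  refine Continuous.add ?_ ?_
  · rw [continuous_iff_continuousAt]
    intro x
    refine ContinuousAt.comp (f := fun x : ℝ => (x:ℂ) + ((-(Real.pi / 6) : ℝ) : ℂ) * I + x₀)
      (g := hh c) (hh_diff hc _ ?_).continuousAt (by fun_prop)
    simp [abs_of_pos (show (0:ℝ) < Real.pi / 6 by positivity)]
  · rw [continuous_iff_continuousAt]
    intro x
    refine ContinuousAt.comp (f := fun x : ℝ => (x:ℂ) + ((Real.pi / 6 : ℝ) : ℂ) * I + x₀)
      (g := hh c) (hh_diff hc _ ?_).continuousAt (by fun_prop)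
    simp [abs_of_pos (show (0:ℝ) < Real.pi / 6 by positivity)]

theorem gg_bound (hc : c ∉ Sec6) (x₀ : ℝ) : ∃ C : ℝ, ∀ x : ℝ, ‖gg c x₀ x‖ ≤ 2 * |x| + C := by
  have hp := Real.pi_pos
  obtain ⟨C, hC⟩ := hh_bound hc
  refine ⟨2 * |x₀| + 2 * C, fun x => ?_⟩
  unfold gg
  have h1 := hC ((x:ℂ) + ((-(Real.pi / 6) : ℝ) : ℂ) * I + x₀)
    (by simp [abs_of_pos (show (0:ℝ) < Real.pi / 6 by positivity)])
  have h2 := hC ((x:ℂ) + ((Real.pi / 6 : ℝ) : ℂ) * I + x₀)
    (by simp [abs_of_pos (show (0:ℝ) < Real.pi / 6 by positivity)])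
  have e1 : ((x:ℂ) + ((-(Real.pi / 6) : ℝ) : ℂ) * I + x₀).re = x + x₀ := by simp
  have e2 : ((x:ℂ) + ((Real.pi / 6 : ℝ) : ℂ) * I + x₀).re = x + x₀ := by simp
  rw [e1] at h1
  rw [e2] at h2
  have h3 := abs_add_le x x₀
  refine (norm_add_le _ _).trans ?_
  linarith

theorem G_int (hc : c ∉ Sec6) (x₀ : ℝ) (b : ℂ) :
    Integrable (fun x => (Kr x : ℂ) * (gg c x₀ x - b)) := by
  obtain ⟨C, hC⟩ := gg_bound hc x₀
  have h := growth_int (fun x => (gg c x₀ x - b) / 2)
    (((gg_cont hc x₀).sub continuous_const).div_const 2) ((C + ‖b‖) / 2) (fun x => by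
      rw [norm_div]
      have h1 := norm_sub_le (gg c x₀ x) b
      have h2 := hC x
      have h3 : ‖(2:ℂ)‖ = 2 := by simp
      rw [h3, div_le_iff₀ (by norm_num)]
      linarith)
  have h4 := h.const_mul 2
  refine h4.congr (Eventually.of_forall fun x => ?_)
  simp only
  ring

theorem side_zero (hc : c ∉ Sec6) (x₀ : ℝ) (σ : ℝ) (hσ : σ = 1 ∨ σ = -1) :
    Tendsto (fun R : ℝ => ∫ y in (-(Real.pi / 6))..(Real.pi / 6), FF c x₀ (((σ * R : ℝ) : ℂ) + (y:ℂ) * I))
      atTop (𝓝 0) := by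
  have hp := Real.pi_pos
  obtain ⟨C, hC⟩ := hh_bound hc
  have hσ1 : |σ| = 1 := by rcases hσ with h | h <;> simp [h]
  have hlim : Tendsto (fun R : ℝ => (R + |x₀| + |C| + ‖hh c x₀‖) / Real.sinh (3 * R) * (Real.pi / 3))
      atTop (𝓝 0) := by
    have h1 : Tendsto (fun R : ℝ => (R + |x₀| + |C| + ‖hh c x₀‖) / Real.sinh (3 * R)) atTop (𝓝 0) := by
      have h2 : Tendsto (fun R : ℝ => (R + |x₀| + |C| + ‖hh c x₀‖) * Real.exp (-R)) atTop (𝓝 0) := by
        have h3 : Tendsto (fun R : ℝ => R * Real.exp (-R)) atTop (𝓝 0) := by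
          simpa using Real.tendsto_pow_mul_exp_neg_atTop_nhds_zero 1
        have h4 : Tendsto (fun R : ℝ => Real.exp (-R)) atTop (𝓝 0) :=
          Real.tendsto_exp_atBot.comp tendsto_neg_atTop_atBot
        have h5 := h3.add (h4.const_mul (|x₀| + |C| + ‖hh c x₀‖))
        rw [mul_zero, add_zero] at h5
        refine h5.congr fun R => ?_
        ring
      refine squeeze_zero' ?_ ?_ h2
      · filter_upwards [eventually_ge_atTop 0] with R hR
        exact div_nonneg (by positivity) (Real.sinh_nonneg_iff.2 (by positivity))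
      · filter_upwards [eventually_ge_atTop 1] with R hR
        have h6 : Real.exp R ≤ Real.sinh (3 * R) := by
          rw [Real.sinh_eq]
          have h7 : Real.exp (3 * R) = Real.exp R * Real.exp (2 * R) := by
            rw [← Real.exp_add]; congr 1; ring
          have h8 : 3 ≤ Real.exp (2 * R) := by
            have := Real.add_one_le_exp (2 * R); linarith
          have h9 : Real.exp (-(3 * R)) ≤ Real.exp R := Real.exp_le_exp.2 (by linarith)
          have h10 := Real.exp_pos R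
          rw [h7]; nlinarith
        rw [Real.exp_neg, div_eq_mul_inv]
        have h11 := Real.exp_pos R
        have h12 : (Real.sinh (3 * R))⁻¹ ≤ (Real.exp R)⁻¹ := inv_anti₀ h11 h6
        exact mul_le_mul_of_nonneg_left h12 (by positivity)
    have := h1.mul_const (Real.pi / 3)
    rwa [zero_mul] at this
  refine squeeze_zero_norm' ?_ hlim
  filter_upwards [eventually_gt_atTop 0] with R hR
  have hs : 0 < Real.sinh (3 * R) := Real.sinh_pos_iff.2 (by positivity)
  have h1 := intervalIntegral.norm_integral_le_of_norm_le_const (a := -(Real.pi / 6)) (b := Real.pi / 6)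
    (f := fun y : ℝ => FF c x₀ (((σ * R : ℝ) : ℂ) + (y:ℂ) * I))
    (C := (R + |x₀| + |C| + ‖hh c x₀‖) / Real.sinh (3 * R)) ?_
  · have h2 : |Real.pi / 6 - -(Real.pi / 6)| = Real.pi / 3 := by
      rw [abs_of_pos (by linarith)]; ring
    rwa [h2] at h1
  · intro y hy
    rw [uIoc_of_le (by linarith)] at hy
    have hy' : |y| ≤ Real.pi / 6 := abs_le.2 ⟨hy.1.le, hy.2⟩
    have hne : ((σ * R : ℝ) : ℂ) + (y:ℂ) * I ≠ 0 := by
      intro h
      have := congrArg Complex.re h
      simp at this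
      rcases this with h | h
      · rw [h] at hσ1; simp at hσ1
      · exact hR.ne' h
    rw [FF_eq _ _ hne, norm_div]
    have h3 : Real.sinh (3 * R) ≤ ‖sinh (3 * (((σ * R : ℝ) : ℂ) + (y:ℂ) * I))‖ := by
      have h4 := sinh3_normSq (σ * R) y
      have h5 : Real.sinh (3 * (σ * R)) ^ 2 = Real.sinh (3 * R) ^ 2 := by
        rcases hσ with h | h
        · rw [h, one_mul]
        · rw [h, show 3 * (-1 * R) = -(3 * R) by ring, Real.sinh_neg]; ring
      rw [h5] at h4
      have h6 := sq_nonneg (Real.sin (3 * y))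
      exact (abs_le_of_sq_le_sq' (by nlinarith) (norm_nonneg _)).2
    have h4 : ‖hh c (((σ * R : ℝ) : ℂ) + (y:ℂ) * I + x₀) - hh c x₀‖ ≤
        R + |x₀| + |C| + ‖hh c x₀‖ := by
      refine (norm_sub_le _ _).trans ?_
      have h5 := hC (((σ * R : ℝ) : ℂ) + (y:ℂ) * I + x₀) (by simpa using hy')
      have h6 : (((σ * R : ℝ) : ℂ) + (y:ℂ) * I + x₀).re = σ * R + x₀ := by simp
      rw [h6] at h5
      have h7 := abs_add_le (σ * R) x₀
      rw [abs_mul, hσ1, one_mul, abs_of_pos hR] at h7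
      have h8 := le_abs_self C
      linarith
    exact div_le_div₀ (by positivity) h4 hs h3

theorem G_zero (hc : c ∉ Sec6) (x₀ : ℝ) :
    ∫ x, (Kr x : ℂ) * (gg c x₀ x - 2 * hh c x₀) = 0 := by
  have hp := Real.pi_pos
  have hG := G_int hc x₀ (2 * hh c x₀)
  have h1 := intervalIntegral_tendsto_integral hG tendsto_neg_atTop_atBot
    (tendsto_id (α := ℝ) (x := atTop))
  have h2 := side_zero hc x₀ 1 (Or.inl rfl)
  have h3 := side_zero hc x₀ (-1) (Or.inr rfl)
  have key : ∀ R : ℝ, 0 < R →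
      I * ((2 * Real.pi / 3 : ℝ) : ℂ) * (∫ x in (-R)..R, (Kr x : ℂ) * (gg c x₀ x - 2 * hh c x₀)) +
        I * (∫ y in (-(Real.pi / 6))..(Real.pi / 6), FF c x₀ (((1 * R : ℝ) : ℂ) + (y:ℂ) * I)) -
        I * (∫ y in (-(Real.pi / 6))..(Real.pi / 6), FF c x₀ (((-1 * R : ℝ) : ℂ) + (y:ℂ) * I)) = 0 := by
    intro R hR
    have h := integral_boundary_rect_eq_zero_of_differentiable_on_off_countable (FF c x₀)
      (((-R : ℝ) : ℂ) + ((-(Real.pi / 6) : ℝ) : ℂ) * I) ((R : ℂ) + ((Real.pi / 6 : ℝ) : ℂ) * I)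
      {0} (countable_singleton 0) ?_ ?_
    · have a1 : (((-R : ℝ) : ℂ) + ((-(Real.pi / 6) : ℝ) : ℂ) * I).re = -R := by simp
      have a2 : (((-R : ℝ) : ℂ) + ((-(Real.pi / 6) : ℝ) : ℂ) * I).im = -(Real.pi / 6) := by simp
      have a3 : ((R : ℂ) + ((Real.pi / 6 : ℝ) : ℂ) * I).re = R := by simp
      have a4 : ((R : ℂ) + ((Real.pi / 6 : ℝ) : ℂ) * I).im = Real.pi / 6 := by simp
      rw [a1, a2, a3, a4] at h
      have c1 : ∀ y : ℝ, |y| ≤ Real.pi / 6 → y ≠ 0 →
          IntervalIntegrable (fun x : ℝ => FF c x₀ ((x:ℂ) + (y:ℂ) * I)) volume (-R) R := by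
        intro y hy _
        refine Continuous.intervalIntegrable ?_ _ _
        rw [continuous_iff_continuousAt]
        intro x
        exact ContinuousAt.comp (f := fun x : ℝ => (x:ℂ) + (y:ℂ) * I) (g := FF c x₀)
          (FF_cont hc x₀ _ (by simpa using hy)) (by fun_prop)
      have b1 : (∫ x : ℝ in (-R)..R, FF c x₀ ((x:ℂ) + ((-(Real.pi / 6) : ℝ) : ℂ) * I)) -
          (∫ x : ℝ in (-R)..R, FF c x₀ ((x:ℂ) + ((Real.pi / 6 : ℝ) : ℂ) * I)) =
          I * ((2 * Real.pi / 3 : ℝ) : ℂ) *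
            ∫ x in (-R)..R, (Kr x : ℂ) * (gg c x₀ x - 2 * hh c x₀) := by
        have d1 : |(-(Real.pi / 6))| ≤ Real.pi / 6 := by
          rw [abs_neg, abs_of_pos (by positivity)]
        have d2 : |Real.pi / 6| ≤ Real.pi / 6 := by rw [abs_of_pos (by positivity)]
        have i1 := c1 (-(Real.pi / 6)) d1 (by linarith)
        have i2 := c1 (Real.pi / 6) d2 (by linarith)
        rw [← intervalIntegral.integral_sub i1 i2, ← intervalIntegral.integral_const_mul]
        congr 1; funext x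
        rw [FF_low, FF_up]
        unfold gg Kr
        have h1 : (Real.cosh (3 * x) : ℂ) ≠ 0 := by exact_mod_cast (Real.cosh_pos _).ne'
        have h2 : (Real.pi : ℂ) ≠ 0 := by exact_mod_cast hp.ne'
        push_cast
        push_cast at h1
        field_simp
        ring
      rw [b1] at h
      simp only [smul_eq_mul] at h
      have e1 : ((1 * R : ℝ) : ℂ) = (R:ℂ) := by simp
      have e2 : ((-1 * R : ℝ) : ℂ) = ((-R : ℝ) : ℂ) := by simp
      rw [e1, e2]
      exact h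
    · intro s hs
      refine (FF_cont hc x₀ s ?_).continuousWithinAt
      have := hs.2
      simp only [mem_preimage] at this
      have a2 : (((-R : ℝ) : ℂ) + ((-(Real.pi / 6) : ℝ) : ℂ) * I).im = -(Real.pi / 6) := by simp
      have a4 : ((R : ℂ) + ((Real.pi / 6 : ℝ) : ℂ) * I).im = Real.pi / 6 := by simp
      rw [a2, a4, uIcc_of_le (by linarith)] at this
      exact abs_le.2 this
    · intro s hs
      have h0 : s ≠ 0 := hs.2
      have := hs.1.2
      simp only [mem_preimage] at this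
      have a2 : (((-R : ℝ) : ℂ) + ((-(Real.pi / 6) : ℝ) : ℂ) * I).im = -(Real.pi / 6) := by simp
      have a4 : ((R : ℂ) + ((Real.pi / 6 : ℝ) : ℂ) * I).im = Real.pi / 6 := by simp
      rw [a2, a4, min_eq_left (by linarith), max_eq_right (by linarith)] at this
      exact FF_diff hc x₀ s (abs_le.2 ⟨this.1.le, this.2.le⟩) h0
  have hT := ((h1.const_mul (I * ((2 * Real.pi / 3 : ℝ) : ℂ))).add (h2.const_mul I)).sub
    (h3.const_mul I)
  have hz : Tendsto (fun _ : ℝ => (0:ℂ)) atTop (𝓝 0) := tendsto_const_nhds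
  have h4 := tendsto_nhds_unique (hT.congr' ?_) hz
  · rw [mul_zero, add_zero, sub_zero] at h4
    have h5 : I * ((2 * Real.pi / 3 : ℝ) : ℂ) ≠ 0 := by
      refine mul_ne_zero I_ne_zero ?_
      exact_mod_cast (show (2 * Real.pi / 3 : ℝ) ≠ 0 by positivity)
    exact (mul_eq_zero.1 h4).resolve_left h5
  · filter_upwards [eventually_gt_atTop 0] with R hR
    exact key R hR

theorem hh_eq (hc : c ∉ Sec6) (x₀ : ℝ) :
    hh c x₀ = ∫ x, (Kr x : ℂ) * gg c x₀ x := by
  have h1 := G_zero hc x₀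
  have i1 := G_int hc x₀ 0
  simp only [sub_zero] at i1
  have i2 : Integrable (fun x => (Kr x : ℂ) * (2 * hh c x₀)) :=
    (ConvAux.Kr_int.ofReal (𝕜 := ℂ)).mul_const _
  simp only [mul_sub] at h1
  rw [integral_sub i1 i2, integral_mul_const, integral_complex_ofReal, ConvAux.Kr_integral] at h1
  have : ((1 / 2 : ℝ) : ℂ) * (2 * hh c x₀) = hh c x₀ := by push_cast; ring
  rw [this] at h1
  linear_combination -h1

theorem hh_re (hc : c ∉ Sec6) (s : ℂ) (hs : |s.im| ≤ Real.pi / 6) :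
    (hh c s).re = Real.log ‖exp s - c‖ - Real.log ‖c‖ := by
  have hc0 := c_ne hc
  unfold hh
  rw [Complex.log_re]
  have h1 : ‖1 - exp s / c‖ = ‖exp s - c‖ / ‖c‖ := by
    rw [← norm_div, ← norm_neg, sub_div, div_self hc0, neg_sub]
  rw [h1, Real.log_div _ (norm_ne_zero_iff.2 hc0)]
  rw [norm_ne_zero_iff, sub_ne_zero]
  intro h
  exact hc (h ▸ exp_mem s hs)

/-- the property we prove, additive -/
def Good (f : ℂ → ℝ) : Prop := ∀ x : ℝ,
  Integrable (fun u : ℝ => Kr (x - u) * (f (u + (Real.pi / 6) * I) + f (u - (Real.pi / 6) * I))) ∧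
  f x = ∫ u : ℝ, Kr (x - u) * (f (u + (Real.pi / 6) * I) + f (u - (Real.pi / 6) * I))

theorem good_add {f g : ℂ → ℝ} (hf : Good f) (hg : Good g) : Good (fun s => f s + g s) := by
  intro x
  obtain ⟨i1, e1⟩ := hf x
  obtain ⟨i2, e2⟩ := hg x
  have h : (fun u : ℝ => Kr (x - u) * ((f (u + (Real.pi / 6) * I) + g (u + (Real.pi / 6) * I)) +
      (f (u - (Real.pi / 6) * I) + g (u - (Real.pi / 6) * I)))) =
      fun u : ℝ => Kr (x - u) * (f (u + (Real.pi / 6) * I) + f (u - (Real.pi / 6) * I)) +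
        Kr (x - u) * (g (u + (Real.pi / 6) * I) + g (u - (Real.pi / 6) * I)) := by
    funext u; ring
  constructor
  · rw [h]; exact i1.add i2
  · rw [h, integral_add i1 i2, ← e1, ← e2]

theorem good_const (a : ℝ) : Good (fun _ => a) := by
  intro x
  constructor
  · exact (ConvAux.Kr_int.comp_sub_left x).mul_const _
  · rw [integral_mul_const, integral_sub_left_eq_self (fun v => Kr v) volume x,
      ConvAux.Kr_integral]; ring

theorem good_lin (hc : c ∉ Sec6) : Good (fun s => Real.log ‖exp s - c‖) := by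
  have hp := Real.pi_pos
  have key : Good (fun s => Real.log ‖exp s - c‖ - Real.log ‖c‖) := by
    intro x
    have d1 : ∀ u : ℝ, |((u:ℂ) + (Real.pi / 6) * I).im| ≤ Real.pi / 6 := by
      intro u
      have : ((u:ℂ) + (Real.pi / 6) * I) = (u:ℂ) + ((Real.pi / 6 : ℝ) : ℂ) * I := by push_cast; ring
      rw [this]; simp [abs_of_pos (show (0:ℝ) < Real.pi / 6 by positivity)]
    have d2 : ∀ u : ℝ, |((u:ℂ) - (Real.pi / 6) * I).im| ≤ Real.pi / 6 := by
      intro u
      have : ((u:ℂ) - (Real.pi / 6) * I) = (u:ℂ) + ((-(Real.pi / 6) : ℝ) : ℂ) * I := by push_cast; ring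
      rw [this]; simp [abs_of_pos (show (0:ℝ) < Real.pi / 6 by positivity)]
    have i1 := G_int hc x 0
    simp only [sub_zero] at i1
    have e1 := hh_eq hc x
    have e2 := congrArg Complex.re e1
    have hre : ∀ v : ℝ, ((Kr v : ℂ) * gg c x v).re = Kr v *
        ((Real.log ‖exp (((v + x : ℝ) : ℂ) + (Real.pi / 6) * I) - c‖ - Real.log ‖c‖) +
         (Real.log ‖exp (((v + x : ℝ) : ℂ) - (Real.pi / 6) * I) - c‖ - Real.log ‖c‖)) := by
      intro v
      rw [Complex.re_ofReal_mul]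
      congr 1
      unfold gg
      rw [Complex.add_re]
      have f1 : (v:ℂ) + ((-(Real.pi / 6) : ℝ) : ℂ) * I + x = ((v + x : ℝ) : ℂ) - (Real.pi / 6) * I := by
        push_cast; ring
      have f2 : (v:ℂ) + ((Real.pi / 6 : ℝ) : ℂ) * I + x = ((v + x : ℝ) : ℂ) + (Real.pi / 6) * I := by
        push_cast; ring
      rw [f1, f2, hh_re hc _ (d2 _), hh_re hc _ (d1 _)]
      ring
    have i2 : Integrable (fun v : ℝ => ((Kr v : ℂ) * gg c x v).re) := i1.re
    simp_rw [hre] at i2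
    have i3 := i2.comp_sub_right x
    have hsh : ∀ u : ℝ, Kr (u - x) * ((Real.log ‖exp (((u - x + x : ℝ) : ℂ) + (Real.pi / 6) * I) - c‖ - Real.log ‖c‖) +
         (Real.log ‖exp (((u - x + x : ℝ) : ℂ) - (Real.pi / 6) * I) - c‖ - Real.log ‖c‖)) =
        Kr (x - u) * ((Real.log ‖exp ((u : ℂ) + (Real.pi / 6) * I) - c‖ - Real.log ‖c‖) +
         (Real.log ‖exp ((u : ℂ) - (Real.pi / 6) * I) - c‖ - Real.log ‖c‖)) := by
      intro u
      rw [show u - x + x = u by ring, show u - x = -(x - u) by ring, ConvAux.Kr_neg]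
    constructor
    · refine i3.congr (Eventually.of_forall fun u => ?_)
      exact hsh u
    · have e3 : (hh c x).re = Real.log ‖exp (x:ℂ) - c‖ - Real.log ‖c‖ :=
        hh_re hc _ (by simp; positivity)
      show Real.log ‖exp (x:ℂ) - c‖ - Real.log ‖c‖ = _
      rw [← e3, e2]
      have e4 : (∫ v, (Kr v : ℂ) * gg c x v).re = ∫ v, ((Kr v : ℂ) * gg c x v).re :=
        (integral_re i1).symm
      rw [e4]
      simp_rw [hre]
      rw [← integral_sub_right_eq_self _ x]
      congr 1; funext u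
      exact hsh u
  have h := good_add key (good_const (Real.log ‖c‖))
  simpa using h

theorem good_multiset (m : Multiset ℂ) (hm : ∀ r ∈ m, r ∉ Sec6) :
    Good (fun s => (m.map fun r => Real.log ‖exp s - r‖).sum) := by
  induction m using Multiset.induction_on with
  | empty => simpa using good_const 0
  | cons a m ih =>
    simp only [Multiset.map_cons, Multiset.sum_cons]
    exact good_add (good_lin (hm a (Multiset.mem_cons_self a m)))
      (ih fun r hr => hm r (Multiset.mem_cons_of_mem hr))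

theorem log_norm_prod (m : Multiset ℂ) (z : ℂ) (hz : ∀ r ∈ m, z ≠ r) :
    Real.log ‖(m.map fun r => z - r).prod‖ = (m.map fun r => Real.log ‖z - r‖).sum := by
  induction m using Multiset.induction_on with
  | empty => simp
  | cons a m ih =>
    simp only [Multiset.map_cons, Multiset.sum_cons, Multiset.prod_cons]
    have h1 : z - a ≠ 0 := sub_ne_zero.2 (hz a (Multiset.mem_cons_self a m))
    have h2 : (m.map fun r => z - r).prod ≠ 0 := by
      intro h
      rw [Multiset.prod_eq_zero_iff, Multiset.mem_map] at h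
      obtain ⟨r, hr, h0⟩ := h
      exact hz r (Multiset.mem_cons_of_mem hr) (sub_eq_zero.1 h0)
    rw [norm_mul, Real.log_mul (norm_ne_zero_iff.2 h1) (norm_ne_zero_iff.2 h2),
      ih fun r hr => hz r (Multiset.mem_cons_of_mem hr)]

theorem good_poly (P : Polynomial ℂ) (hP : ∀ z ∈ Sec6, P.eval z ≠ 0) (x : ℝ) :
    Integrable (fun u : ℝ => Kr (x - u) *
      (Real.log ‖P.eval (Complex.exp (u + (Real.pi / 6) * Complex.I))‖ +
       Real.log ‖P.eval (Complex.exp (u - (Real.pi / 6) * Complex.I))‖)) ∧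
    Real.log ‖P.eval (Complex.exp x)‖ = ∫ u : ℝ, Kr (x - u) *
      (Real.log ‖P.eval (Complex.exp (u + (Real.pi / 6) * Complex.I))‖ +
       Real.log ‖P.eval (Complex.exp (u - (Real.pi / 6) * Complex.I))‖) := by
  have hp := Real.pi_pos
  have hP0 : P ≠ 0 := by
    rintro rfl; exact hP 0 zero_mem_Sec6 (by simp)
  have hroots : ∀ r ∈ P.roots, r ∉ Sec6 := by
    intro r hr h
    exact hP r h ((Polynomial.mem_roots hP0).1 hr)
  have hprod : ∀ z : ℂ, P.eval z = P.leadingCoeff * (P.roots.map fun r => z - r).prod := by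
    intro z
    have h1 := (IsAlgClosed.splits P).eq_prod_roots
    conv_lhs => rw [h1]
    rw [Polynomial.eval_mul, Polynomial.eval_C, Polynomial.eval_multiset_prod, Multiset.map_map]
    simp
  have hlog : ∀ s : ℂ, |s.im| ≤ Real.pi / 6 → Real.log ‖P.eval (exp s)‖ =
      Real.log ‖P.leadingCoeff‖ + (P.roots.map fun r => Real.log ‖exp s - r‖).sum := by
    intro s hs
    have hz : ∀ r ∈ P.roots, exp s ≠ r := by
      intro r hr h
      exact hroots r hr (h ▸ exp_mem s hs)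
    have h2 : (P.roots.map fun r => exp s - r).prod ≠ 0 := by
      have h3 := hP _ (exp_mem s hs)
      rw [hprod] at h3
      exact right_ne_zero_of_mul h3
    rw [hprod, norm_mul, Real.log_mul (norm_ne_zero_iff.2 (Polynomial.leadingCoeff_ne_zero.2 hP0))
      (norm_ne_zero_iff.2 h2), log_norm_prod _ _ hz]
  have hg := good_add (good_const (Real.log ‖P.leadingCoeff‖)) (good_multiset P.roots hroots) x
  have d1 : ∀ u : ℝ, |((u:ℂ) + (Real.pi / 6) * I).im| ≤ Real.pi / 6 := by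
    intro u
    have : ((u:ℂ) + (Real.pi / 6) * I) = (u:ℂ) + ((Real.pi / 6 : ℝ) : ℂ) * I := by push_cast; ring
    rw [this]; simp [abs_of_pos (show (0:ℝ) < Real.pi / 6 by positivity)]
  have d2 : ∀ u : ℝ, |((u:ℂ) - (Real.pi / 6) * I).im| ≤ Real.pi / 6 := by
    intro u
    have : ((u:ℂ) - (Real.pi / 6) * I) = (u:ℂ) + ((-(Real.pi / 6) : ℝ) : ℂ) * I := by push_cast; ring
    rw [this]; simp [abs_of_pos (show (0:ℝ) < Real.pi / 6 by positivity)]
  have hfun : (fun u : ℝ => Kr (x - u) *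
      (Real.log ‖P.eval (Complex.exp (u + (Real.pi / 6) * Complex.I))‖ +
       Real.log ‖P.eval (Complex.exp (u - (Real.pi / 6) * Complex.I))‖)) =
      fun u : ℝ => Kr (x - u) *
      ((Real.log ‖P.leadingCoeff‖ + (P.roots.map fun r => Real.log ‖exp (u + (Real.pi / 6) * I) - r‖).sum) +
       (Real.log ‖P.leadingCoeff‖ + (P.roots.map fun r => Real.log ‖exp (u - (Real.pi / 6) * I) - r‖).sum)) := by
    funext u
    rw [hlog _ (d1 u), hlog _ (d2 u)]
  rw [hfun, hlog (x:ℂ) (by simp; positivity)]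
  exact hg

end EP.StripAux

namespace EP
open Polynomial Filter Topology MeasureTheory

theorem Kr_integral : ∫ x, Kr x = 1 / 2 :=
  ConvAux.Kr_integral

theorem Kr_integrable : Integrable Kr :=
  ConvAux.Kr_int

/-- `log ‖P (exp x)‖ = K * (log ‖P (exp (· + iπ/6))‖ + log ‖P (exp (· - iπ/6))‖)` -/
theorem strip_poly (P : ℂ[X]) (hP : ∀ z ∈ Sec6, P.eval z ≠ 0) (x : ℝ) :
    Integrable (fun u : ℝ => Kr (x - u) *
      (Real.log ‖P.eval (Complex.exp (u + (Real.pi / 6) * Complex.I))‖ +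
       Real.log ‖P.eval (Complex.exp (u - (Real.pi / 6) * Complex.I))‖)) ∧
    Real.log ‖P.eval (Complex.exp x)‖ = ∫ u : ℝ, Kr (x - u) *
      (Real.log ‖P.eval (Complex.exp (u + (Real.pi / 6) * Complex.I))‖ +
       Real.log ‖P.eval (Complex.exp (u - (Real.pi / 6) * Complex.I))‖) :=
  StripAux.good_poly P hP x

end EP
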