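import Pool.Agent.Helper86.EP.Strip
import Pool.Agent.Helper86.EP.Bounds

/-! The integral equations (module TBA). -/

namespace EP
open Polynomial Filter Topology MeasureTheory

structure TBA (N : ℕ) (k2 G : ℝ) (g y : ℝ → ℝ) : Prop where
  gcont : Continuous g
  ycont : Continuous y
  geven : ∀ x, g (-x) = g x
  yeven : ∀ x, y (-x) = y x
  gpos : ∀ x, 0 < g x
  y1 : ∀ x, -1 < y x
  y0 : ∀ x, x ≠ 0 → y x ≠ 0
  glim : Tendsto g atTop (𝓝 G)
  ylim : Tendsto y atTop (𝓝 (G ^ 2 - 1))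
  t1 : ∀ x, Real.log (g x) = ∫ u, Kr (x - u) * Real.log (1 + y u)
  t2 : ∀ x, x ≠ 0 → Real.log |y x| = N * Real.log |th x| + Real.log (2 / (1 + th x ^ 2)) +
    ∫ u, Kr (x - u) * Real.log ((1 - g u) ^ 2 * Real.tanh (3 * u) ^ 2 + k2 * g u)

theorem th_exp (x : ℝ) : th x = (Real.exp x ^ 3 - 1) / (Real.exp x ^ 3 + 1) := by
  unfold th
  have h1 : Real.exp (2 * (3 * x / 2)) = Real.exp x ^ 3 := by
    rw [← Real.exp_nat_mul]
    congr 1
    push_cast
    ring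
  rw [tanh_exp, h1]

theorem th_ne {x : ℝ} (hx : x ≠ 0) : th x ≠ 0 := by
  rw [th_exp, div_ne_zero_iff]
  have h0 := Real.exp_pos x
  refine ⟨?_, by positivity⟩
  intro h1
  have h2 : Real.exp x ^ 3 = 1 := by linarith
  have h3 : Real.exp x = 1 := (pow_eq_one_iff_of_nonneg h0.le (by norm_num)).1 h2
  exact hx ((Real.exp_eq_one_iff x).1 h3)

/-- `|y| = t ^ N h |yP / yR|` on the real line -/
theorem yx_abs_eq {L : ℕ} {q : ℝ} {p : ℝ[X]} (h : Sol L q p) (x : ℝ) :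
    |yx L p x| * ‖(yR L).eval (Complex.exp x)‖ =
      |th x| ^ (2 * L + 2) * (2 / (1 + th x ^ 2)) * ‖(yP L p).eval (Complex.exp x)‖ := by
  rw [← Complex.ofReal_exp]
  set o := Real.exp x with ho
  have ho0 : 0 < o := Real.exp_pos x
  have hz : Real.exp (2 * x) = o ^ 2 := by
    rw [ho, ← Real.exp_nat_mul]; norm_num
  have r1 : ‖(yP L p).eval (o : ℂ)‖ = ‖(Qp L p).eval ((o : ℂ) ^ 2)‖ * (o + 1) ^ (2 * L + 2) *
      (o ^ 3 + 1) ^ (2 * L) := by
    rw [yP_eval, norm_mul, norm_mul, norm_pow, norm_pow]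
    congr 2
    · congr 2
      have : (o : ℂ) + 1 = ((o + 1 : ℝ) : ℂ) := by push_cast; ring
      rw [this, Complex.norm_real, Real.norm_of_nonneg (by positivity)]
    · have : (o : ℂ) ^ 3 + 1 = ((o ^ 3 + 1 : ℝ) : ℂ) := by push_cast; ring
      rw [this, Complex.norm_real, Real.norm_of_nonneg (by positivity)]
  have r2 : ‖(yR L).eval (o : ℂ)‖ = (o ^ 2 + o + 1) ^ (2 * L + 2) *
      (1 + o ^ 2 + o ^ 4) ^ (2 * L) * (o ^ 2 + 1) := by
    have : (yR L).eval (o : ℂ) = (((o ^ 2 + o + 1) ^ (2 * L + 2) *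
      (1 + o ^ 2 + o ^ 4) ^ (2 * L) * (o ^ 2 + 1) : ℝ) : ℂ) := by
      rw [yR_eval]; push_cast; ring
    rw [this, Complex.norm_real, Real.norm_of_nonneg (by positivity)]
  rw [r1, r2]
  have hn : ‖aeval (CC.w * (Real.exp (2 * x) : ℝ)) (nu L)‖ ^ 2 =
      (1 + o ^ 2 + o ^ 4) ^ (2 * L) * (o ^ 2 + 1) * (o ^ 6 + 1) := by
    have h1 := nu_rot L ((Real.exp (2 * x) : ℝ) : ℂ)
    have hw1 : ∀ r : ℝ[X], aeval (CC.w * (Real.exp (2 * x) : ℝ)) r *
        aeval ((1 - CC.w) * (Real.exp (2 * x) : ℝ)) r =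
          ((‖aeval (CC.w * (Real.exp (2 * x) : ℝ)) r‖ ^ 2 : ℝ) : ℂ) := by
      intro r
      have e1 : ((1 - CC.w) * ((Real.exp (2 * x) : ℝ) : ℂ)) =
          (starRingEnd ℂ) (CC.w * (Real.exp (2 * x) : ℝ)) := by
        rw [map_mul, conj_w, Complex.conj_ofReal]
      rw [e1, aeval_conj', Complex.mul_conj, Complex.normSq_eq_norm_sq]
    rw [hw1] at h1
    rw [hz] at h1 ⊢
    have h2 : (((‖aeval (CC.w * ((o ^ 2 : ℝ) : ℂ)) (nu L)‖ ^ 2 : ℝ)) : ℂ) =
        (((1 + o ^ 2 + o ^ 4) ^ (2 * L) * (o ^ 2 + 1) * (o ^ 6 + 1) : ℝ) : ℂ) := by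
      rw [h1]; push_cast; ring
    exact_mod_cast h2
  have hY := yx_real h x
  rw [hn, hz] at hY
  have hQ : ‖(Qp L p).eval ((o : ℂ) ^ 2)‖ = |((Qp L p).eval ((o ^ 2 : ℝ) : ℂ)).re| := by
    have h1 := Qp_im h (o ^ 2)
    have h2 : (Qp L p).eval ((o ^ 2 : ℝ) : ℂ) =
        ((((Qp L p).eval ((o ^ 2 : ℝ) : ℂ)).re : ℝ) : ℂ) := by
      apply Complex.ext
      · rfl
      · rw [h1, Complex.ofReal_im]
    rw [← Complex.ofReal_pow]
    rw [h2, Complex.norm_real, Real.norm_eq_abs, Complex.ofReal_re]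
  have hY' : |yx L p x| * ((1 + o ^ 2 + o ^ 4) ^ (2 * L) * (o ^ 2 + 1) * (o ^ 6 + 1)) =
      |o ^ 2 - 1| ^ (2 * L + 2) * ‖(Qp L p).eval ((o : ℂ) ^ 2)‖ := by
    rw [hQ, ← abs_pow, ← abs_mul, ← hY, abs_mul, abs_of_pos
      (show 0 < (1 + o ^ 2 + o ^ 4) ^ (2 * L) * (o ^ 2 + 1) * (o ^ 6 + 1) by positivity)]
  have hh : 2 / (1 + th x ^ 2) = (o ^ 3 + 1) ^ 2 / (o ^ 6 + 1) := by
    rw [th_exp, div_pow]
    have h1 : 0 < o ^ 3 + 1 := by positivity
    have h2 : 0 < o ^ 6 + 1 := by positivity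
    rw [div_eq_div_iff (by positivity) h2.ne']
    field_simp
    ring
  rw [hh, th_exp, abs_div, abs_of_pos (show 0 < Real.exp x ^ 3 + 1 by positivity), div_pow, ← ho]
  have e1 : |o ^ 2 - 1| = |o - 1| * (o + 1) := by
    rw [show o ^ 2 - 1 = (o - 1) * (o + 1) by ring, abs_mul,
      abs_of_pos (show 0 < o + 1 by positivity)]
  have e2 : |o ^ 3 - 1| = |o - 1| * (o ^ 2 + o + 1) := by
    rw [show o ^ 3 - 1 = (o - 1) * (o ^ 2 + o + 1) by ring, abs_mul,
      abs_of_pos (show 0 < o ^ 2 + o + 1 by positivity)]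
  have h6 : 0 < o ^ 6 + 1 := by positivity
  refine mul_right_cancel₀ h6.ne' ?_
  have f1 : |yx L p x| * ((o ^ 2 + o + 1) ^ (2 * L + 2) * (1 + o ^ 2 + o ^ 4) ^ (2 * L) *
      (o ^ 2 + 1)) * (o ^ 6 + 1) = |yx L p x| * ((1 + o ^ 2 + o ^ 4) ^ (2 * L) * (o ^ 2 + 1) *
      (o ^ 6 + 1)) * (o ^ 2 + o + 1) ^ (2 * L + 2) := by ring
  rw [f1, hY', e1, e2, mul_pow, mul_pow, pow_add (o ^ 3 + 1) (2 * L) 2]
  field_simp

/-- palindromic polynomials -/
theorem pal_eval {N : ℕ} {p : ℝ[X]} (hd : p.natDegree ≤ N)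
    (hp : ∀ k ≤ N, p.coeff (N - k) = p.coeff k) (z : ℂ) (hz : z ≠ 0) :
    aeval z⁻¹ p * z ^ N = aeval z p := by
  rw [aeval_eq_sum_range' (Nat.lt_succ_of_le hd), aeval_eq_sum_range' (Nat.lt_succ_of_le hd),
    Finset.sum_mul, ← Finset.sum_range_reflect]
  refine Finset.sum_congr rfl fun k hk => ?_
  rw [Finset.mem_range] at hk
  have hkN : k ≤ N := by omega
  have e1 : N.succ - 1 - k = N - k := by omega
  rw [e1, hp k hkN, smul_mul_assoc]
  congr 1
  have e2 : z ^ N = z ^ (N - k) * z ^ k := by rw [← pow_add]; congr 1; omega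
  rw [e2, ← mul_assoc, ← mul_pow, inv_mul_cancel₀ hz, one_pow, one_mul]

theorem nu_inv (L : ℕ) (z : ℂ) (hz : z ≠ 0) :
    aeval z⁻¹ (nu L) * z ^ (2 * L + 2) = aeval z (nu L) := by
  rw [nu_eval, nu_eval, pow_add]
  have e1 : (1 + z⁻¹) ^ (2 * L) * z ^ (2 * L) = (1 + z) ^ (2 * L) := by
    rw [← mul_pow]
    congr 1
    field_simp
    ring
  have e2 : (z⁻¹ ^ 2 + z⁻¹ + 1) * z ^ 2 = z ^ 2 + z + 1 := by
    field_simp
    ring
  linear_combination (z⁻¹ ^ 2 + z⁻¹ + 1) * z ^ 2 * e1 + (1 + z) ^ (2 * L) * e2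

theorem gx_aeval (L : ℕ) (p : ℝ[X]) (x : ℝ) : ((gx L p x : ℝ) : ℂ) =
    aeval ((Real.exp (2 * x) : ℝ) : ℂ) p / aeval ((Real.exp (2 * x) : ℝ) : ℂ) (nu L) := by
  rw [aeval_ofReal', aeval_ofReal']
  unfold gx
  push_cast
  rfl

theorem gx_even {L : ℕ} {q : ℝ} {p : ℝ[X]} (h : Sol L q p) (x : ℝ) : gx L p (-x) = gx L p x := by
  have h1 : ((gx L p (-x) : ℝ) : ℂ) = ((gx L p x : ℝ) : ℂ) := by
    rw [gx_aeval, gx_aeval]
    set z : ℂ := ((Real.exp (2 * x) : ℝ) : ℂ) with hz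
    have hz0 : z ≠ 0 := by rw [hz]; exact_mod_cast (Real.exp_pos _).ne'
    have e : ((Real.exp (2 * -x) : ℝ) : ℂ) = z⁻¹ := by
      rw [hz, ← Complex.ofReal_inv, ← Real.exp_neg]
      congr 2
      ring
    have hN : z ^ (2 * L + 2) ≠ 0 := pow_ne_zero _ hz0
    rw [e, ← pal_eval h.deg h.pal z hz0, ← nu_inv L z hz0, mul_div_mul_right _ _ hN]
  exact_mod_cast h1

theorem norm_w : ‖CC.w‖ = 1 := by
  rw [w_exp, Complex.norm_exp_ofReal_mul_I]

theorem yx_even {L : ℕ} {q : ℝ} {p : ℝ[X]} (h : Sol L q p) (x : ℝ) : yx L p (-x) = yx L p x := by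
  have key : ∀ r : ℝ[X], (∀ z : ℂ, z ≠ 0 → aeval z⁻¹ r * z ^ (2 * L + 2) = aeval z r) →
      ‖aeval (CC.w * (Real.exp (2 * -x) : ℝ)) r‖ * Real.exp (2 * x) ^ (2 * L + 2) =
        ‖aeval (CC.w * (Real.exp (2 * x) : ℝ)) r‖ := by
    intro r hr
    set z : ℂ := (starRingEnd ℂ) (CC.w * ((Real.exp (2 * x) : ℝ) : ℂ)) with hz
    have hz0 : z ≠ 0 := by
      rw [hz, _root_.map_ne_zero]
      refine mul_ne_zero CC.w_ne_zero ?_
      exact_mod_cast (Real.exp_pos _).ne'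
    have e : CC.w * ((Real.exp (2 * -x) : ℝ) : ℂ) = z⁻¹ := by
      rw [hz, map_mul, conj_w, Complex.conj_ofReal, mul_inv, ← CC.w_inv, inv_inv,
        ← Complex.ofReal_inv, ← Real.exp_neg]
      congr 3
      ring
    have h1 := congrArg norm (hr z hz0)
    rw [norm_mul, norm_pow, ← e] at h1
    have h2 : ‖z‖ = Real.exp (2 * x) := by
      rw [hz, Complex.norm_conj, norm_mul, norm_w, one_mul, Complex.norm_real,
        Real.norm_of_nonneg (Real.exp_pos _).le]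
    have h3 : ‖aeval z r‖ = ‖aeval (CC.w * ((Real.exp (2 * x) : ℝ) : ℂ)) r‖ := by
      rw [hz, norm_aeval_conj]
    rw [h2, h3] at h1
    exact h1
  have h1 := key p (fun z hz => pal_eval h.deg h.pal z hz)
  have h2 := key (nu L) (fun z hz => nu_inv L z hz)
  have hE : 0 < Real.exp (2 * x) ^ (2 * L + 2) := by positivity
  unfold yx
  rw [← h1, ← h2, mul_pow, mul_pow, mul_div_mul_right _ _ (by positivity)]

theorem gx_cont (L : ℕ) (p : ℝ[X]) : Continuous (gx L p) := by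
  unfold gx
  have he : Continuous fun x : ℝ => Real.exp (2 * x) := by fun_prop
  exact (p.continuous.comp he).div ((nu L).continuous.comp he)
    fun x => (nu_real_pos L (Real.exp_pos (2 * x)).le).ne'

theorem aeval_cont (r : ℝ[X]) : Continuous fun z : ℂ => aeval z r := by
  have : (fun z : ℂ => aeval z r) = fun z => (r.map (algebraMap ℝ ℂ)).eval z := by
    funext z
    rw [eval_map_algebraMap]
  rw [this]
  exact Polynomial.continuous _

theorem yx_cont (L : ℕ) (p : ℝ[X]) : Continuous (yx L p) := by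
  have he : Continuous fun x : ℝ => CC.w * ((Real.exp (2 * x) : ℝ) : ℂ) :=
    continuous_const.mul (Complex.continuous_ofReal.comp (by fun_prop))
  unfold yx
  exact ((((aeval_cont p).comp he).norm.pow 2).div ((((aeval_cont (nu L)).comp he).norm).pow 2)
    fun x => (nu_norm_pos L x).ne').sub continuous_const

theorem exp_neg_lim : Tendsto (fun x : ℝ => Real.exp (2 * -x)) atTop (𝓝 0) := by
  have h1 : Tendsto (fun x : ℝ => 2 * -x) atTop atBot := by
    have : Tendsto (fun x : ℝ => 2 * x) atTop atTop := tendsto_id.const_mul_atTop two_pos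
    have h2 := tendsto_neg_atTop_atBot.comp this
    refine h2.congr fun x => ?_
    simp
  exact Real.tendsto_exp_atBot.comp h1

theorem sol_zero {L : ℕ} {q : ℝ} {p : ℝ[X]} (h : Sol L q p) : aeval (0:ℂ) p = ((3 * q - 2 : ℝ) : ℂ) := by
  rw [← coeff_zero_eq_aeval_zero', h.zero]
  rfl

theorem gx_lim {L : ℕ} {q : ℝ} {p : ℝ[X]} (h : Sol L q p) : Tendsto (gx L p) atTop (𝓝 (3 * q - 2)) := by
  have h1 : Tendsto (fun x => gx L p (-x)) atTop (𝓝 (p.eval 0 / (nu L).eval 0)) := by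
    unfold gx
    refine Tendsto.div ((p.continuous.tendsto 0).comp exp_neg_lim)
      (((nu L).continuous.tendsto 0).comp exp_neg_lim) ?_
    exact (nu_real_pos L le_rfl).ne'
  have h2 : p.eval 0 / (nu L).eval 0 = 3 * q - 2 := by
    rw [← coeff_zero_eq_eval_zero, h.zero, nu_real]
    simp
  rw [h2] at h1
  exact h1.congr fun x => gx_even h x

theorem yx_lim {L : ℕ} {q : ℝ} {p : ℝ[X]} (h : Sol L q p) :
    Tendsto (yx L p) atTop (𝓝 ((3 * q - 2) ^ 2 - 1)) := by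
  have he : Tendsto (fun x : ℝ => CC.w * ((Real.exp (2 * -x) : ℝ) : ℂ)) atTop (𝓝 0) := by
    have := ((Complex.continuous_ofReal.tendsto 0).comp exp_neg_lim).const_mul CC.w
    simpa using this
  have hn0 : aeval (0:ℂ) (nu L) = 1 := by rw [nu_eval]; simp
  have h1 : Tendsto (fun x => yx L p (-x)) atTop
      (𝓝 (‖aeval (0:ℂ) p‖ ^ 2 / ‖aeval (0:ℂ) (nu L)‖ ^ 2 - 1)) := by
    unfold yx
    refine Tendsto.sub_const ?_ 1
    refine Tendsto.div (((((aeval_cont p).tendsto 0).comp he).norm).pow 2)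
      (((((aeval_cont (nu L)).tendsto 0).comp he).norm).pow 2) ?_
    rw [hn0]
    norm_num
  rw [hn0, sol_zero h, Complex.norm_real, Real.norm_eq_abs, sq_abs, norm_one, one_pow, div_one] at h1
  exact h1.congr fun x => yx_even h x

theorem yP_ne_zero {L : ℕ} {p : ℝ[X]} (hg : Good L p) {u : ℂ} (hu : u ∈ Sec6) :
    (yP L p).eval u ≠ 0 := by
  have h1 := yR_ne_zero (L := 1) hu
  rw [yR_eval] at h1
  have h2 := right_ne_zero_of_mul (left_ne_zero_of_mul h1)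
  have h3 : 1 + u ^ 2 + u ^ 4 ≠ 0 := by
    intro h0
    rw [h0] at h2
    exact h2 (zero_pow (by norm_num))
  have h4 : 1 + u ^ 2 + u ^ 4 = (u ^ 2 + u + 1) * (u ^ 2 - u + 1) := by ring
  rw [h4] at h3
  have h5 := right_ne_zero_of_mul h3
  have hre := Sec6_re hu
  have h6 : u + 1 ≠ 0 := by
    intro h0
    have := congrArg Complex.re h0
    simp at this
    linarith
  have h7 : u ^ 3 + 1 = (u + 1) * (u ^ 2 - u + 1) := by ring
  rw [yP_eval, h7]
  exact mul_ne_zero (mul_ne_zero (hg.2 _ (sq_mem_Sec hu)) (pow_ne_zero _ h6))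
    (pow_ne_zero _ (mul_ne_zero h6 h5))

/-- the formula of the strip for a ratio of polynomials with real coefficients -/
theorem strip_ratio (P R : ℂ[X]) (hP : ∀ z ∈ Sec6, P.eval z ≠ 0) (hR : ∀ z ∈ Sec6, R.eval z ≠ 0)
    (cP : ∀ z, P.eval ((starRingEnd ℂ) z) = (starRingEnd ℂ) (P.eval z))
    (cR : ∀ z, R.eval ((starRingEnd ℂ) z) = (starRingEnd ℂ) (R.eval z)) (f : ℝ → ℝ)
    (hf : ∀ x : ℝ, ‖P.eval (Complex.exp (x + (1 : ℝ) * (Real.pi / 6) * Complex.I))‖ ^ 2 =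
      f x * ‖R.eval (Complex.exp (x + (1 : ℝ) * (Real.pi / 6) * Complex.I))‖ ^ 2) (x : ℝ) :
    Real.log ‖P.eval (Complex.exp x)‖ - Real.log ‖R.eval (Complex.exp x)‖ =
      ∫ u, Kr (x - u) * Real.log (f u) := by
  obtain ⟨iP, eP⟩ := strip_poly P hP x
  obtain ⟨iR, eR⟩ := strip_poly R hR x
  rw [eP, eR, ← integral_sub iP iR]
  refine integral_congr_ae (Eventually.of_forall fun u => ?_)
  have b1 : Complex.exp (u + (Real.pi / 6) * Complex.I) =
      Complex.exp (u + (1 : ℝ) * (Real.pi / 6) * Complex.I) := by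
    congr 1; push_cast; ring
  have b2 : Complex.exp (u - (Real.pi / 6) * Complex.I) =
      (starRingEnd ℂ) (Complex.exp (u + (1 : ℝ) * (Real.pi / 6) * Complex.I)) := by
    rw [← bdry_conj]
    congr 1; push_cast; ring
  simp only
  rw [b1, b2, cP, cR, Complex.norm_conj, Complex.norm_conj]
  have hmem : Complex.exp (u + (1 : ℝ) * (Real.pi / 6) * Complex.I) ∈ Sec6 := by
    have := exp_mem_Sec6 (x := u) (y := Real.pi / 6) (by
      rw [abs_of_nonneg (by have := Real.pi_pos; positivity)])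
    convert this using 2
    push_cast
    ring
  set a := ‖P.eval (Complex.exp (u + (1 : ℝ) * (Real.pi / 6) * Complex.I))‖ with ha
  set b := ‖R.eval (Complex.exp (u + (1 : ℝ) * (Real.pi / 6) * Complex.I))‖ with hb
  have ha0 : 0 < a := norm_pos_iff.2 (hP _ hmem)
  have hb0 : 0 < b := norm_pos_iff.2 (hR _ hmem)
  have h1 : f u = a ^ 2 / b ^ 2 := by
    rw [eq_div_iff (by positivity)]
    exact (hf u).symm
  rw [h1, Real.log_div (by positivity) (by positivity), Real.log_pow, Real.log_pow]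
  push_cast
  ring

theorem tba {L : ℕ} {q : ℝ} {p : ℝ[X]} (h : Sol L q p) (hg : Good L p) (hq : 2 / 3 < q)
    (hq1 : q ≠ 1) : TBA (2 * L + 2) (kap q) (3 * q - 2) (gx L p) (yx L p) := by
  have hreal : ∀ z : ℝ, 0 ≤ z → aeval (z : ℂ) p ≠ 0 := fun z hz => hg.1 _ (ofReal_mem_Sec hz)
  have hppos := p_pos h hq hreal
  have hpb : ∀ x, 0 < ‖aeval (CC.w * (Real.exp (2 * x) : ℝ)) p‖ ^ 2 := fun x =>
    pow_pos (norm_pos_iff.2 (hg.1 _ (w_mul_mem x))) _
  have hexp6 : ∀ x : ℝ, Complex.exp x ∈ Sec6 := by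
    intro x
    have := exp_mem_Sec6 (x := x) (y := 0) (by rw [abs_zero]; have := Real.pi_pos; positivity)
    simpa using this
  have habs : ∀ x, x ≠ 0 → 0 < |yx L p x| := by
    intro x hx
    have h1 := yx_abs_eq h x
    have h2 : 0 < |th x| := abs_pos.2 (th_ne hx)
    have h3 : 0 < ‖(yP L p).eval (Complex.exp x)‖ := norm_pos_iff.2 (yP_ne_zero hg (hexp6 x))
    have h4 : 0 < ‖(yR L).eval (Complex.exp x)‖ := norm_pos_iff.2 (yR_ne_zero (hexp6 x))
    have h5 : 0 < |yx L p x| * ‖(yR L).eval (Complex.exp x)‖ := by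
      rw [h1]
      positivity
    exact pos_of_mul_pos_left h5 h4.le
  refine ⟨gx_cont L p, yx_cont L p, gx_even h, yx_even h, ?_, ?_, ?_, gx_lim h, yx_lim h, ?_, ?_⟩
  · intro x
    exact div_pos (hppos _ (Real.exp_pos _).le) (nu_real_pos L (Real.exp_pos _).le)
  · intro x
    have := div_pos (hpb x) (nu_norm_pos L x)
    unfold yx
    linarith
  · intro x hx
    exact abs_pos.1 (habs x hx)
  · intro x
    have hcp : ∀ r : ℝ[X], ∀ z, (sqp r).eval ((starRingEnd ℂ) z) = (starRingEnd ℂ) ((sqp r).eval z) := by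
      intro r z
      rw [sqp_eval, sqp_eval, ← map_pow, aeval_conj']
    have key := strip_ratio (sqp p) (sqp (nu L)) (fun z hz => by
      rw [sqp_eval]; exact hg.1 _ (sq_mem_Sec hz)) (fun z hz => by
      rw [sqp_eval]; exact nu_ne_zero (sq_mem_Sec hz)) (hcp p) (hcp (nu L))
      (fun u => 1 + yx L p u) (fun u => by
        rw [norm_sqp_bdry _ _ _ (Or.inl rfl), norm_sqp_bdry _ _ _ (Or.inl rfl), yx_eq L p, add_comm]) x
    rw [← key]
    have e : Complex.exp x ^ 2 = ((Real.exp (2 * x) : ℝ) : ℂ) := by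
      rw [← Complex.exp_nat_mul, Complex.ofReal_exp]
      congr 1
      push_cast
      ring
    rw [sqp_eval, sqp_eval, e, aeval_ofReal', aeval_ofReal', Complex.norm_real, Complex.norm_real,
      Real.norm_of_nonneg (hppos _ (Real.exp_pos _).le).le,
      Real.norm_of_nonneg (nu_real_pos L (Real.exp_pos _).le).le]
    unfold gx
    rw [Real.log_div (hppos _ (Real.exp_pos _).le).ne' (nu_real_pos L (Real.exp_pos _).le).ne']
  · intro x hx
    have key := strip_ratio (yP L p) (yR L) (fun z hz => yP_ne_zero hg hz)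
      (fun z hz => yR_ne_zero hz) (yP_conj h) (yR_conj L)
      (fun u => (1 - gx L p u) ^ 2 * Real.tanh (3 * u) ^ 2 + kap q * gx L p u)
      (fun u => yP_bdry h u) x
    rw [← key]
    have h3 : 0 < ‖(yP L p).eval (Complex.exp x)‖ := norm_pos_iff.2 (yP_ne_zero hg (hexp6 x))
    have h4 : 0 < ‖(yR L).eval (Complex.exp x)‖ := norm_pos_iff.2 (yR_ne_zero (hexp6 x))
    have h2 : 0 < |th x| := abs_pos.2 (th_ne hx)
    have h5 : 0 < 2 / (1 + th x ^ 2) := by positivity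
    have h1 := congrArg Real.log (yx_abs_eq h x)
    rw [Real.log_mul (habs x hx).ne' h4.ne', Real.log_mul (by positivity) h3.ne',
      Real.log_mul (by positivity) h5.ne', Real.log_pow] at h1
    linarith

end EP
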