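import Pool.Agent.Helper86.EP.Tba
import Pool.Agent.Helper86.EP.Conv

/-! The dilogarithm trick at finite `N`: elementary functions (module TRICKA). -/

namespace EP
open Filter Topology MeasureTheory Set

theorem tk_cosh_pos (x : ℝ) : 0 < Real.cosh x := Real.cosh_pos x

theorem tk_th (x : ℝ) : th x = Real.sinh (3 * x / 2) / Real.cosh (3 * x / 2) := by
  unfold th
  rw [Real.tanh_eq_sinh_div_cosh]

theorem tk_one_sub (x : ℝ) : 1 - th x ^ 2 = 1 / Real.cosh (3 * x / 2) ^ 2 := by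
  have h := Real.cosh_sq (3 * x / 2)
  have h1 := (Real.cosh_pos (3 * x / 2)).ne'
  rw [tk_th, div_pow, eq_div_iff (pow_ne_zero 2 h1), sub_mul, div_mul_cancel₀ _ (pow_ne_zero 2 h1)]
  linarith

theorem tk_sinh (x : ℝ) : Real.sinh (3 * x) * (1 - th x ^ 2) = 2 * th x := by
  have h1 := (Real.cosh_pos (3 * x / 2)).ne'
  rw [tk_one_sub, tk_th, show 3 * x = 2 * (3 * x / 2) by ring, Real.sinh_two_mul,
    show 2 * (3 * x / 2) / 2 = 3 * x / 2 by ring]
  field_simp

theorem tk_cosh (x : ℝ) : Real.cosh (3 * x) * (1 - th x ^ 2) = 1 + th x ^ 2 := by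
  have h1 := (Real.cosh_pos (3 * x / 2)).ne'
  rw [tk_one_sub, tk_th, show 3 * x = 2 * (3 * x / 2) by ring, Real.cosh_two_mul,
    show 2 * (3 * x / 2) / 2 = 3 * x / 2 by ring]
  field_simp

theorem tk_th_deriv (x : ℝ) : HasDerivAt th (3 / 2 * (1 - th x ^ 2)) x := by
  have h1 := (Real.cosh_pos (3 * x / 2)).ne'
  have h2 : HasDerivAt (fun x : ℝ => 3 * x / 2) (3 / 2) x := by
    have := ((hasDerivAt_id x).const_mul 3).div_const 2
    simpa using this
  have h3 := (h2.sinh.div h2.cosh h1)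
  have h4 : th = fun x => Real.sinh (3 * x / 2) / Real.cosh (3 * x / 2) := by
    funext x; exact tk_th x
  rw [h4]
  refine h3.congr_deriv ?_
  have h5 := Real.cosh_sq (3 * x / 2)
  simp only
  have h6 : (1 : ℝ) - (Real.sinh (3 * x / 2) / Real.cosh (3 * x / 2)) ^ 2 =
      1 / Real.cosh (3 * x / 2) ^ 2 := by
    rw [← tk_th, tk_one_sub]
  rw [h6]
  field_simp
  linear_combination h5

theorem tk_th_cont : Continuous th :=
  continuous_iff_continuousAt.2 fun x => (tk_th_deriv x).continuousAt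

theorem tk_one_sub_pos (x : ℝ) : 0 < 1 - th x ^ 2 := by
  rw [tk_one_sub]
  have h1 := Real.cosh_pos (3 * x / 2)
  positivity

theorem tk_th_pos {x : ℝ} (hx : 0 < x) : 0 < th x := by
  have h1 := tk_sinh x
  have h2 := tk_one_sub_pos x
  have h3 : 0 < Real.sinh (3 * x) := Real.sinh_pos_iff.2 (by linarith)
  have := mul_pos h3 h2
  linarith

theorem tk_th_nonneg {x : ℝ} (hx : 0 ≤ x) : 0 ≤ th x := by
  rcases hx.eq_or_lt with rfl | h
  · unfold th; simp
  · exact (tk_th_pos h).le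

theorem tk_th_lt (x : ℝ) : th x < 1 := by
  have := tk_one_sub_pos x
  nlinarith

theorem tk_th_zero : th 0 = 0 := by unfold th; simp

theorem tk_th_lim : Tendsto th atTop (𝓝 1) := by
  have h1 : ∀ x, th x = 1 - 2 / (Real.exp x ^ 3 + 1) := by
    intro x
    rw [th_exp]
    have := Real.exp_pos x
    field_simp
    ring
  have h2 : Tendsto (fun x => 2 / (Real.exp x ^ 3 + 1)) atTop (𝓝 0) := by
    refine Tendsto.div_atTop tendsto_const_nhds ?_
    refine tendsto_atTop_add_const_right _ _ ?_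
    exact (tendsto_pow_atTop (by norm_num)).comp Real.tendsto_exp_atTop
  have h3 := h2.const_sub 1
  rw [sub_zero] at h3
  exact h3.congr fun x => (h1 x).symm

theorem tk_inv_cosh (x : ℝ) : 1 / Real.cosh (3 * x) ≤ 1 - th x ^ 2 := by
  have h1 := tk_cosh x
  have h2 := Real.cosh_pos (3 * x)
  rw [div_le_iff₀ h2]
  nlinarith [sq_nonneg (th x)]

theorem tk_exp_le {x : ℝ} (hx : 0 ≤ x) : Real.exp (-(3 * x)) ≤ 1 / Real.cosh (3 * x) := by
  have h2 := Real.cosh_pos (3 * x)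
  rw [le_div_iff₀ h2, Real.cosh_eq]
  have h3 : Real.exp (-(3 * x)) * Real.exp (3 * x) = 1 := by
    rw [← Real.exp_add]; simp
  have h4 : Real.exp (-(3 * x)) ≤ 1 := Real.exp_le_one_iff.2 (by linarith)
  have h5 := Real.exp_pos (-(3 * x))
  nlinarith

theorem tk_inv_sub {x : ℝ} (hx : 0 < x) :
    0 ≤ 1 / Real.sinh (3 * x) - 1 / Real.cosh (3 * x) ∧
    th x * (1 / Real.sinh (3 * x) - 1 / Real.cosh (3 * x)) ≤ (1 - th x) * (1 - th x ^ 2) := by
  have h1 := tk_sinh x
  have h2 := tk_cosh x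
  have h3 := tk_one_sub_pos x
  have h4 := tk_th_pos hx
  have h5 := tk_th_lt x
  have h6 : 0 < Real.sinh (3 * x) := Real.sinh_pos_iff.2 (by linarith)
  have h7 := Real.cosh_pos (3 * x)
  set t := th x with ht
  have e1 : 1 / Real.sinh (3 * x) = (1 - t ^ 2) / (2 * t) := by
    rw [div_eq_div_iff h6.ne' (by positivity)]
    linarith
  have e2 : 1 / Real.cosh (3 * x) = (1 - t ^ 2) / (1 + t ^ 2) := by
    rw [div_eq_div_iff h7.ne' (by positivity)]
    linarith
  rw [e1, e2]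
  have e3 : (1 - t ^ 2) / (2 * t) - (1 - t ^ 2) / (1 + t ^ 2) =
      (1 - t ^ 2) * (1 - t) ^ 2 / (2 * t * (1 + t ^ 2)) := by
    field_simp
    ring
  rw [e3]
  refine ⟨by positivity, ?_⟩
  have e4 : t * ((1 - t ^ 2) * (1 - t) ^ 2 / (2 * t * (1 + t ^ 2))) =
      (1 - t) * (1 - t ^ 2) * ((1 - t) / (2 * (1 + t ^ 2))) := by
    field_simp
  rw [e4]
  refine mul_le_of_le_one_right (by have : 0 < 1 - t := by linarith
                                    positivity) ?_
  rw [div_le_one (by positivity)]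
  nlinarith [sq_nonneg t]

theorem tk_J1 (N : ℕ) : IntegrableOn (fun x => th x ^ N * (1 - th x ^ 2)) (Ioi (0:ℝ)) ∧
    ∫ x in Ioi (0:ℝ), th x ^ N * (1 - th x ^ 2) = 2 / 3 / ((N:ℝ) + 1) := by
  have hd : ∀ x ∈ Ici (0:ℝ), HasDerivAt (fun x => 2 / 3 / ((N:ℝ) + 1) * th x ^ (N + 1))
      (th x ^ N * (1 - th x ^ 2)) x := by
    intro x _
    have h1 := ((tk_th_deriv x).pow (N + 1)).const_mul (2 / 3 / ((N:ℝ) + 1))
    refine h1.congr_deriv ?_
    rw [Nat.add_sub_cancel]
    push_cast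
    field_simp
  have hpos : ∀ x ∈ Ioi (0:ℝ), 0 ≤ th x ^ N * (1 - th x ^ 2) := fun x hx =>
    mul_nonneg (pow_nonneg (tk_th_pos hx).le _) (tk_one_sub_pos x).le
  have hl : Tendsto (fun x => 2 / 3 / ((N:ℝ) + 1) * th x ^ (N + 1)) atTop
      (𝓝 (2 / 3 / ((N:ℝ) + 1))) := by
    have := (tk_th_lim.pow (N + 1)).const_mul (2 / 3 / ((N:ℝ) + 1))
    rwa [one_pow, mul_one] at this
  refine ⟨integrableOn_Ioi_deriv_of_nonneg' hd hpos hl, ?_⟩
  rw [integral_Ioi_of_hasDerivAt_of_nonneg' hd hpos hl, tk_th_zero]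
  simp

theorem tk_J2 (n : ℕ) : IntegrableOn (fun x => th x ^ n * ((1 - th x) * (1 - th x ^ 2))) (Ioi (0:ℝ)) ∧
    ∫ x in Ioi (0:ℝ), th x ^ n * ((1 - th x) * (1 - th x ^ 2)) =
      2 / 3 / (((n:ℝ) + 1) * ((n:ℝ) + 2)) := by
  obtain ⟨a1, a2⟩ := tk_J1 n
  obtain ⟨b1, b2⟩ := tk_J1 (n + 1)
  have e : (fun x => th x ^ n * ((1 - th x) * (1 - th x ^ 2))) =
      fun x => th x ^ n * (1 - th x ^ 2) - th x ^ (n + 1) * (1 - th x ^ 2) := by
    funext x
    ring
  rw [e]
  refine ⟨a1.sub b1, ?_⟩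
  rw [integral_sub a1 b1, a2, b2]
  push_cast
  field_simp
  ring

/-! ### the dilogarithm -/

/-- the continuous extension of `log (1 + t) / t` -/
noncomputable def tk_dl : ℝ → ℝ := dslope (fun t => Real.log (1 + t)) 0

theorem tk_dl_cont : ContinuousOn tk_dl (Ioi (-1)) := by
  unfold tk_dl
  rw [continuousOn_dslope (Ioi_mem_nhds (by norm_num))]
  refine ⟨?_, ?_⟩
  · refine ContinuousOn.log (by fun_prop) fun t ht => ?_
    have : -1 < t := ht
    linarith
  · refine DifferentiableAt.log (by fun_prop) (by norm_num)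

theorem tk_dl_ne {t : ℝ} (ht : t ≠ 0) : tk_dl t = Real.log (1 + t) / t := by
  unfold tk_dl
  rw [dslope_of_ne _ ht, slope_def_field]
  simp

theorem tk_Dl_eq (u : ℝ) : Dl u = ∫ t in (0:ℝ)..u, tk_dl t := by
  unfold Dl
  refine intervalIntegral.integral_congr_ae ?_
  have h1 : ∀ᵐ t : ℝ ∂volume, t ≠ 0 := by
    simp [ae_iff, measure_singleton]
  filter_upwards [h1] with t ht _
  exact (tk_dl_ne ht).symm

theorem tk_uIcc {u : ℝ} (hu : -1 < u) : uIcc 0 u ⊆ Ioi (-1 : ℝ) := by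
  intro t ht
  rcases le_total 0 u with h | h
  · rw [uIcc_of_le h] at ht
    exact lt_of_lt_of_le (by norm_num) ht.1
  · rw [uIcc_of_ge h] at ht
    exact lt_of_lt_of_le hu ht.1

theorem tk_Dl_deriv {u : ℝ} (hu : -1 < u) : HasDerivAt Dl (tk_dl u) u := by
  have h1 : Dl = fun u => ∫ t in (0:ℝ)..u, tk_dl t := by
    funext u; exact tk_Dl_eq u
  rw [h1]
  refine intervalIntegral.integral_hasDerivAt_right ?_ ?_ ?_
  · exact (tk_dl_cont.mono (tk_uIcc hu)).intervalIntegrable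
  · exact tk_dl_cont.stronglyMeasurableAtFilter isOpen_Ioi u hu
  · exact tk_dl_cont.continuousAt (Ioi_mem_nhds hu)

theorem tk_Dl_zero : Dl 0 = 0 := by
  unfold Dl
  exact intervalIntegral.integral_same

theorem tk_El_pos {k2 a : ℝ} (hk : 0 < k2) (ha : 0 < a) : 0 < (1 - a) ^ 2 + k2 * a := by positivity

theorem tk_el_cont {k2 : ℝ} (hk : 0 < k2) :
    ContinuousOn (fun a : ℝ => Real.log ((1 - a) ^ 2 + k2 * a) / a) (Ioi 0) := by
  refine ContinuousOn.div ?_ continuousOn_id fun a ha => (ne_of_gt ha)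
  refine ContinuousOn.log (by fun_prop) fun a ha => (tk_El_pos hk ha).ne'

theorem tk_uIcc' {u : ℝ} (hu : 0 < u) : uIcc 1 u ⊆ Ioi (0 : ℝ) := by
  intro t ht
  rcases le_total 1 u with h | h
  · rw [uIcc_of_le h] at ht
    exact lt_of_lt_of_le (by norm_num) ht.1
  · rw [uIcc_of_ge h] at ht
    exact lt_of_lt_of_le hu ht.1

theorem tk_El_deriv {k2 a : ℝ} (hk : 0 < k2) (ha : 0 < a) :
    HasDerivAt (El k2) (Real.log ((1 - a) ^ 2 + k2 * a) / a) a := by
  unfold El
  refine intervalIntegral.integral_hasDerivAt_right ?_ ?_ ?_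
  · exact ((tk_el_cont hk).mono (tk_uIcc' ha)).intervalIntegrable
  · exact (tk_el_cont hk).stronglyMeasurableAtFilter isOpen_Ioi a ha
  · exact (tk_el_cont hk).continuousAt (Ioi_mem_nhds ha)

/-- bound for `El` near `1` -/
theorem tk_El_bound {k2 m M : ℝ} (hk : 0 < k2) (hm : 0 < m) :
    ∃ C : ℝ, 0 ≤ C ∧ ∀ a, m ≤ a → a ≤ M → |El k2 a| ≤ C * |Real.log a| := by
  set m' := min m 1 with hm'
  set M' := max M 1 with hM'
  have hm0 : 0 < m' := lt_min hm one_pos
  have hsub : Icc m' M' ⊆ Ioi (0:ℝ) := fun a ha => lt_of_lt_of_le hm0 ha.1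
  obtain ⟨C, hC⟩ := (isCompact_Icc (a := m') (b := M')).exists_bound_of_continuousOn
    ((tk_el_cont hk).mono hsub)
  have hC0 : 0 ≤ C := (norm_nonneg _).trans (hC m' ⟨le_rfl, (min_le_right _ _).trans (le_max_right _ _)⟩)
  refine ⟨C * M', mul_nonneg hC0 (zero_le_one.trans (le_max_right _ _)), fun a ha1 ha2 => ?_⟩
  have ha0 : 0 < a := hm.trans_le ha1
  have h1 : |El k2 a| ≤ C * |a - 1| := by
    unfold El
    have := intervalIntegral.norm_integral_le_of_norm_le_const (a := 1) (b := a)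
      (f := fun a : ℝ => Real.log ((1 - a) ^ 2 + k2 * a) / a) (C := C) (fun t ht => ?_)
    · exact this
    · have ht' := uIoc_subset_uIcc ht
      refine hC t ?_
      rcases le_total 1 a with h | h
      · rw [uIcc_of_le h] at ht'
        exact ⟨(min_le_right _ _).trans ht'.1, ht'.2.trans (ha2.trans (le_max_left _ _))⟩
      · rw [uIcc_of_ge h] at ht'
        exact ⟨(min_le_left _ _).trans (ha1.trans ht'.1), ht'.2.trans (le_max_right _ _)⟩
  have h2 : |a - 1| ≤ M' * |Real.log a| := by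
    rcases le_total 1 a with h | h
    · rw [abs_of_nonneg (by linarith), abs_of_nonneg (Real.log_nonneg h)]
      have h3 := Real.one_sub_inv_le_log_of_pos ha0
      have h4 : a - 1 = a * (1 - a⁻¹) := by field_simp
      rw [h4]
      exact mul_le_mul (ha2.trans (le_max_left _ _)) h3 (by
        rw [sub_nonneg]; exact inv_le_one_of_one_le₀ h) (zero_le_one.trans (le_max_right _ _))
    · rw [abs_of_nonpos (by linarith), abs_of_nonpos (Real.log_nonpos ha0.le h)]
      have h3 := Real.log_le_sub_one_of_pos ha0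
      have h4 : (1:ℝ) ≤ M' := le_max_right _ _
      have h5 : 0 ≤ -Real.log a := neg_nonneg.2 (Real.log_nonpos ha0.le h)
      nlinarith
  calc |El k2 a| ≤ C * |a - 1| := h1
    _ ≤ C * (M' * |Real.log a|) := mul_le_mul_of_nonneg_left h2 hC0
    _ = C * M' * |Real.log a| := by ring

end EP
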