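import Pool.Agent.Helper86.EP.TrickA

/-! The dilogarithm trick at finite `N`: the exact identity (module TRICKB). -/

namespace EP
open Filter Topology MeasureTheory Set

noncomputable def tkφ (y : ℝ → ℝ) (x : ℝ) : ℝ := Real.log (1 + y x)

noncomputable def tkψ (k2 : ℝ) (g : ℝ → ℝ) (x : ℝ) : ℝ :=
  Real.log ((1 - g x) ^ 2 * Real.tanh (3 * x) ^ 2 + k2 * g x)

noncomputable def tkF (k2 : ℝ) (g : ℝ → ℝ) (x : ℝ) : ℝ := Real.log ((1 - g x) ^ 2 + k2 * g x)

noncomputable def cv (φ : ℝ → ℝ) (x : ℝ) : ℝ := ∫ u, Kr (x - u) * φ u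

noncomputable def cv' (φ : ℝ → ℝ) (x : ℝ) : ℝ := ∫ u, Kr' (x - u) * φ u

variable {N : ℕ} {k2 G m M c1 : ℝ} {g y : ℝ → ℝ}

theorem tkφ_cont (h : TBA N k2 G g y) : Continuous (tkφ y) := by
  unfold tkφ
  exact (continuous_const.add h.ycont).log fun x => by
    have := h.y1 x
    show 1 + y x ≠ 0
    linarith

theorem tkψ_pos (hk : 0 < k2) (h : TBA N k2 G g y) (x : ℝ) :
    0 < (1 - g x) ^ 2 * Real.tanh (3 * x) ^ 2 + k2 * g x := by
  have := h.gpos x
  positivity

theorem tk_tanh_cont : Continuous Real.tanh := by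
  have : Real.tanh = fun x => Real.sinh x / Real.cosh x := by
    funext x; exact Real.tanh_eq_sinh_div_cosh x
  rw [this]
  exact Real.continuous_sinh.div Real.continuous_cosh fun x => (Real.cosh_pos x).ne'

theorem tkψ_cont (hk : 0 < k2) (h : TBA N k2 G g y) : Continuous (tkψ k2 g) := by
  unfold tkψ
  have h1 := h.gcont
  have h2 := tk_tanh_cont
  refine Continuous.log ?_ fun x => (tkψ_pos hk h x).ne'
  exact (((continuous_const.sub h1).pow 2).mul ((h2.comp (by fun_prop)).pow 2)).add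
    (continuous_const.mul h1)

theorem tkF_cont (hk : 0 < k2) (h : TBA N k2 G g y) : Continuous (tkF k2 g) := by
  unfold tkF
  have h1 := h.gcont
  refine Continuous.log ?_ fun x => (tk_El_pos hk (h.gpos x)).ne'
  exact ((continuous_const.sub h1).pow 2).add (continuous_const.mul h1)

theorem tkφ_even (h : TBA N k2 G g y) (x : ℝ) : tkφ y (-x) = tkφ y x := by
  unfold tkφ
  rw [h.yeven]

theorem tkψ_even (h : TBA N k2 G g y) (x : ℝ) : tkψ k2 g (-x) = tkψ k2 g x := by
  unfold tkψ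
  rw [h.geven, mul_neg, Real.tanh_neg, neg_sq]

theorem tkφ_bd (hb : ∀ x, |Real.log (1 + y x)| ≤ c1 * |th x| ^ N) (hc1 : 0 ≤ c1) (x : ℝ) :
    |tkφ y x| ≤ c1 := by
  refine (hb x).trans (mul_le_of_le_one_right hc1 ?_)
  refine pow_le_one₀ (abs_nonneg _) ?_
  have := th_sq_le x
  rwa [← sq_abs, sq_le_one_iff₀ (abs_nonneg _)] at this

theorem tkψ_bd (hk : 0 < k2) (hm : 0 < m) (h : TBA N k2 G g y) (hg1 : ∀ x, m ≤ g x)
    (hg2 : ∀ x, g x ≤ M) (x : ℝ) :
    |tkψ k2 g x| ≤ |Real.log (k2 * m)| + |Real.log ((1 + M) ^ 2 + k2 * M)| := by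
  have h1 := hg1 x
  have h2 := hg2 x
  have h3 := tanh_sq_le (3 * x)
  have h4 : k2 * m ≤ (1 - g x) ^ 2 * Real.tanh (3 * x) ^ 2 + k2 * g x := by
    have : 0 ≤ (1 - g x) ^ 2 * Real.tanh (3 * x) ^ 2 := by positivity
    nlinarith
  have h5 : (1 - g x) ^ 2 * Real.tanh (3 * x) ^ 2 + k2 * g x ≤ (1 + M) ^ 2 + k2 * M := by
    have a1 : (1 - g x) ^ 2 * Real.tanh (3 * x) ^ 2 ≤ (1 - g x) ^ 2 :=
      mul_le_of_le_one_right (sq_nonneg _) h3
    have a2 : (1 - g x) ^ 2 ≤ (1 + M) ^ 2 := by nlinarith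
    nlinarith
  have h6 := Real.log_le_log (by positivity) h4
  have h7 := Real.log_le_log (tkψ_pos hk h x) h5
  unfold tkψ
  rw [abs_le]
  constructor
  · linarith [neg_abs_le (Real.log (k2 * m)), abs_nonneg (Real.log ((1 + M) ^ 2 + k2 * M))]
  · linarith [le_abs_self (Real.log ((1 + M) ^ 2 + k2 * M)), abs_nonneg (Real.log (k2 * m))]

/-- the derivative of `g` -/
theorem tk_g_deriv (h : TBA N k2 G g y) (hφ : Continuous (tkφ y)) (hφb : ∀ x, |tkφ y x| ≤ c1)
    (x : ℝ) : HasDerivAt g (g x * cv' (tkφ y) x) x := by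
  have h1 := (conv_deriv (tkφ y) hφ c1 hφb x).exp
  have h2 : ∀ x, Real.exp (∫ u, Kr (x - u) * tkφ y u) = g x := fun x => by
    have := h.t1 x
    unfold tkφ
    rw [← this, Real.exp_log (h.gpos x)]
  have h3 : (fun x => Real.exp (∫ u, Kr (x - u) * tkφ y u)) = g := funext h2
  rw [h3, h2 x] at h1
  exact h1

/-- the derivative of `y` -/
theorem tk_y_deriv (hk : 0 < k2) (h : TBA N k2 G g y) (c : ℝ) (hψb : ∀ x, |tkψ k2 g x| ≤ c)
    {x : ℝ} (hx : 0 < x) : HasDerivAt y (y x * (N * (3 / 2 * (1 - th x ^ 2) / th x) -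
      3 * th x * (1 - th x ^ 2) / (1 + th x ^ 2) + cv' (tkψ k2 g) x)) x := by
  have h1 := conv_deriv (tkψ k2 g) (tkψ_cont hk h) c hψb x
  have ht := tk_th_pos hx
  have h2 := tk_th_deriv x
  have h3 : HasDerivAt (fun x => Real.log (th x)) (3 / 2 * (1 - th x ^ 2) / th x) x := h2.log ht.ne'
  have h4 : HasDerivAt (fun x => Real.log (2 / (1 + th x ^ 2)))
      (-(3 * th x * (1 - th x ^ 2) / (1 + th x ^ 2))) x := by
    have a1 : HasDerivAt (fun x => 1 + th x ^ 2) (2 * th x * (3 / 2 * (1 - th x ^ 2))) x := by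
      have := (h2.pow 2).const_add 1
      refine this.congr_deriv ?_
      push_cast
      ring
    have a2 : 1 + th x ^ 2 ≠ 0 := by positivity
    have a3 := (a1.log a2).const_sub (Real.log 2)
    have a4 : (fun x => Real.log (2 / (1 + th x ^ 2))) =
        fun x => Real.log 2 - Real.log (1 + th x ^ 2) := by
      funext x
      rw [Real.log_div (by norm_num) (by positivity)]
    rw [a4]
    refine a3.congr_deriv ?_
    field_simp
  have h5 := ((h3.const_mul (N:ℝ)).add h4).add h1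
  set B : ℝ → ℝ := fun x => N * Real.log (th x) + Real.log (2 / (1 + th x ^ 2)) +
    ∫ u, Kr (x - u) * tkψ k2 g u with hB
  have h6 : HasDerivAt B (N * (3 / 2 * (1 - th x ^ 2) / th x) -
      3 * th x * (1 - th x ^ 2) / (1 + th x ^ 2) + cv' (tkψ k2 g) x) x := by
    refine h5.congr_deriv ?_
    unfold cv'
    ring
  have hBy : ∀ z, z ≠ 0 → Real.log (y z) = B z := by
    intro z hz
    have := h.t2 z hz
    rw [Real.log_abs, Real.log_abs] at this
    exact this
  have h7 := h6.exp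
  have hev : ∀ᶠ z in 𝓝 x, z ≠ 0 := (isOpen_ne.mem_nhds hx.ne')
  rcases lt_or_gt_of_ne (h.y0 x hx.ne') with hy | hy
  · -- negative
    have h8 : y =ᶠ[𝓝 x] fun z => -Real.exp (B z) := by
      filter_upwards [hev, h.ycont.continuousAt.eventually_lt continuousAt_const hy] with z hz hyz
      rw [← hBy z hz, Real.exp_log_eq_abs (h.y0 z hz), abs_of_neg hyz, neg_neg]
    have h9 := h7.neg.congr_of_eventuallyEq h8
    refine h9.congr_deriv ?_
    have h10 : y x = -Real.exp (B x) := h8.self_of_nhds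
    rw [h10]
    ring
  · have h8 : y =ᶠ[𝓝 x] fun z => Real.exp (B z) := by
      filter_upwards [hev, continuousAt_const.eventually_lt h.ycont.continuousAt hy] with z hz hyz
      rw [← hBy z hz, Real.exp_log hyz]
    have h9 := h7.congr_of_eventuallyEq h8
    refine h9.congr_deriv ?_
    have h10 : y x = Real.exp (B x) := h8.self_of_nhds
    rw [h10]

/-- the error integrand -/
noncomputable def tkErr (N : ℕ) (k2 : ℝ) (g y : ℝ → ℝ) (x : ℝ) : ℝ :=
  3 * N * (tkφ y x * (1 / Real.sinh (3 * x)) - tkφ y x * (1 / Real.cosh (3 * x))) -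
    tkφ y x * (3 * th x * (1 - th x ^ 2) / (1 + th x ^ 2)) +
    (tkF k2 g x - tkψ k2 g x) * cv' (tkφ y) x

/-- the derivative of `Dl y + El g` -/
theorem tk_S_deriv (hk : 0 < k2) (h : TBA N k2 G g y) (c : ℝ) (hφb : ∀ x, |tkφ y x| ≤ c1)
    (hψb : ∀ x, |tkψ k2 g x| ≤ c) {x : ℝ} (hx : 0 < x) :
    HasDerivAt (fun x => Dl (y x) + El k2 (g x))
      (3 * N * (tkφ y x * (1 / Real.cosh (3 * x))) +
        (tkφ y x * cv' (tkψ k2 g) x + tkψ k2 g x * cv' (tkφ y) x) + tkErr N k2 g y x) x := by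
  have h1 := (tk_Dl_deriv (h.y1 x)).comp x (tk_y_deriv hk h c hψb hx)
  have h2 := (tk_El_deriv hk (h.gpos x)).comp x (tk_g_deriv h (tkφ_cont h) hφb x)
  have h3 := h1.add h2
  refine h3.congr_deriv ?_
  have hy := h.y0 x hx.ne'
  have hg := (h.gpos x).ne'
  rw [tk_dl_ne hy]
  have ht := tk_th_pos hx
  have hs : 0 < Real.sinh (3 * x) := Real.sinh_pos_iff.2 (by linarith)
  have hsh := tk_sinh x
  have e1 : 3 / 2 * (1 - th x ^ 2) / th x = 3 * (1 / Real.sinh (3 * x)) := by
    field_simp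
    linarith
  unfold tkErr
  rw [e1]
  have e2 : Real.log (1 + y x) = tkφ y x := rfl
  have e3 : Real.log ((1 - g x) ^ 2 + k2 * g x) = tkF k2 g x := rfl
  rw [e2, e3]
  field_simp
  ring

/-- `φ / sinh (3 x)` is continuous -/
theorem tk_sinh_cont (hN : 2 ≤ N) (h : TBA N k2 G g y) (hc1 : 0 ≤ c1)
    (hb : ∀ x, |Real.log (1 + y x)| ≤ c1 * |th x| ^ N) :
    Continuous fun x => tkφ y x * (1 / Real.sinh (3 * x)) := by
  rw [continuous_iff_continuousAt]
  intro x
  by_cases hx : x = 0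
  · subst hx
    have hbd : ∀ x, |tkφ y x * (1 / Real.sinh (3 * x))| ≤ c1 * |th x| := by
      intro x
      by_cases hx : x = 0
      · subst hx
        simp
        positivity
      have h1 := tk_sinh x
      have h2 := tk_one_sub_pos x
      have ht : th x ≠ 0 := th_ne hx
      have hs : Real.sinh (3 * x) ≠ 0 := by
        rw [Real.sinh_ne_zero]
        exact mul_ne_zero (by norm_num) hx
      have e1 : 1 / Real.sinh (3 * x) = (1 - th x ^ 2) / (2 * th x) := by
        rw [div_eq_div_iff hs (by simpa using ht)]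
        linarith
      have hta : 0 < |th x| := abs_pos.2 ht
      have hta1 : |th x| ≤ 1 := by
        have := th_sq_le x
        rwa [← sq_abs, sq_le_one_iff₀ (abs_nonneg _)] at this
      rw [e1, abs_mul, abs_div, abs_of_pos h2, abs_mul, abs_two]
      calc |tkφ y x| * ((1 - th x ^ 2) / (2 * |th x|)) ≤
          (c1 * |th x| ^ 2) * (1 / |th x|) := by
            refine mul_le_mul ?_ ?_ (by positivity) (by positivity)
            · refine (hb x).trans (mul_le_mul_of_nonneg_left ?_ hc1)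
              exact pow_le_pow_of_le_one (abs_nonneg _) hta1 hN
            · rw [div_le_div_iff₀ (by positivity) hta]
              nlinarith [sq_nonneg (th x)]
        _ = c1 * |th x| := by field_simp
    have h0 : tkφ y 0 * (1 / Real.sinh (3 * 0)) = 0 := by simp
    rw [ContinuousAt, h0]
    refine squeeze_zero_norm hbd ?_
    have : Continuous fun x => c1 * |th x| := continuous_const.mul tk_th_cont.abs
    have h2 := this.tendsto 0
    rwa [tk_th_zero, abs_zero, mul_zero] at h2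
  · refine (tkφ_cont h).continuousAt.mul ?_
    refine ContinuousAt.div continuousAt_const ?_ ?_
    · exact (Real.continuous_sinh.comp (by fun_prop)).continuousAt
    · rw [Real.sinh_ne_zero]
      exact mul_ne_zero (by norm_num) hx

theorem tk_icosh_cont : Continuous fun x : ℝ => 1 / Real.cosh (3 * x) :=
  continuous_const.div (Real.continuous_cosh.comp (by fun_prop)) fun x => (Real.cosh_pos _).ne'

theorem tkErr_cont (hk : 0 < k2) (hN : 2 ≤ N) (h : TBA N k2 G g y) (hc1 : 0 ≤ c1)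
    (hb : ∀ x, |Real.log (1 + y x)| ≤ c1 * |th x| ^ N) : Continuous (tkErr N k2 g y) := by
  unfold tkErr
  have h1 := tk_sinh_cont hN h hc1 hb
  have h2 := tkφ_cont h
  have h3 := tkψ_cont hk h
  have h4 := tkF_cont hk h
  have h5 : Continuous (cv' (tkφ y)) := conv_cont' _ h2 c1 (tkφ_bd hb hc1)
  have h6 := tk_th_cont
  have h7 : Continuous fun x => 3 * th x * (1 - th x ^ 2) / (1 + th x ^ 2) :=
    Continuous.div (by fun_prop) (by fun_prop) fun x => by positivity
  exact ((continuous_const.mul (h1.sub (h2.mul tk_icosh_cont))).sub (h2.mul h7)).add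
    ((h4.sub h3).mul h5)

/-- the exact identity on `[0, R]` -/
theorem tk_ftc (hk : 0 < k2) (hN : 2 ≤ N) (h : TBA N k2 G g y) (hc1 : 0 ≤ c1)
    (hb : ∀ x, |Real.log (1 + y x)| ≤ c1 * |th x| ^ N) (c : ℝ) (hψb : ∀ x, |tkψ k2 g x| ≤ c)
    {R : ℝ} (hR : 0 ≤ R) :
    3 * N * (∫ x in (0:ℝ)..R, tkφ y x * (1 / Real.cosh (3 * x))) +
      (∫ x in (0:ℝ)..R, (tkφ y x * cv' (tkψ k2 g) x + tkψ k2 g x * cv' (tkφ y) x)) +
      (∫ x in (0:ℝ)..R, tkErr N k2 g y x) =
      Dl (y R) + El k2 (g R) - El k2 (g 0) := by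
  have hφb := tkφ_bd hb hc1
  have h2 := tkφ_cont h
  have h3 := tkψ_cont hk h
  have h5 : Continuous (cv' (tkφ y)) := conv_cont' _ h2 c1 hφb
  have h6 : Continuous (cv' (tkψ k2 g)) := conv_cont' _ h3 c hψb
  have i1 : Continuous fun x => tkφ y x * (1 / Real.cosh (3 * x)) := h2.mul tk_icosh_cont
  have i2 : Continuous fun x => tkφ y x * cv' (tkψ k2 g) x + tkψ k2 g x * cv' (tkφ y) x :=
    (h2.mul h6).add (h3.mul h5)
  have i3 := tkErr_cont hk hN h hc1 hb
  have hcont : ContinuousOn (fun x => Dl (y x) + El k2 (g x)) (Icc 0 R) := by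
    intro x _
    refine ContinuousAt.continuousWithinAt ?_
    exact ((tk_Dl_deriv (h.y1 x)).continuousAt.comp h.ycont.continuousAt).add
      ((tk_El_deriv hk (h.gpos x)).continuousAt.comp h.gcont.continuousAt)
  have key := intervalIntegral.integral_eq_sub_of_hasDerivAt_of_le hR hcont
    (fun x hx => tk_S_deriv hk h c hφb hψb hx.1)
    ((((continuous_const.mul i1).add i2).add i3).intervalIntegrable 0 R)
  have hy0 : y 0 = 0 := by
    have h7 := hb 0
    rw [tk_th_zero, abs_zero, zero_pow (by omega), mul_zero] at h7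
    have h8 : Real.log (1 + y 0) = 0 := abs_eq_zero.1 (le_antisymm h7 (abs_nonneg _))
    have h9 := h.y1 0
    have h10 := Real.exp_log (show 0 < 1 + y 0 by linarith)
    rw [h8, Real.exp_zero] at h10
    linarith
  rw [hy0, tk_Dl_zero, zero_add] at key
  have a1 : ∫ x in (0:ℝ)..R, (3 * N * (tkφ y x * (1 / Real.cosh (3 * x))) +
        (tkφ y x * cv' (tkψ k2 g) x + tkψ k2 g x * cv' (tkφ y) x) + tkErr N k2 g y x) =
      (∫ x in (0:ℝ)..R, (3 * N * (tkφ y x * (1 / Real.cosh (3 * x))) +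
        (tkφ y x * cv' (tkψ k2 g) x + tkψ k2 g x * cv' (tkφ y) x))) +
      ∫ x in (0:ℝ)..R, tkErr N k2 g y x :=
    intervalIntegral.integral_add (((continuous_const.mul i1).add i2).intervalIntegrable 0 R)
      (i3.intervalIntegrable 0 R)
  have a2 : ∫ x in (0:ℝ)..R, (3 * N * (tkφ y x * (1 / Real.cosh (3 * x))) +
        (tkφ y x * cv' (tkψ k2 g) x + tkψ k2 g x * cv' (tkφ y) x)) =
      (∫ x in (0:ℝ)..R, 3 * N * (tkφ y x * (1 / Real.cosh (3 * x)))) +
      ∫ x in (0:ℝ)..R, (tkφ y x * cv' (tkψ k2 g) x + tkψ k2 g x * cv' (tkφ y) x) :=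
    intervalIntegral.integral_add ((continuous_const.mul i1).intervalIntegrable 0 R)
      (i2.intervalIntegrable 0 R)
  rw [← key, a1, a2, intervalIntegral.integral_const_mul]

end EP
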